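import Pool.Agent.H59Z.NA.St

set_option autoImplicit false

namespace Pool.Agent.H59Z.NA

theorem thm_acyl (h1 : S_comm) : S_acyl := by
  intro Q V _ _ X δ A hinv h4 hcyc hmal hacyl D g h x y gx gy hx hy hA
  obtain ⟨z1, a1, a2⟩ := X.geo x y (10 * D + 20 * δ) (by omega)
  obtain ⟨z2, b1, b2⟩ := X.geo x y (X.d x y - (10 * D + 20 * δ)) (by omega)
  obtain ⟨c1, c2, c3⟩ := h1 Q V X δ hinv h4 g h x y z1 D gx gy hx hy (by omega) (by omega)
    (by omega)
  obtain ⟨d1, d2, d3⟩ := h1 Q V X δ hinv h4 g h x y z2 D gx gy hx hy (by omega) (by omega)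
    (by omega)
  have hz : A ≤ X.d z1 z2 := by
    have := X.tri x z1 z2
    omega
  by_cases hu : g * h * g⁻¹ * h⁻¹ = 1
  · have : g * h = h * g := by
      calc g * h = (g * h * g⁻¹ * h⁻¹) * (h * g) := by group
        _ = h * g := by rw [hu, one_mul]
    exact this
  · have e1 := hmal _ g hu (hacyl _ _ z1 z2 c1 d1 c2 d2 hz)
    have e2 := hmal _ h hu (hacyl _ _ z1 z2 c1 d1 c3 d3 hz)
    obtain ⟨k, hk⟩ := hcyc _ hu
    obtain ⟨i, rfl⟩ := Subgroup.mem_zpowers_iff.1 (hk g e1)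
    obtain ⟨j, rfl⟩ := Subgroup.mem_zpowers_iff.1 (hk h e2)
    exact Commute.zpow_zpow_self k i j

end Pool.Agent.H59Z.NA
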