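import Pool.Agent.H59Z.NA.St

set_option autoImplicit false

namespace Pool.Agent.H59Z.NA

namespace Tacylq

theorem d_mul {R W : Type} [Group R] [MulAction R W] {Z : GM W} (hi : Z.Inv R) (a b : R) (x : W) :
    Z.d x ((a * b) • x) ≤ Z.d x (a • x) + Z.d x (b • x) := by
  have h1 := Z.tri x (a • x) ((a * b) • x)
  rw [mul_smul] at h1 ⊢
  rw [hi a x (b • x)] at h1
  exact h1

theorem comm_of_zpowers {R : Type} [Group R] {a g h : R} (hg : g ∈ Subgroup.zpowers a)
    (hh : h ∈ Subgroup.zpowers a) : Commute g h := by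
  obtain ⟨i, rfl⟩ := hg
  obtain ⟨j, rfl⟩ := hh
  exact Commute.zpow_zpow_self a i j

end Tacylq

open Tacylq in
theorem thm_acylq (h1 : S_pos) (h2 : S_md) : S_acylq := by
  intro Q V I _ _ _ X L F R W J _ _ _ π A φ hinv hq hac g h x y gx gy hx hy hxy
  obtain ⟨-, p2, -, p4, p5⟩ := h1 R W J L A
  rcases h2 Q V I X L F R W J π A φ hinv hq x y 4392 477000000 (by omega) with
    ⟨l, ex, ey, hang⟩ | ⟨p, q, lf, hr, hl, -⟩
  · let S : Set R := {s | A.Z.d x (s • x) ≤ 4392 ∧ A.Z.d y (s • y) ≤ 4392}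
    have hL : (0 : ℝ) ≤ 600 * L := by positivity
    obtain ⟨a, b⟩ := p5 l x y (600 * L) S hL
      (fun s hs => ⟨p2 l x _ (hs.1.trans ex), p2 l y _ (hs.2.trans ey)⟩) (by linarith)
    have m1 : ∀ s : R, (s = g ∨ s = h) → s ∈ S := by
      rintro s (rfl | rfl) <;> constructor <;> omega
    have m2 : ∀ s t : R, (s = g ∨ s = h) → (t = g ∨ t = h) → s * t ∈ S := by
      intro s t hs ht
      have e1 := d_mul A.inv s t x
      have e2 := d_mul A.inv s t y
      rcases hs with rfl | rfl <;> rcases ht with rfl | rfl <;> constructor <;> omega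
    have m3 : ∀ s t u : R, (s = g ∨ s = h) → (t = g ∨ t = h) → (u = g ∨ u = h) →
        s * t * u ∈ S := by
      intro s t u hs ht hu
      have e1 := d_mul A.inv s t x
      have e2 := d_mul A.inv s t y
      have e3 := d_mul A.inv (s * t) u x
      have e4 := d_mul A.inv (s * t) u y
      rcases hs with rfl | rfl <;> rcases ht with rfl | rfl <;> rcases hu with rfl | rfl <;>
        constructor <;> omega
    have m0 : (1 : R) ∈ S := by
      constructor <;> rw [one_smul, A.Z.self] <;> omega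
    have G : g = g ∨ g = h := Or.inl rfl
    have H : h = g ∨ h = h := Or.inr rfl
    have a1 := a 1 g m0 (by rw [one_mul]; exact m1 g G)
    have a2 := a 1 h m0 (by rw [one_mul]; exact m1 h H)
    rw [one_mul] at a1 a2
    have agh := a g h (m1 g G) (m2 g h G H)
    have ahg := a h g (m1 h H) (m2 h g H G)
    have agg := a g g (m1 g G) (m2 g g G G)
    have ahh := a h h (m1 h H) (m2 h h H H)
    have aggh := a (g * g) h (m2 g g G G) (m3 g g h G G H)
    have aghg := a (g * h) g (m2 g h G H) (m3 g h g G H G)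
    have ahgh := a (h * g) h (m2 h g H G) (m3 h g h H G H)
    have ahhg := a (h * h) g (m2 h h H H) (m3 h h g H H G)
    have b1 := b (g * h) (h * g) (m2 g h G H) (m2 h g H G) (by omega)
    have b2 := b (g * g * h) (g * h * g) (m3 g g h G G H) (m3 g h g G H G) (by omega)
    have b3 := b (h * g * h) (h * h * g) (m3 h g h H G H) (m3 h h g H H G) (by omega)
    by_cases hu : h * g * (g * h)⁻¹ = 1
    · exact (mul_inv_eq_one.1 hu).symm
    · have f1 : (h * g * (g * h)⁻¹) • l = l := by
        rw [mul_smul, b1, smul_inv_smul]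
      have f2 : (h * g * (g * h)⁻¹) • (g⁻¹ • l) = g⁻¹ • l := by
        have e1 : (g * h)⁻¹ • g⁻¹ • l = (g * g * h)⁻¹ • l := by
          rw [← mul_smul]; congr 1; group
        have e2 : (h * g) • (g * h * g)⁻¹ • l = g⁻¹ • l := by
          rw [← mul_smul]; congr 1; group
        rw [mul_smul, e1, b2, e2]
      have f3 : (h * g * (g * h)⁻¹) • (h⁻¹ • l) = h⁻¹ • l := by
        have e1 : (g * h)⁻¹ • h⁻¹ • l = (h * g * h)⁻¹ • l := by
          rw [← mul_smul]; congr 1; group
        have e2 : (h * g) • (h * h * g)⁻¹ • l = h⁻¹ • l := by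
          rw [← mul_smul]; congr 1; group
        rw [mul_smul, e1, b3, e2]
      have k1 := p4 _ l _ hu f1 f2
      have k2 := p4 _ l _ hu f1 f3
      obtain ⟨i, hi⟩ := hq.stab l
      refine comm_of_zpowers ((hi g).1 ?_) ((hi h).1 ?_)
      · exact (eq_inv_smul_iff.1 k1)
      · exact (eq_inv_smul_iff.1 k2)
  · obtain ⟨g1, g2, g3⟩ := hl g 1464 (by omega) gx gy
    obtain ⟨k1, k2, k3⟩ := hl h 1464 (by omega) hx hy
    have hd : L + 20 * (15000 * L * (1464 + 123)) ≤ X.d p q := by
      by_contra hn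
      have := hq.scale 476999998 p q (by omega)
      omega
    have hc := hac _ (lf g) (lf h) p q g2 g3 k2 k3 hd
    have := hc.map π
    rwa [g1, k1] at this

end Pool.Agent.H59Z.NA
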