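import Pool.Agent.H59Z.NA.St

set_option autoImplicit false

/-!
# The limit of the tower of central extensions
-/

namespace Pool.Agent.H59Z.NA

namespace Tadian

/-- The free group of countable rank. -/
abbrev Fr : Type := FreeGroup ℕ

/-- The starting central extension. -/
abbrev Gam : Type := Fr × Multiplicative ℤ

/-- The central generator of the starting extension. -/
def c0 : Gam := (1, Multiplicative.ofAdd 1)

/-- The subgroup of the free group generated by the `n`-th powers. -/
abbrev NF (n : ℕ) : Subgroup Fr := Subgroup.normalClosure (Set.range fun w : Fr => w ^ n)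

theorem c0_comm (g : Gam) : Commute c0 g := by
  unfold c0
  apply Prod.ext
  · simp
  · simp [mul_comm]

theorem c0_zpow (j : ℤ) : c0 ^ j = ((1 : Fr), Multiplicative.ofAdd j) := by
  unfold c0
  apply Prod.ext
  · simp
  · simp [← ofAdd_zsmul]

/-- One stage of the tower. -/
structure Stage (n : ℕ) : Type 1 where
  G : Type
  Q : Type
  V : Type
  [gG : Group G]
  [gQ : Group Q]
  [act : MulAction Q V]
  X : GM V
  ρ : G →* Q
  a : Gam →* G
  b : Fr →* Q
  pt : V
  good : Good Q V X 122 (10 ^ 9) (1 / (3 * 10 ^ 13)) n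
  ρ_surj : Function.Surjective ρ
  ρ_ker : ∀ g, ρ g = 1 ↔ g ∈ Subgroup.zpowers (a c0)
  c_ne : a c0 ≠ 1
  tf : ∀ (g : G) (m : ℕ), 0 < m → g ^ m = 1 → g = 1
  a_surj : Function.Surjective a
  sq : ∀ g : Gam, ρ (a g) = b g.1
  b_ker : ∀ w, b w = 1 → w ∈ NF n

attribute [instance] Stage.gG Stage.gQ Stage.act

/-- The displacement of the base point by a word. -/
def Stage.len {n : ℕ} (S : Stage n) (w : Fr) : ℕ := S.X.d S.pt (S.b w • S.pt)

/-- The relation between two consecutive stages. -/
structure Next {n : ℕ} (S T : Stage n) : Prop where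
  a_mono : ∀ g, S.a g = 1 → T.a g = 1
  b_mono : ∀ w, S.b w = 1 → T.b w = 1
  len : ∀ w, T.len w ≤ 1 ∨ T.len w < S.len w
  kill : ∀ w, S.len w ≤ 1 → T.b (w ^ n) = 1

theorem Stage.b_surj {n : ℕ} (S : Stage n) : Function.Surjective S.b := by
  intro q
  obtain ⟨g, rfl⟩ := S.ρ_surj q
  obtain ⟨x, rfl⟩ := S.a_surj g
  exact ⟨x.1, (S.sq x).symm⟩

theorem Stage.central {n : ℕ} (S : Stage n) (g : S.G) : Commute (S.a c0) g := by
  obtain ⟨x, rfl⟩ := S.a_surj g
  exact (c0_comm x).map S.a

theorem exists_stage (h2 : S_base) (n : ℕ) : Nonempty (Stage n) := by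
  obtain ⟨X, hX⟩ := h2
  refine ⟨{ G := Gam, Q := Fr, V := Fr, X := X, ρ := MonoidHom.fst _ _, a := MonoidHom.id _,
            b := MonoidHom.id _, pt := 1, good := hX n _ (by norm_num), ρ_surj := ?_,
            ρ_ker := ?_, c_ne := ?_, tf := ?_, a_surj := fun g => ⟨g, rfl⟩,
            sq := fun _ => rfl, b_ker := ?_ }⟩
  · intro w
    exact ⟨(w, 1), rfl⟩
  · rintro ⟨w, z⟩
    simp only [MonoidHom.coe_fst, MonoidHom.id_apply, Subgroup.mem_zpowers_iff, c0_zpow]
    constructor
    · rintro rfl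
      exact ⟨Multiplicative.toAdd z, rfl⟩
    · rintro ⟨j, hj⟩
      exact (congrArg Prod.fst hj).symm
  · intro h
    have h' : (Multiplicative.ofAdd (1 : ℤ)) = 1 := congrArg Prod.snd h
    have : (1 : ℤ) = 0 := congrArg Multiplicative.toAdd h'
    exact one_ne_zero this
  · intro g m hm hg
    exact (pow_eq_one_iff_left hm.ne').1 hg
  · intro w hw
    have : w = 1 := hw
    rw [this]
    exact one_mem _

theorem exists_next (h1 : S_tau) (h3 : S_ext) (n : ℕ) (hn : Odd n) (hb : 10 ^ 32 ≤ n)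
    (S : Stage n) : ∃ T : Stage n, Next S T := by
  obtain ⟨G', Q', V', iG, iQ, iV, X', ρ', α, β, φ, hgood, hsurj, hker, hne, htf, hα, hsq, hβ,
    hφ, hd, hkill⟩ := h3 n hn hb S.G S.Q S.V S.X S.ρ (S.a c0) S.good S.ρ_surj S.ρ_ker
      S.central S.c_ne S.tf
  refine ⟨{ G := G', Q := Q', V := V', X := X', ρ := ρ', a := α.comp S.a, b := β.comp S.b,
            pt := φ S.pt, good := hgood, ρ_surj := hsurj, ρ_ker := hker, c_ne := hne, tf := htf,
            a_surj := hα.comp S.a_surj, sq := ?_, b_ker := ?_ }, ?_, ?_, ?_, ?_⟩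
  · intro g
    simp only [MonoidHom.comp_apply, hsq, S.sq]
  · intro w hw
    have h := hβ (S.b w) hw
    have : ((NF n).map S.b).Normal := Subgroup.Normal.map inferInstance S.b S.b_surj
    have hle : Subgroup.normalClosure (Set.range fun q : S.Q => q ^ n) ≤ (NF n).map S.b := by
      apply Subgroup.normalClosure_le_normal
      rintro _ ⟨q, rfl⟩
      obtain ⟨v, rfl⟩ := S.b_surj q
      exact ⟨v ^ n, Subgroup.subset_normalClosure ⟨v, rfl⟩, map_pow _ _ _⟩
    obtain ⟨v, hv, hvw⟩ := hle h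
    have h2 : w * v⁻¹ ∈ NF n := S.b_ker _ (by rw [map_mul, map_inv, hvw, mul_inv_cancel])
    have h3 := mul_mem h2 hv
    simpa using h3
  · intro g hg
    change α (S.a g) = 1
    rw [hg, map_one]
  · intro w hw
    change β (S.b w) = 1
    rw [hw, map_one]
  · intro w
    have := hd S.pt (S.b w • S.pt)
    rw [hφ] at this
    exact this
  · intro w hw
    change β (S.b (w ^ n)) = 1
    rw [map_pow, map_pow]
    apply hkill
    have h := (h1 S.Q S.V S.X S.good.inv).1 (S.b w) S.pt 1
    rw [pow_one, Nat.cast_one, mul_one] at h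
    refine h.trans ?_
    exact_mod_cast hw

theorem adian_of_tower (n : ℕ) (S : ℕ → Stage n) (hS : ∀ k, Next (S k) (S (k + 1))) :
    Adian n := by
  have amono : ∀ k l, k ≤ l → ∀ g, (S k).a g = 1 → (S l).a g = 1 := by
    intro k l hkl g hg
    induction l, hkl using Nat.le_induction with
    | base => exact hg
    | succ l _ ih => exact (hS l).a_mono g ih
  have bmono : ∀ k l, k ≤ l → ∀ w, (S k).b w = 1 → (S l).b w = 1 := by
    intro k l hkl g hg
    induction l, hkl using Nat.le_induction with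
    | base => exact hg
    | succ l _ ih => exact (hS l).b_mono g ih
  let K : Subgroup Gam :=
    { carrier := {g | ∃ k, (S k).a g = 1}
      one_mem' := ⟨0, map_one _⟩
      mul_mem' := by
        rintro g h ⟨k, hk⟩ ⟨l, hl⟩
        refine ⟨max k l, ?_⟩
        rw [map_mul, amono k _ (le_max_left _ _) g hk, amono l _ (le_max_right _ _) h hl, mul_one]
      inv_mem' := by
        rintro g ⟨k, hk⟩
        exact ⟨k, by rw [map_inv, hk, inv_one]⟩ }
  have memK : ∀ g, g ∈ K ↔ ∃ k, (S k).a g = 1 := fun _ => Iff.rfl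
  have : K.Normal := by
    constructor
    rintro g ⟨k, hk⟩ h
    exact ⟨k, by rw [map_mul, map_mul, hk, mul_one, map_inv, mul_inv_cancel]⟩
  let M : Subgroup Fr :=
    { carrier := {w | ∃ k, (S k).b w = 1}
      one_mem' := ⟨0, map_one _⟩
      mul_mem' := by
        rintro g h ⟨k, hk⟩ ⟨l, hl⟩
        refine ⟨max k l, ?_⟩
        rw [map_mul, bmono k _ (le_max_left _ _) g hk, bmono l _ (le_max_right _ _) h hl, mul_one]
      inv_mem' := by
        rintro g ⟨k, hk⟩
        exact ⟨k, by rw [map_inv, hk, inv_one]⟩ }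
  have : M.Normal := by
    constructor
    rintro g ⟨k, hk⟩ h
    exact ⟨k, by rw [map_mul, map_mul, hk, mul_one, map_inv, mul_inv_cancel]⟩
  have short : ∀ w : Fr, ∃ k, (S k).len w ≤ 1 := by
    intro w
    by_contra hcon
    push Not at hcon
    have dec : ∀ k, (S k).len w + k ≤ (S 0).len w := by
      intro k
      induction k with
      | zero => simp
      | succ k ih =>
        rcases (hS k).len w with h | h
        · exact absurd h (not_le.2 (hcon _))
        · omega
    have := dec ((S 0).len w + 1)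
    omega
  have hNM : NF n ≤ M := by
    apply Subgroup.normalClosure_le_normal
    rintro _ ⟨w, rfl⟩
    obtain ⟨k, hk⟩ := short w
    exact ⟨k + 1, (hS k).kill w hk⟩
  let f : Gam →* Bu n := (QuotientGroup.mk' (NF n)).comp (MonoidHom.fst _ _)
  have hf : ∀ g, f g = 1 ↔ g.1 ∈ NF n := fun g => QuotientGroup.eq_one_iff _
  have hKf : K ≤ f.ker := by
    rintro g ⟨k, hk⟩
    rw [MonoidHom.mem_ker, hf]
    apply (S k).b_ker
    rw [← (S k).sq, hk, map_one]
  refine ⟨Gam ⧸ K, inferInstance, QuotientGroup.mk' K c0, QuotientGroup.lift K f hKf, ?_, ?_, ?_,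
    ?_, ?_⟩
  · intro q
    obtain ⟨w, rfl⟩ := QuotientGroup.mk'_surjective (NF n) q
    exact ⟨QuotientGroup.mk' K (w, 1), rfl⟩
  · intro g
    obtain ⟨x, rfl⟩ := QuotientGroup.mk'_surjective K g
    have e : QuotientGroup.lift K f hKf (QuotientGroup.mk' K x) = f x := rfl
    rw [e, hf]
    constructor
    · intro hx
      obtain ⟨k, hk⟩ := hNM hx
      rw [← (S k).sq, (S k).ρ_ker] at hk
      obtain ⟨j, hj⟩ := Subgroup.mem_zpowers_iff.1 hk
      refine Subgroup.mem_zpowers_iff.2 ⟨j, ?_⟩
      rw [← map_zpow]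
      apply QuotientGroup.eq.2
      refine ⟨k, ?_⟩
      rw [map_mul, map_inv, map_zpow, hj, inv_mul_cancel]
    · intro hx
      obtain ⟨j, hj⟩ := Subgroup.mem_zpowers_iff.1 hx
      rw [← map_zpow] at hj
      have h1 : (c0 ^ j)⁻¹ * x ∈ K := QuotientGroup.eq.1 hj
      have h2 := (hf _).1 (hKf h1)
      rw [c0_zpow] at h2
      simpa using h2
  · intro g
    obtain ⟨x, rfl⟩ := QuotientGroup.mk'_surjective K g
    exact (c0_comm x).map _
  · intro h
    obtain ⟨k, hk⟩ := (QuotientGroup.eq_one_iff c0).1 h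
    exact (S k).c_ne hk
  · intro g m hm hg
    obtain ⟨x, rfl⟩ := QuotientGroup.mk'_surjective K g
    rw [← map_pow] at hg
    obtain ⟨k, hk⟩ := (QuotientGroup.eq_one_iff (x ^ m)).1 hg
    rw [map_pow] at hk
    exact (QuotientGroup.eq_one_iff x).2 ⟨k, (S k).tf _ m hm hk⟩

end Tadian

theorem thm_adian (h1 : S_tau) (h2 : S_base) (h3 : S_ext) : S_adian := by
  intro n hn hb
  obtain ⟨S0⟩ := Tadian.exists_stage h2 n
  choose nx hnx using Tadian.exists_next h1 h3 n hn hb
  exact Tadian.adian_of_tower n (fun k => nx^[k] S0) (fun k => by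
    rw [Function.iterate_succ_apply']
    exact hnx _)

end Pool.Agent.H59Z.NA
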