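import Pool.Agent.H59Z.NA.St

set_option autoImplicit false

/-!
# Quasi-axis of a loxodromic element
-/

namespace Pool.Agent.H59Z.NA

namespace Taxis

variable {Q V : Type} [Group Q] [MulAction Q V] {X : GM V} {δ : ℕ}

theorem shift (hI : X.Inv Q) (g : Q) (x : V) (i j : ℕ) :
    X.d (g ^ i • x) (g ^ (i + j) • x) = X.d x (g ^ j • x) := by
  rw [pow_add, mul_smul, hI]

/-- Broken geodesics along an orbit. -/
theorem broken (hI : X.Inv Q) (hF : X.Four δ) (g : Q) (x : V) (P : ℕ)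
    (h2 : 2 * X.d x (g • x) ≤ X.d x (g ^ 2 • x) + P) (hl : P + δ < X.d x (g • x)) (k : ℕ) :
    X.d x (g ^ k • x) + X.d x (g • x) ≤ X.d x (g ^ (k + 1) • x) + P + δ := by
  induction k with
  | zero =>
    have h0 := X.self x
    simp only [pow_zero, one_smul, zero_add, pow_one]
    omega
  | succ k ih =>
    have h4 := hF x (g ^ (k + 1) • x) (g ^ k • x) (g ^ (k + 1 + 1) • x)
    have e1 : X.d (g ^ k • x) (g ^ (k + 1 + 1) • x) = X.d x (g ^ 2 • x) := shift hI g x k 2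
    have e2 : X.d (g ^ (k + 1) • x) (g ^ (k + 1 + 1) • x) = X.d x (g • x) := by
      rw [shift hI g x (k + 1) 1, pow_one]
    have e3 : X.d (g ^ (k + 1) • x) (g ^ k • x) = X.d x (g • x) := by
      rw [X.comm, shift hI g x k 1, pow_one]
    rw [e1, e2, e3] at h4
    omega

theorem grow (hI : X.Inv Q) (hF : X.Four δ) (g : Q) (x : V) (P : ℕ)
    (h2 : 2 * X.d x (g • x) ≤ X.d x (g ^ 2 • x) + P) (hl : P + δ < X.d x (g • x)) (k : ℕ) :
    k * (X.d x (g • x) - (P + δ)) ≤ X.d x (g ^ k • x) := by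
  induction k with
  | zero => simp
  | succ k ih =>
    have h := broken hI hF g x P h2 hl k
    rw [Nat.succ_mul]
    omega

/-- A point of least displacement is almost on an axis. -/
theorem two (hI : X.Inv Q) (hF : X.Four δ) (h : Q) (x : V)
    (hmin : ∀ y, X.d x (h • x) ≤ X.d y (h • y)) (hl : 10 * δ + 10 ≤ X.d x (h • x)) :
    2 * X.d x (h • x) ≤ X.d x (h ^ 2 • x) + 2 * δ := by
  obtain ⟨y, hy1, hy2⟩ := X.geo x (h • x) (X.d x (h • x) / 2) (Nat.div_le_self _ _)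
  have hm := hmin y
  have f1 := hF y (h • y) x (h • x)
  have f2 := hF x (h • y) (h • x) (h ^ 2 • x)
  have e0 : h ^ 2 • x = h • h • x := by rw [pow_two, mul_smul]
  have e1 : X.d (h • y) (h • x) = X.d x y := by rw [hI, X.comm]
  have e2 : X.d (h • x) (h ^ 2 • x) = X.d x (h • x) := by rw [e0, hI]
  have e3 : X.d (h • y) (h ^ 2 • x) = X.d y (h • x) := by rw [e0, hI]
  have e4 := X.comm y x
  have e5 := X.comm (h • y) x
  rw [e1] at f1 f2
  rw [e2, e3] at f2
  omega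

theorem double (hI : X.Inv Q) (hF : X.Four δ) (h : Q) (x : V)
    (h2 : 2 * X.d x (h • x) ≤ X.d x (h ^ 2 • x) + 2 * δ) (hl : 10 * δ + 10 ≤ X.d x (h • x))
    (N : ℕ) :
    2 * X.d x (h ^ (N + 1) • x) ≤ X.d x (h ^ (N + 1 + (N + 1)) • x) + 4 * δ := by
  have b1 := broken hI hF h x (2 * δ) h2 (by omega) N
  have b2 := broken hI hF h x (2 * δ) h2 (by omega) (N + 1)
  have f := hF x (h ^ (N + 1 + 1) • x) (h ^ (N + 1) • x) (h ^ (N + 1 + (N + 1)) • x)
  have e1 : X.d (h ^ (N + 1) • x) (h ^ (N + 1 + (N + 1)) • x) = X.d x (h ^ (N + 1) • x) :=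
    shift hI h x (N + 1) (N + 1)
  have e2 : X.d (h ^ (N + 1 + 1) • x) (h ^ (N + 1 + (N + 1)) • x) = X.d x (h ^ N • x) := by
    have : N + 1 + (N + 1) = N + 1 + 1 + N := by omega
    rw [this]; exact shift hI h x (N + 1 + 1) N
  have e3 : X.d (h ^ (N + 1 + 1) • x) (h ^ (N + 1) • x) = X.d x (h • x) := by
    rw [X.comm, shift hI h x (N + 1) 1, pow_one]
  rw [e1, e2, e3] at f
  omega

/-- One far point of the axis controls the square of a commuting element. -/
theorem far (hI : X.Inv Q) (hF : X.Four δ) (s : Q) (x a : V)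
    (ha : X.d a (s • a) = X.d x (s • x)) (hD : X.d x (s • x) ≤ X.d x a)
    (hα : X.d x a + X.d x (s • x) ≤ X.d (s • x) a + 5 * δ) :
    2 * X.d x (s • x) ≤ X.d x (s ^ 2 • x) + 11 * δ := by
  have f := hF (s • x) a x (s • a)
  have e0 : s ^ 2 • x = s • s • x := by rw [pow_two, mul_smul]
  have e1 : X.d (s • x) (s • a) = X.d x a := hI s x a
  have e2 := X.comm (s • x) x
  have e3 := X.comm a x
  have t := X.tri (s ^ 2 • x) x (s • a)
  have e4 : X.d (s ^ 2 • x) (s • a) = X.d (s • x) a := by rw [e0, hI]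
  have e5 := X.comm (s ^ 2 • x) x
  rw [e1, ha] at f
  omega

theorem sq (hI : X.Inv Q) (hF : X.Four δ) (h s : Q) (x : V) (hc : Commute s h)
    (h2 : 2 * X.d x (h • x) ≤ X.d x (h ^ 2 • x) + 2 * δ) (hl : 10 * δ + 10 ≤ X.d x (h • x)) :
    2 * X.d x (s • x) ≤ X.d x (s ^ 2 • x) + 11 * δ := by
  set D := X.d x (s • x) with hD
  have hg := grow hI hF h x (2 * δ) h2 (by omega) (D + 1)
  have hbig : D ≤ X.d x (h ^ (D + 1) • x) := by
    have h1 : 1 ≤ X.d x (h • x) - (2 * δ + δ) := by omega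
    have := Nat.mul_le_mul_left (D + 1) h1
    omega
  have hd := double hI hF h x h2 hl D
  set k := h ^ (D + 1) with hk
  have hck : Commute s k := hc.pow_right _
  have hkk : h ^ (D + 1 + (D + 1)) • x = k • k • x := by rw [pow_add, mul_smul]
  rw [hkk] at hd
  have ea : X.d x (k⁻¹ • x) = X.d x (k • x) := by
    rw [← hI k x (k⁻¹ • x), smul_inv_smul, X.comm]
  have eab : X.d (k⁻¹ • x) (k • x) = X.d x (k • k • x) := by
    rw [← hI k (k⁻¹ • x) (k • x), smul_inv_smul]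
  have sa : X.d (k⁻¹ • x) (s • k⁻¹ • x) = D := by
    rw [← mul_smul, hck.inv_right.eq, mul_smul, hI]
  have sb : X.d (k • x) (s • k • x) = D := by
    rw [← mul_smul s, hck.eq, mul_smul, hI]
  have f := hF (s • x) x (k⁻¹ • x) (k • x)
  have e2 := X.comm (s • x) x
  rcases le_total (X.d (s • x) (k⁻¹ • x) + X.d x (k • x))
    (X.d (s • x) (k • x) + X.d x (k⁻¹ • x)) with hle | hle
  · exact far hI hF s x (k • x) sb hbig (by omega)
  · exact far hI hF s x (k⁻¹ • x) sa (by omega) (by omega)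

end Taxis

theorem thm_axis (h1 : S_tau) : S_axis := by
  intro Q V _ _ X δ hI hF u hu
  obtain ⟨t1, t2, -, t4, -, t6, -⟩ := h1 Q V X hI
  have hV : Nonempty V := by
    by_contra hV
    have he : {t : ℝ | ∃ (x : V) (m : ℕ), 0 < m ∧ t = (X.d x (u ^ m • x) : ℝ) / m} = ∅ := by
      ext t
      simp only [Set.mem_ofPred_eq, Set.mem_empty_iff_false, iff_false]
      rintro ⟨x, -⟩
      exact hV ⟨x⟩
    have : X.tau u = 0 := by unfold GM.tau; rw [he, Real.sInf_empty]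
    linarith
  obtain ⟨m, hm⟩ := exists_nat_ge ((10 * δ + 10 : ℝ) / X.tau u)
  have hth : (10 * δ + 10 : ℝ) ≤ X.tau (u ^ m) := by
    have := t4 u (m : ℤ)
    rw [zpow_natCast] at this
    rw [this]
    have h3 : |((m : ℤ) : ℝ)| = m := by simp
    rw [h3]
    rwa [div_le_iff₀ hu] at hm
  obtain ⟨x, hx⟩ : ∃ x : V, ∀ y, X.d x (u ^ m • x) ≤ X.d y (u ^ m • y) := by
    classical
    have hex : ∃ n : ℕ, ∃ x : V, X.d x (u ^ m • x) = n := by
      obtain ⟨x⟩ := hV
      exact ⟨_, x, rfl⟩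
    obtain ⟨x, hx⟩ := Nat.find_spec hex
    exact ⟨x, fun y => hx ▸ Nat.find_min' hex ⟨y, rfl⟩⟩
  have hl : 10 * δ + 10 ≤ X.d x (u ^ m • x) := by
    have := t1 (u ^ m) x 1
    rw [pow_one] at this
    have h5 : ((10 * δ + 10 : ℕ) : ℝ) ≤ X.d x (u ^ m • x) := by
      push_cast at this ⊢
      linarith
    exact_mod_cast h5
  have h2 := Taxis.two hI hF (u ^ m) x hx hl
  refine ⟨x, fun s hs => ?_⟩
  have hsq := Taxis.sq hI hF (u ^ m) s x (hs.pow_right m) h2 hl
  have h0 := t2 s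
  by_cases hD : X.d x (s • x) ≤ 12 * δ
  · have : (X.d x (s • x) : ℝ) ≤ 12 * δ := by exact_mod_cast hD
    linarith
  · have hg := Taxis.grow hI hF s x (11 * δ) hsq (by omega)
    have h7 : ((X.d x (s • x) - (11 * δ + δ) : ℕ) : ℝ) ≤ X.tau s := by
      refine t6 s x _ 0 fun k => ?_
      have := hg k
      rw [add_zero, mul_comm]
      exact_mod_cast this
    rw [Nat.cast_sub (by omega)] at h7
    push_cast at h7
    linarith

end Pool.Agent.H59Z.NA
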