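import Pool.Agent.H59Z.NA.St
import Pool.Agent.H17R2.Tree

set_option autoImplicit false

/-!
# The free group satisfies the inductive hypothesis
-/

namespace Pool.Agent.H59Z.NA

namespace Tbase

open FreeGroup

/-- The Cayley tree of the free group. -/
def tree : GM (FreeGroup ℕ) where
  d x y := norm (x⁻¹ * y)
  self x := by simp
  comm x y := by
    have := H17R2.fd_comm x y
    unfold H17R2.fd at this
    exact_mod_cast this
  tri x y z := by
    have := H17R2.fd_tri x y z
    unfold H17R2.fd at this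
    exact_mod_cast this
  geo x y t ht := by
    set w := (x⁻¹ * y).toWord with hw
    have hl : norm (x⁻¹ * y) = w.length := rfl
    have e : x⁻¹ * y = mk (w.take t) * mk (w.drop t) := by
      rw [mul_mk, List.take_append_drop, hw, mk_toWord]
    have h1 := norm_mk_le (L₁ := w.take t)
    have h2 := norm_mk_le (L₁ := w.drop t)
    have h3 := norm_mul_le (mk (w.take t)) (mk (w.drop t))
    rw [← e] at h3
    rw [List.length_take] at h1
    rw [List.length_drop] at h2
    refine ⟨x * mk (w.take t), ?_, ?_⟩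
    · rw [inv_mul_cancel_left]; omega
    · have e2 : (x * mk (w.take t))⁻¹ * y = mk (w.drop t) := by
        rw [mul_inv_rev, mul_assoc, e, inv_mul_cancel_left]
      rw [e2]; omega

lemma tree_d (x y : FreeGroup ℕ) : tree.d x y = norm (x⁻¹ * y) := rfl

lemma tree_inv : tree.Inv (FreeGroup ℕ) := by
  intro g x y
  simp only [tree_d, smul_eq_mul]
  congr 1
  group

lemma tree_four : tree.Four 0 := by
  intro x y z w
  have := (H17R2.fTree ℕ).four x y z w
  simp only [H17R2.fTree, H17R2.fd] at this
  simp only [tree_d]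
  omega

lemma le_norm_pow (g : FreeGroup ℕ) (hg : g ≠ 1) (m : ℕ) : m ≤ norm (g ^ m) := by
  have hne : reduceCyclically g.toWord ≠ [] := by
    intro h
    apply hg
    have := congrArg mk (reduceCyclically.conj_conjugator_reduceCyclically g.toWord)
    rw [h, mk_toWord, List.append_nil, ← mul_mk, ← inv_mk, mul_inv_cancel] at this
    exact this.symm
  have hpos : 1 ≤ (reduceCyclically g.toWord).length := List.length_pos_iff.2 hne
  rcases Nat.eq_zero_or_pos m with rfl | hm
  · exact Nat.zero_le _
  · rw [FreeGroup.norm, toWord_pow, reduceCyclically.reduce_flatten_replicate isReduced_toWord,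
      if_neg hm.ne']
    simp only [List.length_append, List.length_flatten, List.map_replicate, List.sum_replicate,
      smul_eq_mul]
    nlinarith

lemma acyl (h2 : S_comm) (D : ℕ) : tree.Acyl (FreeGroup ℕ) D (20 * D) := by
  intro g h x y h3 h4 h5 h6 h7
  obtain ⟨z, hz1, hz2⟩ := tree.geo x y (10 * D) (by omega)
  have h8 := (h2 _ _ tree 0 tree_inv tree_four g h x y z D h3 h4 h5 h6 (by omega) (by omega)
    (by omega)).1
  simp only [tree_d, smul_eq_mul, mul_zero, Nat.le_zero, FreeGroup.norm_eq_zero] at h8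
  have h9 : g * h * g⁻¹ * h⁻¹ = 1 := by
    have := inv_mul_eq_one.1 h8
    exact (mul_eq_right.1 this.symm)
  have : g * h = h * g := by
    calc g * h = (g * h * g⁻¹ * h⁻¹) * (h * g) := by group
      _ = h * g := by rw [h9, one_mul]
  exact this

lemma one_le_tau (h1 : S_tau) (g : FreeGroup ℕ) (hg : g ≠ 1) : 1 ≤ tree.tau g := by
  refine (h1 _ _ tree tree_inv).2.2.2.2.2.1 g 1 1 0 fun m => ?_
  simp only [tree_d, inv_one, smul_eq_mul, mul_one, one_mul, add_zero]
  exact_mod_cast le_norm_pow g hg m

lemma comm_of_comm (h2 : S_comm) (u : FreeGroup ℕ) (hu : u ≠ 1) (a b : FreeGroup ℕ)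
    (ha : Commute a u) (hb : Commute b u) : Commute a b := by
  have key : ∀ (c : FreeGroup ℕ) (N : ℕ), Commute c u →
      tree.d (u ^ N) (c • u ^ N) = norm c := by
    intro c N hc
    simp only [tree_d, smul_eq_mul]
    rw [(hc.pow_right N).eq, inv_mul_cancel_left]
  have key0 : ∀ c : FreeGroup ℕ, tree.d 1 (c • (1 : FreeGroup ℕ)) = norm c := by
    intro c
    simp [tree_d]
  refine acyl h2 (norm a + norm b) a b 1 (u ^ (20 * (norm a + norm b))) ?_ ?_ ?_ ?_ ?_
  · rw [key0]; omega
  · rw [key a _ ha]; omega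
  · rw [key0]; omega
  · rw [key b _ hb]; omega
  · simp only [tree_d, inv_one, one_mul]
    exact le_norm_pow u hu _

end Tbase

theorem thm_base (h1 : S_tau) (h2 : S_comm) (h3 : S_lox) : S_base := by
  have hsq : ∀ t : FreeGroup ℕ, t ^ 2 = 1 → t = 1 := by
    intro t ht
    by_contra hne
    have := Tbase.le_norm_pow t hne 2
    rw [ht, FreeGroup.norm_one] at this
    omega
  have hlox := fun (u : FreeGroup ℕ) (hu : u ≠ 1) =>
    h3 _ _ Tbase.tree 0 1 Tbase.tree_inv Tbase.tree_four one_pos hsq u hu
      (Tbase.comm_of_comm h2 u hu) (fun a _ ha => Tbase.one_le_tau h1 a ha)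
  refine ⟨Tbase.tree, fun n τ₀ hτ => ⟨⟨1⟩, Tbase.tree_inv, ?_, ?_, ?_, ?_, ?_⟩⟩
  · intro x y z w
    have := Tbase.tree_four x y z w
    omega
  · intro g
    by_cases hg : g = 1
    · left; rw [hg, one_pow]
    · right; exact hτ.trans (Tbase.one_le_tau h1 g hg)
  · intro u hu
    exact (hlox u hu).1
  · intro u t hu
    exact (hlox u hu).2 t
  · intro g h x y a1 a2 a3 a4 a5
    exact Tbase.acyl h2 (12 * 122) g h x y a1 a2 a3 a4 (le_trans (by norm_num) a5)

end Pool.Agent.H59Z.NA
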