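import Pool.Agent.H59Z.NA.St

set_option autoImplicit false

/-!
# Bowditch's criterion with explicit constants
-/

namespace Pool.Agent.H59Z.NA

namespace Tbow

variable {V : Type} (E : GM V)

/-- `γ` is a geodesic on the interval from `a` to `b`. -/
def Geo (γ : ℕ → V) (a b : ℕ) : Prop :=
  ∀ s t, a ≤ s → s ≤ t → t ≤ b → E.d (γ s) (γ t) + s = t

/-- The sets `Λ` stay within `F` of geodesics of length at most `n`. -/
def Bd (Λ : V → V → Set V) (n F : ℕ) : Prop :=
  ∀ (γ : ℕ → V) (a b : ℕ), a ≤ b → b ≤ a + n → Geo E γ a b →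
    ∀ z ∈ Λ (γ a) (γ b), ∃ s, a ≤ s ∧ s ≤ b ∧ E.d z (γ s) ≤ F

theorem geo_sub {γ : ℕ → V} {a b a' b' : ℕ} (h : Geo E γ a b) (ha : a ≤ a') (hb : b' ≤ b) :
    Geo E γ a' b' := fun s t h1 h2 h3 => h s t (ha.trans h1) h2 (h3.trans hb)

theorem bd_pow (Λ : V → V → Set V)
    (h1 : ∀ x y w, ∀ z ∈ Λ x y, ∃ z', (z' ∈ Λ x w ∨ z' ∈ Λ w y) ∧ E.d z z' ≤ 1)
    (h2 : ∀ x y, E.d x y ≤ 1 → ∀ z ∈ Λ x y, E.d z x ≤ 2) (p : ℕ) : Bd E Λ (2 ^ p) (p + 2) := by
  induction p with
  | zero =>
    intro γ a b hab hb hg z hz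
    have := hg a b le_rfl hab le_rfl
    exact ⟨a, le_rfl, hab, h2 _ _ (by simp at hb; omega) z hz⟩
  | succ p ih =>
    intro γ a b hab hb hg z hz
    rw [pow_succ] at hb
    obtain ⟨z', hz', hd⟩ := h1 _ _ (γ (min b (a + 2 ^ p))) z hz
    rcases hz' with hz' | hz'
    · obtain ⟨s, hs1, hs2, hs3⟩ := ih γ a (min b (a + 2 ^ p)) (by omega) (by omega)
        (geo_sub E hg le_rfl (by omega)) z' hz'
      have := E.tri z z' (γ s)
      exact ⟨s, hs1, by omega, by omega⟩
    · obtain ⟨s, hs1, hs2, hs3⟩ := ih γ (min b (a + 2 ^ p)) b (by omega) (by omega)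
        (geo_sub E hg (by omega) le_rfl) z' hz'
      have := E.tri z z' (γ s)
      exact ⟨s, by omega, hs2, by omega⟩

theorem two_pow_ge (k : ℕ) : 2 * k + 26 ≤ 2 ^ (k + 5) := by
  induction k with
  | zero => norm_num
  | succ k ih => rw [show k + 1 + 5 = (k + 5) + 1 by ring, pow_succ]; omega

theorem bd_step (Λ : V → V → Set V)
    (h1 : ∀ x y w, ∀ z ∈ Λ x y, ∃ z', (z' ∈ Λ x w ∨ z' ∈ Λ w y) ∧ E.d z z' ≤ 1)
    (h2 : ∀ x y, E.d x y ≤ 1 → ∀ z ∈ Λ x y, E.d z x ≤ 2) (n k : ℕ)
    (h : Bd E Λ n (k + 10)) : Bd E Λ n (k + 9) := by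
  intro γ a b hab hb hg z hz
  obtain ⟨s0, hs1, hs2, hs3⟩ := h γ a b hab hb hg z hz
  have e1 := hg a s0 le_rfl hs1 hs2
  have e2 := hg s0 b hs1 hs2 le_rfl
  have e3 := hg a b le_rfl hab le_rfl
  have t1 := E.tri z (γ s0) (γ a)
  have t2 := E.tri z (γ s0) (γ b)
  have t3 := E.tri (γ a) z (γ b)
  have c1 := E.comm (γ s0) (γ a)
  have c2 := E.comm (γ a) z
  obtain ⟨a', ha'⟩ : ∃ a', a' = a + (E.d z (γ a) - (k + 13)) := ⟨_, rfl⟩
  obtain ⟨b', hb'⟩ : ∃ b', b' = b - (E.d z (γ b) - (k + 13)) := ⟨_, rfl⟩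
  have g1 : a ≤ a' := by omega
  have g2 : a' ≤ s0 := by omega
  have g3 : s0 ≤ b' := by omega
  have g4 : b' ≤ b := by omega
  have g5 : b' ≤ a' + 2 ^ (k + 5) := by
    have := two_pow_ge k
    omega
  obtain ⟨z1, hz1, hd1⟩ := h1 _ _ (γ a') z hz
  rcases hz1 with hz1 | hz1
  · by_cases hl : a' = a
    · rw [hl] at hz1
      have := h2 _ _ (by rw [E.self]; omega) z1 hz1
      have := E.tri z z1 (γ a)
      exact ⟨a, le_rfl, hab, by omega⟩
    · obtain ⟨s, hs1', hs2', hs3'⟩ := h γ a a' g1 (by omega) (geo_sub E hg le_rfl (by omega)) z1 hz1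
      have := E.tri z z1 (γ s)
      have := E.tri z (γ s) (γ a)
      have := hg a s le_rfl hs1' (by omega)
      have := E.comm (γ s) (γ a)
      omega
  · obtain ⟨z2, hz2, hd2⟩ := h1 _ _ (γ b') z1 hz1
    have t4 := E.tri z z1 z2
    rcases hz2 with hz2 | hz2
    · obtain ⟨s, hs1', hs2', hs3'⟩ := bd_pow E Λ h1 h2 (k + 5) γ a' b' (by omega) g5
        (geo_sub E hg g1 g4) z2 hz2
      have := E.tri z z2 (γ s)
      exact ⟨s, by omega, by omega, by omega⟩
    · by_cases hl : b' = b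
      · rw [hl] at hz2
        have := h2 _ _ (by rw [E.self]; omega) z2 hz2
        have := E.tri z z2 (γ b)
        exact ⟨b, hab, le_rfl, by omega⟩
      · obtain ⟨s, hs1', hs2', hs3'⟩ := h γ b' b g4 (by omega)
          (geo_sub E hg (by omega) le_rfl) z2 hz2
        have := E.tri z z2 (γ s)
        have := E.tri z (γ s) (γ b)
        have := hg s b (by omega) hs2' le_rfl
        omega

theorem bd_nine (Λ : V → V → Set V)
    (h1 : ∀ x y w, ∀ z ∈ Λ x y, ∃ z', (z' ∈ Λ x w ∨ z' ∈ Λ w y) ∧ E.d z z' ≤ 1)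
    (h2 : ∀ x y, E.d x y ≤ 1 → ∀ z ∈ Λ x y, E.d z x ≤ 2) (n : ℕ) : Bd E Λ n 9 := by
  have key : ∀ k, Bd E Λ n (k + 9) → Bd E Λ n 9 := by
    intro k
    induction k with
    | zero => intro h; simpa using h
    | succ k ih => intro h; exact ih (bd_step E Λ h1 h2 n k (by simpa [add_assoc] using h))
  refine key n ?_
  intro γ a b hab hb hg z hz
  have hn : n < 2 ^ n := Nat.lt_two_pow_self
  obtain ⟨s, hs1, hs2, hs3⟩ := bd_pow E Λ h1 h2 n γ a b hab (by omega) hg z hz
  exact ⟨s, hs1, hs2, by omega⟩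

theorem wgeo : ∀ (N : ℕ) (x y z : V), E.d x z + E.d z y = N → E.d x y = N →
    ∃ γ : ℕ → V, γ 0 = x ∧ E.d (γ N) y = 0 ∧ Geo E γ 0 N ∧ E.d z (γ (E.d x z)) = 0 := by
  intro N
  induction N with
  | zero =>
    intro x y z h1 h2
    refine ⟨fun _ => x, rfl, h2, ?_, ?_⟩
    · intro s t _ hst ht
      rw [E.self]; omega
    · show E.d z x = 0
      rw [E.comm]; omega
  | succ N ih =>
    intro x y z h1 h2
    have cons : ∀ (x' : V) (γ : ℕ → V), E.d x x' = 1 → γ 0 = x' → E.d (γ N) y = 0 →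
        Geo E γ 0 N → Geo E (fun s => Nat.casesOn s x γ) 0 (N + 1) := by
      intro x' γ hx h0 hN hg s t _ hst ht
      rcases s with _ | s
      · rcases t with _ | t
        · simp [E.self]
        · show E.d x (γ t) + 0 = t + 1
          have a1 := hg 0 t le_rfl (by omega) (by omega)
          have a2 := hg t N (by omega) (by omega) le_rfl
          have a3 := E.tri x x' (γ t)
          have a4 := E.tri x (γ t) y
          have a5 := E.tri (γ t) (γ N) y
          rw [h0] at a1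
          omega
      · rcases t with _ | t
        · omega
        · show E.d (γ s) (γ t) + (s + 1) = t + 1
          have := hg s t (by omega) (by omega) (by omega)
          omega
    by_cases hz : E.d x z = 0
    · obtain ⟨x', hx1, hx2⟩ := E.geo x y 1 (by omega)
      obtain ⟨γ, g0, gN, gg, -⟩ := ih x' y x' (by rw [E.self]; omega) (by omega)
      refine ⟨fun s => Nat.casesOn s x γ, rfl, gN, cons x' γ hx1 g0 gN gg, ?_⟩
      rw [hz]
      show E.d z x = 0
      rw [E.comm]; exact hz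
    · obtain ⟨x', hx1, hx2⟩ := E.geo x z 1 (by omega)
      have a1 := E.tri x' z y
      have a2 := E.tri x x' y
      obtain ⟨γ, g0, gN, gg, gz⟩ := ih x' y z (by omega) (by omega)
      refine ⟨fun s => Nat.casesOn s x γ, rfl, gN, cons x' γ hx1 g0 gN gg, ?_⟩
      rw [← hx2, add_comm]
      exact gz

theorem sgeo (x y z : V) (h : E.d x z + E.d z y = E.d x y) (h0 : E.d x y ≠ 0) :
    ∃ γ : ℕ → V, γ 0 = x ∧ γ (E.d x y) = y ∧ Geo E γ 0 (E.d x y) ∧
      E.d z (γ (E.d x z)) = 0 := by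
  obtain ⟨γ, g0, gN, gg, gz⟩ := wgeo E (E.d x y) x y z h rfl
  have key : ∀ s, E.d (γ s) (if s = E.d x y then y else γ s) = 0 := by
    intro s
    split_ifs with hs
    · rw [hs]; exact gN
    · exact E.self _
  refine ⟨fun s => if s = E.d x y then y else γ s, ?_, ?_, ?_, ?_⟩
  · simp [h0.symm, g0]
  · simp
  · intro s t h1 h2 h3
    have a1 := gg s t h1 h2 h3
    have a2 := key s
    have a3 := key t
    show E.d (if s = E.d x y then y else γ s) (if t = E.d x y then y else γ t) + s = t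
    generalize (if s = E.d x y then y else γ s) = u at a2 ⊢
    generalize (if t = E.d x y then y else γ t) = v at a3 ⊢
    have b1 := E.tri u (γ s) v
    have b2 := E.tri (γ s) (γ t) v
    have b3 := E.tri (γ s) u (γ t)
    have b4 := E.tri u v (γ t)
    have b5 := E.comm u (γ s)
    have b6 := E.comm v (γ t)
    omega
  · have a2 := key (E.d x z)
    have := E.tri z (γ (E.d x z)) (if E.d x z = E.d x y then y else γ (E.d x z))
    show E.d z (if E.d x z = E.d x y then y else γ (E.d x z)) = 0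
    omega

end Tbow

open Tbow in
theorem thm_bow : S_bow := by
  intro V E Λ h1 h2 h3
  have hb := bd_nine E Λ h1 h2
  refine ⟨?_, ?_⟩
  · intro N γ hg z hz
    obtain ⟨s, -, hs2, hs3⟩ := hb N γ 0 N (by omega) (by omega) (fun s t _ a b => hg s t a b) z hz
    exact ⟨s, hs2, hs3⟩
  have near : ∀ x w, ∀ u ∈ Λ x w, ∃ v, E.d x v + E.d v w = E.d x w ∧ E.d u v ≤ 9 := by
    intro x w u hu
    by_cases h0 : E.d x w = 0
    · have := h2 x w (by omega) u hu
      exact ⟨x, by rw [E.self]; omega, by omega⟩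
    · obtain ⟨γ, g0, gN, gg, -⟩ := sgeo E x w x (by rw [E.self]; omega) h0
      obtain ⟨s, -, hs2, hs3⟩ := hb (E.d x w) γ 0 (E.d x w) (by omega) (by omega) gg u
        (by rw [g0, gN]; exact hu)
      have a1 := gg 0 s le_rfl (by omega) hs2
      have a2 := gg s (E.d x w) (by omega) hs2 le_rfl
      rw [g0] at a1
      rw [gN] at a2
      exact ⟨γ s, by omega, hs3⟩
  intro x y w z hz
  by_cases h0 : E.d x y = 0
  · left
    have := E.tri z x w
    have := E.comm z x
    omega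
  obtain ⟨γ, g0, gN, gg, gz⟩ := sgeo E x y z hz h0
  obtain ⟨M, ζ, z0, zM, zΛ, zs⟩ := h3 x y
  have goal : ∃ u ∈ Λ x y, E.d z u ≤ 19 := by
    have ind : ∀ r, r ≤ M → (∃ s', s' ≤ E.d x z ∧ E.d (ζ r) (γ s') ≤ 9) ∨
        ∃ u ∈ Λ x y, E.d z u ≤ 19 := by
      intro r
      induction r with
      | zero =>
        intro _
        left
        exact ⟨0, by omega, by rw [z0, g0, E.self]; omega⟩
      | succ r ih =>
        intro hr
        rcases ih (by omega) with ⟨s', hs1, hs2⟩ | h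
        · obtain ⟨s, -, ht2, ht3⟩ := hb (E.d x y) γ 0 (E.d x y) (by omega) (by omega) gg (ζ (r + 1))
            (by rw [g0, gN]; exact zΛ _ hr)
          by_cases hs : s ≤ E.d x z
          · exact Or.inl ⟨s, hs, ht3⟩
          · right
            have a1 := gg s' s (by omega) (by omega) ht2
            have a2 := gg s' (E.d x z) (by omega) hs1 (by omega)
            have a3 := gg (E.d x z) s (by omega) (by omega) ht2
            have a4 := zs r (by omega)
            have b1 := E.tri (γ s') (ζ r) (γ s)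
            have b2 := E.tri (ζ r) (ζ (r + 1)) (γ s)
            have b3 := E.comm (γ s') (ζ r)
            have b4 := E.tri z (γ (E.d x z)) (ζ r)
            have b5 := E.tri (γ (E.d x z)) (γ s') (ζ r)
            have b6 := E.comm (γ (E.d x z)) (γ s')
            have b7 := E.tri z (γ (E.d x z)) (ζ (r + 1))
            have b8 := E.tri (γ (E.d x z)) (γ s) (ζ (r + 1))
            have b9 := E.comm (γ s) (ζ (r + 1))
            by_cases hc : E.d x z ≤ s' + 10
            · exact ⟨ζ r, zΛ _ (by omega), by omega⟩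
            · exact ⟨ζ (r + 1), zΛ _ hr, by omega⟩
        · exact Or.inr h
    rcases ind M le_rfl with ⟨s', hs1, hs2⟩ | h
    · refine ⟨y, by rw [← zM]; simpa [zM] using zΛ M le_rfl, ?_⟩
      have a1 := gg s' (E.d x y) (by omega) (by omega) le_rfl
      rw [gN] at a1
      rw [zM, E.comm] at hs2
      omega
    · exact h
  obtain ⟨u, hu, hzu⟩ := goal
  obtain ⟨u', hu', hd⟩ := h1 x y w u hu
  have t1 := E.tri z u u'
  rcases hu' with hu' | hu'
  · obtain ⟨v, hv1, hv2⟩ := near x w u' hu'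
    left
    have := E.tri z u' v
    have := E.tri x v z
    have := E.tri z v w
    have := E.comm v z
    omega
  · obtain ⟨v, hv1, hv2⟩ := near w y u' hu'
    right
    have := E.tri z u' v
    have := E.tri y v z
    have := E.tri z v w
    have := E.comm v z
    have := E.comm v w
    have := E.comm y v
    have := E.comm y w
    omega

end Pool.Agent.H59Z.NA
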