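import Pool.Agent.H59Z.NA.St

set_option autoImplicit false

namespace Pool.Agent.H59Z.NA

namespace Tcomm

variable {Q V : Type} [Group Q] [MulAction Q V] {X : GM V} {δ : ℕ}

/-- One letter: the distance to `x` changes by `d x (s y) - d x y` up to `δ`. -/
theorem step (hi : X.Inv Q) (h4 : X.Four δ) (s : Q) (x y z : V) (D e : ℕ)
    (hs : X.d x (s • x) ≤ D) (he : X.d z x + X.d z y ≤ X.d x y + e)
    (h : 2 * D + e ≤ 2 * X.d z x) :
    X.d (s • z) x + X.d x y ≤ X.d z x + X.d x (s • y) + δ ∧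
      X.d z x + X.d x (s • y) ≤ X.d (s • z) x + X.d x y + δ := by
  have e1 := hi s x y
  have e2 := hi s z x
  have e3 := hi s z y
  have a1 := h4 (s • x) (s • y) (s • z) x
  have a2 := h4 (s • z) (s • x) x (s • y)
  have t1 := X.tri (s • z) x (s • x)
  have t2 := X.tri (s • x) x (s • y)
  have c1 := X.comm (s • x) x
  have c2 := X.comm (s • x) (s • z)
  have c3 := X.comm (s • y) (s • z)
  have c4 := X.comm (s • y) x
  have c5 := X.comm x (s • z)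
  constructor <;> omega

/-- The two shifts of a letter cancel up to `δ`. -/
theorem cancel (hi : X.Inv Q) (h4 : X.Four δ) (s : Q) (x y : V) (D : ℕ)
    (hx : X.d x (s • x) ≤ D) (hy : X.d y (s • y) ≤ D) (h : 2 * D ≤ X.d x y) :
    X.d x (s • y) + X.d y (s • x) ≤ 2 * X.d x y + δ ∧
      2 * X.d x y ≤ X.d x (s • y) + X.d y (s • x) + δ ∧
      X.d x y ≤ X.d x (s • y) + D ∧ X.d x y ≤ X.d y (s • x) + D := by
  have e1 := hi s x y
  have a1 := h4 x (s • y) y (s • x)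
  have a2 := h4 x y (s • x) (s • y)
  have t1 := X.tri x (s • y) y
  have t2 := X.tri y (s • x) x
  have c1 := X.comm (s • y) y
  have c2 := X.comm (s • x) x
  have c3 := X.comm (s • y) (s • x)
  have c4 := X.comm y x
  have c5 := X.comm y (s • x)
  refine ⟨?_, ?_, ?_, ?_⟩ <;> omega

/-- One letter, with all the bookkeeping. -/
theorem step2 (hi : X.Inv Q) (h4 : X.Four δ) (s : Q) (x y z : V) (D k : ℕ)
    (hs : X.d x (s • x) ≤ D ∧ X.d y (s • y) ≤ D) (hN : 2 * D ≤ X.d x y) (e : ℕ)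
    (he : X.d z x + X.d z y ≤ X.d x y + e) (hx : k + D + δ ≤ X.d z x) (hy : k + D + δ ≤ X.d z y)
    (hk : e ≤ 2 * k) :
    (X.d (s • z) x + X.d (s • z) y ≤ X.d x y + (e + 3 * δ) ∧ k ≤ X.d (s • z) x ∧
      k ≤ X.d (s • z) y) ∧
    X.d (s • z) x + X.d x y ≤ X.d z x + X.d x (s • y) + δ ∧
    X.d (s • z) y + X.d x y ≤ X.d z y + X.d y (s • x) + δ := by
  have c := X.comm y x
  obtain ⟨a1, a2⟩ := step hi h4 s x y z D e hs.1 he (by omega)
  obtain ⟨a3, a4⟩ := step hi h4 s y x z D e hs.2 (by omega) (by omega)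
  obtain ⟨b1, b2, b3, b4⟩ := cancel hi h4 s x y D hs.1 hs.2 hN
  refine ⟨⟨?_, ?_, ?_⟩, ?_, ?_⟩ <;> omega

/-- Six letters. -/
theorem six (hi : X.Inv Q) (h4 : X.Four δ) (s1 s2 s3 s4 s5 s6 : Q) (x y z : V) (D : ℕ)
    (h1 : X.d x (s1 • x) ≤ D ∧ X.d y (s1 • y) ≤ D) (h2 : X.d x (s2 • x) ≤ D ∧ X.d y (s2 • y) ≤ D)
    (h3 : X.d x (s3 • x) ≤ D ∧ X.d y (s3 • y) ≤ D) (h4' : X.d x (s4 • x) ≤ D ∧ X.d y (s4 • y) ≤ D)
    (h5 : X.d x (s5 • x) ≤ D ∧ X.d y (s5 • y) ≤ D) (h6 : X.d x (s6 • x) ≤ D ∧ X.d y (s6 • y) ≤ D)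
    (hz : X.d x z + X.d z y = X.d x y) (hx : 10 * D + 20 * δ ≤ X.d x z)
    (hy : 10 * D + 20 * δ ≤ X.d z y)
    (hA : X.d x (s1 • y) + X.d x (s2 • y) + X.d x (s3 • y) + X.d x (s4 • y) + X.d x (s5 • y) +
      X.d x (s6 • y) ≤ 6 * X.d x y + 3 * δ)
    (hB : X.d y (s1 • x) + X.d y (s2 • x) + X.d y (s3 • x) + X.d y (s4 • x) + X.d y (s5 • x) +
      X.d y (s6 • x) ≤ 6 * X.d x y + 3 * δ) :
    X.d z ((s6 * s5 * s4 * s3 * s2 * s1) • z) ≤ 12 * δ := by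
  have c := X.comm x z
  have hN : 2 * D ≤ X.d x y := by omega
  obtain ⟨⟨p1, q1, r1⟩, u1, v1⟩ := step2 hi h4 s1 x y z D (5 * D + 15 * δ) h1 hN 0
    (by omega) (by omega) (by omega) (by omega)
  obtain ⟨⟨p2, q2, r2⟩, u2, v2⟩ := step2 hi h4 s2 x y _ D (4 * D + 14 * δ) h2 hN _ p1
    (by omega) (by omega) (by omega)
  obtain ⟨⟨p3, q3, r3⟩, u3, v3⟩ := step2 hi h4 s3 x y _ D (3 * D + 13 * δ) h3 hN _ p2
    (by omega) (by omega) (by omega)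
  obtain ⟨⟨p4, q4, r4⟩, u4, v4⟩ := step2 hi h4 s4 x y _ D (2 * D + 12 * δ) h4' hN _ p3
    (by omega) (by omega) (by omega)
  obtain ⟨⟨p5, q5, r5⟩, u5, v5⟩ := step2 hi h4 s5 x y _ D (D + 11 * δ) h5 hN _ p4
    (by omega) (by omega) (by omega)
  obtain ⟨-, u6, v6⟩ := step2 hi h4 s6 x y _ D (10 * δ) h6 hN _ p5
    (by omega) (by omega) (by omega)
  simp only [mul_smul]
  have a := h4 z (s6 • s5 • s4 • s3 • s2 • s1 • z) x y
  clear p1 p2 p3 p4 p5 q1 q2 q3 q4 q5 r1 r2 r3 r4 r5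
  omega

theorem inv_d (hi : X.Inv Q) (s : Q) (x y : V) : X.d x (s⁻¹ • y) = X.d y (s • x) := by
  rw [← hi s, smul_inv_smul, X.comm]

end Tcomm

open Tcomm in
theorem thm_comm : S_comm := by
  intro Q V _ _ X δ hi h4 g h x y z D g1 g2 h1 h2 hz hx hy
  have hN : 2 * D ≤ X.d x y := by omega
  have sg : X.d x (g • x) ≤ D ∧ X.d y (g • y) ≤ D := ⟨g1, g2⟩
  have sh : X.d x (h • x) ≤ D ∧ X.d y (h • y) ≤ D := ⟨h1, h2⟩
  have sg' : X.d x (g⁻¹ • x) ≤ D ∧ X.d y (g⁻¹ • y) ≤ D := by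
    rw [inv_d hi, inv_d hi]; exact sg
  have sh' : X.d x (h⁻¹ • x) ≤ D ∧ X.d y (h⁻¹ • y) ≤ D := by
    rw [inv_d hi, inv_d hi]; exact sh
  have s1 : X.d x ((1 : Q) • x) ≤ D ∧ X.d y ((1 : Q) • y) ≤ D := by
    rw [one_smul, one_smul, X.self, X.self]; omega
  obtain ⟨a1, -⟩ := cancel hi h4 g x y D g1 g2 hN
  obtain ⟨a2, -⟩ := cancel hi h4 h x y D h1 h2 hN
  have c := X.comm y x
  refine ⟨?_, ?_, ?_⟩
  · have := six hi h4 h⁻¹ g⁻¹ h g 1 1 x y z D sh' sg' sh sg s1 s1 hz hx hy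
      (by simp only [inv_d hi, one_smul]; omega) (by simp only [inv_d hi, one_smul]; omega)
    simpa only [one_mul] using this
  · have := six hi h4 g⁻¹ h⁻¹ g⁻¹ h g g x y z D sg' sh' sg' sh sg sg hz hx hy
      (by simp only [inv_d hi]; omega) (by simp only [inv_d hi]; omega)
    simpa only [mul_assoc] using this
  · have := six hi h4 h⁻¹ h⁻¹ g⁻¹ h g h x y z D sh' sh' sg' sh sg sh hz hx hy
      (by simp only [inv_d hi]; omega) (by simp only [inv_d hi]; omega)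
    simpa only [mul_assoc] using this

end Pool.Agent.H59Z.NA
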