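import Pool.Agent.H59Z.NA.St

set_option autoImplicit false

namespace Pool.Agent.H59Z.NA

namespace Tcyc

variable {Q V : Type} [Group Q] [MulAction Q V]

theorem tau_inv (h1 : S_tau) (X : GM V) (hI : X.Inv Q) (g : Q) : X.tau g⁻¹ = X.tau g := by
  have h := (h1 Q V X hI).2.2.2.1 g (-1)
  simpa using h

theorem tau_sq (h1 : S_tau) (X : GM V) (hI : X.Inv Q) (g : Q) : X.tau (g * g) = 2 * X.tau g := by
  have h := (h1 Q V X hI).2.2.2.1 g 2
  rw [zpow_two] at h
  simpa using h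

theorem tau_empty (X : GM V) (hV : IsEmpty V) (g : Q) : X.tau g = 0 := by
  unfold GM.tau
  have : {t : ℝ | ∃ (x : V) (m : ℕ), 0 < m ∧ t = (X.d x (g ^ m • x) : ℝ) / m} = ∅ := by
    ext t
    simp only [Set.mem_ofPred_eq, Set.mem_empty_iff_false, iff_false]
    rintro ⟨x, _⟩
    exact hV.elim x
  rw [this, Real.sInf_empty]

theorem lemA (h1 : S_tau) (X : GM V) (δ : ℕ) (hI : X.Inv Q) (h4 : X.Four δ) (a b : Q)
    (hab : Commute a b) : X.tau (a * b) + X.tau (a⁻¹ * b) ≤ 2 * max (X.tau a) (X.tau b) := by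
  rcases isEmpty_or_nonempty V with hV | ⟨⟨x⟩⟩
  · simp [tau_empty X hV]
  obtain ⟨t1, t2, t3, -⟩ := h1 Q V X hI
  refine le_of_forall_pos_le_add fun ε hε => ?_
  obtain ⟨ma, hma⟩ := t3 a x (ε / 4) (by positivity)
  obtain ⟨mb, hmb⟩ := t3 b x (ε / 4) (by positivity)
  obtain ⟨k0, hk0⟩ := exists_nat_gt ((δ : ℝ) / (ε / 2))
  set k := max (max ma mb) (k0 + 1) with hk
  have hka : ma ≤ k := le_trans (le_max_left _ _) (le_max_left _ _)
  have hkb : mb ≤ k := le_trans (le_max_right _ _) (le_max_left _ _)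
  have hkk : k0 + 1 ≤ k := le_max_right _ _
  have hkpos : (0 : ℝ) < k := by exact_mod_cast (by omega : 0 < k)
  have hδ : (δ : ℝ) ≤ ε / 2 * k := by
    have h2 : (k0 : ℝ) ≤ k := by exact_mod_cast (by omega : k0 ≤ k)
    rw [div_lt_iff₀ (by positivity)] at hk0
    nlinarith
  have hF := h4 x ((a * b) ^ k • x) (a ^ k • x) (b ^ k • x)
  have e1 : X.d (a ^ k • x) (b ^ k • x) = X.d x ((a⁻¹ * b) ^ k • x) := by
    rw [← hI (a ^ k) x, smul_smul, (hab.inv_left).mul_pow, inv_pow, mul_inv_cancel_left]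
  have e2 : X.d ((a * b) ^ k • x) (b ^ k • x) = X.d x (a ^ k • x) := by
    rw [X.comm, ← hI (b ^ k) x, smul_smul, hab.eq, hab.symm.mul_pow]
  have e3 : X.d ((a * b) ^ k • x) (a ^ k • x) = X.d x (b ^ k • x) := by
    rw [X.comm, ← hI (a ^ k) x, smul_smul, hab.mul_pow]
  rw [e1, e2, e3] at hF
  have u1 := t1 (a * b) x k
  have u2 := t1 (a⁻¹ * b) x k
  have u3 := hma k hka
  have u4 := hmb k hkb
  have m1 := le_max_left (X.tau a) (X.tau b)
  have m2 := le_max_right (X.tau a) (X.tau b)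
  set M := max (X.tau a) (X.tau b)
  have u5 : (X.d x (a ^ k • x) : ℝ) ≤ (M + ε / 4) * k := le_trans u3 (by nlinarith)
  have u6 : (X.d x (b ^ k • x) : ℝ) ≤ (M + ε / 4) * k := le_trans u4 (by nlinarith)
  have hF' : (X.d x ((a * b) ^ k • x) : ℝ) + X.d x ((a⁻¹ * b) ^ k • x) ≤
      2 * ((M + ε / 4) * k) + δ := by
    rcases le_total (X.d x (a ^ k • x)) (X.d x (b ^ k • x)) with h | h
    · have : X.d x ((a * b) ^ k • x) + X.d x ((a⁻¹ * b) ^ k • x) ≤
          2 * X.d x (b ^ k • x) + δ := by omega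
      have : (X.d x ((a * b) ^ k • x) : ℝ) + X.d x ((a⁻¹ * b) ^ k • x) ≤
          2 * X.d x (b ^ k • x) + δ := by exact_mod_cast this
      linarith
    · have : X.d x ((a * b) ^ k • x) + X.d x ((a⁻¹ * b) ^ k • x) ≤
          2 * X.d x (a ^ k • x) + δ := by omega
      have : (X.d x ((a * b) ^ k • x) : ℝ) + X.d x ((a⁻¹ * b) ^ k • x) ≤
          2 * X.d x (a ^ k • x) + δ := by exact_mod_cast this
      linarith
  have : (X.tau (a * b) + X.tau (a⁻¹ * b)) * k ≤ (2 * M + ε) * k := by nlinarith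
  exact le_of_mul_le_mul_right this hkpos

theorem lemB (h1 : S_tau) (X : GM V) (δ : ℕ) (hI : X.Inv Q) (h4 : X.Four δ) (u v : Q)
    (huv : Commute u v) (hle : X.tau v ≤ X.tau u) :
    X.tau (u * v) ≤ X.tau u - X.tau v ∨ X.tau (u * v⁻¹) ≤ X.tau u - X.tau v := by
  have hc : Commute (u * v) (u * v⁻¹) :=
    Commute.mul_left (Commute.mul_right (Commute.refl u) huv.inv_right)
      (Commute.mul_right huv.symm (Commute.refl v).inv_right)
  have A1 := lemA h1 X δ hI h4 (u * v) (u * v⁻¹) hc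
  have A2 := lemA h1 X δ hI h4 u v huv
  have e1 : u * v * (u * v⁻¹) = u * u := by
    rw [mul_assoc, ← mul_assoc v, ← huv.eq, mul_assoc u v, mul_inv_cancel, mul_one]
  have e2 : (u * v)⁻¹ * (u * v⁻¹) = v⁻¹ * v⁻¹ := by group
  have e3 : u⁻¹ * v = (u * v⁻¹)⁻¹ := by
    rw [mul_inv_rev, inv_inv, huv.inv_left.eq]
  rw [e1, e2, tau_sq h1 X hI, tau_sq h1 X hI, tau_inv h1 X hI] at A1
  rw [e3, tau_inv h1 X hI, max_eq_left hle] at A2
  rcases le_total (X.tau (u * v)) (X.tau (u * v⁻¹)) with h | h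
  · rw [max_eq_right h] at A1
    left; linarith
  · rw [max_eq_left h] at A1
    right; linarith

end Tcyc

open Tcyc in
theorem thm_cyc (h1 : S_tau) : S_cyc := by
  intro Q V _ _ X δ τ₀ hI h4 hτ C hC hlox
  by_cases htriv : ∀ a ∈ C, a = 1
  · exact ⟨1, C.one_mem, fun a ha => by rw [htriv a ha]; exact Subgroup.one_mem _⟩
  push Not at htriv
  set T : Set ℝ := {t | ∃ a ∈ C, a ≠ 1 ∧ t = X.tau a} with hT
  have hne : T.Nonempty := by
    obtain ⟨a, ha, ha1⟩ := htriv
    exact ⟨_, a, ha, ha1, rfl⟩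
  have hlb : ∀ t ∈ T, τ₀ ≤ t := by
    rintro t ⟨a, ha, ha1, rfl⟩
    exact hlox a ha ha1
  have hbd : BddBelow T := ⟨τ₀, hlb⟩
  have hm : τ₀ ≤ sInf T := le_csInf hne hlb
  have hmle : ∀ a ∈ C, a ≠ 1 → sInf T ≤ X.tau a := fun a ha ha1 => csInf_le hbd ⟨a, ha, ha1, rfl⟩
  obtain ⟨t, ⟨g, hg, hg1, rfl⟩, hlt⟩ := exists_lt_of_csInf_lt hne
    (show sInf T < 3 * sInf T / 2 by linarith)
  have hgm := hmle g hg hg1
  have base : ∀ a ∈ C, X.tau a < X.tau g → a = 1 := by
    intro a ha hlt'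
    by_contra ha1
    have ham := hmle a ha ha1
    rcases lemB h1 X δ hI h4 g a (hC g hg a ha) hlt'.le with h | h
    · have : g * a = 1 := by
        by_contra hne'
        have := hmle _ (C.mul_mem hg ha) hne'
        linarith
      have e : a = g⁻¹ := eq_inv_of_mul_eq_one_right this
      rw [e, tau_inv h1 X hI] at hlt'
      exact lt_irrefl _ hlt'
    · have : g * a⁻¹ = 1 := by
        by_contra hne'
        have := hmle _ (C.mul_mem hg (C.inv_mem ha)) hne'
        linarith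
      have e : g = a := mul_inv_eq_one.1 this
      rw [e] at hlt'
      exact lt_irrefl _ hlt'
  have key : ∀ N : ℕ, ∀ a ∈ C, X.tau a < (N + 1) * X.tau g → a ∈ Subgroup.zpowers g := by
    intro N
    induction N with
    | zero =>
      intro a ha h
      rw [base a ha (by simpa using h)]
      exact Subgroup.one_mem _
    | succ N ih =>
      intro a ha h
      rcases lt_or_ge (X.tau a) (X.tau g) with hl | hl
      · rw [base a ha hl]; exact Subgroup.one_mem _
      push_cast at h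
      rcases lemB h1 X δ hI h4 a g (hC a ha g hg) hl with h' | h'
      · have := ih _ (C.mul_mem ha hg) (by linarith)
        have h2 := Subgroup.mul_mem _ this (Subgroup.inv_mem _ (Subgroup.mem_zpowers g))
        simpa using h2
      · have := ih _ (C.mul_mem ha (C.inv_mem hg)) (by linarith)
        have h2 := Subgroup.mul_mem _ this (Subgroup.mem_zpowers g)
        simpa using h2
  refine ⟨g, hg, fun a ha => ?_⟩
  have hgpos : 0 < X.tau g := by linarith
  obtain ⟨N, hN⟩ := exists_nat_gt (X.tau a / X.tau g)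
  refine key N a ha ?_
  rw [div_lt_iff₀ hgpos] at hN
  nlinarith

end Pool.Agent.H59Z.NA
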