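import Pool.Agent.H59Z.NA.St

set_option autoImplicit false

/-!
# Electrification of the Rips graph along a family of lines
-/

namespace Pool.Agent.H59Z.NA

namespace Telec

section Graph

variable {V : Type}

/-- Walks of a given length for a relation. -/
def Reach (R : V → V → Prop) : ℕ → V → V → Prop
  | 0, p, q => p = q
  | n + 1, p, q => ∃ z, R p z ∧ Reach R n z q

variable {R : V → V → Prop}

theorem reach_add : ∀ (m n : ℕ) (p z q : V), Reach R m p z → Reach R n z q →
    Reach R (m + n) p q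
  | 0, n, p, z, q, h1, h2 => by
    have : p = z := h1
    subst this
    simpa using h2
  | m + 1, n, p, z, q, h1, h2 => by
    obtain ⟨w, hw, h1⟩ := h1
    have := reach_add m n w z q h1 h2
    rw [show m + 1 + n = (m + n) + 1 by omega]
    exact ⟨w, hw, this⟩

theorem reach_split : ∀ (m n : ℕ) (p q : V), Reach R (m + n) p q →
    ∃ z, Reach R m p z ∧ Reach R n z q
  | 0, n, p, q, h => ⟨p, rfl, by simpa using h⟩
  | m + 1, n, p, q, h => by
    rw [show m + 1 + n = (m + n) + 1 by omega] at h
    obtain ⟨w, hw, h⟩ := h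
    obtain ⟨z, h1, h2⟩ := reach_split m n w q h
    exact ⟨z, ⟨w, hw, h1⟩, h2⟩

theorem reach_one {p q : V} : Reach R 1 p q ↔ R p q := by
  constructor
  · rintro ⟨z, h1, h2⟩
    have : z = q := h2
    subst this
    exact h1
  · intro h
    exact ⟨q, h, rfl⟩

theorem reach_symm (hs : ∀ p q, R p q → R q p) : ∀ (n : ℕ) (p q : V), Reach R n p q →
    Reach R n q p
  | 0, p, q, h => by
    have : p = q := h
    exact this.symm
  | n + 1, p, q, h => by
    obtain ⟨z, h1, h2⟩ := h
    exact reach_add n 1 q z p (reach_symm hs n z q h2) (reach_one.mpr (hs _ _ h1))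

theorem reach_refl (hr : ∀ p, R p p) : ∀ (n : ℕ) (p : V), Reach R n p p
  | 0, _ => rfl
  | n + 1, p => ⟨p, hr p, reach_refl hr n p⟩

theorem reach_mono (hr : ∀ p, R p p) {m n : ℕ} {p q : V} (h : Reach R m p q) (hmn : m ≤ n) :
    Reach R n p q := by
  have := reach_add m (n - m) p q q h (reach_refl hr _ q)
  rwa [show m + (n - m) = n by omega] at this

theorem reach_map {R' : V → V → Prop} (f : V → V) (hf : ∀ p q, R p q → R' (f p) (f q)) :
    ∀ (n : ℕ) (p q : V), Reach R n p q → Reach R' n (f p) (f q)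
  | 0, p, q, h => by
    have : p = q := h
    subst this
    rfl
  | n + 1, p, q, h => by
    obtain ⟨z, h1, h2⟩ := h
    exact ⟨f z, hf _ _ h1, reach_map f hf n z q h2⟩

/-- The graph distance. -/
noncomputable def gd (R : V → V → Prop) (p q : V) : ℕ := sInf {n | Reach R n p q}

theorem gd_le {n : ℕ} {p q : V} (h : Reach R n p q) : gd R p q ≤ n := Nat.sInf_le h

theorem gd_reach (hc : ∀ p q, ∃ n, Reach R n p q) (p q : V) : Reach R (gd R p q) p q :=
  Nat.sInf_mem (s := {n | Reach R n p q}) (hc p q)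

/-- The graph metric of a reflexive symmetric connected relation. -/
noncomputable def gm (R : V → V → Prop) (hs : ∀ p q, R p q → R q p)
    (hc : ∀ p q, ∃ n, Reach R n p q) : GM V where
  d := gd R
  self x := Nat.le_zero.mp (gd_le (n := 0) rfl)
  comm x y := le_antisymm (gd_le (reach_symm hs _ _ _ (gd_reach hc y x)))
    (gd_le (reach_symm hs _ _ _ (gd_reach hc x y)))
  tri x y z := gd_le (reach_add _ _ _ _ _ (gd_reach hc x y) (gd_reach hc y z))
  geo x y t ht := by
    have h := gd_reach hc x y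
    rw [show gd R x y = t + (gd R x y - t) by omega] at h
    obtain ⟨z, h1, h2⟩ := reach_split _ _ _ _ h
    have a1 := gd_le h1
    have a2 := gd_le h2
    have a3 : gd R x y ≤ gd R x z + gd R z y :=
      gd_le (reach_add _ _ _ _ _ (gd_reach hc x z) (gd_reach hc z y))
    exact ⟨z, by omega, by omega⟩

/-- Existence of discrete geodesics. -/
theorem exists_geod (E : GM V) (y : V) : ∀ (N : ℕ) (x : V), E.d x y = N →
    ∃ γ : ℕ → V, γ 0 = x ∧ (∀ s, s ≤ N → s + E.d (γ s) y = N) ∧
      ∀ s, s < N → E.d (γ s) (γ (s + 1)) ≤ 1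
  | 0, x, h => ⟨fun _ => x, rfl, fun s hs => by simp only; omega, fun s hs => by omega⟩
  | N + 1, x, h => by
    obtain ⟨z, h1, h2⟩ := E.geo x y 1 (by omega)
    obtain ⟨γ, g0, g1, g2⟩ := exists_geod E y N z (by omega)
    refine ⟨fun s => Nat.casesOn s x γ, rfl, ?_, ?_⟩
    · intro s hs
      cases s with
      | zero => simpa using h
      | succ s =>
        have := g1 s (by omega)
        simp only
        omega
    · intro s hs
      cases s with
      | zero =>
        show E.d x (γ 0) ≤ 1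
        rw [g0]
        omega
      | succ s => exact g2 s (by omega)

theorem chain_le (E : GM V) (γ : ℕ → V) (N : ℕ)
    (h : ∀ s, s < N → E.d (γ s) (γ (s + 1)) ≤ 1) (s : ℕ) :
    ∀ k, s + k ≤ N → E.d (γ s) (γ (s + k)) ≤ k
  | 0, _ => by simp [E.self]
  | k + 1, hk => by
    have a1 := chain_le E γ N h s k (by omega)
    have a2 := h (s + k) (by omega)
    have a3 := E.tri (γ s) (γ (s + k)) (γ (s + k + 1))
    rw [show s + (k + 1) = s + k + 1 by omega]
    omega

theorem chain_le' (E : GM V) (γ : ℕ → V) (N : ℕ)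
    (h : ∀ s, s < N → E.d (γ s) (γ (s + 1)) ≤ 1) (s t : ℕ) (hst : s ≤ t) (ht : t ≤ N) :
    E.d (γ s) (γ t) + s ≤ t := by
  have := chain_le E γ N h s (t - s) (by omega)
  rw [show s + (t - s) = t by omega] at this
  omega

end Graph

section El

variable {Q V I : Type} [Group Q] [MulAction Q V] [MulAction Q I] {X : GM V} {L : ℕ}
  (F : Fam Q V I X L)

/-- Adjacency in the Rips graph electrified along the lines in `S`. -/
def Rel (S : Set I) (p q : V) : Prop := X.d p q ≤ L ∨ ∃ j ∈ S, p ∈ F.Y j ∧ q ∈ F.Y j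

theorem rel_refl (S : Set I) (p : V) : Rel F S p p := Or.inl (by rw [X.self]; omega)

theorem rel_symm (S : Set I) (p q : V) (h : Rel F S p q) : Rel F S q p := by
  rcases h with h | ⟨j, hj, h1, h2⟩
  · exact Or.inl (by rw [X.comm]; exact h)
  · exact Or.inr ⟨j, hj, h2, h1⟩

theorem rel_conn_aux (hL : 1 ≤ L) (S : Set I) (q : V) : ∀ (n : ℕ) (p : V), X.d p q ≤ n →
    Reach (Rel F S) (n + 1) p q
  | 0, p, h => reach_one.mpr (Or.inl (by omega))
  | n + 1, p, h => by
    by_cases h' : X.d p q ≤ n
    · exact reach_mono (rel_refl F S) (rel_conn_aux hL S q n p h') (by omega)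
    · obtain ⟨z, h1, h2⟩ := X.geo p q 1 (by omega)
      exact ⟨z, Or.inl (by omega), rel_conn_aux hL S q n z (by omega)⟩

theorem rel_conn (hL : 1 ≤ L) (S : Set I) (p q : V) : ∃ n, Reach (Rel F S) n p q :=
  ⟨_, rel_conn_aux F hL S q _ p le_rfl⟩

/-- The electrified metric. -/
noncomputable def el (hL : 1 ≤ L) (S : Set I) : GM V :=
  gm (Rel F S) (rel_symm F S) (rel_conn F hL S)

variable (hL : 1 ≤ L)

theorem el_le_one {S : Set I} {p q : V} : (el F hL S).d p q ≤ 1 ↔ Rel F S p q := by
  constructor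
  · intro h
    exact reach_one.mp (reach_mono (rel_refl F S) (gd_reach (rel_conn F hL S) p q) h)
  · intro h
    exact gd_le (reach_one.mpr h)

theorem el_zero {S : Set I} {p q : V} (h : (el F hL S).d p q = 0) : p = q := by
  have h1 := gd_reach (rel_conn F hL S) p q
  have h2 : gd (Rel F S) p q = 0 := h
  rw [h2] at h1
  exact h1

theorem el_mono {S T : Set I} (hST : S ⊆ T) (p q : V) :
    (el F hL T).d p q ≤ (el F hL S).d p q := by
  refine gd_le (reach_map (R := Rel F S) (R' := Rel F T) id ?_ _ _ _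
    (gd_reach (rel_conn F hL S) p q))
  intro a b h
  rcases h with h | ⟨j, hj, h1, h2⟩
  · exact Or.inl h
  · exact Or.inr ⟨j, hST hj, h1, h2⟩

theorem el_two {S : Set I} {p q : V} (h : X.d p q ≤ 2 * L) : (el F hL S).d p q ≤ 2 := by
  by_cases h' : X.d p q ≤ L
  · have := (el_le_one F hL (S := S)).mpr (Or.inl h')
    omega
  · obtain ⟨z, h1, h2⟩ := X.geo p q L (by omega)
    have a1 := (el_le_one F hL (S := S) (p := p) (q := z)).mpr (Or.inl (by omega))
    have a2 := (el_le_one F hL (S := S) (p := z) (q := q)).mpr (Or.inl (by omega))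
    have a3 := (el F hL S).tri p z q
    omega

theorem el_smul_le (hX : X.Inv Q) (g : Q) (p q : V) :
    (el F hL Set.univ).d (g • p) (g • q) ≤ (el F hL Set.univ).d p q := by
  refine gd_le (reach_map (R := Rel F Set.univ) (R' := Rel F Set.univ) (fun x => g • x) ?_ _ _ _
    (gd_reach (rel_conn F hL Set.univ) p q))
  intro a b h
  rcases h with h | ⟨j, _, h1, h2⟩
  · exact Or.inl (by rw [hX]; exact h)
  · exact Or.inr ⟨g • j, trivial, (F.Y_smul g j a).mpr h1, (F.Y_smul g j b).mpr h2⟩

theorem el_inv (hX : X.Inv Q) : (el F hL Set.univ).Inv Q := by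
  intro g p q
  refine le_antisymm (el_smul_le F hL hX g p q) ?_
  have := el_smul_le F hL hX g⁻¹ (g • p) (g • q)
  simpa using this

theorem lip_reach (i : I) : ∀ (n : ℕ) (p q : V), Reach (Rel F {j | j ≠ i}) n p q →
    |F.c i p - F.c i q| ≤ 2 * L * n
  | 0, p, q, h => by
    have : p = q := h
    subst this
    simp
  | n + 1, p, q, h => by
    obtain ⟨z, h1, h2⟩ := h
    have a1 := lip_reach i n z q h2
    have hL0 : (0 : ℝ) ≤ L := Nat.cast_nonneg L
    have a2 : |F.c i p - F.c i z| ≤ 2 * L := by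
      rcases h1 with h1 | ⟨j, hj, h3, h4⟩
      · have := F.lip i p z
        have h1' : (X.d p z : ℝ) ≤ L := by exact_mod_cast h1
        linarith
      · have := F.sep i j (fun h => hj h.symm) p h3 z h4
        linarith
    have a3 := abs_sub_le (F.c i p) (F.c i z) (F.c i q)
    push_cast
    linarith

theorem lip_el (i : I) (p q : V) (n : ℕ) (h : (el F hL {j | j ≠ i}).d p q ≤ n) :
    |F.c i p - F.c i q| ≤ 2 * L * n :=
  lip_reach F i n p q (reach_mono (rel_refl F _) (gd_reach (rel_conn F hL _) p q) h)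

theorem bow_el (h1 : S_hyp) (h2 : S_bow) {δ : ℕ} (h4 : X.Four δ) (hδ : 2 * δ ≤ L) (S : Set I) :
    (∀ (N : ℕ) (γ : ℕ → V), (∀ s t, s ≤ t → t ≤ N → (el F hL S).d (γ s) (γ t) + s = t) →
      ∀ z, X.d (γ 0) z + X.d z (γ N) = X.d (γ 0) (γ N) →
        ∃ s, s ≤ N ∧ (el F hL S).d z (γ s) ≤ 9) ∧ (el F hL S).Slim 60 := by
  have hy := (h1 V X).2.1 δ h4
  refine h2 V (el F hL S) (fun x y => {z | X.d x z + X.d z y = X.d x y}) ?_ ?_ ?_
  · intro x y w z hz
    have hz' : X.d x z + X.d z y = X.d x y := hz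
    have a := h4 x y z w
    have c1 := X.comm y w
    have c2 := X.comm y z
    have c3 := X.comm z w
    rcases le_total (X.d x z + X.d y w) (X.d x w + X.d y z) with hm | hm
    · rw [max_eq_right hm] at a
      obtain ⟨z', hz1, hz2⟩ := hy x w z δ (by omega)
      exact ⟨z', Or.inl hz1, (el_le_one F hL).mpr (Or.inl (by omega))⟩
    · rw [max_eq_left hm] at a
      obtain ⟨z', hz1, hz2⟩ := hy w y z δ (by omega)
      exact ⟨z', Or.inr hz1, (el_le_one F hL).mpr (Or.inl (by omega))⟩
  · intro x y hxy z hz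
    have hz' : X.d x z + X.d z y = X.d x y := hz
    rcases (el_le_one F hL).mp hxy with h | ⟨j, hj, hx, hy'⟩
    · have c := X.comm x z
      have := (el_le_one F hL (S := S) (p := z) (q := x)).mpr (Or.inl (by omega))
      omega
    · obtain ⟨w, hw, hzw⟩ := F.conv j x hx y hy' z hz'
      have a1 := (el_le_one F hL (S := S) (p := z) (q := w)).mpr (Or.inl hzw)
      have a2 := (el_le_one F hL (S := S) (p := w) (q := x)).mpr (Or.inr ⟨j, hj, hw, hx⟩)
      have a3 := (el F hL S).tri z w x
      omega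
  · intro x y
    obtain ⟨γ, g0, g1, g2⟩ := exists_geod X y (X.d x y) x rfl
    refine ⟨X.d x y + 1, fun s => if s ≤ X.d x y then γ s else y, by simp [g0], by simp, ?_, ?_⟩
    · intro s hs
      show X.d x _ + X.d _ y = X.d x y
      by_cases h : s ≤ X.d x y
      · simp only [if_pos h]
        have a1 := g1 s h
        have a2 := chain_le' X γ _ g2 0 s (by omega) h
        rw [g0] at a2
        have a3 := X.tri x (γ s) y
        omega
      · simp only [if_neg h, X.self]
        omega
    · intro s hs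
      refine (el_le_one F hL).mpr (Or.inl ?_)
      have h0 : s ≤ X.d x y := by omega
      simp only [if_pos h0]
      by_cases h : s + 1 ≤ X.d x y
      · rw [if_pos h]
        have := g2 s (by omega)
        omega
      · rw [if_neg h]
        have := g1 s h0
        omega

theorem bgi_el (h1 : S_hyp) (h2 : S_bow) {δ : ℕ} (h4 : X.Four δ) (hδ : 2 * δ ≤ L) (i : I)
    (x y : V) (hxy : (100 : ℝ) * L < |F.c i x - F.c i y|) :
    ∃ a ∈ F.Y i, ∃ b ∈ F.Y i, (el F hL Set.univ).d x a + 1 + (el F hL Set.univ).d b y ≤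
      (el F hL Set.univ).d x y := by
  set E := el F hL Set.univ with hE
  set E' := el F hL {j | j ≠ i} with hE'
  obtain ⟨γ, g0, g1, g2⟩ := exists_geod E y (E.d x y) x rfl
  set N := E.d x y with hN
  have gN : γ N = y := el_zero F hL (S := Set.univ) (by have := g1 N le_rfl; rw [← hE]; omega)
  by_cases hall : ∀ s, s < N → Rel F {j | j ≠ i} (γ s) (γ (s + 1))
  · exfalso
    have g2' : ∀ s, s < N → E'.d (γ s) (γ (s + 1)) ≤ 1 :=
      fun s hs => (el_le_one F hL).mpr (hall s hs)
    have hmono : ∀ p q, E.d p q ≤ E'.d p q := fun p q => el_mono F hL (Set.subset_univ _) p q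
    have gE : ∀ s t, s ≤ t → t ≤ N → t ≤ E.d (γ s) (γ t) + s := by
      intro s t hst ht
      have a1 := g1 s (by omega)
      have a2 := g1 t ht
      have a3 := E.tri (γ s) (γ t) y
      omega
    have gE' : ∀ s t, s ≤ t → t ≤ N → E'.d (γ s) (γ t) + s = t := by
      intro s t hst ht
      have a1 := gE s t hst ht
      have a2 := chain_le' E' γ N g2' s t hst ht
      have a3 := hmono (γ s) (γ t)
      omega
    have hb := (bow_el F hL h1 h2 h4 hδ {j | j ≠ i}).1 N γ gE'
    rw [g0, gN, ← hE'] at hb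
    have hL1 : (1 : ℝ) ≤ L := by exact_mod_cast hL
    obtain ⟨a, ha, b, hb', p1, p2, p3⟩ := F.proj i x y (by linarith)
    have hy := (h1 V X).2.1 δ h4
    have t1 := X.tri a b y
    have t2 := X.tri x a b
    obtain ⟨za, za1, za2⟩ := hy x y a L (by omega)
    obtain ⟨zb, zb1, zb2⟩ := hy x y b L (by omega)
    obtain ⟨s, hs, hs9⟩ := hb za za1
    obtain ⟨t, ht, ht9⟩ := hb zb zb1
    have ea : E'.d a za ≤ 2 := el_two F hL (by omega)
    have eb : E'.d b zb ≤ 2 := el_two F hL (by omega)
    have eab : E.d a b ≤ 1 := (el_le_one F hL).mpr (Or.inr ⟨i, trivial, ha, hb'⟩)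
    have as' : E'.d a (γ s) ≤ 11 := by
      have := E'.tri a za (γ s)
      omega
    have bt' : E'.d b (γ t) ≤ 11 := by
      have := E'.tri b zb (γ t)
      omega
    have st : E.d (γ s) (γ t) ≤ 23 := by
      have u1 := E.tri (γ s) a (γ t)
      have u2 := E.tri a b (γ t)
      have u3 := hmono a (γ s)
      have u4 := hmono b (γ t)
      have u5 := E.comm a (γ s)
      omega
    have st' : E'.d (γ s) (γ t) ≤ 23 := by
      rcases le_total s t with h | h
      · have u1 := gE s t h ht
        have u2 := gE' s t h ht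
        omega
      · have u1 := gE t s h hs
        have u2 := gE' t s h hs
        have u3 := E.comm (γ s) (γ t)
        have u4 := E'.comm (γ s) (γ t)
        omega
    have ab' : E'.d a b ≤ 45 := by
      have u1 := E'.tri a (γ s) b
      have u2 := E'.tri (γ s) (γ t) b
      have u3 := E'.comm b (γ t)
      omega
    have hl := lip_el F hL i a b 45 ab'
    have v1 := abs_sub_le (F.c i x) (F.c i a) (F.c i y)
    have v2 := abs_sub_le (F.c i a) (F.c i b) (F.c i y)
    rw [abs_sub_comm] at p2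
    push_cast at hl
    linarith
  · push Not at hall
    obtain ⟨s, hs, hn⟩ := hall
    have hr := (el_le_one F hL (S := Set.univ)).mp (g2 s hs)
    rcases hr with h | ⟨j, _, hj1, hj2⟩
    · exact absurd (Or.inl h) hn
    · have hji : j = i := by
        by_contra hne
        exact hn (Or.inr ⟨j, hne, hj1, hj2⟩)
      subst hji
      refine ⟨γ s, hj1, γ (s + 1), hj2, ?_⟩
      have a1 := chain_le' E γ N g2 0 s (by omega) (by omega)
      rw [g0] at a1
      have a2 := g1 (s + 1) (by omega)
      omega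

end El

end Telec

open Telec in
theorem thm_elec (h1 : S_hyp) (h2 : S_bow) : S_elec := by
  intro Q V I _ _ _ X δ L F hX h4 hδ hL
  refine ⟨el F hL Set.univ, ?_⟩
  refine ⟨el_inv F hL hX, (bow_el F hL h1 h2 h4 hδ Set.univ).2, fun p q h => el_zero F hL h,
    fun p q h => (el_le_one F hL).mpr (Or.inl h),
    fun i p hp q hq => (el_le_one F hL).mpr (Or.inr ⟨i, trivial, hp, hq⟩), ?_,
    fun i x y h => bgi_el F hL h1 h2 h4 hδ i x y h⟩
  intro p q h
  rcases (el_le_one F hL).mp h with h | ⟨j, _, h3, h4⟩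
  · exact Or.inl h
  · exact Or.inr ⟨j, h3, h4⟩

end Pool.Agent.H59Z.NA
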