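import Pool.Agent.H59Z.NA.St

set_option autoImplicit false

/-!
# One step of the tower, for an arbitrary extension `G → Q` (helper233)
-/

namespace Pool.Agent.H59Z.NA

namespace Text

section fam

variable {Q V I : Type} [Group Q] [MulAction Q V] [MulAction Q I] {X : GM V} {L : ℕ}
  (F : Fam Q V I X L)

lemma c_zpow (i : I) (k : ℤ) (p : V) : F.c i (F.gen i ^ k • p) = F.c i p + k * F.tr i := by
  induction k using Int.induction_on generalizing p with
  | zero => simp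
  | succ k ih =>
    rw [zpow_add_one, mul_smul, ih, F.c_gen]; push_cast; ring
  | pred k ih =>
    have h := F.c_gen i ((F.gen i)⁻¹ • p)
    rw [smul_inv_smul] at h
    rw [zpow_sub_one, mul_smul, ih]; push_cast; linarith

lemma gen_zpow_eq_one (i : I) {k : ℤ} (h : F.gen i ^ k = 1) : k = 0 := by
  obtain ⟨p, -⟩ := F.Y_ne i
  have := c_zpow F i k p
  rw [h, one_smul] at this
  have h2 : (k : ℝ) * F.tr i = 0 := by linarith
  exact_mod_cast (mul_eq_zero.1 h2).resolve_right (F.tr_pos i).ne'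

/-- equivariant lifts of the relators -/
lemma lifts {G : Type} [Group G] (ρ : G →* Q) (hρ : Function.Surjective ρ) (n : ℕ) (h : G → G)
    (_h1 : ∀ g, ρ (h g) = ρ g ^ n) (h2 : ∀ g, Commute (h g) g)
    (h3 : ∀ g e, ρ e = 1 → Commute (h g) e) :
    ∃ (a T : I → G), (∀ i, ρ (T i * a i * (T i)⁻¹) = F.gen i) ∧
      ∀ (g : G) (i : I), g * (T i * h (a i) * (T i)⁻¹) * g⁻¹ =
        T (ρ g • i) * h (a (ρ g • i)) * (T (ρ g • i))⁻¹ := by
  classical
  let rep : I → I := fun i => (Quotient.mk (MulAction.orbitRel Q I) i).out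
  have hrep : ∀ i, ∃ t : Q, t • rep i = i := by
    intro i
    have : (MulAction.orbitRel Q I) (rep i) i := Quotient.mk_out (s := MulAction.orbitRel Q I) i
    have h' := (MulAction.orbitRel Q I).symm this
    exact MulAction.orbitRel_apply.1 h'
  have hrep2 : ∀ (q : Q) i, rep (q • i) = rep i := by
    intro q i
    have : Quotient.mk (MulAction.orbitRel Q I) (q • i) = Quotient.mk (MulAction.orbitRel Q I) i :=
      Quotient.sound (MulAction.orbitRel_apply.2 ⟨q, rfl⟩)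
    simp only [rep, this]
  choose t ht using hrep
  choose s hs using hρ
  refine ⟨fun i => s (F.gen (rep i)), fun i => s (t i), fun i => ?_, fun g i => ?_⟩
  · simp only [map_mul, map_inv, hs]
    rw [← F.gen_smul, ht]
  · simp only [hrep2]
    set u : G := (s (t (ρ g • i)))⁻¹ * g * s (t i) with hu
    have hu1 : ρ u • rep i = rep i := by
      simp only [hu, map_mul, map_inv, hs, mul_smul, ht]
      rw [inv_smul_eq_iff, ← hrep2 (ρ g) i, ht]
    obtain ⟨k, hk⟩ := Subgroup.mem_zpowers_iff.1 ((F.stab _ _).1 hu1)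
    have hc : Commute (h (s (F.gen (rep i)))) u := by
      have e : u = s (F.gen (rep i)) ^ k * ((s (F.gen (rep i)) ^ k)⁻¹ * u) := by group
      rw [e]
      refine ((h2 _).zpow_right k).mul_right (h3 _ _ ?_)
      simp only [map_mul, map_inv, map_zpow, hs, hk, inv_mul_cancel]
    have e2 : g * (s (t i) * h (s (F.gen (rep i))) * (s (t i))⁻¹) * g⁻¹ =
        s (t (ρ g • i)) * (u * h (s (F.gen (rep i))) * u⁻¹) * (s (t (ρ g • i)))⁻¹ := by
      rw [hu]; group
    rw [e2, ← hc.eq, mul_inv_cancel_right]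

end fam

/-- The family of axes of all short loxodromic elements. -/
lemma lines_short (s0 : S_tau) (s1 : S_lines) (n : ℕ) (hn2 : 10 ^ 32 ≤ n)
    (Q V : Type) [Group Q] [MulAction Q V] (X : GM V)
    (hg : Good Q V X 122 (10 ^ 9) (1 / (3 * 10 ^ 13)) n) :
    ∃ (I : Type) (_ : MulAction Q I) (F : Fam Q V I X (2 * 10 ^ 9)), (∀ i, F.mu i = n) ∧
      ∀ g : Q, g ^ n = 1 ∨ (∃ i, g ∈ Subgroup.zpowers (F.gen i)) ∨ 1 < X.tau g := by
  have hnR : (10 ^ 32 : ℝ) ≤ n := by exact_mod_cast hn2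
  obtain ⟨-, t2, -, t4, t5, -, -⟩ := s0 Q V X hg.inv
  obtain ⟨I, _, F, hF1, hF2⟩ := s1 Q V X 122 (10 ^ 9) (2 * 10 ^ 9) 1
    (fun g => g ^ n ≠ 1 ∧ X.tau g ≤ 1 ∧ ∀ a, Commute a g → a ∈ Subgroup.zpowers g)
    (fun _ => n) hg.inv hg.four hg.cyc hg.mal hg.acyl (by norm_num) (by norm_num)
    (by
      rintro g s ⟨p1, p2, p3⟩
      refine ⟨⟨?_, by rw [t5]; exact p2, ?_⟩, rfl⟩
      · intro h0
        rw [conj_pow] at h0
        apply p1
        have : g ^ n = s⁻¹ * (s * g ^ n * s⁻¹) * s := by group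
        rw [this, h0]; group
      · intro a ha
        have hc : Commute (s⁻¹ * a * s) g := by
          have e := ha.eq
          change s⁻¹ * a * s * g = g * (s⁻¹ * a * s)
          calc s⁻¹ * a * s * g = s⁻¹ * (a * (s * g * s⁻¹)) * s := by group
            _ = s⁻¹ * ((s * g * s⁻¹) * a) * s := by rw [e]
            _ = g * (s⁻¹ * a * s) := by group
        obtain ⟨k, hk⟩ := Subgroup.mem_zpowers_iff.1 (p3 _ hc)
        refine Subgroup.mem_zpowers_iff.2 ⟨k, ?_⟩
        rw [conj_zpow, hk]; group)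
    (by
      rintro g ⟨p1, p2, p3⟩
      have h0 := (hg.dich g).resolve_left p1
      refine ⟨lt_of_lt_of_le (by norm_num) h0, by exact_mod_cast p2, p3, ?_⟩
      have : (10 ^ 32 : ℝ) * (1 / (3 * 10 ^ 13)) ≤ n * X.tau g :=
        mul_le_mul hnR h0 (by norm_num) (by positivity)
      push_cast
      linarith)
  refine ⟨I, inferInstance, F, fun i => (hF1 i).2, fun g => ?_⟩
  by_cases p1 : g ^ n = 1
  · exact Or.inl p1
  by_cases p2 : 1 < X.tau g
  · exact Or.inr (Or.inr p2)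
  push Not at p2
  have hg1 : g ≠ 1 := by rintro rfl; exact p1 (one_pow n)
  obtain ⟨g0, hg0⟩ := hg.cyc g hg1
  obtain ⟨e, he⟩ := Subgroup.mem_zpowers_iff.1 (hg0 g (Commute.refl g))
  have he0 : e ≠ 0 := by rintro rfl; exact hg1 (by rw [← he, zpow_zero])
  have q1 : g0 ^ n ≠ 1 := by
    intro h0
    apply p1
    rw [← he, ← zpow_natCast, ← zpow_mul, mul_comm e (n : ℤ), zpow_mul, zpow_natCast, h0, one_zpow]
  have q2 : X.tau g0 ≤ 1 := by
    have h1 := t4 g0 e
    rw [he] at h1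
    have h2 : (1 : ℝ) ≤ |(e : ℝ)| := by exact_mod_cast Int.one_le_abs he0
    nlinarith [t2 g0]
  have q3 : ∀ a, Commute a g0 → a ∈ Subgroup.zpowers g0 := by
    intro a ha
    apply hg0
    rw [← he]
    exact ha.zpow_right e
  obtain ⟨i, hi⟩ := hF2 g0 ⟨q1, q2, q3⟩
  refine Or.inr (Or.inl ⟨i, ?_⟩)
  rw [← he]
  refine Subgroup.zpow_mem _ ?_ e
  rcases hi with hi | hi
  · rw [hi]; exact Subgroup.mem_zpowers _
  · rw [hi]; exact Subgroup.inv_mem _ (Subgroup.mem_zpowers _)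

/-- One step of the tower for an arbitrary extension: `h g` is the chosen lift of the relator
`(ρ g) ^ n`. -/
theorem gen_step (s0 : S_tau) (s1 : S_lines) (s2 : S_elec) (s3 : S_wind) (s4 : S_quo) (s5 : S_step)
    (n : ℕ) (hn : Odd n) (hn2 : 10 ^ 32 ≤ n)
    (G Q V : Type) [Group G] [Group Q] [MulAction Q V] (X : GM V) (ρ : G →* Q)
    (hg : Good Q V X 122 (10 ^ 9) (1 / (3 * 10 ^ 13)) n) (hρ : Function.Surjective ρ)
    (h : G → G) (h1 : ∀ g, ρ (h g) = ρ g ^ n) (h2 : ∀ g, Commute (h g) g)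
    (h3 : ∀ g e, ρ e = 1 → Commute (h g) e) :
    ∃ (K : Subgroup G) (Q' V' : Type) (_ : Group Q') (_ : MulAction Q' V') (X' : GM V')
      (β : Q →* Q') (φ : V → V'), K.Normal ∧
      Good Q' V' X' 122 (10 ^ 9) (1 / (3 * 10 ^ 13)) n ∧ Function.Surjective β ∧
      (∀ k ∈ K, ρ k = 1 → k = 1) ∧
      (∀ g, β (ρ g) = 1 ↔ ∃ k ∈ K, ρ k = ρ g) ∧
      (∀ q, β q = 1 → q ∈ Subgroup.normalClosure (Set.range fun w : Q => w ^ n)) ∧
      (∀ (q : Q) (p : V), φ (q • p) = β q • φ p) ∧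
      (∀ p q : V, X'.d (φ p) (φ q) ≤ 1 ∨ X'.d (φ p) (φ q) < X.d p q) ∧
      (∀ q : Q, X.tau q ≤ 1 → β q ^ n = 1) ∧
      ∀ (q : Q') (m : ℕ), 0 < m → q ^ m = 1 → ∃ g : G, β (ρ g) = q ∧
        (ρ g ^ n = 1 ∨ ∃ (a t : G) (j : ℤ), h a ∈ K ∧ g = t * a ^ j * t⁻¹ ∧
          ∀ i : ℤ, β (ρ a) ^ i = 1 → (n : ℤ) ∣ i) := by
  have hn0 : 0 < n := hn.pos
  obtain ⟨I, _, F, hmu, htri⟩ := lines_short s0 s1 n hn2 Q V X hg
  obtain ⟨E, hE⟩ := s2 Q V I X 122 (2 * 10 ^ 9) F hg.inv hg.four (by norm_num) (by norm_num)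
  have hzp : ∀ i, ∀ k : ℤ, (F.gen i ^ F.mu i) ^ k = 1 → k = 0 := by
    intro i k hk
    rw [← zpow_natCast, ← zpow_mul] at hk
    have := gen_zpow_eq_one F i hk
    rw [hmu] at this
    exact (mul_eq_zero.1 this).resolve_left (by exact_mod_cast hn0.ne')
  have hInd := s3 Q V I X _ F E hg.inv (by norm_num) hE Q (MonoidHom.id Q)
    (fun i => Subgroup.zpowers (F.gen i ^ F.mu i))
    (by
      intro g i x hx
      obtain ⟨k, rfl⟩ := Subgroup.mem_zpowers_iff.1 hx
      refine Subgroup.mem_zpowers_iff.2 ⟨k, ?_⟩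
      simp only [MonoidHom.id_apply, F.gen_smul, F.mu_smul, conj_pow, conj_zpow])
    (fun i x hx => hx) (fun i x _ hx => hx)
  obtain ⟨W, J, _, _, A, φ, hq⟩ := s4 Q V I X _ F E hg.ne hg.inv (by norm_num) hE hInd
  obtain ⟨hg', htor⟩ := s5 Q V I X 122 (10 ^ 9) (2 * 10 ^ 9) n _ 1 F _ W J _ A φ hg hn
    (fun i => by rw [hmu]) (by norm_num) one_pos le_rfl
    (fun g => by
      rcases htri g with h' | h' | h'
      · exact Or.inl h'
      · exact Or.inr (Or.inl h')
      · exact Or.inr (Or.inr h'.le)) hq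
  obtain ⟨a, T, ha, hT⟩ := lifts F ρ hρ n h h1 h2 h3
  set r : I → G := fun i => T i * h (a i) * (T i)⁻¹ with hr
  have hρr : ∀ i, ρ (r i) = F.gen i ^ F.mu i := by
    intro i
    rw [hmu, ← ha i]
    simp only [hr, map_mul, map_inv, h1, conj_pow]
  have hconj : ∀ (g : G) (i : I), ∀ x ∈ Subgroup.zpowers (r i),
      g * x * g⁻¹ ∈ Subgroup.zpowers (r (ρ g • i)) := by
    intro g i x hx
    obtain ⟨k, rfl⟩ := Subgroup.mem_zpowers_iff.1 hx
    refine Subgroup.mem_zpowers_iff.2 ⟨k, ?_⟩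
    rw [← conj_zpow]
    simp only [hr, hT]
  have hInd2 := s3 Q V I X _ F E hg.inv (by norm_num) hE G ρ (fun i => Subgroup.zpowers (r i))
    hconj
    (by
      intro i x hx
      obtain ⟨k, rfl⟩ := Subgroup.mem_zpowers_iff.1 hx
      exact Subgroup.mem_zpowers_iff.2 ⟨k, by rw [map_zpow, hρr]⟩)
    (by
      intro i x hx h0
      obtain ⟨k, rfl⟩ := Subgroup.mem_zpowers_iff.1 hx
      rw [map_zpow, hρr] at h0
      rw [hzp i k h0, zpow_zero])
  set K : Subgroup G := ⨆ i, Subgroup.zpowers (r i) with hK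
  have hKn : K.Normal := by
    constructor
    intro k hk g
    refine Subgroup.iSup_induction (C := fun k => g * k * g⁻¹ ∈ K) _ hk ?_ ?_ ?_
    · intro i x hx
      exact Subgroup.mem_iSup_of_mem _ (hconj g i x hx)
    · simp
    · intro x y hx hy
      have : g * (x * y) * g⁻¹ = (g * x * g⁻¹) * (g * y * g⁻¹) := by group
      rw [this]; exact K.mul_mem hx hy
  have hrK : ∀ i, r i ∈ K := fun i => Subgroup.mem_iSup_of_mem i (Subgroup.mem_zpowers _)
  have hmap : K.map ρ = F.K := by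
    apply le_antisymm
    · rw [Subgroup.map_le_iff_le_comap]
      refine iSup_le fun i => ?_
      rw [Subgroup.zpowers_le, Subgroup.mem_comap, hρr]
      exact Subgroup.subset_closure ⟨i, rfl⟩
    · rw [Fam.K, Subgroup.closure_le]
      rintro _ ⟨i, rfl⟩
      exact ⟨r i, hrK i, hρr i⟩
  have hβ : ∀ q : Q, QuotientGroup.mk' F.K q = 1 ↔ q ∈ F.K := fun q => QuotientGroup.eq_one_iff q
  refine ⟨K, Q ⧸ F.K, W, inferInstance, inferInstance, A.Z, QuotientGroup.mk' F.K, φ, hKn, ?_,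
    hq.surj, ?_, ?_, ?_, hq.φ_smul, ?_, ?_, ?_⟩
  · convert hg' using 1
    norm_num
  · obtain ⟨x⟩ := hg.ne
    refine hInd2 x (fun k => ρ k = 1 → k = 1) (fun _ => rfl) ?_
    intro k _ i y _ hb _ hk
    rw [hk, one_smul, sub_self, abs_zero] at hb
    norm_num at hb
  · intro g
    rw [hβ, ← hmap]
    rfl
  · intro q hq'
    rw [hβ] at hq'
    refine (Subgroup.closure_le _).2 ?_ hq'
    rintro _ ⟨i, rfl⟩
    exact Subgroup.subset_normalClosure ⟨F.gen i, by simp only [hmu]⟩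
  · intro p q
    by_cases hd : X.d p q ≤ 2 * 10 ^ 9
    · left
      exact hq.scale 0 p q (by omega)
    · right
      have := hq.scale (X.d p q - 2) p q (by omega)
      omega
  · intro q hq'
    rcases htri q with h' | ⟨i, h'⟩ | h'
    · rw [← map_pow, h', map_one]
    · obtain ⟨k, rfl⟩ := Subgroup.mem_zpowers_iff.1 h'
      have := hq.rel i
      rw [hmu, map_pow] at this
      rw [map_zpow, ← zpow_natCast, ← zpow_mul, mul_comm k (n : ℤ), zpow_mul, zpow_natCast, this,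
        one_zpow]
    · linarith
  · intro q m hm hqm
    obtain ⟨g', hg1, hg2⟩ := htor q m hm hqm
    rcases hg2 with h' | ⟨i, h'⟩
    · obtain ⟨g, rfl⟩ := hρ g'
      exact ⟨g, hg1, Or.inl h'⟩
    · obtain ⟨k, rfl⟩ := Subgroup.mem_zpowers_iff.1 h'
      refine ⟨T i * a i ^ k * (T i)⁻¹, ?_, Or.inr ⟨a i, T i, k, ?_, rfl, ?_⟩⟩
      · rw [← conj_zpow, map_zpow, ha, hg1]
      · have := hKn.conj_mem _ (hrK i) (T i)⁻¹
        simpa [hr, mul_assoc] using this
      · intro j hj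
        have e : QuotientGroup.mk' F.K (F.gen i ^ j) = 1 := by
          rw [← ha, map_zpow]
          simp only [map_mul, map_inv, conj_zpow, hj, mul_one, mul_inv_cancel]
        obtain ⟨l, hl⟩ := Subgroup.mem_zpowers_iff.1
          (hq.kerstab i _ (Subgroup.mem_zpowers_iff.2 ⟨j, rfl⟩) e)
        rw [hmu, ← zpow_natCast, ← zpow_mul] at hl
        have : F.gen i ^ (j - n * l) = 1 := by rw [zpow_sub, hl, mul_inv_cancel]
        exact ⟨l, by linarith [gen_zpow_eq_one F i this]⟩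

end Text

theorem thm_ext (h1 : S_tau) (h2 : S_lines) (h3 : S_elec) (h4 : S_wind) (h5 : S_quo)
    (h6 : S_step) : S_ext := by
  intro n hn hn2 G Q V _ _ _ X ρ c hg hρ hker hc hc1 htf
  have hn0 : 0 < n := hn.pos
  have hρc : ρ c = 1 := (hker c).2 (Subgroup.mem_zpowers c)
  have htfz : ∀ (g : G) (m : ℤ), g ^ m = 1 → g = 1 ∨ m = 0 := by
    intro g m hm
    by_cases h0 : m = 0
    · exact Or.inr h0
    · left
      refine htf g m.natAbs (Int.natAbs_pos.2 h0) ?_
      exact pow_natAbs_eq_one.2 hm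
  obtain ⟨K, Q', V', _, _, X', β, φ, hKn, hg', hβ, hKE, hK, hb, he, hd, ht, htor⟩ :=
    Text.gen_step h1 h2 h3 h4 h5 h6 n hn hn2 G Q V X ρ hg hρ (fun g => g ^ n * c⁻¹)
      (fun g => by simp [hρc])
      (fun g => ((Commute.refl g).pow_left n).mul_left (hc g).inv_left)
      (fun g e hρe => by
        obtain ⟨k, rfl⟩ := Subgroup.mem_zpowers_iff.1 ((hker e).1 hρe)
        exact ((hc _).zpow_left k).symm)
  let ρ' : G ⧸ K →* Q' := QuotientGroup.lift K (β.comp ρ) fun k hk => (hK k).2 ⟨k, hk, rfl⟩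
  have hρ' : ∀ g : G, ρ' (QuotientGroup.mk' K g) = β (ρ g) := fun g => rfl
  have hα : ∀ g : G, QuotientGroup.mk' K g = 1 ↔ g ∈ K := fun g => QuotientGroup.eq_one_iff g
  have hker' : ∀ g : G ⧸ K, ρ' g = 1 ↔ g ∈ Subgroup.zpowers (QuotientGroup.mk' K c) := by
    intro g
    obtain ⟨g, rfl⟩ := QuotientGroup.mk'_surjective K g
    rw [hρ', hK]
    constructor
    · rintro ⟨k, hk, hk2⟩
      obtain ⟨j, hj⟩ := Subgroup.mem_zpowers_iff.1 ((hker (k⁻¹ * g)).1 (by simp [hk2]))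
      refine Subgroup.mem_zpowers_iff.2 ⟨j, ?_⟩
      rw [← map_zpow, hj, map_mul, map_inv, (hα k).2 hk, inv_one, one_mul]
    · intro hz
      obtain ⟨j, hj⟩ := Subgroup.mem_zpowers_iff.1 hz
      refine ⟨g * (c ^ j)⁻¹, (hα _).1 ?_, by simp [hρc]⟩
      rw [map_mul, map_inv, map_zpow, hj, mul_inv_cancel]
  refine ⟨G ⧸ K, Q', V', inferInstance, inferInstance, inferInstance, X', ρ',
    QuotientGroup.mk' K, β, φ, hg', ?_, hker', ?_, ?_, QuotientGroup.mk'_surjective K, hρ', hb, he,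
    hd, ht⟩
  · intro q
    obtain ⟨q, rfl⟩ := hβ q
    obtain ⟨g, rfl⟩ := hρ q
    exact ⟨_, hρ' g⟩
  · intro h0
    exact hc1 (hKE c ((hα c).1 h0) hρc)
  · intro γ m hm hγ
    obtain ⟨g, hg1, hg2⟩ := htor (ρ' γ) m hm (by rw [← map_pow, hγ, map_one])
    obtain ⟨s, hs⟩ := Subgroup.mem_zpowers_iff.1
      ((hker' ((QuotientGroup.mk' K g)⁻¹ * γ)).1 (by rw [map_mul, map_inv, hρ', hg1, inv_mul_cancel]))
    have hγ2 : γ = QuotientGroup.mk' K (g * c ^ s) := by
      rw [map_mul, map_zpow, hs, mul_inv_cancel_left]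
    rcases hg2 with h' | ⟨a, t, j, ha, rfl, hj⟩
    · have e1 : (g * c ^ s) ^ (m * n) = 1 := by
        apply hKE
        · rw [← hα, map_pow, ← hγ2, pow_mul, hγ, one_pow]
        · rw [map_pow, map_mul, map_zpow, hρc, one_zpow, mul_one, mul_comm, pow_mul, h', one_pow]
      rw [hγ2, htf _ _ (Nat.mul_pos hm hn0) e1, map_one]
    · have e0 : QuotientGroup.mk' K a ^ n = QuotientGroup.mk' K c := by
        have := (hα _).2 ha
        rwa [map_mul, map_inv, map_pow, mul_inv_eq_one] at this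
      have e1 : γ = QuotientGroup.mk' K t * QuotientGroup.mk' K a ^ (j + n * s) *
          (QuotientGroup.mk' K t)⁻¹ := by
        rw [zpow_add, zpow_mul, zpow_natCast, e0, hγ2, mul_assoc (t * a ^ j),
          ← ((hc t⁻¹).zpow_left s).eq]
        simp only [map_mul, map_zpow, map_inv, mul_assoc]
      have e2 : QuotientGroup.mk' K a ^ ((j + n * s) * m) = 1 := by
        rw [e1, conj_pow, conj_eq_one_iff] at hγ
        rw [zpow_mul, zpow_natCast, hγ]
      obtain ⟨l, hl⟩ := hj _ (by rw [← hρ', ← map_zpow, e2, map_one])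
      rw [hl, zpow_mul, zpow_natCast, e0, ← map_zpow, hα] at e2
      have e3 := hKE _ e2 (by rw [map_zpow, hρc, one_zpow])
      have e4 : l = 0 := (htfz c l e3).resolve_left hc1
      rw [e4, mul_zero] at hl
      have e5 : j + n * s = 0 := (mul_eq_zero.1 hl).resolve_right (by exact_mod_cast hm.ne')
      rw [e1, e5, zpow_zero, mul_one, mul_inv_cancel]

end Pool.Agent.H59Z.NA
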