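import Pool.Agent.H59Z.NA.St

set_option autoImplicit false

namespace Pool.Agent.H59Z.NA

namespace Tfp

variable {R W J : Type} [Group R] [MulAction R W] [MulAction R J] {L : ℕ} (A : AG R W J L)

lemma exists_near (l : J) (p : W) : ∃ a ∈ A.Y l, A.Z.d p a = A.Z.eta (A.Y l) p := by
  obtain ⟨a, ha⟩ := A.Y_ne l
  have hne : {m : ℕ | ∃ a ∈ A.Y l, A.Z.d p a = m}.Nonempty := ⟨_, a, ha, rfl⟩
  exact Nat.sInf_mem hne

lemma d_le_eta (l : J) (p y : W) (hy : y ∈ A.Y l) : A.Z.d y p ≤ A.Z.eta (A.Y l) p + 1 := by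
  obtain ⟨a, ha, h⟩ := exists_near A l p
  have h1 := A.Z.tri y a p
  have h2 := A.clique l y hy a ha
  have h3 := A.Z.comm a p
  omega

end Tfp

open Tfp in
theorem thm_fp (h1 : S_pos) : S_fp := by
  intro R W J _ _ _ L A H x r hr
  obtain ⟨P1, P2, P3, -, -⟩ := h1 R W J L A
  classical
  have hL : (1 : ℝ) ≤ L := by exact_mod_cast A.hL
  have hex : ∃ ρ : ℕ, ∃ y : W, ∀ h ∈ H, A.Z.d y (h • x) ≤ ρ := ⟨r, x, hr⟩
  set ρ := Nat.find hex with hρ
  obtain ⟨y₀, hy₀⟩ : ∃ y : W, ∀ h ∈ H, A.Z.d y (h • x) ≤ ρ := Nat.find_spec hex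
  have noshrink : ∀ m : W, ¬ ∀ h ∈ H, A.Z.d m (h • x) + 1 ≤ ρ := by
    intro m hm
    have h0 := hm 1 H.one_mem
    have : ρ - 1 < ρ := by omega
    exact Nat.find_min hex this ⟨m, fun h hh => by have := hm h hh; omega⟩
  let Zs : W → Prop := fun y => ∀ h ∈ H, A.Z.d y (h • x) ≤ ρ
  have Zinv : ∀ g ∈ H, ∀ y, Zs y → Zs (g • y) := by
    intro g hg y hy h hh
    have e : h • x = g • ((g⁻¹ * h) • x) := by rw [smul_smul, mul_inv_cancel_left]
    rw [e, A.inv]
    exact hy _ (H.mul_mem (H.inv_mem hg) hh)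
  have Zdiam : ∀ y y', Zs y → Zs y' → A.Z.d y y' ≤ 245 := by
    intro y y' hy hy'
    by_contra hc
    obtain ⟨m, hm1, hm2⟩ := A.Z.geo y y' (A.Z.d y y' / 2) (Nat.div_le_self _ _)
    apply noshrink m
    intro h hh
    have f := A.four m (h • x) y y'
    have a1 := hy h hh
    have a2 := hy' h hh
    have c1 := A.Z.comm m y
    have c2 := A.Z.comm (h • x) y'
    have c3 := A.Z.comm (h • x) y
    omega
  let Cen : J → Prop := fun l => ∀ h ∈ H, A.Z.eta (A.Y l) (h • x) + 1 ≤ ρ
  have Cinv : ∀ g ∈ H, ∀ l, Cen l → Cen (g • l) := by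
    intro g hg l hl h hh
    have e : h • x = g • ((g⁻¹ * h) • x) := by rw [smul_smul, mul_inv_cancel_left]
    rw [e, P3]
    exact hl _ (H.mul_mem (H.inv_mem hg) hh)
  have CZ : ∀ l, Cen l → ∀ y ∈ A.Y l, Zs y := by
    intro l hl y hy h hh
    exact (d_le_eta A l _ y hy).trans (hl h hh)
  have Pa : ∀ l y y', Zs y → Zs y' → ¬ Cen l → A.ang l y y' ≤ 1200 * L := by
    intro l y y' hy hy' hl
    by_contra hc
    push Not at hc
    apply hl
    intro h hh
    have t := A.ang_tri l y (h • x) y'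
    by_cases h2 : (600 : ℝ) * L < A.ang l y (h • x)
    · have := P1 l _ _ h2
      have := hy h hh
      omega
    · have h3 : (600 : ℝ) * L < A.ang l y' (h • x) := by
        rw [A.ang_comm l y']
        push Not at h2
        linarith
      have := P1 l _ _ h3
      have := hy' h hh
      omega
  have Pb : ∀ l l' l'' y' y'', Cen l' → Cen l'' → l ≠ l' → l ≠ l'' → y' ∈ A.Y l' →
      y'' ∈ A.Y l'' → A.ang l y' y'' ≤ 2400 * L := by
    intro l l' l'' y' y'' c' c'' n' n'' hy' hy''
    by_contra hc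
    push Not at hc
    obtain ⟨y, hy⟩ := A.Y_ne l
    apply noshrink y
    intro h hh
    obtain ⟨a', ha', e'⟩ := exists_near A l' (h • x)
    obtain ⟨a'', ha'', e''⟩ := exists_near A l'' (h • x)
    have s1 := A.sep l l' n' y' hy' a' ha'
    have s2 := A.sep l l'' n'' a'' ha'' y'' hy''
    have t1 := A.ang_tri l y' a' y''
    have t2 := A.ang_tri l a' a'' y''
    have t3 := A.ang_tri l a' (h • x) a''
    have k := d_le_eta A l (h • x) y hy
    by_cases h2 : (600 : ℝ) * L < A.ang l (h • x) a'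
    · have := P1 l _ _ h2
      have := c' h hh
      omega
    · have h3 : (600 : ℝ) * L < A.ang l (h • x) a'' := by
        push Not at h2
        rw [A.ang_comm l (h • x)] at h2
        linarith
      have := P1 l _ _ h3
      have := c'' h hh
      omega
  by_cases hno : ∃ l, Cen l
  · obtain ⟨l, hl⟩ := hno
    by_cases hone : ∀ l', Cen l' → l' = l
    · exact Or.inl ⟨l, fun h hh => hone _ (Cinv h hh l hl)⟩
    · push Not at hone
      obtain ⟨l', hl', hne⟩ := hone
      obtain ⟨y', hy'⟩ := A.Y_ne l'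
      obtain ⟨p, hp, ep⟩ := exists_near A l y'
      have q1 : A.ang l y' p ≤ 600 * L := P2 l y' p ep.le
      have q2 : A.ang l p y' ≤ 600 * L := by rw [A.ang_comm]; exact q1
      refine Or.inr ⟨p, fun h hh => ⟨Zdiam _ _ (CZ l hl p hp) (Zinv h hh _ (CZ l hl p hp)), ?_⟩⟩
      intro m
      have hp' : h • p ∈ A.Y (h • l) := (A.Y_smul h l p).2 hp
      have hy'' : h • y' ∈ A.Y (h • l') := (A.Y_smul h l' y').2 hy'
      have c1 := Cinv h hh l hl
      have c2 := Cinv h hh l' hl'
      have hne' : h • l ≠ h • l' := fun e => hne (smul_left_cancel h e).symm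
      have q3 : A.ang (h • l) (h • y') (h • p) ≤ 600 * L := by rw [A.ang_smul]; exact q1
      by_cases m1 : m = l
      · subst m1
        by_cases m2 : m = h • m
        · have u1 := Pb m l' (h • l') y' (h • y') hl' c2 hne.symm (by rw [m2]; rwa [← m2, m2] at hne') hy' hy''
          rw [← m2] at q3
          have t1 := A.ang_tri m p y' (h • p)
          have t2 := A.ang_tri m y' (h • y') (h • p)
          linarith
        · have u1 := Pb m l' (h • m) y' (h • p) hl' c1 hne.symm m2 hy' hp'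
          have t1 := A.ang_tri m p y' (h • p)
          linarith
      · by_cases m2 : m = h • l
        · have u1 := Pb m l (h • l') p (h • y') hl c2 m1 (by rw [m2]; exact hne') hp hy''
          rw [← m2] at q3
          have t1 := A.ang_tri m p (h • y') (h • p)
          linarith
        · have u1 := Pb m l (h • l) p (h • p) hl c1 m1 m2 hp hp'
          linarith
  · push Not at hno
    refine Or.inr ⟨y₀, fun h hh => ⟨Zdiam _ _ hy₀ (Zinv h hh _ hy₀), fun l => ?_⟩⟩
    have := Pa l y₀ (h • y₀) hy₀ (Zinv h hh _ hy₀) (hno l)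
    linarith

end Pool.Agent.H59Z.NA
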