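import Pool.Agent.H59Z.NA.St

set_option autoImplicit false

namespace Pool.Agent.H59Z.NA

namespace Thyp

theorem walk {V : Type} (X : GM V) {ε : ℕ} (hs : X.Slim ε) (x y z : V) (n : ℕ) :
    ∀ p, X.d x p + X.d p y = X.d x y → X.d p y = n → X.d x p + X.d p z ≤ X.d x z + ε →
      ∃ q, X.d x q + X.d q y = X.d x y ∧ X.d x q + X.d q z ≤ X.d x z + ε ∧
        X.d y q + X.d q z ≤ X.d y z + ε + 2 := by
  induction n with
  | zero =>
    intro p h1 h2 h3
    refine ⟨p, h1, h3, ?_⟩
    have := X.tri p y z
    have := X.comm y p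
    omega
  | succ n ih =>
    intro p h1 h2 h3
    obtain ⟨q, e1, e2⟩ := X.geo p y 1 (by omega)
    have t1 := X.tri x p q
    have t2 := X.tri x q y
    have hq : X.d x q + X.d q y = X.d x y := by omega
    rcases hs x y z q hq with h | h
    · exact ih q hq (by omega) h
    · refine ⟨p, h1, h3, ?_⟩
      have := X.tri p q z
      have := X.comm y p
      have := X.comm y q
      omega

end Thyp

theorem thm_hyp : S_hyp := by
  intro V X
  refine ⟨?_, ?_, ?_⟩
  · intro ε hs x y z w
    obtain ⟨p, h1, h2, h3⟩ := Thyp.walk X hs x y z _ x (by rw [X.self, zero_add]) rfl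
      (by rw [X.self]; omega)
    have t1 := X.tri z p w
    have t2 := X.comm z p
    have t3 := X.comm y p
    rcases hs x y w p h1 with h | h <;> omega
  · intro δ h4 x y z e h
    obtain ⟨z', e1, e2⟩ := X.geo x y (min (X.d x z) (X.d x y)) (min_le_right _ _)
    refine ⟨z', by omega, ?_⟩
    have t1 := h4 z z' x y
    have t2 := X.comm z x
    have t3 := X.comm z' x
    omega
  · intro Q _ _ δ hinv h4 g x y z D h hx hy
    have t1 := h4 z (g • z) x y
    have t2 := X.tri (g • z) (g • y) y
    have t3 := X.tri (g • z) (g • x) x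
    have t4 := hinv g z y
    have t5 := hinv g z x
    have t6 := X.comm (g • y) y
    have t7 := X.comm (g • x) x
    have t8 := X.comm z x
    omega

end Pool.Agent.H59Z.NA
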