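import Pool.Agent.H59Z.NA.St

set_option autoImplicit false

/-!
# Lifting a group with a good almost fixed point
-/

namespace Pool.Agent.H59Z.NA

theorem thm_lfp : S_lfp := by
  intro Q V I _ _ _ X L F R W J _ _ _ π A φ _ hq H p hH
  have h3 : (1 : ℝ) ≤ L := by exact_mod_cast A.hL
  have ex : ∀ h : R, ∃ s : Q, h ∈ H → (π s = h ∧ X.d p (s • p) ≤ 2000000 * L ∧
      ∀ i, |F.c i p - F.c i (s • p)| ≤ 4600 * L) := by
    intro h
    by_cases hh : h ∈ H
    · obtain ⟨q, hq1, hq2, hq3⟩ := hq.lift (3600 * L) p (h • φ p) (hH h hh).2 (by linarith)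
      obtain ⟨s, hs⟩ := hq.surj h
      have e : φ (s • p) = φ q := by rw [hq.φ_smul, hs, hq1]
      obtain ⟨k, hk1, hk2⟩ := hq.φ_eq _ _ e
      refine ⟨k * s, fun _ => ⟨by rw [map_mul, hk1, hs, one_mul], ?_, ?_⟩⟩
      · rw [mul_smul, ← hk2]
        have h4 : (A.Z.d (φ p) (h • φ p) : ℝ) ≤ 245 := by exact_mod_cast (hH h hh).1
        have h5 : (X.d p q : ℝ) ≤ 2000000 * L := by nlinarith
        exact_mod_cast h5
      · intro i
        rw [mul_smul, ← hk2]
        have := hq3 i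
        linarith
    · exact ⟨1, fun h' => absurd h' hh⟩
  choose lf hlf using ex
  refine ⟨lf, fun h hh => hlf h hh, ?_⟩
  intro g hg h hh
  obtain ⟨g1, -, g3⟩ := hlf g hg
  obtain ⟨h1, -, h3'⟩ := hlf h hh
  obtain ⟨k1, -, k3⟩ := hlf (g * h) (H.mul_mem hg hh)
  have key : (lf (g * h))⁻¹ * (lf g * lf h) = 1 := by
    refine hq.inj _ p (by rw [map_mul, map_inv, map_mul, g1, h1, k1, inv_mul_cancel]) ?_
    intro i
    have e1 := F.c_smul (lf (g * h)) i p (((lf (g * h))⁻¹ * (lf g * lf h)) • p)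
    have e2 : lf (g * h) • (((lf (g * h))⁻¹ * (lf g * lf h)) • p) = lf g • lf h • p := by
      rw [mul_smul, smul_inv_smul, mul_smul]
    rw [e2] at e1
    rw [← e1]
    have e3 := F.c_smul (lf g) ((lf g)⁻¹ • lf (g * h) • i) p (lf h • p)
    rw [smul_inv_smul] at e3
    have a1 := abs_le.1 (k3 (lf (g * h) • i))
    have a2 := abs_le.1 (g3 (lf (g * h) • i))
    have a3 := abs_le.1 (h3' ((lf g)⁻¹ • lf (g * h) • i))
    rw [abs_lt]
    constructor <;> nlinarith [a1.1, a1.2, a2.1, a2.2, a3.1, a3.2]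
  exact inv_mul_eq_one.1 key

end Pool.Agent.H59Z.NA
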