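import Pool.Agent.H59Z.NA.St

set_option autoImplicit false

/-!
# The family of axes of short primitive loxodromic elements
-/

namespace Pool.Agent.H59Z.NA

namespace Tlines

section Metric

variable {V : Type} (X : GM V)

/-- A quasi-line. -/
def QL (δ : ℕ) (τ : ℝ) (y : ℤ → V) : Prop :=
  ∀ a b : ℤ, τ * |(a : ℝ) - b| ≤ X.d (y a) (y b) ∧
    (X.d (y a) (y b) : ℝ) ≤ τ * |(a : ℝ) - b| + 12 * δ

/-- The largest index of a nearest point. -/
def IsN (y : ℤ → V) (p : V) (k : ℤ) : Prop :=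
  (∀ a, X.d p (y k) ≤ X.d p (y a)) ∧ ∀ a, k < a → X.d p (y k) < X.d p (y a)

/-- The nearest point index. -/
noncomputable def kk (y : ℤ → V) (p : V) : ℤ := Classical.epsilon (IsN X y p)

variable {X}

theorem isN_unique {y : ℤ → V} {p : V} {k k' : ℤ} (h : IsN X y p k) (h' : IsN X y p k') :
    k = k' := by
  rcases lt_trichotomy k k' with hl | hl | hl
  · have := h.2 _ hl; have := h'.1 k; omega
  · exact hl
  · have := h'.2 _ hl; have := h.1 k'; omega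

theorem isN_exists {δ : ℕ} {τ : ℝ} {y : ℤ → V} (hτ : 0 < τ) (hy : QL X δ τ y) (p : V) :
    ∃ k, IsN X y p k := by
  classical
  have hex : ∃ m, ∃ a, X.d p (y a) = m := ⟨_, 0, rfl⟩
  have hm : ∃ a, X.d p (y a) = Nat.find hex := Nat.find_spec hex
  have hmin : ∀ a, Nat.find hex ≤ X.d p (y a) := fun a => Nat.find_min' hex ⟨a, rfl⟩
  generalize Nat.find hex = m at hm hmin
  have hb : ∃ b : ℤ, ∀ z : ℤ, X.d p (y z) = m → z ≤ b := by
    refine ⟨⌈((m : ℝ) + X.d p (y 0)) / τ⌉, fun z hz => ?_⟩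
    have h1 := (hy z 0).1
    have h2 := X.tri (y z) p (y 0)
    rw [X.comm (y z) p, hz] at h2
    have h3 : (X.d (y z) (y 0) : ℝ) ≤ m + X.d p (y 0) := by exact_mod_cast h2
    have h4 : (z : ℝ) ≤ |(z : ℝ) - ((0 : ℤ) : ℝ)| := by
      simpa using le_abs_self (z : ℝ)
    have h5 : τ * (z : ℝ) ≤ m + X.d p (y 0) :=
      le_trans (mul_le_mul_of_nonneg_left h4 hτ.le) (h1.trans h3)
    have h6 : (z : ℝ) ≤ ((m : ℝ) + X.d p (y 0)) / τ := by
      rw [le_div_iff₀ hτ]; linarith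
    have h7 := h6.trans (Int.le_ceil _)
    exact_mod_cast h7
  obtain ⟨k, hk, hk2⟩ := Int.exists_greatest_of_bdd hb hm
  refine ⟨k, fun a => by rw [hk]; exact hmin a, fun a ha => ?_⟩
  rw [hk]
  rcases (hmin a).lt_or_eq with h | h
  · exact h
  · have := hk2 a h.symm; omega

theorem kk_spec {δ : ℕ} {τ : ℝ} {y : ℤ → V} (hτ : 0 < τ) (hy : QL X δ τ y) (p : V) :
    IsN X y p (kk X y p) := Classical.epsilon_spec (isN_exists hτ hy p)

theorem kk_self {δ : ℕ} {τ : ℝ} {y : ℤ → V} (hτ : 0 < τ) (hy : QL X δ τ y) (a : ℤ) :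
    kk X y (y a) = a := by
  have h1 := (kk_spec hτ hy (y a)).1 a
  rw [X.self] at h1
  have h2 := (hy a (kk X y (y a))).1
  have h3 : X.d (y a) (y (kk X y (y a))) = 0 := by omega
  rw [h3] at h2
  have h4 : |(a : ℝ) - (kk X y (y a) : ℤ)| ≤ 0 := by
    by_contra hc
    push Not at hc
    have := mul_pos hτ hc
    simp only [Nat.cast_zero] at h2
    linarith
  have h5 : (a : ℝ) - (kk X y (y a) : ℤ) = 0 := abs_nonpos_iff.mp h4
  have h6 : ((kk X y (y a) : ℤ) : ℝ) = a := by linarith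
  exact_mod_cast h6

theorem conv_le {δ B : ℕ} {τ : ℝ} {y : ℤ → V} (h4 : X.Four δ) (hτ : 0 < τ) (hB : τ ≤ B)
    (hy : QL X δ τ y) (a c : ℤ) (hac : a ≤ c) (z : V)
    (hz : X.d (y a) z + X.d z (y c) = X.d (y a) (y c)) :
    ∃ b, X.d z (y b) ≤ 13 * δ + B := by
  have hz' : (X.d (y a) z : ℝ) + X.d z (y c) = X.d (y a) (y c) := by exact_mod_cast hz
  have hacr : (a : ℝ) ≤ c := by exact_mod_cast hac
  have e1 : |(a : ℝ) - c| = c - a := by rw [abs_sub_comm]; exact abs_of_nonneg (by linarith)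
  have hac1 := (hy a c).1
  have hac2 := (hy a c).2
  rw [e1] at hac1 hac2
  obtain ⟨t, ht⟩ : ∃ t : ℝ, t = (X.d (y a) z : ℝ) := ⟨_, rfl⟩
  have ht0 : 0 ≤ t := by rw [ht]; exact Nat.cast_nonneg _
  have f1 : τ * (⌊t / τ⌋ : ℝ) ≤ t := by
    have := Int.floor_le (t / τ)
    rw [le_div_iff₀ hτ] at this; linarith
  have f2 : t < τ * (⌊t / τ⌋ : ℝ) + τ := by
    have := Int.lt_floor_add_one (t / τ)
    rw [div_lt_iff₀ hτ] at this; linarith
  have f0 : (0 : ℝ) ≤ (⌊t / τ⌋ : ℝ) := by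
    have : 0 ≤ ⌊t / τ⌋ := Int.floor_nonneg.mpr (div_nonneg ht0 hτ.le)
    exact_mod_cast this
  have hδ : (0 : ℝ) ≤ δ := Nat.cast_nonneg _
  have hB0 : (0 : ℝ) ≤ B := Nat.cast_nonneg _
  by_cases hc : c ≤ a + ⌊t / τ⌋
  · refine ⟨c, ?_⟩
    have hc' : (c : ℝ) ≤ a + (⌊t / τ⌋ : ℝ) := by exact_mod_cast hc
    have : τ * ((c : ℝ) - a) ≤ τ * (⌊t / τ⌋ : ℝ) :=
      mul_le_mul_of_nonneg_left (by linarith) hτ.le
    have : (X.d z (y c) : ℝ) ≤ 13 * δ + B := by linarith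
    exact_mod_cast this
  · push Not at hc
    refine ⟨a + ⌊t / τ⌋, ?_⟩
    have hc' : (a : ℝ) + (⌊t / τ⌋ : ℝ) < c := by exact_mod_cast hc
    have g1 := (hy (a + ⌊t / τ⌋) a).2
    have g2 := (hy (a + ⌊t / τ⌋) c).2
    have e2 : |((a + ⌊t / τ⌋ : ℤ) : ℝ) - a| = (⌊t / τ⌋ : ℝ) := by
      push_cast; rw [add_sub_cancel_left]; exact abs_of_nonneg f0
    have e3 : |((a + ⌊t / τ⌋ : ℤ) : ℝ) - c| = c - a - (⌊t / τ⌋ : ℝ) := by
      push_cast; rw [abs_of_nonpos (by linarith)]; ring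
    rw [e2] at g1
    rw [e3] at g2
    have h5 := h4 z (y (a + ⌊t / τ⌋)) (y a) (y c)
    rw [X.comm z (y a)] at h5
    have key : (X.d z (y (a + ⌊t / τ⌋)) : ℝ) ≤ 13 * δ + B := by
      rcases le_total (X.d (y a) z + X.d (y (a + ⌊t / τ⌋)) (y c))
        (X.d z (y c) + X.d (y (a + ⌊t / τ⌋)) (y a)) with h | h
      · rw [max_eq_right h] at h5
        have h6 : (X.d z (y (a + ⌊t / τ⌋)) : ℝ) + X.d (y a) (y c) ≤
          X.d z (y c) + X.d (y (a + ⌊t / τ⌋)) (y a) + δ := by exact_mod_cast h5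
        linarith
      · rw [max_eq_left h] at h5
        have h6 : (X.d z (y (a + ⌊t / τ⌋)) : ℝ) + X.d (y a) (y c) ≤
          X.d (y a) z + X.d (y (a + ⌊t / τ⌋)) (y c) + δ := by exact_mod_cast h5
        nlinarith
    exact_mod_cast key

theorem conv {δ B : ℕ} {τ : ℝ} {y : ℤ → V} (h4 : X.Four δ) (hτ : 0 < τ) (hB : τ ≤ B)
    (hy : QL X δ τ y) (a c : ℤ) (z : V)
    (hz : X.d (y a) z + X.d z (y c) = X.d (y a) (y c)) :
    ∃ b, X.d z (y b) ≤ 13 * δ + B := by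
  rcases le_total a c with h | h
  · exact conv_le h4 hτ hB hy a c h z hz
  · refine conv_le h4 hτ hB hy c a h z ?_
    rw [X.comm (y c) z, X.comm z (y a), X.comm (y c) (y a)]; omega

theorem near_ineq {δ B : ℕ} {τ : ℝ} {y : ℤ → V} (h4 : X.Four δ) (hτ : 0 < τ) (hB : τ ≤ B)
    (hy : QL X δ τ y) (p : V) (a : ℤ) :
    X.d p (y (kk X y p)) + X.d (y (kk X y p)) (y a) ≤ X.d p (y a) + (28 * δ + 2 * B + 1) := by
  have hN := (kk_spec hτ hy p).1
  by_cases h : X.d (y (kk X y p)) (y a) ≤ 14 * δ + B + 1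
  · have := hN a; omega
  · obtain ⟨z, hz1, hz2⟩ := X.geo (y (kk X y p)) (y a) (14 * δ + B + 1) (by omega)
    obtain ⟨b, hb⟩ := conv h4 hτ hB hy (kk X y p) a z (by omega)
    have h1 := hN b
    have h2 := X.tri p z (y b)
    have h5 := h4 p z (y (kk X y p)) (y a)
    rw [X.comm z (y (kk X y p))] at h5
    omega

theorem dich {δ B : ℕ} {τ : ℝ} {y : ℤ → V} (h4 : X.Four δ) (hτ : 0 < τ) (hB : τ ≤ B)
    (hy : QL X δ τ y) (p q : V) :
    X.d p (y (kk X y p)) + X.d (y (kk X y p)) (y (kk X y q)) + X.d (y (kk X y q)) q ≤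
      X.d p q + (57 * δ + 4 * B + 2) ∨
    2 * X.d (y (kk X y p)) (y (kk X y q)) ≤ 57 * δ + 4 * B + 2 := by
  have h1 := near_ineq h4 hτ hB hy p (kk X y q)
  have h2 := near_ineq h4 hτ hB hy q (kk X y p)
  have h5 := h4 p (y (kk X y q)) q (y (kk X y p))
  rw [X.comm (y (kk X y q)) (y (kk X y p))] at h5 h2
  rw [X.comm q (y (kk X y q))] at h2
  omega

theorem kk_diff {δ : ℕ} {τ : ℝ} {y : ℤ → V} (hτ : 0 < τ) (hy : QL X δ τ y) (p q : V) :
    |τ * (kk X y p : ℝ) - τ * (kk X y q : ℝ)| ≤ X.d (y (kk X y p)) (y (kk X y q)) := by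
  rw [← mul_sub, abs_mul, abs_of_pos hτ]
  exact (hy _ _).1

theorem step_le {δ B : ℕ} {τ : ℝ} {y : ℤ → V} (hB : τ ≤ B) (hy : QL X δ τ y) (a : ℤ) :
    X.d (y a) (y (a + 1)) ≤ 12 * δ + B := by
  have h := (hy a (a + 1)).2
  have e : |(a : ℝ) - ((a + 1 : ℤ) : ℝ)| = 1 := by
    push_cast
    rw [show (a : ℝ) - (a + 1) = -1 by ring]; simp
  rw [e] at h
  have : (X.d (y a) (y (a + 1)) : ℝ) ≤ 12 * δ + B := by linarith
  exact_mod_cast this

end Metric

section Equiv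

variable {Q V : Type} [Group Q] [MulAction Q V] {X : GM V}

theorem kk_smul (hI : X.Inv Q) {δ : ℕ} {τ τ' : ℝ} {y y' : ℤ → V} (hτ : 0 < τ) (hy : QL X δ τ y)
    (hτ' : 0 < τ') (hy' : QL X δ τ' y') (s : Q) (j : ℤ) (h : ∀ a, y' a = s • y (a + j)) (p : V) :
    kk X y' (s • p) = kk X y p - j := by
  refine isN_unique (kk_spec hτ' hy' _) ⟨fun a => ?_, fun a ha => ?_⟩
  · rw [h, h, hI, hI, sub_add_cancel]
    exact (kk_spec hτ hy p).1 _
  · rw [h, h, hI, hI, sub_add_cancel]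
    exact (kk_spec hτ hy p).2 _ (by omega)

theorem tau_le_d (h1 : S_tau) (hI : X.Inv Q) (g : Q) (x : V) : X.tau g ≤ X.d x (g • x) := by
  have := (h1 Q V X hI).1 g x 1
  simpa using this

theorem ql_orbit (h1 : S_tau) (hI : X.Inv Q) {δ : ℕ} (g : Q) (x : V)
    (hx : ∀ k : ℤ, (X.d x (g ^ k • x) : ℝ) ≤ X.tau (g ^ k) + 12 * δ) :
    QL X δ (X.tau g) (fun a => g ^ a • x) := by
  intro a b
  have e : X.d (g ^ a • x) (g ^ b • x) = X.d x (g ^ (b - a) • x) := by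
    rw [← hI (g ^ a) x, smul_smul, ← zpow_add, add_sub_cancel]
  have e2 := (h1 Q V X hI).2.2.2.1 g (b - a)
  have e3 : |((b - a : ℤ) : ℝ)| = |(a : ℝ) - b| := by
    push_cast; exact abs_sub_comm _ _
  rw [e3] at e2
  have l1 := tau_le_d h1 hI (g ^ (b - a)) x
  have l2 := hx (b - a)
  simp only
  rw [e]
  constructor <;> linarith

/-- Conjugate up to inversion. -/
def Rel (g h : Q) : Prop := ∃ s : Q, h = s * g * s⁻¹ ∨ h = s * g⁻¹ * s⁻¹

theorem Rel.refl (g : Q) : Rel g g := ⟨1, Or.inl (by simp)⟩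

theorem Rel.symm {g h : Q} (H : Rel g h) : Rel h g := by
  obtain ⟨s, rfl | rfl⟩ := H
  · exact ⟨s⁻¹, Or.inl (by group)⟩
  · exact ⟨s⁻¹, Or.inr (by group)⟩

theorem Rel.trans {g h k : Q} (H : Rel g h) (H' : Rel h k) : Rel g k := by
  obtain ⟨s, rfl | rfl⟩ := H <;> obtain ⟨t, rfl | rfl⟩ := H'
  · exact ⟨t * s, Or.inl (by group)⟩
  · exact ⟨t * s, Or.inr (by group)⟩
  · exact ⟨t * s, Or.inr (by group)⟩
  · exact ⟨t * s, Or.inl (by group)⟩

theorem exists_rep (P : Q → Prop) : ∃ rep : Q → Q,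
    (∀ g, P g → P (rep g) ∧ Rel g (rep g)) ∧ ∀ g h, Rel g h → rep g = rep h := by
  refine ⟨fun g => Classical.epsilon (fun h => P h ∧ Rel g h), fun g hg => ?_, fun g h H => ?_⟩
  · exact Classical.epsilon_spec (p := fun h => P h ∧ Rel g h) ⟨g, hg, Rel.refl g⟩
  · have : (fun k => P k ∧ Rel g k) = (fun k => P k ∧ Rel h k) := by
      funext k
      exact propext ⟨fun ⟨a, b⟩ => ⟨a, H.symm.trans b⟩, fun ⟨a, b⟩ => ⟨a, H.trans b⟩⟩
    simp only [this]

/-- The oriented index set. -/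
abbrev Idx (P : Q → Prop) (rep : Q → Q) : Type := {g : Q // P g ∧ ∃ s : Q, g = s * rep g * s⁻¹}

/-- The conjugation action on the index set. -/
@[reducible] def act (P : Q → Prop) (rep : Q → Q) (hP : ∀ g s, P g → P (s * g * s⁻¹))
    (hr : ∀ g h, Rel g h → rep g = rep h) : MulAction Q (Idx P rep) where
  smul s i := ⟨s * i.1 * s⁻¹, hP _ _ i.2.1, by
    obtain ⟨t, ht⟩ := i.2.2
    refine ⟨s * t, ?_⟩
    rw [← hr i.1 (s * i.1 * s⁻¹) ⟨s, Or.inl rfl⟩]
    conv_lhs => rw [ht]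
    group⟩
  one_smul i := Subtype.ext (by show 1 * i.1 * 1⁻¹ = i.1; simp)
  mul_smul s t i := Subtype.ext (by
    show s * t * i.1 * (s * t)⁻¹ = s * (t * i.1 * t⁻¹) * s⁻¹; group)

theorem exists_bp (h1 : S_tau) (hI : X.Inv Q) {δ : ℕ} (P : Q → Prop) (rep : Q → Q)
    (hr1 : ∀ g, P g → P (rep g)) (hr : ∀ g h, Rel g h → rep g = rep h)
    (hc : ∀ g, P g → ∀ a, Commute a g → a ∈ Subgroup.zpowers g)
    (hax : ∀ r, P r → ∃ x : V, ∀ s : Q, Commute s r → (X.d x (s • x) : ℝ) ≤ X.tau s + 12 * δ) :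
    ∃ bp : Idx P rep → V,
      (∀ i (k : ℤ), (X.d (bp i) (i.1 ^ k • bp i) : ℝ) ≤ X.tau (i.1 ^ k) + 12 * δ) ∧
      ∀ (s : Q) (i i' : Idx P rep), i'.1 = s * i.1 * s⁻¹ →
        ∃ j : ℤ, bp i' = s • i.1 ^ j • bp i := by
  choose ax hax using hax
  have hcongr : ∀ r r' (h : P r) (h' : P r'), r = r' → ax r h = ax r' h' := by
    intro r r' h h' e; subst e; rfl
  have ht : ∀ i : Idx P rep, ∃ s : Q, i.1 = s * rep i.1 * s⁻¹ := fun i => i.2.2
  choose t ht using ht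
  refine ⟨fun i => t i • ax (rep i.1) (hr1 _ i.2.1), fun i k => ?_, fun s i i' hi => ?_⟩
  · have e : i.1 ^ k = t i * rep i.1 ^ k * (t i)⁻¹ := by
      conv_lhs => rw [ht i]
      exact conj_zpow
    rw [e, (h1 Q V X hI).2.2.2.2.1, smul_smul, inv_mul_cancel_right, mul_smul, hI]
    exact hax _ _ _ ((Commute.refl _).zpow_left k)
  · have e1 : rep i'.1 = rep i.1 := (hr _ _ ⟨s, Or.inl hi⟩).symm
    have e2 := ht i'
    have e3 := ht i
    rw [e1] at e2
    have hcomm : Commute ((s * t i)⁻¹ * t i') (rep i.1) := by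
      have e4 : t i' * rep i.1 * (t i')⁻¹ = s * (t i * rep i.1 * (t i)⁻¹) * s⁻¹ := by
        rw [← e2, ← e3, hi]
      show (s * t i)⁻¹ * t i' * rep i.1 = rep i.1 * ((s * t i)⁻¹ * t i')
      calc (s * t i)⁻¹ * t i' * rep i.1
          = (s * t i)⁻¹ * (t i' * rep i.1 * (t i')⁻¹) * t i' := by group
        _ = _ := by rw [e4]; group
    obtain ⟨j, hj⟩ := Subgroup.mem_zpowers_iff.mp (hc _ (hr1 _ i.2.1) _ hcomm)
    refine ⟨j, ?_⟩
    have e5 : i.1 ^ j = t i * rep i.1 ^ j * (t i)⁻¹ := by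
      conv_lhs => rw [e3]
      exact conj_zpow
    have e6 : t i' = s * i.1 ^ j * t i := by
      rw [e5, hj]; group
    simp only
    rw [hcongr _ _ (hr1 _ i'.2.1) (hr1 _ i.2.1) e1, e6, mul_smul, mul_smul]

theorem eq_of_commute (h1 : S_tau) (hI : X.Inv Q) (hM : Mal Q) (P : Q → Prop) (rep : Q → Q)
    (hr : ∀ g h, Rel g h → rep g = rep h)
    (hτ : ∀ g, P g → 0 < X.tau g)
    (hc : ∀ g, P g → ∀ a, Commute a g → a ∈ Subgroup.zpowers g)
    (i j : Idx P rep) (h : Commute i.1 j.1) : i = j := by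
  have hz := (h1 Q V X hI).2.2.2.1
  obtain ⟨a, ha⟩ := Subgroup.mem_zpowers_iff.mp (hc _ j.2.1 _ h)
  obtain ⟨b, hb⟩ := Subgroup.mem_zpowers_iff.mp (hc _ i.2.1 _ h.symm)
  have t1 := hz j.1 a
  have t2 := hz i.1 b
  rw [ha] at t1
  rw [hb] at t2
  have pi := hτ _ i.2.1
  have pj := hτ _ j.2.1
  have hab : |(a : ℝ)| * |(b : ℝ)| = 1 := by
    have : (|(a : ℝ)| * |(b : ℝ)| - 1) * X.tau i.1 = 0 := by
      rw [t2] at t1; linarith
    rcases mul_eq_zero.mp this with h | h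
    · linarith
    · linarith
  have hab' : |a| * |b| = 1 := by exact_mod_cast hab
  have ha1 : |a| = 1 := Int.eq_one_of_mul_eq_one_right (abs_nonneg a) hab'
  rcases (abs_eq (by norm_num : (0 : ℤ) ≤ 1)).mp ha1 with h' | h'
  · rw [h', zpow_one] at ha
    exact Subtype.ext ha.symm
  · exfalso
    rw [h', zpow_neg_one] at ha
    obtain ⟨s, hs⟩ := i.2.2
    obtain ⟨t, ht⟩ := j.2.2
    have e1 : rep j.1 = rep i.1 := hr _ _ ⟨1, Or.inr (by simp [ha])⟩
    rw [e1] at ht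
    have e2 : s * t⁻¹ * j.1 * (s * t⁻¹)⁻¹ = j.1⁻¹ := by
      rw [ha]
      conv_rhs => rw [hs]
      conv_lhs => rw [ht]
      group
    have hne : j.1 ≠ 1 := by
      intro h0
      have := hz j.1 0
      rw [zpow_zero] at this
      rw [h0] at pj this
      simp at this
      linarith
    have hcm := hM j.1 (s * t⁻¹) hne (by rw [e2]; exact (Commute.refl _).inv_right)
    have e3 : j.1 = j.1⁻¹ := by
      rw [← e2, hcm.eq]; group
    have e4 : j.1 ^ (2 : ℤ) = j.1 ^ (0 : ℤ) := by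
      rw [zpow_zero, zpow_two]
      nth_rewrite 2 [e3]
      simp
    have t3 := hz j.1 2
    have t4 := hz j.1 0
    rw [e4, t4] at t3
    simp at t3
    linarith

end Equiv

end Tlines

open Tlines in
theorem thm_lines (h1 : S_tau) (h2 : S_hyp) (h3 : S_acyl) (h4 : S_axis) : S_lines := by
  intro Q V _ _ X δ A L B P m hI hF hC hM hA hδ hL hPc hP
  obtain ⟨rep, hr1, hr⟩ := exists_rep P
  have hτ : ∀ g, P g → 0 < X.tau g := fun g hg => (hP g hg).1
  have hc : ∀ g, P g → ∀ a, Commute a g → a ∈ Subgroup.zpowers g := fun g hg => (hP g hg).2.2.1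
  obtain ⟨bp, hbp1, hbp2⟩ := exists_bp h1 hI (δ := δ) P rep (fun g hg => (hr1 g hg).1) hr hc
    (fun r hr' => h4 Q V X δ hI hF r (hτ r hr'))
  letI : MulAction Q (Idx P rep) := act P rep (fun g s hg => (hPc g s hg).1) hr
  have hsm : ∀ (s : Q) (i : Idx P rep), (s • i).1 = s * i.1 * s⁻¹ := fun _ _ => rfl
  let y : Idx P rep → ℤ → V := fun i a => i.1 ^ a • bp i
  have hy : ∀ i, QL X δ (X.tau i.1) (y i) := fun i => ql_orbit h1 hI i.1 (bp i) (hbp1 i)
  have hp : ∀ i : Idx P rep, 0 < X.tau i.1 := fun i => hτ _ i.2.1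
  have hB : ∀ i : Idx P rep, X.tau i.1 ≤ B := fun i => (hP _ i.2.1).2.1
  have hys : ∀ (s : Q) (i : Idx P rep), ∃ j : ℤ, ∀ a, y (s • i) a = s • y i (a + j) := by
    intro s i
    obtain ⟨j, hj⟩ := hbp2 s i (s • i) (hsm s i)
    refine ⟨j, fun a => ?_⟩
    simp only [y]
    rw [hj, hsm, conj_zpow, smul_smul, inv_mul_cancel_right, mul_smul, zpow_add, mul_smul]
  have hts : ∀ (s : Q) (i : Idx P rep), X.tau (s • i).1 = X.tau i.1 := fun s i => by
    rw [hsm, (h1 Q V X hI).2.2.2.2.1]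
  have hyg : ∀ (i : Idx P rep) a, i.1 • y i a = y i (a + 1) := by
    intro i a
    simp only [y]
    rw [smul_smul, add_comm, zpow_add, zpow_one]
  have hLr : (57 * δ + 4 * B + 2 : ℝ) ≤ L := by
    have : 57 * δ + 4 * B + 2 ≤ L := by omega
    exact_mod_cast this
  have hproj : ∀ i p q, (L : ℝ) < |X.tau i.1 * (kk X (y i) p : ℝ) - X.tau i.1 * (kk X (y i) q : ℝ)| →
      X.d p (y i (kk X (y i) p)) + X.d (y i (kk X (y i) p)) (y i (kk X (y i) q)) +
        X.d (y i (kk X (y i) q)) q ≤ X.d p q + (57 * δ + 4 * B + 2) ∧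
      L < X.d (y i (kk X (y i) p)) (y i (kk X (y i) q)) := by
    intro i p q hlt
    have l1 := kk_diff (hp i) (hy i) p q
    have l2 : L < X.d (y i (kk X (y i) p)) (y i (kk X (y i) q)) := by
      exact_mod_cast hlt.trans_le l1
    rcases dich hF (hp i) (hB i) (hy i) p q with h | h
    · exact ⟨h, l2⟩
    · omega
  refine ⟨Idx P rep, inferInstance,
    { Y := fun i => Set.range (y i)
      c := fun i p => X.tau i.1 * (kk X (y i) p : ℝ)
      gen := fun i => i.1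
      tr := fun i => X.tau i.1
      mu := fun i => m i.1
      Y_ne := fun i => ⟨_, 0, rfl⟩
      Y_smul := ?_
      c_smul := ?_
      gen_smul := hsm
      tr_smul := hts
      mu_smul := fun s i => by rw [hsm]; exact (hPc _ s i.2.1).2
      stab := ?_
      c_gen := ?_
      tr_pos := hp
      big := fun i => (hP _ i.2.1).2.2.2
      conv := ?_
      lip := ?_
      sep := ?_
      near := ?_
      proj := ?_ }, fun i => ⟨i.2.1, rfl⟩, ?_⟩
  · intro s i p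
    obtain ⟨j, hj⟩ := hys s i
    constructor
    · rintro ⟨a, ha⟩
      rw [hj] at ha
      exact ⟨a + j, MulAction.injective s ha⟩
    · rintro ⟨a, rfl⟩
      exact ⟨a - j, by rw [hj, sub_add_cancel]⟩
  · intro s i p q
    obtain ⟨j, hj⟩ := hys s i
    rw [kk_smul hI (hp i) (hy i) (hp _) (hy _) s j hj, kk_smul hI (hp i) (hy i) (hp _) (hy _) s j hj,
      hts]
    push_cast; ring
  · intro s i
    constructor
    · intro h
      have := congrArg Subtype.val h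
      rw [hsm] at this
      refine hc _ i.2.1 s ?_
      show s * i.1 = i.1 * s
      conv_rhs => rw [← this]
      group
    · intro h
      obtain ⟨k, rfl⟩ := Subgroup.mem_zpowers_iff.mp h
      apply Subtype.ext
      rw [hsm]; group
  · intro i p
    rw [kk_smul hI (hp i) (hy i) (hp i) (hy i) i.1 (-1) (fun a => by rw [hyg]; congr 1; ring)]
    push_cast; ring
  · rintro i _ ⟨a, rfl⟩ _ ⟨c, rfl⟩ z hz
    obtain ⟨b, hb⟩ := conv hF (hp i) (hB i) (hy i) a c z hz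
    exact ⟨_, ⟨b, rfl⟩, by omega⟩
  · intro i p q
    have l1 := kk_diff (hp i) (hy i) p q
    have l2 : X.d (y i (kk X (y i) p)) (y i (kk X (y i) q)) ≤ X.d p q + L := by
      rcases dich hF (hp i) (hB i) (hy i) p q with h | h <;> omega
    have l3 : (X.d (y i (kk X (y i) p)) (y i (kk X (y i) q)) : ℝ) ≤ X.d p q + L := by
      exact_mod_cast l2
    exact l1.trans l3
  · rintro i j hij _ ⟨a, rfl⟩ _ ⟨c, rfl⟩
    by_contra hlt
    push Not at hlt
    obtain ⟨l1, l2⟩ := hproj i _ _ hlt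
    have mv : ∀ u : V, X.d (y j a) u + X.d u (y j c) ≤ X.d (y j a) (y j c) + (57 * δ + 4 * B + 2) →
        X.d u (j.1 • u) ≤ 154 * δ + 11 * B + 4 := by
      intro u hu
      obtain ⟨z', hz1, hz2⟩ := (h2 V X).2.1 δ hF _ _ u _ hu
      obtain ⟨b, hb⟩ := conv hF (hp j) (hB j) (hy j) a c z' hz1
      have s1 := step_le (hB j) (hy j) b
      rw [← hyg] at s1
      have s2 := X.tri u z' (y j b)
      have s3 := X.tri u (y j b) (j.1 • u)
      have s4 := X.tri (y j b) (j.1 • y j b) (j.1 • u)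
      rw [hI, X.comm (y j b) u] at s4
      omega
    have mi : ∀ k : ℤ, X.d (y i k) (i.1 • y i k) ≤ 154 * δ + 11 * B + 4 := by
      intro k
      have s1 := step_le (hB i) (hy i) k
      rw [← hyg] at s1
      omega
    have t1 := X.tri (y i (kk X (y i) (y j a))) (y i (kk X (y i) (y j c))) (y j c)
    have t2 := X.tri (y j a) (y i (kk X (y i) (y j a))) (y i (kk X (y i) (y j c)))
    have hcm := h3 Q V X δ A hI hF hC hM hA (154 * δ + 11 * B + 4) i.1 j.1 _ _ (mi _) (mi _)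
      (mv (y i (kk X (y i) (y j a))) (by omega)) (mv (y i (kk X (y i) (y j c))) (by omega))
      (by omega)
    exact hij (eq_of_commute h1 hI hM P rep hr hτ hc i j hcm)
  · rintro i _ ⟨a, rfl⟩ _ ⟨c, rfl⟩
    rw [kk_self (hp i) (hy i), kk_self (hp i) (hy i), ← mul_sub, abs_mul, abs_of_pos (hp i)]
    have l1 := (hy i a c).2
    have : (12 * δ : ℝ) ≤ L := by
      have : 12 * δ ≤ L := by omega
      exact_mod_cast this
    linarith
  · intro i p q hlt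
    obtain ⟨l1, -⟩ := hproj i p q hlt
    refine ⟨_, ⟨kk X (y i) p, rfl⟩, _, ⟨kk X (y i) q, rfl⟩, by omega, ?_, ?_⟩
    · rw [kk_self (hp i) (hy i)]; simp
    · rw [kk_self (hp i) (hy i)]; simp
  · intro g hg
    obtain ⟨hP1, s, hs | hs⟩ := hr1 g hg
    · exact ⟨⟨g, hg, s⁻¹, by rw [hs]; group⟩, Or.inl rfl⟩
    · have e1 : rep g⁻¹ = rep g := hr _ _ ⟨1, Or.inr (by simp)⟩
      have e2 : g⁻¹ = s⁻¹ * rep g * s⁻¹⁻¹ := by rw [hs]; group
      refine ⟨⟨g⁻¹, by rw [e2]; exact (hPc _ _ hP1).1, s⁻¹, by rw [e1]; exact e2⟩, Or.inr ?_⟩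
      simp

end Pool.Agent.H59Z.NA
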