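import Pool.Agent.H59Z.NA.St

set_option autoImplicit false

namespace Pool.Agent.H59Z.NA

theorem thm_lox (h1 : S_tau) (h2 : S_cyc) : S_lox := by
  intro Q V _ _ X δ τ₀ hI h4 hτ h2t u hu hcomm hlox
  obtain ⟨-, -, -, t4, t5, -⟩ := h1 Q V X hI
  have hmem : ∀ a : Q, a ∈ Subgroup.centralizer ({u} : Set Q) ↔ Commute a u := by
    intro a
    rw [Subgroup.mem_centralizer_singleton_iff]
    rfl
  obtain ⟨g, hg, hall⟩ := h2 Q V X δ τ₀ hI h4 hτ (Subgroup.centralizer {u})
    (fun a ha b hb => hcomm a b ((hmem a).1 ha) ((hmem b).1 hb))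
    (fun a ha ha1 => hlox a ((hmem a).1 ha) ha1)
  have hall' : ∀ a : Q, Commute a u → a ∈ Subgroup.zpowers g := fun a ha => hall a ((hmem a).2 ha)
  refine ⟨⟨g, hall'⟩, fun t ht => ?_⟩
  obtain ⟨i, hi⟩ := Subgroup.mem_zpowers_iff.1 (hall' u (Commute.refl u))
  obtain ⟨j, hj⟩ := Subgroup.mem_zpowers_iff.1 (hall' _ ht.symm)
  have hg1 : g ≠ 1 := by
    rintro rfl
    exact hu (by rw [← hi, one_zpow])
  have hgpos : 0 < X.tau g := lt_of_lt_of_le hτ (hlox g ((hmem g).1 hg) hg1)
  have hupos : 0 < X.tau u := lt_of_lt_of_le hτ (hlox u (Commute.refl u) hu)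
  have hij : |(j : ℝ)| = |(i : ℝ)| := by
    have e1 := t4 g i
    have e2 := t4 g j
    have e3 := t5 u t
    rw [hi] at e1
    rw [hj, e3, e1] at e2
    exact (mul_right_cancel₀ hgpos.ne' e2).symm
  have hij' : j = i ∨ j = -i := by
    rcases abs_eq_abs.1 hij with h | h
    · left; exact_mod_cast h
    · right; exact_mod_cast h
  rcases hij' with h | h
  · rw [h, hi] at hj
    have : t * u = u * t := by
      calc t * u = (t * u * t⁻¹) * t := by group
        _ = u * t := by rw [← hj]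
    exact this
  · rw [h, zpow_neg, hi] at hj
    have hc2 : Commute (t ^ 2) u := by
      have e : t * u⁻¹ * t⁻¹ = u := by
        have : t * u⁻¹ * t⁻¹ = (t * u * t⁻¹)⁻¹ := by group
        rw [this, ← hj, inv_inv]
      have : t ^ 2 * u = u * t ^ 2 := by
        calc t ^ 2 * u = t * (t * u * t⁻¹) * t⁻¹ * t ^ 2 := by rw [sq]; group
          _ = u * t ^ 2 := by rw [← hj, e]
      exact this
    obtain ⟨m, hm⟩ := Subgroup.mem_zpowers_iff.1 (hall' _ hc2)
    have hcm : Commute t (u ^ m) := by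
      have e : u ^ m = (t ^ 2) ^ i := by
        rw [← hi, ← hm, ← zpow_mul, ← zpow_mul, mul_comm]
      rw [e]
      exact ((Commute.refl t).pow_right 2).zpow_right i
    have hconj : t * u ^ m * t⁻¹ = u ^ (-m) := by
      rw [← conj_zpow, ← hj, inv_zpow, zpow_neg]
    have hsame : u ^ m = u ^ (-m) := by
      rw [← hconj, hcm.eq, mul_inv_cancel_right]
    have hm0 : m = 0 := by
      have e0 : u ^ (2 * m) = u ^ (0 : ℤ) := by
        rw [two_mul, zpow_add, zpow_zero]
        nth_rewrite 2 [hsame]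
        rw [zpow_neg, mul_inv_cancel]
      have e1 := t4 u (2 * m)
      have e2 := t4 u 0
      rw [e0, e2] at e1
      have e3 : |((2 * m : ℤ) : ℝ)| = 0 := by
        have : |((2 * m : ℤ) : ℝ)| * X.tau u = 0 := by rw [← e1]; simp
        exact (mul_eq_zero.1 this).resolve_right hupos.ne'
      have e4 : ((2 * m : ℤ) : ℝ) = 0 := abs_eq_zero.1 e3
      have e5 : (2 * m : ℤ) = 0 := by exact_mod_cast e4
      omega
    rw [hm0, zpow_zero] at hm
    rw [h2t t hm.symm]
    exact Commute.one_left u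

end Pool.Agent.H59Z.NA
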