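import Pool.Agent.H59Z.NA.St

set_option autoImplicit false

/-!
# Centralisers of loxodromic elements of the quotient
-/

namespace Pool.Agent.H59Z.NA

namespace Tloxq

variable {Q V I : Type} [Group Q] [MulAction Q V] [MulAction Q I] {X : GM V}
  {L : ℕ} {F : Fam Q V I X L} {R W J : Type} [Group R] [MulAction R W] [MulAction R J]
  {π : Q →* R} {A : AG R W J L} {φ : V → W}

/-- An element which fixes a line has finite order. -/
theorem pow_of_fix (hq : IsQuo F π A φ) {n : ℕ} (hn : ∀ i, F.mu i ∣ n) {g : R} {l : J}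
    (hg : g • l = l) : g ^ n = 1 := by
  obtain ⟨i, hi⟩ := hq.stab l
  obtain ⟨k, rfl⟩ := Subgroup.mem_zpowers_iff.mp ((hi g).mp hg)
  obtain ⟨c, hc⟩ := hn i
  have h1 : π (F.gen i) ^ F.mu i = 1 := by rw [← map_pow]; exact hq.rel i
  have h2 : π (F.gen i) ^ n = 1 := by rw [hc, pow_mul, h1, one_pow]
  rw [← zpow_natCast, ← zpow_mul, mul_comm, zpow_mul, zpow_natCast, h2, one_zpow]

/-- A loxodromic element has infinite order. -/
theorem zpow_eq_one (h1 : S_tau) {u : R} (hu : 0 < A.Z.tau u) {k : ℤ} (hk : u ^ k = 1) :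
    k = 0 := by
  obtain ⟨-, -, -, h4, -⟩ := h1 R W A.Z A.inv
  have a1 := h4 u k
  have a2 := h4 u 0
  rw [hk] at a1
  rw [zpow_zero] at a2
  rw [a1] at a2
  simp only [Int.cast_zero, abs_zero, zero_mul, mul_eq_zero, abs_eq_zero, Int.cast_eq_zero] at a2
  rcases a2 with a2 | a2
  · exact a2
  · exact absurd a2 hu.ne'

/-- A nontrivial element commuting with a loxodromic one fixes no line. -/
theorem no_fix (h1 : S_tau) (h2 : S_pos) (hq : IsQuo F π A φ) {n : ℕ} (hn0 : 0 < n)
    (hn : ∀ i, F.mu i ∣ n) {u : R} (hu : 0 < A.Z.tau u) {f : R} (hf : Commute f u) {l : J}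
    (hl : f • l = l) : f = 1 := by
  by_contra hne
  obtain ⟨-, -, -, h4, -⟩ := h2 R W J L A
  have hul : f • (u • l) = u • l := by
    rw [← mul_smul, hf.eq, mul_smul, hl]
  have e := h4 f l (u • l) hne hl hul
  have e2 : u ^ (n : ℤ) = 1 := by
    rw [zpow_natCast]; exact pow_of_fix hq hn e.symm
  have := zpow_eq_one h1 hu e2
  omega

/-- The dichotomy for the elements of a ball in the centraliser. -/
theorem key (h1 : S_tau) (h2 : S_pos) (h3 : S_md) (hX : X.Inv Q) (hq : IsQuo F π A φ)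
    (hac : ∀ D : ℕ, X.Acyl Q D (L + 20 * D)) {u : R} (hu : 0 < A.Z.tau u) (x : W) (D : ℕ) :
    (∃ (l : J) (al e : R → ℤ),
      (∀ g h : R, Commute g u → A.Z.d x (g • x) ≤ D → Commute (g * h) u →
        A.Z.d x ((g * h) • x) ≤ D → e (g * h) = e g + al h) ∧
      (∀ g g' : R, Commute g u → A.Z.d x (g • x) ≤ D → Commute g' u →
        A.Z.d x (g' • x) ≤ D → e g = e g' → g⁻¹ • l = g'⁻¹ • l)) ∨
    ∃ lf : R → Q, (∀ g : R, Commute g u → A.Z.d x (g • x) ≤ D → π (lf g) = g) ∧
      ∀ g h : R, Commute g u → A.Z.d x (g • x) ≤ D → Commute h u → A.Z.d x (h • x) ≤ D →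
        Commute (lf g) (lf h) := by
  obtain ⟨t1, -⟩ := h1 R W A.Z A.inv
  obtain ⟨-, p2, -, -, p5⟩ := h2 R W J L A
  obtain ⟨N, hN⟩ := exists_nat_ge
    ((((20 * (15000 * (D + 123)) + 2) + 10 * D + 2000 : ℕ) : ℝ) / A.Z.tau u)
  have hfar : (20 * (15000 * (D + 123)) + 2) + 10 * D + 2000 ≤ A.Z.d x (u ^ N • x) := by
    have a1 := t1 u x N
    rw [div_le_iff₀ hu] at hN
    rw [mul_comm] at a1
    exact Nat.cast_le.mp (hN.trans a1)
  have hy : ∀ g : R, Commute g u →
      A.Z.d (u ^ N • x) (g • u ^ N • x) = A.Z.d x (g • x) := by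
    intro g hg
    rw [← mul_smul, (hg.pow_right N).eq, mul_smul, A.inv]
  rcases h3 Q V I X L F R W J π A φ hX hq x (u ^ N • x) D _ hfar with
    ⟨l, hl1, hl2, hl3⟩ | ⟨p, q, lf, hr, hlf, -⟩
  · left
    have hL : (0 : ℝ) ≤ 600 * L := by positivity
    obtain ⟨q1, q2⟩ := p5 l x (u ^ N • x) (600 * L)
      {s | Commute s u ∧ A.Z.d x (s • x) ≤ D} hL (by
        rintro s ⟨hs1, hs2⟩
        refine ⟨p2 l _ _ (hs2.trans hl1), p2 l _ _ ?_⟩
        rw [hy s hs1]
        exact hs2.trans hl2) (by linarith)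
    refine ⟨l, fun h => ((A.Z.d (h • x) (u ^ N • x) : ℤ) - A.Z.d x (u ^ N • x)),
      fun g => (A.Z.eta (A.Y l) (g • x) : ℤ), ?_, ?_⟩
    · intro g h a1 a2 a3 a4
      exact q1 g h ⟨a1, a2⟩ ⟨a3, a4⟩
    · intro g g' a1 a2 a3 a4 a5
      exact q2 g g' ⟨a1, a2⟩ ⟨a3, a4⟩ (Int.natCast_inj.mp a5)
  · right
    have hpq : L + 20 * (15000 * L * (D + 123)) ≤ X.d p q := by
      by_contra hc
      have h5 : X.d p q ≤ (20 * (15000 * (D + 123)) + 1) * L := by
        have : (20 * (15000 * (D + 123)) + 1) * L = L + 20 * (15000 * L * (D + 123)) := by ring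
        omega
      have := hq.scale _ p q h5
      omega
    refine ⟨lf, ?_, ?_⟩
    · intro g a1 a2
      exact (hlf g D le_rfl a2 (by rw [hy g a1]; exact a2)).1
    · intro g h a1 a2 a3 a4
      obtain ⟨-, b1, b2⟩ := hlf g D le_rfl a2 (by rw [hy g a1]; exact a2)
      obtain ⟨-, b3, b4⟩ := hlf h D le_rfl a4 (by rw [hy h a3]; exact a4)
      exact hac _ (lf g) (lf h) p q b1 b2 b3 b4 hpq

end Tloxq

theorem thm_loxq (h1 : S_tau) (h2 : S_pos) (h3 : S_md) : S_loxq := by
  intro Q V I _ _ _ X L F R W J _ _ _ π A φ hX hC hq hac n hn0 hn u hu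
  obtain ⟨x⟩ := A.ne
  have hone : ∀ D : ℕ, A.Z.d x ((1 : R) • x) ≤ D := by
    intro D; rw [one_smul, A.Z.self]; exact Nat.zero_le _
  constructor
  · intro a b ha hb
    obtain ⟨D, d1, d2, d3, d4⟩ : ∃ D : ℕ, A.Z.d x (a • x) ≤ D ∧ A.Z.d x (b • x) ≤ D ∧
        A.Z.d x ((a * b) • x) ≤ D ∧ A.Z.d x ((b * a) • x) ≤ D :=
      ⟨A.Z.d x (a • x) + A.Z.d x (b • x) + A.Z.d x ((a * b) • x) + A.Z.d x ((b * a) • x),
        by omega, by omega, by omega, by omega⟩
    have hab : Commute (a * b) u := ha.mul_left hb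
    have hba : Commute (b * a) u := hb.mul_left ha
    rcases Tloxq.key h1 h2 h3 hX hq hac hu x D with ⟨l, al, e, q1, q2⟩ | ⟨lf, q1, q2⟩
    · have e1 := q1 1 a (Commute.one_left u) (hone D) (by rwa [one_mul]) (by rwa [one_mul])
      have e2 := q1 1 b (Commute.one_left u) (hone D) (by rwa [one_mul]) (by rwa [one_mul])
      rw [one_mul] at e1 e2
      have e3 := q1 a b ha d1 hab d3
      have e4 := q1 b a hb d2 hba d4
      have e5 := q2 (a * b) (b * a) hab d3 hba d4 (by omega)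
      have e6 : ((b * a) * (a * b)⁻¹) • l = l := by
        rw [mul_smul, e5, smul_inv_smul]
      have e7 := Tloxq.no_fix h1 h2 hq hn0 hn hu (hba.mul_left hab.inv_left) e6
      exact (mul_inv_eq_one.mp e7).symm
    · have := (q2 a b ha d1 hb d2).map π
      rwa [q1 a ha d1, q1 b hb d2] at this
  · intro f hf hfn
    obtain ⟨D, d1, d2⟩ : ∃ D : ℕ, A.Z.d x (u • x) ≤ D ∧
        ∀ j, j ≤ n → A.Z.d x (f ^ j • x) ≤ D := by
      refine ⟨A.Z.d x (u • x) + ∑ j ∈ Finset.range (n + 1), A.Z.d x (f ^ j • x), by omega, ?_⟩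
      intro j hj
      have := Finset.single_le_sum (f := fun j => A.Z.d x (f ^ j • x))
        (s := Finset.range (n + 1)) (fun _ _ => Nat.zero_le _)
        (Finset.mem_range.mpr (Nat.lt_succ_of_le hj))
      exact this.trans (Nat.le_add_left _ _)
    have d3 : A.Z.d x (f • x) ≤ D := by
      have := d2 1 hn0
      rwa [pow_one] at this
    rcases Tloxq.key h1 h2 h3 hX hq hac hu x D with ⟨l, al, e, q1, q2⟩ | ⟨lf, q1, q2⟩
    · have e1 : ∀ j : ℕ, j ≤ n → e (f ^ j) = e 1 + j * al f := by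
        intro j
        induction j with
        | zero => intro _; simp
        | succ j ih =>
          intro hj
          have a1 := q1 (f ^ j) f (hf.pow_left j) (d2 j (by omega))
            (by rw [← pow_succ]; exact hf.pow_left _) (by rw [← pow_succ]; exact d2 _ hj)
          rw [pow_succ, a1, ih (by omega)]
          push_cast
          ring
      have e2 := e1 n le_rfl
      rw [hfn] at e2
      have e3 : al f = 0 := by
        have : (n : ℤ) * al f = 0 := by linarith
        rcases mul_eq_zero.mp this with h | h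
        · omega
        · exact h
      have e4 := e1 1 hn0
      rw [pow_one, e3, mul_zero, add_zero] at e4
      have e5 := q2 f 1 hf d3 (Commute.one_left u) (hone D) e4
      rw [inv_one, one_smul] at e5
      have e6 : f • l = l := by
        conv_lhs => rw [← e5]
        rw [smul_inv_smul]
      exact Tloxq.no_fix h1 h2 hq hn0 hn hu hf e6
    · have c1 := q2 f u hf d3 (Commute.refl u) d1
      have c2 := q1 u (Commute.refl u) d1
      have c3 := q1 f hf d3
      have c4 : lf u ≠ 1 := by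
        intro h
        rw [h, map_one] at c2
        have : u ^ (1 : ℤ) = 1 := by rw [zpow_one]; exact c2.symm
        have := Tloxq.zpow_eq_one h1 hu this
        omega
      obtain ⟨g, hg⟩ := hC (lf u) c4
      obtain ⟨i, hi⟩ := Subgroup.mem_zpowers_iff.mp (hg _ c1)
      obtain ⟨j, hj⟩ := Subgroup.mem_zpowers_iff.mp (hg _ (Commute.refl _))
      have c5 : f = π g ^ i := by rw [← map_zpow, hi, c3]
      have c6 : u = π g ^ j := by rw [← map_zpow, hj, c2]
      have c7 : u ^ (i * n) = 1 := by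
        have : u ^ (i * n) = (f ^ n) ^ j := by
          rw [c5, c6, ← zpow_natCast, ← zpow_mul, ← zpow_mul, ← zpow_mul]
          congr 1
          ring
        rw [this, hfn, one_zpow]
      have c8 := Tloxq.zpow_eq_one h1 hu c7
      have c9 : i = 0 := by
        rcases mul_eq_zero.mp c8 with h | h
        · exact h
        · omega
      rw [c5, c9, zpow_zero]

end Pool.Agent.H59Z.NA
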