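import Pool.Agent.H59Z.NA.St

set_option autoImplicit false

/-!
# The master dichotomy
-/

namespace Pool.Agent.H59Z.NA

namespace Tmd

theorem eta_le {V : Type} (X : GM V) (S : Set V) (p a : V) (ha : a ∈ S) :
    X.eta S p ≤ X.d p a :=
  Nat.sInf_le ⟨a, ha, rfl⟩

theorem eta_spec {V : Type} (X : GM V) (S : Set V) (hS : S.Nonempty) (p : V) :
    ∃ a ∈ S, X.d p a = X.eta S p := by
  obtain ⟨a, ha⟩ := hS
  exact Nat.sInf_mem (s := {m : ℕ | ∃ a ∈ S, X.d p a = m}) ⟨X.d p a, a, ha, rfl⟩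

section
variable {R W J : Type} [Group R] [MulAction R W] [MulAction R J] {L : ℕ} (A : AG R W J L)

theorem eta_tri (l : J) (p q : W) :
    A.Z.eta (A.Y l) p ≤ A.Z.d p q + A.Z.eta (A.Y l) q := by
  obtain ⟨a, ha, h⟩ := eta_spec A.Z (A.Y l) (A.Y_ne l) q
  have h1 := eta_le A.Z (A.Y l) p a ha
  have h2 := A.Z.tri p q a
  omega

theorem d_le_eta (l : J) (p q : W) :
    A.Z.d p q ≤ A.Z.eta (A.Y l) p + 1 + A.Z.eta (A.Y l) q := by
  obtain ⟨a, ha, h⟩ := eta_spec A.Z (A.Y l) (A.Y_ne l) p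
  obtain ⟨b, hb, h'⟩ := eta_spec A.Z (A.Y l) (A.Y_ne l) q
  have h1 := A.clique l a ha b hb
  have h2 := A.Z.tri p a q
  have h3 := A.Z.tri a b q
  have h4 := A.Z.comm b q
  omega

theorem aligned (h2 : S_pos) (l : J) (a p q b : W)
    (hal : A.Z.d a p + A.Z.d p q + A.Z.d q b = A.Z.d a b)
    (hang : (600 : ℝ) * L < A.ang l p q) :
    A.Z.d a p ≤ A.Z.eta (A.Y l) a ∧ A.Z.d b q ≤ A.Z.eta (A.Y l) b ∧
      A.ang l p q ≤ A.ang l a b + 1200 * L := by
  obtain ⟨p1, p2, -, -, -⟩ := h2 R W J L A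
  have e1 := p1 l p q hang
  have e2 := eta_tri A l a p
  have e3 := eta_tri A l b q
  have e4 := d_le_eta A l a b
  have e5 := A.Z.comm b q
  have f1 : A.Z.d a p ≤ A.Z.eta (A.Y l) a := by omega
  have f2 : A.Z.d b q ≤ A.Z.eta (A.Y l) b := by omega
  refine ⟨f1, f2, ?_⟩
  have g1 := p2 l a p f1
  have g2 := p2 l b q f2
  have g3 := A.ang_tri l p a q
  have g4 := A.ang_tri l a b q
  have g5 := A.ang_comm l p a
  linarith

theorem sub_ang (h2 : S_pos) (l : J) (a p q b : W)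
    (hal : A.Z.d a p + A.Z.d p q + A.Z.d q b = A.Z.d a b)
    (hab : A.ang l a b ≤ 4200 * L) : A.ang l p q ≤ 5400 * L := by
  have hL : (1 : ℝ) ≤ L := by exact_mod_cast A.hL
  by_cases h : (600 : ℝ) * L < A.ang l p q
  · have := (aligned A h2 l a p q b hal h).2.2
    linarith
  · push Not at h
    linarith

theorem ang_move (h2 : S_pos) (x1 z : W) (g : R) (E : ℕ)
    (hx : A.Z.d x1 (g • x1) ≤ E) (hz : A.Z.d z (g • z) ≤ E) (hfar : 2 * E ≤ A.Z.d x1 z)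
    (hang : ∀ l, A.ang l x1 z ≤ 5400 * L) (l : J) : A.ang l z (g • z) ≤ 13800 * L := by
  have hL : (1 : ℝ) ≤ L := by exact_mod_cast A.hL
  obtain ⟨p1, p2, -, -, -⟩ := h2 R W J L A
  by_cases h : (600 : ℝ) * L < A.ang l z (g • z)
  · have e1 := p1 l z (g • z) h
    have e2 := d_le_eta A l x1 z
    have e3 : A.Z.d x1 (g • x1) ≤ A.Z.eta (A.Y l) x1 := by omega
    have g1 := p2 l x1 (g • x1) e3
    have g2 := A.ang_smul g (g⁻¹ • l) x1 z
    rw [smul_inv_smul] at g2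
    have g3 := hang (g⁻¹ • l)
    have g4 := hang l
    have g5 := A.ang_comm l z x1
    have g6 := A.ang_tri l z x1 (g • z)
    have g7 := A.ang_tri l x1 (g • x1) (g • z)
    linarith
  · push Not at h
    linarith

end

section
variable {Q V I : Type} [Group Q] [MulAction Q V] [MulAction Q I] {X : GM V} {L : ℕ}
  {F : Fam Q V I X L} {R W J : Type} [Group R] [MulAction R W] [MulAction R J]
  {π : Q →* R} {A : AG R W J L} {φ : V → W}

theorem c_move (F : Fam Q V I X L) (a : Q) (j : I) (p q : V) :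
    F.c j (a • p) - F.c j (a • q) = F.c (a⁻¹ • j) p - F.c (a⁻¹ • j) q := by
  have := F.c_smul a (a⁻¹ • j) p q
  rwa [smul_inv_smul] at this

theorem uniq (hq : IsQuo F π A φ) (a b : Q) (p : V) (hab : π a = π b)
    (h : ∀ j, |F.c j (a • p) - F.c j (b • p)| < (10 ^ 8 : ℝ) * L) : a = b := by
  have hk : a⁻¹ * b = 1 := by
    apply hq.inj (a⁻¹ * b) p
    · simp [hab]
    · intro i
      have e := F.c_smul a i p ((a⁻¹ * b) • p)
      rw [smul_smul, mul_inv_cancel_left] at e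
      rw [← e]
      exact h _
  exact inv_mul_eq_one.mp hk

theorem lift_elt (hq : IsQuo F π A φ) (p : V) (g : R)
    (h : ∀ l, A.ang l (φ p) (g • φ p) ≤ 13800 * L) :
    ∃ a : Q, π a = g ∧
      (X.d p (a • p) : ℝ) ≤ 14800 * L * (A.Z.d (φ p) (g • φ p) + 1) ∧
      ∀ i, |F.c i p - F.c i (a • p)| ≤ 14800 * L := by
  have hL : (0 : ℝ) ≤ L := Nat.cast_nonneg L
  obtain ⟨p', e1, e2, e3⟩ := hq.lift (13800 * L) p (g • φ p) h (by positivity)
  obtain ⟨g0, hg0⟩ := hq.surj g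
  obtain ⟨k, hk, e4⟩ := hq.φ_eq (g0 • p) p' (by rw [hq.φ_smul, hg0, e1])
  refine ⟨k * g0, by simp [hk, hg0], ?_, ?_⟩
  · rw [mul_smul, ← e4]
    have : (13800 : ℝ) * L + 1000 * L = 14800 * L := by ring
    rw [this] at e2
    exact e2
  · intro i
    rw [mul_smul, ← e4]
    have := e3 i
    linarith

theorem bound (L d z D' : ℕ) (h : (d : ℝ) ≤ 14800 * L * (z + 1)) (hz : z ≤ D' + 122) :
    d ≤ 15000 * L * (D' + 123) := by
  have h1 : d ≤ 14800 * L * (z + 1) := by exact_mod_cast h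
  calc d ≤ 14800 * L * (z + 1) := h1
    _ ≤ 15000 * L * (D' + 123) :=
      Nat.mul_le_mul (Nat.mul_le_mul_right L (by norm_num)) (by omega)

end

end Tmd

open Tmd in
theorem thm_md (h1 : S_hyp) (h2 : S_pos) : S_md := by
  intro Q V I _ _ _ X L F R W J _ _ _ π A φ _ hq x y D r hN
  have hL : (1 : ℝ) ≤ L := by exact_mod_cast A.hL
  obtain ⟨x1, hx1, hx1'⟩ := A.Z.geo x y D (by omega)
  obtain ⟨y1, hy1, hy1'⟩ := A.Z.geo x1 y (A.Z.d x y - 2 * D) (by omega)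
  have hyy : A.Z.d y1 y = D := by omega
  by_cases hc : ∃ l, (4200 : ℝ) * L < A.ang l x1 y1
  · left
    obtain ⟨l, hl⟩ := hc
    obtain ⟨f1, f2, f3⟩ := aligned A h2 l x x1 y1 y (by omega) (by linarith)
    have := A.Z.comm y y1
    exact ⟨l, by omega, by omega, by linarith⟩
  right
  push Not at hc
  obtain ⟨pb, hp1, hp2⟩ := A.Z.geo x1 y1 (2 * D + 245) (by omega)
  obtain ⟨p, rfl⟩ := hq.φ_surj pb
  have s0 := A.Z.self x1
  have s1 := A.Z.self y1
  have a1 : ∀ l, A.ang l (φ p) y1 ≤ 5400 * L := fun l =>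
    sub_ang A h2 l x1 (φ p) y1 y1 (by omega) (hc l)
  have a2 : ∀ l, A.ang l x1 (φ p) ≤ 5400 * L := fun l =>
    sub_ang A h2 l x1 x1 (φ p) y1 (by omega) (hc l)
  have a3 : ∀ l, A.ang l x1 y1 ≤ 5400 * L := fun l => by have := hc l; linarith
  obtain ⟨q, rfl, -, hcq⟩ := hq.lift (5400 * L) p y1 a1 (by positivity)
  have t1 := A.Z.tri x x1 (φ p)
  have t2 := A.Z.tri (φ p) (φ q) y
  have t3 := A.Z.tri x (φ p) y
  have t4 := A.Z.tri x x1 (φ q)
  have t5 := A.Z.tri x (φ q) y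
  have hh := (h1 W A.Z).2.2 R 122 A.inv A.four
  have m1 : ∀ (g : R) (D' : ℕ), A.Z.d x (g • x) ≤ D' → A.Z.d y (g • y) ≤ D' →
      A.Z.d x1 (g • x1) ≤ D' + 122 := fun g D' u v => hh g x y x1 D' (by omega) u v
  have m2 : ∀ (g : R) (D' : ℕ), A.Z.d x (g • x) ≤ D' → A.Z.d y (g • y) ≤ D' →
      A.Z.d (φ p) (g • φ p) ≤ D' + 122 := fun g D' u v => hh g x y (φ p) D' (by omega) u v
  have m3 : ∀ (g : R) (D' : ℕ), A.Z.d x (g • x) ≤ D' → A.Z.d y (g • y) ≤ D' →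
      A.Z.d (φ q) (g • φ q) ≤ D' + 122 := fun g D' u v => hh g x y (φ q) D' (by omega) u v
  have lp : ∀ g : R, ∃ a : Q, A.Z.d x (g • x) ≤ D → A.Z.d y (g • y) ≤ D → π a = g ∧
      (X.d p (a • p) : ℝ) ≤ 14800 * L * (A.Z.d (φ p) (g • φ p) + 1) ∧
      ∀ i, |F.c i p - F.c i (a • p)| ≤ 14800 * L := by
    intro g
    by_cases hg : A.Z.d x (g • x) ≤ D ∧ A.Z.d y (g • y) ≤ D
    · obtain ⟨a, ha⟩ := lift_elt hq p g
        (ang_move A h2 x1 (φ p) g (D + 122) (m1 g D hg.1 hg.2) (m2 g D hg.1 hg.2) (by omega) a2)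
      exact ⟨a, fun _ _ => ha⟩
    · exact ⟨1, fun u v => absurd ⟨u, v⟩ hg⟩
  choose lf hlf using lp
  refine ⟨p, q, lf, by omega, ?_, ?_⟩
  · intro g D' hD u v
    obtain ⟨e1, e2, e3⟩ := hlf g (by omega) (by omega)
    obtain ⟨b, f1, f2, f3⟩ := lift_elt hq q g
      (ang_move A h2 x1 (φ q) g (D + 122) (m1 g D (by omega) (by omega))
        (m3 g D (by omega) (by omega)) (by omega) a3)
    have hb : lf g = b := by
      apply uniq hq (lf g) b p (by rw [e1, f1])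
      intro j
      have k1 := abs_le.mp (e3 j)
      have k2 := abs_le.mp (hcq j)
      have k3 := abs_le.mp (f3 j)
      have k4 := abs_le.mp (hcq (b⁻¹ • j))
      have k5 := c_move F b j p q
      rw [abs_lt]
      constructor <;> linarith [k1.1, k1.2, k2.1, k2.2, k3.1, k3.2, k4.1, k4.2]
    refine ⟨e1, bound L _ _ D' e2 (m2 g D' u v), ?_⟩
    rw [hb]
    exact bound L _ _ D' f2 (m3 g D' u v)
  · intro g h u1 u2 v1 v2 w1 w2
    obtain ⟨e1, -, e3⟩ := hlf g u1 u2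
    obtain ⟨f1, -, f3⟩ := hlf h v1 v2
    obtain ⟨g1, -, g3⟩ := hlf (g * h) w1 w2
    apply uniq hq _ _ p (by rw [map_mul, e1, f1, g1])
    intro j
    have k1 := abs_le.mp (e3 j)
    have k2 := abs_le.mp (f3 ((lf g)⁻¹ • j))
    have k3 := abs_le.mp (g3 j)
    have k5 := c_move F (lf g) j p (lf h • p)
    rw [mul_smul, abs_lt]
    constructor <;> linarith [k1.1, k1.2, k2.1, k2.2, k3.1, k3.2]

end Pool.Agent.H59Z.NA
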