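import Pool.Agent.H59Z.NA.St

set_option autoImplicit false

/-!
# Positions of the long lines along a geodesic
-/

namespace Pool.Agent.H59Z.NA

namespace Tpos

theorem eta_le {V : Type} (X : GM V) (S : Set V) (p a : V) (ha : a ∈ S) :
    X.eta S p ≤ X.d p a :=
  Nat.sInf_le ⟨a, ha, rfl⟩

theorem eta_mem {V : Type} (X : GM V) (S : Set V) (p : V) (hS : S.Nonempty) :
    ∃ a ∈ S, X.d p a = X.eta S p := by
  obtain ⟨a, ha⟩ := hS
  have h : {m : ℕ | ∃ a ∈ S, X.d p a = m}.Nonempty := ⟨X.d p a, a, ha, rfl⟩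
  exact Nat.sInf_mem h

variable {R W J : Type} [Group R] [MulAction R W] [MulAction R J] {L : ℕ} (A : AG R W J L)

theorem p1 (l : J) (p q : W) (h : (600 : ℝ) * L < A.ang l p q) :
    A.Z.eta (A.Y l) p + 1 + A.Z.eta (A.Y l) q = A.Z.d p q := by
  obtain ⟨a, ha, b, hb, hab⟩ := A.bgi l p q h
  have h1 := eta_le A.Z _ p a ha
  have h2 := eta_le A.Z _ q b hb
  have h3 := A.Z.comm q b
  obtain ⟨a', ha', e1⟩ := eta_mem A.Z _ p (A.Y_ne l)
  obtain ⟨b', hb', e2⟩ := eta_mem A.Z _ q (A.Y_ne l)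
  have h4 := A.clique l a' ha' b' hb'
  have h5 := A.Z.tri p a' q
  have h6 := A.Z.tri a' b' q
  have h7 := A.Z.comm q b'
  omega

theorem p2 (l : J) (p q : W) (h : A.Z.d p q ≤ A.Z.eta (A.Y l) p) : A.ang l p q ≤ 600 * L := by
  by_contra hc
  have := p1 A l p q (lt_of_not_ge hc)
  omega

theorem p3 (g : R) (l : J) (p : W) :
    A.Z.eta (A.Y (g • l)) (g • p) = A.Z.eta (A.Y l) p := by
  unfold GM.eta
  congr 1
  ext m
  constructor
  · rintro ⟨a, ha, rfl⟩
    refine ⟨g⁻¹ • a, ?_, ?_⟩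
    · rw [← A.Y_smul g l, smul_inv_smul]
      exact ha
    · rw [← A.inv g p (g⁻¹ • a), smul_inv_smul]
  · rintro ⟨a, ha, rfl⟩
    exact ⟨g • a, (A.Y_smul g l a).2 ha, A.inv g p a⟩

include A in
theorem p4 (f : R) (l m : J) (hf : f ≠ 1) (hl : f • l = l) (hm : f • m = m) : l = m := by
  by_contra hne
  obtain ⟨j, hj⟩ := A.rot f l hl hf
  obtain ⟨p, hp⟩ := A.Y_ne m
  have hpow : ∀ k : ℕ, f ^ k • m = m := by
    intro k
    induction k with
    | zero => simp
    | succ k ih => rw [pow_succ, mul_smul, hm, ih]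
  have hp' : f ^ j • p ∈ A.Y m := by
    have := (A.Y_smul (f ^ j) m p).2 hp
    rwa [hpow] at this
  have h1 := A.sep l m hne p hp _ hp'
  have h2 := hj p
  have h3 : (1 : ℝ) ≤ L := by exact_mod_cast A.hL
  nlinarith

theorem far (l : J) (x y x' y' : W) (B : ℝ) (hx : A.ang l x x' ≤ B) (hy : A.ang l y y' ≤ B)
    (h : 2 * B + 1800 * L < A.ang l x y) : (1800 : ℝ) * L < A.ang l x' y' := by
  have h1 := A.ang_tri l x x' y
  have h2 := A.ang_tri l x' y' y
  have h3 := A.ang_comm l y y'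
  linarith

theorem uniq (m m' : J) (x y : W) (h : (1800 : ℝ) * L < A.ang m x y)
    (h' : (1800 : ℝ) * L < A.ang m' x y)
    (he : A.Z.eta (A.Y m) x = A.Z.eta (A.Y m') x) : m = m' := by
  by_contra hne
  have h3 : (1 : ℝ) ≤ L := by exact_mod_cast A.hL
  have e1 := p1 A m x y (by linarith)
  have e2 := p1 A m' x y (by linarith)
  obtain ⟨a, ha, ea⟩ := eta_mem A.Z _ x (A.Y_ne m')
  obtain ⟨b, hb, eb⟩ := eta_mem A.Z _ y (A.Y_ne m')
  have a1 := p2 A m x a (by omega)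
  have a2 := p2 A m y b (by omega)
  have a3 := A.sep m m' hne a ha b hb
  have t1 := A.ang_tri m x a y
  have t2 := A.ang_tri m a b y
  have t3 := A.ang_comm m y b
  linarith

end Tpos

theorem thm_pos : S_pos := by
  intro R W J _ _ _ L A
  refine ⟨Tpos.p1 A, Tpos.p2 A, Tpos.p3 A, Tpos.p4 A, ?_⟩
  intro l x y B S _ hS hxy
  have h3 : (1 : ℝ) ≤ L := by exact_mod_cast A.hL
  constructor
  · intro g h hg hgh
    have f1 := Tpos.far A l x y (g • x) (g • y) B (hS g hg).1 (hS g hg).2 hxy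
    have f2 := Tpos.far A l x y ((g * h) • x) (g • y) B (hS _ hgh).1 (hS g hg).2 hxy
    have e1 := Tpos.p1 A l _ _ (by linarith : (600 : ℝ) * L < A.ang l (g • x) (g • y))
    have e2 := Tpos.p1 A l _ _ (by linarith : (600 : ℝ) * L < A.ang l ((g * h) • x) (g • y))
    have d1 := A.inv g x y
    have d2 : A.Z.d ((g * h) • x) (g • y) = A.Z.d (h • x) y := by
      rw [mul_smul]
      exact A.inv g _ _
    omega
  · intro g g' hg hg' he
    have key : ∀ s ∈ S, (1800 : ℝ) * L < A.ang (s⁻¹ • l) x y ∧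
        A.Z.eta (A.Y (s⁻¹ • l)) x = A.Z.eta (A.Y l) (s • x) := by
      intro s hs
      constructor
      · have f1 := Tpos.far A l x y (s • x) (s • y) B (hS s hs).1 (hS s hs).2 hxy
        rw [← A.ang_smul s (s⁻¹ • l) x y, smul_inv_smul]
        exact f1
      · rw [← Tpos.p3 A s (s⁻¹ • l) x, smul_inv_smul]
    refine Tpos.uniq A _ _ x y (key g hg).1 (key g' hg').1 ?_
    rw [(key g hg).2, (key g' hg').2, he]

end Pool.Agent.H59Z.NA
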