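import Pool.Agent.H59Z.NA.Tquo3

set_option autoImplicit false

namespace Pool.Agent.H59Z.NA
namespace Tquo

variable {Q V I : Type} [Group Q] [MulAction Q V] [MulAction Q I] {X : GM V} {L : ℕ}
  {F : Fam Q V I X L} {E : GM V}

lemma short (hE : F.IsEl E) {x y : V} {Θ : ℝ} (hΘ : 0 ≤ Θ)
    (h : ∀ i, |F.c i x - F.c i y| ≤ Θ) : ∀ (m : ℕ) (z : V), E.d z y = m →
    E.d x z + E.d z y = E.d x y → (X.d z y : ℝ) ≤ (Θ + 201 * L) * m := by
  intro m
  induction m with
  | zero =>
    intro z hz _
    rw [hE.zero z y hz, X.self]; simp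
  | succ m ih =>
    intro z hz hx
    obtain ⟨z', h1, h2⟩ := E.geo z y 1 (by omega)
    have t1 := E.tri x z z'
    have t2 := E.tri x z' y
    have ih' := ih z' (by omega) (by omega)
    have t3 : (X.d z y : ℝ) ≤ X.d z z' + X.d z' y := by exact_mod_cast X.tri z z' y
    have hL0 : (0 : ℝ) ≤ L := Nat.cast_nonneg L
    have edge : (X.d z z' : ℝ) ≤ Θ + 201 * L := by
      rcases hE.adj z z' h1.le with h3 | ⟨i, hz1, hz2⟩
      · have : (X.d z z' : ℝ) ≤ L := by exact_mod_cast h3
        linarith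
      · have a1 : |F.c i x - F.c i z| ≤ 100 * L := by
          by_contra hc
          obtain ⟨a, ha, b, _, hab⟩ := hE.bgi i x z (not_le.1 hc)
          have := hE.clique i a ha z' hz2
          have := E.tri x a z'
          omega
        have a2 : |F.c i z' - F.c i y| ≤ 100 * L := by
          by_contra hc
          obtain ⟨a, _, b, hb, hab⟩ := hE.bgi i z' y (not_le.1 hc)
          have := hE.clique i z hz1 b hb
          have := E.tri z b y
          omega
        have a3 := F.near i z hz1 z' hz2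
        have a4 := h i
        rw [abs_le] at a1 a2 a4
        have a5 : |F.c i z - F.c i z'| ≤ Θ + 200 * L := by
          rw [abs_le]; constructor <;> linarith [a1.1, a1.2, a2.1, a2.2, a4.1, a4.2]
        linarith
    push_cast
    linarith

lemma lift' (hX : X.Inv Q) (hE : F.IsEl E) (hL : 1 ≤ L) (Θ : ℝ) (p : V) (w : OQ F.K V)
    (h : ∀ l, angq F E l (omk F.K p) w ≤ Θ) (hΘ : 0 ≤ Θ) : ∃ q, omk F.K q = w ∧
    (X.d p q : ℝ) ≤ (Θ + 1000 * L) * ((ZQ hE).d (omk F.K p) w + 1) ∧
    ∀ i, |F.c i p - F.c i q| ≤ Θ + 1000 * L := by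
  have hL' : (1 : ℝ) ≤ L := by exact_mod_cast hL
  obtain ⟨q0, rfl⟩ := omk_surj F.K w
  have hne : {m : ℕ | ∃ k ∈ F.K, E.d p (k • q0) = db F E p q0 ∧ X.d p (k • q0) = m}.Nonempty := by
    obtain ⟨k, hk, e⟩ := db_ex F E p q0
    exact ⟨_, k, hk, e, rfl⟩
  obtain ⟨k, hk, e1, e2⟩ := Nat.sInf_mem hne
  have hmin : ∀ k' ∈ F.K, E.d p (k' • q0) = db F E p q0 → X.d p (k • q0) ≤ X.d p (k' • q0) := by
    intro k' hk' e
    rw [e2]
    exact Nat.sInf_le ⟨k', hk', e, rfl⟩
  set q := k • q0 with hq
  have hang : ∀ i, |F.c i p - F.c i q| ≤ Θ + 100 * L := by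
    intro i
    by_contra hc
    push Not at hc
    obtain ⟨a, ha, b, hb, hab⟩ := hE.bgi i p q (by linarith)
    have mp : MinL F E i p := by
      intro k' hk'
      obtain ⟨a', ha', ea'⟩ := eta_ex (E := E) (F.Y_ne i) (k' • p)
      have g1 := eta_le (E := E) (F.Y i) p ha
      have g2 := db_le2 hE p q0 hk' hk
      have g3 := E.tri (k' • p) a' q
      have g4 := E.tri a' b q
      have g5 := hE.clique i a' ha' b hb
      rw [← hq] at g2
      omega
    have mq : MinL F E i q := by
      intro k' hk'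
      obtain ⟨b', hb', eb'⟩ := eta_ex (E := E) (F.Y_ne i) (k' • q)
      have g1 := eta_le (E := E) (F.Y i) q hb
      have g2 := db_le F E p q0 (F.K.mul_mem hk' hk)
      rw [mul_smul, ← hq] at g2
      have g3 := E.tri p a (k' • q)
      have g4 := E.tri a b' (k' • q)
      have g5 := hE.clique i a ha b' hb'
      have g6 := E.comm b' (k' • q)
      have g7 := E.comm b q
      omega
    have h1 := le_angq hL mp mq
    rw [hq, omk_smul F.K hk, ← hq] at h1
    have h2 := h1.trans (h _)
    obtain ⟨m, hm⟩ := cd_ex (per F i) (F.c i p - F.c i q)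
    set r := rel F i ^ m with hr
    have hrz : r ∈ Subgroup.zpowers (rel F i) := Subgroup.mem_zpowers_iff.2 ⟨m, rfl⟩
    have hrK := zp_le_K F i hrz
    have hri := zp_fix F hrz
    have c1 : ∀ z, F.c i (r • z) = F.c i z + m * per F i := fun z => c_rel F i m z
    have b1 := bend_le hE hri (x := p) (y := q) (by linarith)
    have b2 := db_le F E p q0 (F.K.mul_mem hrK hk)
    have b3 := hmin (r * k) (F.K.mul_mem hrK hk) (by rw [mul_smul, ← hq] at b2 ⊢; omega)
    rw [mul_smul, ← hq] at b3
    obtain ⟨a', ha', b', hb', s1, s2, s3⟩ := F.proj i p q (by linarith)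
    have l1 := F.lip i a' b'
    have l2 := F.near i a' ha' (r • b') (Y_fix F hri hb')
    have l3 : X.d p (r • q) ≤ X.d p a' + X.d a' (r • b') + X.d b' q := by
      have := X.tri p a' (r • q)
      have := X.tri a' (r • b') (r • q)
      have := hX r b' q
      omega
    have l3' : (X.d p (r • q) : ℝ) ≤ X.d p a' + X.d a' (r • b') + X.d b' q := by exact_mod_cast l3
    have s1' : (X.d p a' : ℝ) + X.d a' b' + X.d b' q ≤ X.d p q + L := by exact_mod_cast s1
    have b3' : (X.d p q : ℝ) ≤ X.d p (r • q) := by exact_mod_cast b3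
    rw [c1] at l2
    rw [hm] at h2
    rw [abs_le] at s2 s3 h2
    have l4 : |F.c i a' - (F.c i b' + m * per F i)| ≤ Θ + 2 * L := by
      rw [abs_le]; constructor <;> linarith [s2.1, s2.2, s3.1, s3.2, h2.1, h2.2]
    have l5 : |F.c i p - F.c i q| ≤ |F.c i a' - F.c i b'| + 2 * L := by
      have u1 := le_abs_self (F.c i a' - F.c i b')
      have u2 := neg_abs_le (F.c i a' - F.c i b')
      rw [abs_le]; constructor <;> linarith [s2.1, s2.2, s3.1, s3.2]
    linarith
  refine ⟨q, omk_smul F.K hk q0, ?_, fun i => by linarith [hang i]⟩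
  have h3 := short hE (by linarith : 0 ≤ Θ + 100 * L) hang _ p rfl (by rw [E.self]; simp)
  rw [ZQ_mk, ← e1]
  have h4 : (0 : ℝ) ≤ E.d p q := Nat.cast_nonneg _
  nlinarith

lemma scale' (hE : F.IsEl E) (m : ℕ) : ∀ p q : V, X.d p q ≤ (m + 1) * L → E.d p q ≤ m + 1 := by
  induction m with
  | zero => intro p q h; exact hE.le_one p q (by omega)
  | succ m ih =>
    intro p q h
    by_cases h1 : X.d p q ≤ L
    · have := hE.le_one p q h1; omega
    · obtain ⟨z, hz1, hz2⟩ := X.geo p q L (by omega)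
      have h2 := hE.le_one p z hz1.le
      have h3 := ih z q (by
        have : (m + 1 + 1) * L = (m + 1) * L + L := by ring
        omega)
      have := E.tri p z q
      omega

end Tquo

open Tquo in
theorem thm_quo (h : S_hyp) : S_quo := by
  intro Q V I _ _ _ X L F E hV hX hL hE hI0
  have hI := ind_of F hI0
  letI aV := actR F.K (S := V)
  letI aI := actR F.K (S := I)
  have sV : ∀ (g : Q) (u : OQ F.K V), QuotientGroup.mk' F.K g • u = g • u := fun _ _ => rfl
  have sI : ∀ (g : Q) (u : OQ F.K I), QuotientGroup.mk' F.K g • u = g • u := fun _ _ => rfl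
  have su := QuotientGroup.mk'_surjective F.K
  refine ⟨OQ F.K V, OQ F.K I, aV, aI,
    { Z := ZQ hE
      Y := Yq F
      ang := angq F E
      hL := hL
      ne := hV.map (omk F.K)
      inv := ?_
      four := (h _ (ZQ hE)).1 60 (ZQ_slim hE hL hI)
      Y_ne := Yq_ne
      Y_smul := ?_
      clique := Yq_clique hE
      ang_comm := angq_comm hL
      ang_tri := angq_tri hL
      ang_smul := ?_
      bgi := angq_bgi hE hL hI
      sep := angq_sep hE hL hI
      rot := ?_ }, omk F.K, ?_⟩
  · intro g u w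
    obtain ⟨g, rfl⟩ := su g
    obtain ⟨p, rfl⟩ := omk_surj F.K u
    obtain ⟨q, rfl⟩ := omk_surj F.K w
    exact db_smul hE g p q
  · intro g l u
    obtain ⟨g, rfl⟩ := su g
    exact Yq_smul g l u
  · intro g l u w
    obtain ⟨g, rfl⟩ := su g
    exact angq_smul hE hL g l u w
  · intro g l hl hg
    obtain ⟨g, rfl⟩ := su g
    obtain ⟨j, hj⟩ := angq_rot hE hL g l hl hg
    refine ⟨j, fun u => ?_⟩
    rw [← map_pow]
    exact hj u
  · have hker : ∀ k : Q, QuotientGroup.mk' F.K k = 1 ↔ k ∈ F.K := fun k =>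
      QuotientGroup.eq_one_iff k
    refine
      { surj := su
        φ_surj := omk_surj F.K
        φ_smul := fun _ _ => rfl
        φ_eq := ?_
        scale := ?_
        rel := fun i => (hker _).2 (rel_mem_K F i)
        stab := ?_
        fixgen := ?_
        kerstab := ?_
        lift := fun Θ p w h1 h2 => lift' hX hE hL Θ p w h1 h2
        inj := fun k p hk h1 => inj' F hI k p ((hker k).1 hk) h1 }
    · intro p q e
      obtain ⟨k, hk, e⟩ := (omk_eq F.K).1 e
      exact ⟨k, (hker k).2 hk, e⟩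
    · intro m p q h1
      exact (db_le' F E p q).trans (scale' hE m p q h1)
    · intro l
      obtain ⟨i, rfl⟩ := omk_surj F.K l
      refine ⟨i, fun g => ?_⟩
      obtain ⟨g, rfl⟩ := su g
      exact stab_iff i g
    · intro i
      exact ⟨omk F.K i, (stab_iff i (F.gen i)).2 (Subgroup.mem_zpowers _)⟩
    · intro i g hg h1
      obtain ⟨y, hy⟩ := F.Y_ne i
      exact kerstab' F hI hL i y hy g ((hker g).1 h1) (Y_fix F ((F.stab g i).2 hg) hy)

end Pool.Agent.H59Z.NA
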