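import Pool.Agent.H59Z.NA.St

set_option autoImplicit false

/-!
# One step of small cancellation
-/

namespace Pool.Agent.H59Z.NA

namespace Tstep

/-- An element of finite order has translation length zero. -/
theorem tau_torsion (h1 : S_tau) {Q V : Type} [Group Q] [MulAction Q V] (X : GM V)
    (hX : X.Inv Q) (g : Q) (m : ℕ) (hm : 0 < m) (hg : g ^ m = 1) : X.tau g = 0 := by
  obtain ⟨-, -, -, h4, -⟩ := h1 Q V X hX
  have e0 : X.tau (1 : Q) = 0 := by
    have := h4 g 0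
    simpa using this
  have e1 := h4 g (m : ℤ)
  rw [zpow_natCast, hg, e0] at e1
  have hm' : |((m : ℤ) : ℝ)| ≠ 0 := by
    rw [abs_ne_zero]
    exact_mod_cast hm.ne'
  rcases mul_eq_zero.1 e1.symm with h | h
  · exact absurd h hm'
  · exact h

theorem commute_of_zpowers {R : Type} [Group R] {g a b : R} (ha : a ∈ Subgroup.zpowers g)
    (hb : b ∈ Subgroup.zpowers g) : Commute a b := by
  obtain ⟨i, rfl⟩ := Subgroup.mem_zpowers_iff.1 ha
  obtain ⟨j, rfl⟩ := Subgroup.mem_zpowers_iff.1 hb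
  exact Commute.zpow_zpow_self g i j

end Tstep

open Tstep in
theorem thm_step (h1 : S_tau) (h2 : S_acyl) (h3 : S_lox) (h4 : S_pos) (h5 : S_ell) (h6 : S_tri)
    (h7 : S_acylq) (h8 : S_loxq) : S_step := by
  intro Q V I _ _ _ X δ A₀ L n τ₀ τ₁ F R W J _ _ _ π A φ hG hn hmu hL hτ hτ1 htri hq
  have hn0 : 0 < n := hn.pos
  have hL1 : (1 : ℝ) ≤ L := by exact_mod_cast A.hL
  have hpos : 0 < τ₁ / (15000 * (L : ℝ)) := by positivity
  have hac : ∀ D : ℕ, X.Acyl Q D (L + 20 * D) := by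
    intro D g h x y a b c d e
    exact h2 Q V X δ A₀ hG.inv hG.four hG.cyc hG.mal hG.acyl D g h x y a b c d (by omega)
  have tri := h6 Q V I X L F R W J π A φ hG.inv hq n τ₁ hτ hτ1 htri
  obtain ⟨-, -, -, p4, -⟩ := h4 R W J L A
  have hfix : ∀ (g : R) (l : J), g • l = l → g ^ n = 1 := by
    intro g l hl
    obtain ⟨i, hi⟩ := hq.stab l
    obtain ⟨k, rfl⟩ := Subgroup.mem_zpowers_iff.1 ((hi g).1 hl)
    obtain ⟨c, hc⟩ := hmu i
    have e : π (F.gen i) ^ n = 1 := by
      rw [hc, pow_mul, ← map_pow, hq.rel i, one_pow]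
    rw [← zpow_natCast, ← zpow_mul, mul_comm, zpow_mul, zpow_natCast, e, one_zpow]
  have dich : ∀ g : R, g ^ n = 1 ∨ τ₁ / (15000 * (L : ℝ)) ≤ A.Z.tau g := by
    intro g
    rcases tri g with ⟨l, hl⟩ | ⟨g', rfl, hg'⟩ | h
    · exact Or.inl (hfix g l hl)
    · left; rw [← map_pow, hg', map_one]
    · exact Or.inr h
  have two : ∀ t : R, t ^ 2 = 1 → t = 1 := by
    intro t ht
    rcases dich t with h | h
    · obtain ⟨k, hk⟩ := hn
      rw [hk, pow_succ, pow_mul, ht, one_pow, one_mul] at h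
      exact h
    · rw [tau_torsion h1 A.Z A.inv t 2 (by norm_num) ht] at h
      exact absurd h (not_le.2 hpos)
  have hcomm : ∀ (u a : R) (l : J), u ≠ 1 → u • l = l → Commute a u → a • l = l := by
    intro u a l hu hl hc
    refine (p4 u l (a • l) hu hl ?_).symm
    rw [← mul_smul, ← hc.eq, mul_smul, hl]
  have main : ∀ u : R, u ≠ 1 →
      (∃ g : R, ∀ a : R, Commute a u → a ∈ Subgroup.zpowers g) ∧
      ∀ t : R, Commute u (t * u * t⁻¹) → Commute t u := by
    intro u hu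
    by_cases hl : ∃ l : J, u • l = l
    · obtain ⟨l, hl⟩ := hl
      obtain ⟨i, hi⟩ := hq.stab l
      refine ⟨⟨π (F.gen i), fun a ha => (hi a).1 (hcomm u a l hu hl ha)⟩, fun t ht => ?_⟩
      have e1 : (t * u * t⁻¹) • l = l := hcomm u _ l hu hl ht.symm
      have e2 : (t * u * t⁻¹) • (t • l) = t • l := by
        rw [← mul_smul, inv_mul_cancel_right, mul_smul, hl]
      have e3 : t * u * t⁻¹ ≠ 1 := by
        intro h
        apply hu
        have : u = t⁻¹ * (t * u * t⁻¹) * t := by group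
        rw [this, h]; group
      have e4 : t • l = l := (p4 _ l (t • l) e3 e1 e2).symm
      exact commute_of_zpowers ((hi t).1 e4) ((hi u).1 hl)
    · rcases dich u with h | h
      · exact h5 Q V I X L F R W J π A φ hG.inv hG.cyc hG.mal hq u n hn0 hu h
          (fun l h' => hl ⟨l, h'⟩)
      · obtain ⟨q1, q2⟩ := h8 Q V I X L F R W J π A φ hG.inv hG.cyc hq hac n hn0 hmu u
          (lt_of_lt_of_le hpos h)
        refine h3 R W A.Z 122 _ A.inv A.four hpos two u hu q1 ?_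
        intro a ha ha1
        rcases dich a with h' | h'
        · exact absurd (q2 a ha h') ha1
        · exact h'
  refine ⟨⟨A.ne, A.inv, A.four, dich, fun u hu => (main u hu).1,
    fun u t hu ht => (main u hu).2 t ht, h7 Q V I X L F R W J π A φ hG.inv hq hac⟩, ?_⟩
  intro g m hm hg
  rcases tri g with ⟨l, hl⟩ | ⟨g', hg1, hg'⟩ | h
  · obtain ⟨i, hi⟩ := hq.stab l
    obtain ⟨k, rfl⟩ := Subgroup.mem_zpowers_iff.1 ((hi g).1 hl)
    exact ⟨F.gen i ^ k, map_zpow π _ _, Or.inr ⟨i, Subgroup.zpow_mem_zpowers _ _⟩⟩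
  · exact ⟨g', hg1, Or.inl hg'⟩
  · rw [tau_torsion h1 A.Z A.inv g m hm hg] at h
    exact absurd h (not_le.2 hpos)

end Pool.Agent.H59Z.NA
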