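import Pool.Agent.H59Z.NA.St

set_option autoImplicit false

/-!
# Classification of the elements of the quotient
-/

namespace Pool.Agent.H59Z.NA

namespace Ttri

theorem eta_lip {V : Type} (X : GM V) (S : Set V) (hS : S.Nonempty) (p q : V) :
    X.eta S p ≤ X.d p q + X.eta S q := by
  obtain ⟨a₀, ha₀⟩ := hS
  have hne : {m : ℕ | ∃ a ∈ S, X.d q a = m}.Nonempty := ⟨_, a₀, ha₀, rfl⟩
  obtain ⟨a, ha, h⟩ := Nat.sInf_mem hne
  have h1 : X.eta S p ≤ X.d p a := Nat.sInf_le ⟨a, ha, rfl⟩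
  have h2 : X.eta S q = X.d q a := h.symm
  have h3 := X.tri p q a
  omega

theorem d_pow {Q V : Type} [Group Q] [MulAction Q V] (X : GM V) (h : X.Inv Q) (g : Q) (x : V)
    (i : ℕ) : X.d x (g ^ i • x) ≤ i * X.d x (g • x) := by
  induction i with
  | zero => simp [X.self]
  | succ i ih =>
    have h1 := X.tri x (g ^ i • x) (g ^ (i + 1) • x)
    have h2 : X.d (g ^ i • x) (g ^ (i + 1) • x) = X.d x (g • x) := by
      rw [pow_succ, mul_smul, h]
    rw [Nat.succ_mul]
    omega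

theorem d_shift {Q V : Type} [Group Q] [MulAction Q V] (X : GM V) (h : X.Inv Q) (g : Q) (x : V)
    (i m : ℕ) : X.d (g ^ m • x) (g ^ i • g ^ m • x) = X.d x (g ^ i • x) := by
  rw [← mul_smul, ← pow_add, add_comm, pow_add, mul_smul, h]

theorem fix_of_mem {R J : Type} [Group R] [MulAction R J] {u g : R} {l : J} (h : u • l = l)
    (hg : g ∈ Subgroup.zpowers u) : g • l = l := by
  have : Subgroup.zpowers u ≤ MulAction.stabilizer R l := by
    rw [Subgroup.zpowers_le]
    exact h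
  exact this hg

end Ttri

open Ttri in
theorem thm_tri (h1 : S_tau) (h2 : S_pos) (h3 : S_fp) (h4 : S_lfp) (h5 : S_md) : S_tri := by
  intro Q V I _ _ _ X L F R W J _ _ _ π A φ hX hQ n τ₁ hτ0 hτ1 hdich g
  by_contra hcon
  push Not at hcon
  obtain ⟨c1, c2, c3⟩ := hcon
  have hL : (1 : ℝ) ≤ L := by exact_mod_cast A.hL
  have hlift : ∀ g' : Q, π g' = g → τ₁ ≤ X.tau g' := by
    intro g' hg'
    rcases hdich g' with h | ⟨i, h⟩ | h
    · exact absurd h (c2 g' hg')
    · obtain ⟨l, hl⟩ := hQ.fixgen i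
      refine absurd (fix_of_mem hl ?_) (c1 l)
      obtain ⟨k, rfl⟩ := Subgroup.mem_zpowers_iff.mp h
      rw [← hg', map_zpow]
      exact Subgroup.zpow_mem_zpowers _ _
    · exact h
  obtain ⟨x⟩ := A.ne
  by_cases hb : ∃ r, ∀ m : ℕ, A.Z.d x (g ^ m • x) ≤ r
  · obtain ⟨r, hr⟩ := hb
    have hH : ∀ h ∈ Subgroup.zpowers g, A.Z.d x (h • x) ≤ r := by
      intro h hh
      obtain ⟨k, rfl⟩ := Subgroup.mem_zpowers_iff.mp hh
      obtain ⟨m, rfl | rfl⟩ := Int.eq_nat_or_neg k
      · rw [zpow_natCast]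
        exact hr m
      · rw [zpow_neg, zpow_natCast, ← A.inv (g ^ m), smul_inv_smul, A.Z.comm]
        exact hr m
    rcases h3 R W J L A _ x r hH with ⟨l, hl⟩ | ⟨p, hp⟩
    · exact c1 l (hl g (Subgroup.mem_zpowers g))
    obtain ⟨p, rfl⟩ := hQ.φ_surj p
    obtain ⟨lf, hf1, hf2⟩ := h4 Q V I X L F R W J π A φ hX hQ _ p hp
    have hmem : ∀ m : ℕ, g ^ m ∈ Subgroup.zpowers g := fun m =>
      Subgroup.pow_mem _ (Subgroup.mem_zpowers g) m
    have hpow : ∀ m : ℕ, lf (g ^ m) = lf g ^ m := by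
      intro m
      induction m with
      | zero =>
        have := hf2 1 (one_mem _) 1 (one_mem _)
        rw [mul_one] at this
        simpa using this
      | succ m ih => rw [pow_succ, hf2 _ (hmem m) _ (Subgroup.mem_zpowers g), ih, pow_succ]
    have h6 := hlift (lf g) (hf1 g (Subgroup.mem_zpowers g)).1
    obtain ⟨m, hm⟩ := exists_nat_gt ((2000000 * L : ℝ) / τ₁)
    have h7 := (h1 Q V X hX).1 (lf g) p m
    have h8 : (X.d p (lf g ^ m • p) : ℝ) ≤ 2000000 * L := by
      have := (hf1 _ (hmem m)).2.1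
      rw [hpow] at this
      exact_mod_cast this
    rw [div_lt_iff₀ hτ0] at hm
    have h9 : τ₁ * m ≤ X.tau (lf g) * m := mul_le_mul_of_nonneg_right h6 (Nat.cast_nonneg m)
    linarith
  push Not at hb
  refine absurd ((h1 R W A.Z A.inv).2.2.2.2.2.1 g x _ 123 fun j => ?_) (not_le.mpr c3)
  have hLpos : (0 : ℝ) < 15000 * L := by linarith
  rcases Nat.eq_zero_or_pos j with rfl | hj
  · simp only [Nat.cast_zero, mul_zero]
    positivity
  obtain ⟨m, hm⟩ := hb (10 * (j * A.Z.d x (g • x)) + 2000)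
  have hx : ∀ i ≤ j, A.Z.d x (g ^ i • x) ≤ j * A.Z.d x (g • x) := fun i hi =>
    (d_pow A.Z A.inv g x i).trans (Nat.mul_le_mul_right _ hi)
  have hy : ∀ i ≤ j, A.Z.d (g ^ m • x) (g ^ i • g ^ m • x) ≤ j * A.Z.d x (g • x) := fun i hi => by
    rw [d_shift A.Z A.inv]
    exact hx i hi
  rcases h5 Q V I X L F R W J π A φ hX hQ x (g ^ m • x) (j * A.Z.d x (g • x)) 0 (by omega) with
    ⟨l, e1, e2, e3⟩ | ⟨p, q, lf, -, e1, e2⟩
  · obtain ⟨-, p2, -, -, p5⟩ := h2 R W J L A
    obtain ⟨q1, q2⟩ := p5 l x (g ^ m • x) (600 * L) {s | ∃ i ≤ j, s = g ^ i} (by positivity) (by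
      rintro _ ⟨i, hi, rfl⟩
      exact ⟨p2 l _ _ ((hx i hi).trans e1), p2 l _ _ ((hy i hi).trans e2)⟩) (by linarith)
    set al : ℤ := (A.Z.d (g • x) (g ^ m • x) : ℤ) - A.Z.d x (g ^ m • x) with hal
    have hstep : ∀ i ≤ j, (A.Z.eta (A.Y l) (g ^ i • x) : ℤ) = A.Z.eta (A.Y l) x + i * al := by
      intro i hi
      induction i with
      | zero => simp
      | succ i ih =>
        have := q1 (g ^ i) g ⟨i, by omega, rfl⟩ ⟨i + 1, hi, (pow_succ g i).symm⟩
        rw [← pow_succ] at this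
        rw [this, ih (by omega)]
        push_cast
        ring
    by_cases h0 : al = 0
    · have h6 := hstep 1 hj
      rw [h0, mul_zero, add_zero, pow_one] at h6
      have h7 := q2 g 1 ⟨1, hj, (pow_one g).symm⟩ ⟨0, hj.le, (pow_zero g).symm⟩
        (by rw [one_smul]; exact_mod_cast h6)
      rw [inv_one, one_smul, inv_smul_eq_iff] at h7
      exact absurd h7.symm (c1 l)
    have h6 := hstep j le_rfl
    have h7 := eta_lip A.Z (A.Y l) (A.Y_ne l) x (g ^ j • x)
    have h8 := eta_lip A.Z (A.Y l) (A.Y_ne l) (g ^ j • x) x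
    rw [A.Z.comm (g ^ j • x) x] at h8
    have h9 : (j : ℤ) ≤ A.Z.d x (g ^ j • x) := by
      have hj0 : (0 : ℤ) ≤ j := Int.natCast_nonneg j
      rcases lt_or_gt_of_ne h0 with h | h
      · have : (j : ℤ) * al ≤ j * (-1) := mul_le_mul_of_nonneg_left (by omega) hj0
        omega
      · have : (j : ℤ) * 1 ≤ j * al := mul_le_mul_of_nonneg_left (by omega) hj0
        omega
    have h10 : (j : ℝ) ≤ A.Z.d x (g ^ j • x) := by exact_mod_cast h9
    have h11 : τ₁ / (15000 * L) ≤ 1 := by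
      rw [div_le_one hLpos]
      linarith
    have h12 : τ₁ / (15000 * L) * j ≤ 1 * j := mul_le_mul_of_nonneg_right h11 (Nat.cast_nonneg j)
    linarith
  · have hx1 := hx 1 hj
    have hy1 := hy 1 hj
    rw [pow_one] at hx1 hy1
    have hpow : ∀ i ≤ j, lf (g ^ i) = lf g ^ i := by
      intro i hi
      induction i with
      | zero =>
        have a1 := hx 0 hi
        have a2 := hy 0 hi
        rw [pow_zero] at a1 a2
        have := e2 1 1 a1 a2 a1 a2 (by rwa [mul_one]) (by rwa [mul_one])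
        rw [mul_one] at this
        simpa using this
      | succ i ih =>
        rw [pow_succ, e2 _ _ (hx i (by omega)) (hy i (by omega)) hx1 hy1
          (by rw [← pow_succ]; exact hx _ hi) (by rw [← pow_succ]; exact hy _ hi),
          ih (by omega), pow_succ]
    have h6 := hlift (lf g) (e1 g _ le_rfl hx1 hy1).1
    have h7 := (h1 Q V X hX).1 (lf g) p j
    have h8 := (e1 (g ^ j) _ (hx j le_rfl) le_rfl (d_shift A.Z A.inv g x j m).le).2.1
    rw [hpow j le_rfl] at h8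
    have h9 : (X.d p (lf g ^ j • p) : ℝ) ≤ 15000 * L * (A.Z.d x (g ^ j • x) + 123) := by
      exact_mod_cast h8
    have h10 : τ₁ * j ≤ X.tau (lf g) * j := mul_le_mul_of_nonneg_right h6 (Nat.cast_nonneg j)
    rw [div_mul_eq_mul_div, div_le_iff₀ hLpos]
    linarith

end Pool.Agent.H59Z.NA
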