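import Pool.Agent.H59Z.NA.St

set_option autoImplicit false

/-!
# Windmills: the induction principle for the normal subgroup generated by the relators
-/

namespace Pool.Agent.H59Z.NA

namespace Twind

/-- Abstract data for the windmill construction. -/
structure Sys (Γ V I : Type) [Group Γ] [MulAction Γ V] [MulAction Γ I] where
  L : ℝ
  a : I → V → V → ℝ
  Y : I → Set V
  H : I → Subgroup Γ
  adj : V → V → Prop
  x : V
  Φ : Γ → Prop
  hL : 0 < L
  a_self : ∀ i p, a i p p = 0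
  a_comm : ∀ i p q, a i p q = a i q p
  a_tri : ∀ i p q r, a i p r ≤ a i p q + a i q r
  a_smul : ∀ (g : Γ) i p q, a (g • i) (g • p) (g • q) = a i p q
  Y_ne : ∀ i, (Y i).Nonempty
  Y_smul : ∀ (g : Γ) i p, p ∈ Y i → g • p ∈ Y (g • i)
  beh : ∀ i j, i ≠ j → ∀ y ∈ Y j, ∀ y' ∈ Y i, ∀ z, 101 * L < a i y z → a j y' z ≤ 101 * L
  H_conj : ∀ (g : Γ) i, ∀ h ∈ H i, g * h * g⁻¹ ∈ H (g • i)
  H_fix : ∀ i, ∀ h ∈ H i, h • i = i
  rot : ∀ i, ∀ h ∈ H i, h ≠ 1 → ∀ p, 10 ^ 9 * L ≤ a i p (h • p)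
  adj_refl : ∀ p, adj p p
  lip : ∀ i p q, adj p q → a i p q ≤ 2 * L
  conn : ∀ q, Relation.ReflTransGen adj x q
  Φ_one : Φ 1
  Φ_step : ∀ k ∈ ⨆ i, H i, ∀ i, ∀ r ∈ H i, 10 ^ 8 * L ≤ a i x (k • x) → Φ (r * k) → Φ k

variable {Γ V I : Type} [Group Γ] [MulAction Γ V] [MulAction Γ I] (S : Sys Γ V I)

/-- The state of the windmill construction. -/
structure Mill where
  W : Set V
  N : Subgroup Γ
  J : Set I
  w0 : S.x ∈ W
  w1 : ∀ n ∈ N, ∀ p ∈ W, n • p ∈ W
  w2 : ∀ i ∈ J, S.H i ≤ N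
  w3 : N ≤ ⨆ i, S.H i
  w4 : ∀ i, i ∉ J → ∀ p ∈ W, ∀ q ∈ W, S.a i p q ≤ 5000 * S.L
  w5 : ∀ n ∈ N, ∀ i ∈ J, n • i ∈ J
  w6 : ∀ k ∈ N, S.Φ k

namespace Mill

variable {S} (M : Mill S)

/-- The lines which are added at the next step. -/
def J1 : Set I := {i | i ∉ M.J ∧ ∃ p ∈ M.W, ∃ q ∈ M.W, 300 * S.L < S.a i p q}

lemma J1_smul (n : Γ) (hn : n ∈ M.N) (i : I) (hi : i ∈ M.J1) : n • i ∈ M.J1 := by
  refine ⟨?_, ?_⟩
  · intro h
    have := M.w5 n⁻¹ (M.N.inv_mem hn) _ h
    rw [inv_smul_smul] at this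
    exact hi.1 this
  · obtain ⟨p, hp, q, hq, h⟩ := hi.2
    refine ⟨n • p, M.w1 n hn p hp, n • q, M.w1 n hn q hq, ?_⟩
    rw [S.a_smul]
    exact h

/-- Normal forms of elements of the next group; the second argument is the first line. -/
inductive Rep : Γ → Option I → Prop
  | base (n : Γ) (hn : n ∈ M.N) : Rep n none
  | cons (i : I) (h g : Γ) (o : Option I) (hi : i ∈ M.J1) (hh : h ∈ S.H i) (h1 : h ≠ 1)
      (hr : Rep g o) (hne : o ≠ some i) : Rep (h * g) (some i)

lemma rep_mul_N {g : Γ} {o : Option I} (h : M.Rep g o) :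
    ∀ n ∈ M.N, M.Rep (n * g) (o.map fun j => n • j) := by
  induction h with
  | base m hm => intro n hn; exact Rep.base _ (M.N.mul_mem hn hm)
  | cons i h g o hi hh h1 hr hne ih =>
    intro n hn
    have e : n * (h * g) = (n * h * n⁻¹) * (n * g) := by group
    rw [e, Option.map_some]
    refine Rep.cons _ _ _ _ (M.J1_smul n hn i hi) (S.H_conj n i h hh) ?_ (ih n hn) ?_
    · intro h2
      apply h1
      have := congrArg (fun z => n⁻¹ * z * n) h2
      simpa [mul_assoc] using this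
    · intro hl
      cases o with
      | none => simp at hl
      | some j =>
        simp only [Option.map_some, Option.some.injEq] at hl
        exact hne (by rw [smul_left_cancel n hl])

lemma rep_mul_H {g : Γ} {o : Option I} (h : M.Rep g o) (i : I) (hi : i ∈ M.J1) (y : Γ)
    (hy : y ∈ S.H i) : ∃ o', M.Rep (y * g) o' := by
  by_cases hy1 : y = 1
  · subst hy1; exact ⟨o, by simpa using h⟩
  by_cases hs : o = some i
  · cases h with
    | base n hn => simp at hs
    | cons j k g' t hj hk hk1 hr hne =>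
      have hij : j = i := by simpa using hs
      subst hij
      by_cases hxk : y * k = 1
      · refine ⟨t, ?_⟩
        rw [← mul_assoc, hxk, one_mul]; exact hr
      · refine ⟨some j, ?_⟩
        rw [← mul_assoc]
        exact Rep.cons j (y * k) g' t hj ((S.H j).mul_mem hy hk) hxk hr hne
  · exact ⟨some i, Rep.cons i y g o hi hy hy1 h hs⟩

lemma rep_first {g : Γ} {o : Option I} (h : M.Rep g o) {j : I} (hj : o = some j) : j ∈ M.J1 := by
  cases h with
  | base n hn => simp at hj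
  | cons i h g o hi hh h1 hr hne =>
    have : i = j := by simpa using hj
    exact this ▸ hi

/-- The next group. -/
def N' : Subgroup Γ := Subgroup.closure ((M.N : Set Γ) ∪ ⋃ i ∈ M.J1, (S.H i : Set Γ))

lemma le_N' : M.N ≤ M.N' := fun _ hx => Subgroup.subset_closure (Or.inl hx)

lemma H_le_N' {i : I} (hi : i ∈ M.J1) : S.H i ≤ M.N' := fun _ hx =>
  Subgroup.subset_closure (Or.inr (Set.mem_iUnion₂.mpr ⟨i, hi, hx⟩))

lemma N'_le : M.N' ≤ ⨆ i, S.H i := by
  refine (Subgroup.closure_le _).2 ?_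
  rintro y (hy | hy)
  · exact M.w3 hy
  · obtain ⟨i, _, hy⟩ := Set.mem_iUnion₂.mp hy
    exact (le_iSup S.H i) hy

lemma exists_rep {k : Γ} (hk : k ∈ M.N') : ∃ o, M.Rep k o := by
  induction hk using Subgroup.closure_induction_left with
  | one => exact ⟨none, Rep.base 1 M.N.one_mem⟩
  | mul_left b hb y hy ih =>
    obtain ⟨l, hl⟩ := ih
    rcases hb with hb | hb
    · exact ⟨_, M.rep_mul_N hl b hb⟩
    · obtain ⟨i, hi, hb⟩ := Set.mem_iUnion₂.mp hb
      exact M.rep_mul_H hl i hi b hb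
  | inv_mul_cancel b hb y hy ih =>
    obtain ⟨l, hl⟩ := ih
    rcases hb with hb | hb
    · exact ⟨_, M.rep_mul_N hl b⁻¹ (M.N.inv_mem hb)⟩
    · obtain ⟨i, hi, hb⟩ := Set.mem_iUnion₂.mp hb
      exact M.rep_mul_H hl i hi b⁻¹ ((S.H i).inv_mem hb)

lemma rep_mem {k : Γ} {o : Option I} (h : M.Rep k o) : k ∈ M.N' := by
  induction h with
  | base m hm => exact M.le_N' hm
  | cons i h g o hi hh h1 hr hne ih => exact M.N'.mul_mem (M.H_le_N' hi hh) ih

lemma claim1 {j1 j : I} (h1 : j1 ∈ M.J1) (hne : j ≠ j1) {y : V} (hy : y ∈ S.Y j1) :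
    ∃ p ∈ M.W, S.a j y p ≤ 101 * S.L := by
  obtain ⟨p, hp, q, hq, hpq⟩ := h1.2
  obtain ⟨y', hy'⟩ := S.Y_ne j
  have hL := S.hL
  by_cases h : 101 * S.L < S.a j1 y' p
  · exact ⟨p, hp, S.beh j1 j hne.symm y' hy' y hy p h⟩
  · refine ⟨q, hq, S.beh j1 j hne.symm y' hy' y hy q ?_⟩
    have t := S.a_tri j1 p y' q
    have c := S.a_comm j1 p y'
    linarith

/-- A line of the next generation projects near the windmill on every line outside `J`. -/
lemma claim1' {j1 j : I} (h1 : j1 ∈ M.J1) (hne : j ≠ j1) (hj : j ∉ M.J) {y : V}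
    (hy : y ∈ S.Y j1) : S.a j y S.x ≤ 5101 * S.L := by
  obtain ⟨p, hp, h⟩ := M.claim1 h1 hne hy
  have t := S.a_tri j y p S.x
  have w := M.w4 j hj p hp S.x M.w0
  linarith

lemma claim2 {k : Γ} {o : Option I} (h : M.Rep k o) :
    ∀ j ∈ M.J1, o ≠ some j → ∀ w ∈ M.W, S.a j S.x (k • w) ≤ 5204 * S.L := by
  have hL := S.hL
  induction h with
  | base n hn =>
    intro j hj _ w hw
    have := M.w4 j hj.1 S.x M.w0 _ (M.w1 n hn w hw)
    linarith
  | cons i h g o hi hh h1 hr hne ih =>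
    intro j hj hji w hw
    have hji' : j ≠ i := fun e => hji (by rw [e])
    have e1 := ih i hi hne w hw
    have e2 := S.rot i h hh h1 (g • w)
    obtain ⟨y', hy'⟩ := S.Y_ne j
    obtain ⟨y, hy⟩ := S.Y_ne i
    have e3 := M.claim1' hj hji'.symm hi.1 hy'
    have e4 := M.claim1' hi hji' hj.1 hy
    rw [mul_smul]
    have t1 := S.a_tri i (g • w) S.x (h • g • w)
    have t2 := S.a_tri i S.x y' (h • g • w)
    have c1 := S.a_comm i (g • w) S.x
    have c2 := S.a_comm i S.x y'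
    have e5 := S.beh i j hji'.symm y' hy' y hy (h • g • w) (by linarith)
    have t3 := S.a_tri j S.x y (h • g • w)
    have c3 := S.a_comm j S.x y
    linarith

lemma far {h g : Γ} {o : Option I} {i : I} (hi : i ∈ M.J1) (hh : h ∈ S.H i) (h1 : h ≠ 1)
    (hr : M.Rep g o) (hne : o ≠ some i) {w : V} (hw : w ∈ M.W) :
    10 ^ 9 * S.L - 5204 * S.L ≤ S.a i S.x ((h * g) • w) := by
  have e1 := M.claim2 hr i hi hne w hw
  have e2 := S.rot i h hh h1 (g • w)
  rw [mul_smul]
  have t1 := S.a_tri i (g • w) S.x (h • g • w)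
  have c1 := S.a_comm i (g • w) S.x
  linarith

lemma phi_rep {k : Γ} {o : Option I} (h : M.Rep k o) : S.Φ k := by
  have hL := S.hL
  induction h with
  | base n hn => exact M.w6 n hn
  | cons i h g o hi hh h1 hr hne ih =>
    have hm : h * g ∈ M.N' := M.N'.mul_mem (M.H_le_N' hi hh) (M.rep_mem hr)
    refine S.Φ_step _ (M.N'_le hm) i h⁻¹ ((S.H i).inv_mem hh) ?_ (by simpa using ih)
    have := M.far hi hh h1 hr hne M.w0
    linarith

/-- The next set of lines. -/
def J' : Set I := {i | ∃ n ∈ M.N', n • i ∈ M.J ∨ n • i ∈ M.J1}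

lemma J'_smul {n : Γ} (hn : n ∈ M.N') {i : I} (hi : i ∈ M.J') : n • i ∈ M.J' := by
  obtain ⟨m, hm, h⟩ := hi
  refine ⟨m * n⁻¹, M.N'.mul_mem hm (M.N'.inv_mem hn), ?_⟩
  rwa [mul_smul, inv_smul_smul]

lemma not_J' {j : I} (hj : j ∉ M.J') : j ∉ M.J ∧ j ∉ M.J1 :=
  ⟨fun h => hj ⟨1, M.N'.one_mem, Or.inl (by simpa using h)⟩,
    fun h => hj ⟨1, M.N'.one_mem, Or.inr (by simpa using h)⟩⟩

lemma small {j : I} (hj : j ∉ M.J') {p q : V} (hp : p ∈ M.W) (hq : q ∈ M.W) :
    S.a j p q ≤ 300 * S.L := by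
  obtain ⟨h1, h2⟩ := M.not_J' hj
  by_contra h
  exact h2 ⟨h1, p, hp, q, hq, not_le.1 h⟩

lemma small' {j1 j : I} (h1 : j1 ∈ M.J1) (hj : j ∉ M.J') {y : V} (hy : y ∈ S.Y j1) :
    S.a j y S.x ≤ 401 * S.L := by
  have hne : j ≠ j1 := fun e => (M.not_J' hj).2 (e ▸ h1)
  obtain ⟨p, hp, h⟩ := M.claim1 h1 hne hy
  have t := S.a_tri j y p S.x
  have w := M.small hj hp M.w0
  linarith

lemma claim3 {k : Γ} {o : Option I} (h : M.Rep k o) :
    ∀ (z : V) (j : I), j ∉ M.J' → S.a j z S.x ≤ 606 * S.L →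
      (∀ j1, o = some j1 → S.a j1 z S.x ≤ 6000 * S.L) →
      ∀ w ∈ M.W, S.a j z (k • w) ≤ 1212 * S.L := by
  have hL := S.hL
  induction h with
  | base n hn =>
    intro z j hj hz _ w hw
    have t := S.a_tri j z S.x (n • w)
    have := M.small hj M.w0 (M.w1 n hn w hw)
    linarith
  | cons i h g o hi hh h1 hr hne ih =>
    intro z j hj hz hz1 w hw
    have hji : j ≠ i := fun e => (M.not_J' hj).2 (e ▸ hi)
    have hzi := hz1 i rfl
    obtain ⟨y, hy⟩ := S.Y_ne j
    obtain ⟨y1, hy1⟩ := S.Y_ne i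
    by_cases hc : 101 * S.L < S.a i y z
    · have b1 := S.beh i j hji.symm y hy y1 hy1 z hc
      have hinv : h⁻¹ ∈ S.H i := (S.H i).inv_mem hh
      have hj' : h⁻¹ • j ∉ M.J' := by
        intro hm
        have := M.J'_smul (M.H_le_N' hi hh) hm
        rw [smul_inv_smul] at this
        exact hj this
      have hy1' : h⁻¹ • y1 ∈ S.Y i := by
        have := S.Y_smul h⁻¹ i y1 hy1
        rwa [S.H_fix i _ hinv] at this
      have e0 : S.a j z ((h * g) • w) = S.a (h⁻¹ • j) (h⁻¹ • z) (g • w) := by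
        rw [← S.a_smul h⁻¹ j z, mul_smul, inv_smul_smul]
      rw [e0]
      refine ih _ _ hj' ?_ ?_ w hw
      · have e1 := S.a_smul h⁻¹ j y1 z
        have e2 := M.small' hi hj' hy1'
        have t := S.a_tri (h⁻¹ • j) (h⁻¹ • z) (h⁻¹ • y1) S.x
        have c := S.a_comm (h⁻¹ • j) (h⁻¹ • z) (h⁻¹ • y1)
        linarith
      · intro j2 hj2
        have hj2' := M.rep_first hr hj2
        have hne2 : j2 ≠ i := fun e => hne (by rw [hj2, e])
        obtain ⟨y2, hy2⟩ := S.Y_ne j2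
        have e1 := S.rot i h⁻¹ hinv (inv_ne_one.2 h1) z
        have e2 := M.claim1' hj2' hne2.symm hi.1 hy2
        have t1 := S.a_tri i z S.x (h⁻¹ • z)
        have t2 := S.a_tri i S.x y2 (h⁻¹ • z)
        have c1 := S.a_comm i S.x y2
        have e3 := S.beh i j2 hne2.symm y2 hy2 y1 hy1 (h⁻¹ • z) (by linarith)
        have e4 := M.claim1' hi hne2 hj2'.1 hy1
        have t3 := S.a_tri j2 (h⁻¹ • z) y1 S.x
        have c2 := S.a_comm j2 (h⁻¹ • z) y1
        linarith
    · have e1 := M.far hi hh h1 hr hne hw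
      have t1 := S.a_tri i S.x z ((h * g) • w)
      have t2 := S.a_tri i z y ((h * g) • w)
      have c1 := S.a_comm i S.x z
      have c2 := S.a_comm i z y
      have e2 := S.beh i j hji.symm y hy y1 hy1 ((h * g) • w) (by linarith)
      have e3 := M.small' hi hj hy1
      have t3 := S.a_tri j z S.x ((h * g) • w)
      have t4 := S.a_tri j S.x y1 ((h * g) • w)
      have c3 := S.a_comm j S.x y1
      linarith

/-- The next set of points. -/
def W' : Set V := {p | ∃ k ∈ M.N', ∃ w ∈ M.W, ∃ q, S.adj w q ∧ p = k • q}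

lemma mem_W' {w q : V} (hw : w ∈ M.W) (h : S.adj w q) : q ∈ M.W' :=
  ⟨1, M.N'.one_mem, w, hw, q, h, (one_smul _ _).symm⟩

lemma bound_W' {j : I} (hj : j ∉ M.J') {p : V} (hp : p ∈ M.W') : S.a j S.x p ≤ 1214 * S.L := by
  have hL := S.hL
  obtain ⟨k, hk, w, hw, q, hq, rfl⟩ := hp
  obtain ⟨o, ho⟩ := M.exists_rep hk
  have e1 := M.claim3 ho S.x j hj (by rw [S.a_self]; linarith)
    (fun j1 _ => by rw [S.a_self]; linarith) w hw
  have e2 := S.lip (k⁻¹ • j) w q hq
  have e3 := S.a_smul k (k⁻¹ • j) w q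
  rw [smul_inv_smul] at e3
  have t := S.a_tri j S.x (k • w) (k • q)
  linarith

/-- One step of the construction. -/
def step : Mill S where
  W := M.W'
  N := M.N'
  J := M.J'
  w0 := M.mem_W' M.w0 (S.adj_refl _)
  w1 := by
    rintro n hn p ⟨k, hk, w, hw, q, hq, rfl⟩
    exact ⟨n * k, M.N'.mul_mem hn hk, w, hw, q, hq, (mul_smul _ _ _).symm⟩
  w2 := by
    rintro i ⟨n, hn, h⟩ y hy
    have h1 : n * y * n⁻¹ ∈ M.N' := by
      have := S.H_conj n i y hy
      rcases h with h | h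
      · exact M.le_N' (M.w2 _ h this)
      · exact M.H_le_N' h this
    have e : y = n⁻¹ * (n * y * n⁻¹) * n := by group
    rw [e]
    exact M.N'.mul_mem (M.N'.mul_mem (M.N'.inv_mem hn) h1) hn
  w3 := M.N'_le
  w4 := by
    intro i hi p hp q hq
    have hL := S.hL
    have e1 := M.bound_W' hi hp
    have e2 := M.bound_W' hi hq
    have t := S.a_tri i p S.x q
    have c := S.a_comm i p S.x
    linarith
  w5 := fun n hn i hi => M.J'_smul hn hi
  w6 := by
    intro k hk
    obtain ⟨o, ho⟩ := M.exists_rep hk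
    exact M.phi_rep ho

end Mill

/-- The initial state. -/
def mill0 : Mill S where
  W := {S.x}
  N := ⊥
  J := ∅
  w0 := rfl
  w1 := by
    intro n hn p hp
    rw [Subgroup.mem_bot] at hn
    subst hn
    simpa using hp
  w2 := fun i hi => absurd hi (Set.notMem_empty i)
  w3 := bot_le
  w4 := by
    rintro i _ p rfl q rfl
    have hL := S.hL
    rw [S.a_self]; linarith
  w5 := fun _ _ i hi => absurd hi (Set.notMem_empty i)
  w6 := by
    intro k hk
    rw [Subgroup.mem_bot] at hk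
    subst hk
    exact S.Φ_one

/-- The sequence of windmills. -/
def seq : ℕ → Mill S
  | 0 => mill0 S
  | s + 1 => (seq s).step

lemma seq_mono : Monotone fun s => (seq S s).N :=
  monotone_nat_of_le_succ fun s => (seq S s).le_N'

lemma seq_W (q : V) : ∃ s, q ∈ (seq S s).W := by
  have h := S.conn q
  induction h with
  | refl => exact ⟨0, (seq S 0).w0⟩
  | tail _ hbc ih =>
    obtain ⟨s, hs⟩ := ih
    exact ⟨s + 1, (seq S s).mem_W' hs hbc⟩

theorem main : ∀ k ∈ ⨆ i, S.H i, S.Φ k := by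
  have hL := S.hL
  have key : ∀ k ∈ ⨆ i, S.H i, ∃ s, k ∈ (seq S s).N := by
    intro k hk
    induction hk using Subgroup.iSup_induction' with
    | hp i h hh =>
      by_cases h1 : h = 1
      · exact ⟨0, h1 ▸ (seq S 0).N.one_mem⟩
      · obtain ⟨s, hs⟩ := seq_W S (h • S.x)
        by_cases hJ : i ∈ (seq S s).J
        · exact ⟨s, (seq S s).w2 i hJ hh⟩
        · refine ⟨s + 1, (seq S s).H_le_N' ⟨hJ, S.x, (seq S s).w0, _, hs, ?_⟩ hh⟩
          have := S.rot i h hh h1 S.x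
          linarith
    | h1 => exact ⟨0, (seq S 0).N.one_mem⟩
    | hmul y z _ _ hy hz =>
      obtain ⟨s, hs⟩ := hy
      obtain ⟨t, ht⟩ := hz
      exact ⟨max s t, (seq S (max s t)).N.mul_mem (seq_mono S (le_max_left s t) hs)
        (seq_mono S (le_max_right s t) ht)⟩
  intro k hk
  obtain ⟨s, hs⟩ := key k hk
  exact (seq S s).w6 k hs

section concrete

variable {Q W J : Type} [Group Q] [MulAction Q W] [MulAction Q J] {X : GM W} {L : ℕ}
  (F : Fam Q W J X L)

lemma nearest (E : GM W) (A : Set W) (hA : A.Nonempty) (z : W) :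
    ∃ b ∈ A, ∀ b' ∈ A, E.d b z ≤ E.d b' z := by
  obtain ⟨b, hb, h⟩ := (measure (fun b => E.d b z)).wf.has_min A hA
  exact ⟨b, hb, fun b' hb' => not_lt.1 (h b' hb')⟩

lemma behrstock {E : GM W} (hE : F.IsEl E) (i j : J) (hij : i ≠ j) (y : W) (hy : y ∈ F.Y j)
    (y' : W) (hy' : y' ∈ F.Y i) (z : W) (h : 101 * (L : ℝ) < |F.c i y - F.c i z|) :
    |F.c j y' - F.c j z| ≤ 101 * (L : ℝ) := by
  by_contra h'
  rw [not_le] at h'
  obtain ⟨b, hb, hbm⟩ := nearest E (F.Y j) (F.Y_ne j) z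
  obtain ⟨b', hb', hbm'⟩ := nearest E (F.Y i) (F.Y_ne i) z
  have s1 := F.sep i j hij y hy b hb
  have s2 := F.sep j i hij.symm y' hy' b' hb'
  have t1 := abs_sub_le (F.c i y) (F.c i b) (F.c i z)
  have t2 := abs_sub_le (F.c j y') (F.c j b') (F.c j z)
  obtain ⟨u, _, v, hv, h1⟩ := hE.bgi i b z (by linarith)
  obtain ⟨u', _, v', hv', h2⟩ := hE.bgi j b' z (by linarith)
  have e1 := hbm v' hv'
  have e2 := hbm' v hv
  omega

lemma c_pow (i : J) (m : ℕ) (p : W) : F.c i (F.gen i ^ m • p) = F.c i p + m * F.tr i := by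
  induction m with
  | zero => simp
  | succ m ih =>
    rw [pow_succ', mul_smul, F.c_gen, ih]
    push_cast
    ring

lemma c_zpow (i : J) (e : ℤ) (p : W) : F.c i (F.gen i ^ e • p) = F.c i p + e * F.tr i := by
  obtain ⟨m, rfl | rfl⟩ := Int.eq_nat_or_neg e
  · rw [zpow_natCast, c_pow]; simp
  · have := c_pow F i m ((F.gen i ^ m)⁻¹ • p)
    rw [smul_inv_smul] at this
    rw [zpow_neg, zpow_natCast]
    push_cast
    linarith

lemma rot_rel (i : J) (g : Q) (hg : g ∈ Subgroup.zpowers (F.gen i ^ F.mu i)) (h1 : g ≠ 1)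
    (p : W) : 10 ^ 9 * (L : ℝ) ≤ |F.c i p - F.c i (g • p)| := by
  obtain ⟨e, rfl⟩ := Subgroup.mem_zpowers_iff.1 hg
  have he : e ≠ 0 := by
    rintro rfl
    simp at h1
  rw [← zpow_natCast (F.gen i) (F.mu i), ← zpow_mul, c_zpow]
  have hb := F.big i
  have ht := F.tr_pos i
  have h2 : (1 : ℝ) ≤ |(e : ℝ)| := by
    have : (1 : ℤ) ≤ |e| := Int.one_le_abs he
    exact_mod_cast this
  have h3 : F.c i p - (F.c i p + (((F.mu i : ℤ) * e : ℤ) : ℝ) * F.tr i) =
      -(e * (F.mu i * F.tr i)) := by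
    push_cast
    ring
  have h4 : (0 : ℝ) ≤ F.mu i * F.tr i := by positivity
  rw [h3, abs_neg, abs_mul, abs_of_nonneg h4]
  nlinarith

lemma conn_d (X : GM W) (x : W) : ∀ (n : ℕ) (q : W), X.d x q ≤ n →
    Relation.ReflTransGen (fun p q => X.d p q ≤ 1) x q := by
  intro n
  induction n with
  | zero => intro q hq; exact Relation.ReflTransGen.single (by omega)
  | succ n ih =>
    intro q hq
    by_cases h : X.d x q ≤ n
    · exact ih q h
    · obtain ⟨z, h1, h2⟩ := X.geo x q n (by omega)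
      exact (ih z h1.le).tail (by omega)

end concrete

end Twind

open Twind in
theorem thm_wind : S_wind := by
  intro Q V I _ _ _ X L F E _ hL hE Γ _ π H hconj hπ hinj x Φ h1 hstep
  let _ : MulAction Γ V := MulAction.compHom V π
  let _ : MulAction Γ I := MulAction.compHom I π
  have hL' : (1 : ℝ) ≤ L := by exact_mod_cast hL
  let S : Sys Γ V I :=
    { L := L
      a := fun i p q => |F.c i p - F.c i q|
      Y := F.Y
      H := H
      adj := fun p q => X.d p q ≤ 1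
      x := x
      Φ := Φ
      hL := by linarith
      a_self := fun i p => by simp
      a_comm := fun i p q => abs_sub_comm _ _
      a_tri := fun i p q r => abs_sub_le _ _ _
      a_smul := fun g i p q => congrArg abs (F.c_smul (π g) i p q)
      Y_ne := F.Y_ne
      Y_smul := fun g i p hp => (F.Y_smul (π g) i p).2 hp
      beh := fun i j hij y hy y' hy' z h => behrstock F hE i j hij y hy y' hy' z h
      H_conj := hconj
      H_fix := fun i h hh => (F.stab (π h) i).2 (by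
        obtain ⟨e, he⟩ := Subgroup.mem_zpowers_iff.1 (hπ i h hh)
        rw [← he]
        exact Subgroup.zpow_mem _ (Subgroup.pow_mem _ (Subgroup.mem_zpowers _) _) _)
      rot := fun i h hh hne p => rot_rel F i (π h) (hπ i h hh) (fun e => hne (hinj i h hh e)) p
      adj_refl := fun p => by rw [X.self]; omega
      lip := fun i p q h => by
        have h2 := F.lip i p q
        have h3 : (X.d p q : ℝ) ≤ 1 := by exact_mod_cast h
        linarith
      conn := fun q => conn_d X x _ q le_rfl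
      Φ_one := h1
      Φ_step := hstep }
  exact main S

end Pool.Agent.H59Z.NA
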