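import Pool.Agent.H59Z.NA.Ttau
import Pool.Agent.H59Z.NA.Tcyc
import Pool.Agent.H59Z.NA.Tlox
import Pool.Agent.H59Z.NA.Thyp
import Pool.Agent.H59Z.NA.Tcomm
import Pool.Agent.H59Z.NA.Tacyl
import Pool.Agent.H59Z.NA.Taxis
import Pool.Agent.H59Z.NA.Tlines
import Pool.Agent.H59Z.NA.Tbow
import Pool.Agent.H59Z.NA.Telec
import Pool.Agent.H59Z.NA.Twind
import Pool.Agent.H59Z.NA.Tquo
import Pool.Agent.H59Z.NA.Tpos
import Pool.Agent.H59Z.NA.Tlfp
import Pool.Agent.H59Z.NA.Tfp
import Pool.Agent.H59Z.NA.Tmd
import Pool.Agent.H59Z.NA.Tell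
import Pool.Agent.H59Z.NA.Ttri
import Pool.Agent.H59Z.NA.Tacylq
import Pool.Agent.H59Z.NA.Tloxq
import Pool.Agent.H59Z.NA.Tstep
import Pool.Agent.H59Z.NA.Tbase
import Pool.Agent.H59Z.NA.Text
import Pool.Agent.H59Z.NA.Tadian

set_option autoImplicit false

/-! Assembly of the small cancellation machine. -/

namespace Pool.Agent.H59Z.NA

theorem tau_holds : S_tau := thm_tau
theorem cyc_holds : S_cyc := thm_cyc tau_holds
theorem lox_holds : S_lox := thm_lox tau_holds cyc_holds
theorem hyp_holds : S_hyp := thm_hyp
theorem comm_holds : S_comm := thm_comm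
theorem acyl_holds : S_acyl := thm_acyl comm_holds
theorem axis_holds : S_axis := thm_axis tau_holds
theorem lines_holds : S_lines := thm_lines tau_holds hyp_holds acyl_holds axis_holds
theorem bow_holds : S_bow := thm_bow
theorem elec_holds : S_elec := thm_elec hyp_holds bow_holds
theorem wind_holds : S_wind := thm_wind
theorem quo_holds : S_quo := thm_quo hyp_holds
theorem pos_holds : S_pos := thm_pos
theorem lfp_holds : S_lfp := thm_lfp
theorem fp_holds : S_fp := thm_fp pos_holds
theorem md_holds : S_md := thm_md hyp_holds pos_holds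
theorem ell_holds : S_ell := thm_ell pos_holds fp_holds lfp_holds
theorem tri_holds : S_tri := thm_tri tau_holds pos_holds fp_holds lfp_holds md_holds
theorem acylq_holds : S_acylq := thm_acylq pos_holds md_holds
theorem loxq_holds : S_loxq := thm_loxq tau_holds pos_holds md_holds
theorem step_holds : S_step :=
  thm_step tau_holds acyl_holds lox_holds pos_holds ell_holds tri_holds acylq_holds loxq_holds
theorem base_holds : S_base := thm_base tau_holds comm_holds lox_holds
theorem ext_holds : S_ext :=
  thm_ext tau_holds lines_holds elec_holds wind_holds quo_holds step_holds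
theorem adian_holds : S_adian := thm_adian tau_holds base_holds ext_holds

theorem adian_three : Adian (3 ^ 70) :=
  adian_holds _ (Odd.pow (by decide)) (by norm_num)

end Pool.Agent.H59Z.NA
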