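import Pool.Agent.H59Z.NA.St

set_option autoImplicit false

/-!
# The amalgam of a group of Adian type with the 3-adic integers
-/

namespace Pool.Agent.H59Z.NA

namespace TappZ

/-- The Heisenberg group mod 3. -/
@[ext] structure Heis where
  a : ZMod 3
  b : ZMod 3
  c : ZMod 3

instance : Mul Heis := ⟨fun x y => ⟨x.a + y.a, x.b + y.b, x.c + y.c + x.a * y.b⟩⟩
instance : One Heis := ⟨⟨0, 0, 0⟩⟩
instance : Inv Heis := ⟨fun x => ⟨-x.a, -x.b, -x.c + x.a * x.b⟩⟩

@[simp] theorem mul_a (x y : Heis) : (x * y).a = x.a + y.a := rfl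
@[simp] theorem mul_b (x y : Heis) : (x * y).b = x.b + y.b := rfl
@[simp] theorem mul_c (x y : Heis) : (x * y).c = x.c + y.c + x.a * y.b := rfl
@[simp] theorem one_a : (1 : Heis).a = 0 := rfl
@[simp] theorem one_b : (1 : Heis).b = 0 := rfl
@[simp] theorem one_c : (1 : Heis).c = 0 := rfl
@[simp] theorem inv_a (x : Heis) : (x⁻¹).a = -x.a := rfl
@[simp] theorem inv_b (x : Heis) : (x⁻¹).b = -x.b := rfl
@[simp] theorem inv_c (x : Heis) : (x⁻¹).c = -x.c + x.a * x.b := rfl

instance : Group Heis := Group.ofLeftAxioms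
  (fun x y z => by ext <;> simp <;> ring)
  (fun x => by ext <;> simp)
  (fun x => by ext <;> simp)

theorem heis_cube (x : Heis) : x ^ 3 = 1 := by
  have h3 : (3 : ZMod 3) = 0 := by decide
  rw [pow_succ, pow_succ, pow_one]
  ext
  · simp only [mul_a, one_a]; linear_combination x.a * h3
  · simp only [mul_b, one_b]; linear_combination x.b * h3
  · simp only [mul_a, mul_c, one_c]; linear_combination (x.c + x.a * x.b) * h3

theorem bu_pow (n : ℕ) (b : Bu n) : b ^ n = 1 := by
  obtain ⟨w, rfl⟩ := QuotientGroup.mk_surjective b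
  rw [← QuotientGroup.mk_pow, QuotientGroup.eq_one_iff]
  exact Subgroup.subset_normalClosure ⟨w, rfl⟩

/-- Universal property of the free Burnside group. -/
theorem bu_lift (n : ℕ) (H : Type) [Group H] (hH : ∀ x : H, x ^ n = 1) (f : ℕ → H) :
    ∃ φ : Bu n →* H, ∀ i, φ (QuotientGroup.mk (FreeGroup.of i)) = f i := by
  refine ⟨QuotientGroup.lift _ (FreeGroup.lift f) ?_, ?_⟩
  · intro x hx
    have : Subgroup.normalClosure (Set.range fun w : FreeGroup ℕ => w ^ n) ≤
        (FreeGroup.lift f).ker := by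
      apply Subgroup.normalClosure_le_normal
      rintro _ ⟨w, rfl⟩
      simp only [SetLike.mem_coe, MonoidHom.mem_ker, map_pow]
      exact hH _
    exact this hx
  · intro i
    simp

theorem pow_of_cube {H : Type} [Group H] (hH : ∀ x : H, x ^ 3 = 1) (x : H) :
    x ^ (3 ^ 70) = 1 := by
  rw [show (3 : ℕ) ^ 70 = 3 * 3 ^ 69 from by rw [← pow_succ'], pow_mul, hH, one_pow]

theorem bu_infinite : Infinite (Bu (3 ^ 70)) := by
  classical
  have hH : ∀ x : ℕ → Heis, x ^ 3 = 1 := fun x => funext fun i => heis_cube (x i)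
  obtain ⟨φ, hφ⟩ := bu_lift (3 ^ 70) (ℕ → Heis) (pow_of_cube hH)
    (fun i => Pi.mulSingle i (⟨1, 0, 0⟩ : Heis))
  refine Infinite.of_injective
    (fun i : ℕ => (QuotientGroup.mk (FreeGroup.of i) : Bu (3 ^ 70))) ?_
  intro i j hij
  have h1 := congrArg φ hij
  simp only [hφ] at h1
  by_contra hne
  have h2 := congrFun h1 i
  rw [Pi.mulSingle_eq_same, Pi.mulSingle_eq_of_ne hne] at h2
  have h3 := congrArg Heis.a h2
  simp at h3

theorem bu_noncomm : ¬ ∀ x y : Bu (3 ^ 70), x * y = y * x := by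
  intro h
  obtain ⟨φ, hφ⟩ := bu_lift (3 ^ 70) Heis (pow_of_cube heis_cube)
    (fun i => if i = 0 then (⟨1, 0, 0⟩ : Heis) else ⟨0, 1, 0⟩)
  have h1 := congrArg φ (h (QuotientGroup.mk (FreeGroup.of 0)) (QuotientGroup.mk (FreeGroup.of 1)))
  rw [map_mul, map_mul, hφ, hφ] at h1
  have h2 := congrArg Heis.c h1
  simp at h2

instance : Fact (Nat.Prime 3) := ⟨Nat.prime_three⟩

/-- The multiplicative copy of the 3-adic integers. -/
abbrev M : Type := Multiplicative ℤ_[3]

section

variable {G : Type} [Group G] (c : G) (hc : ∀ g, Commute c g)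

/-- The central subgroup which is factored out. -/
noncomputable def N : Subgroup (G × M) := Subgroup.zpowers (c, Multiplicative.ofAdd (-1))

include hc in
theorem N_normal : (N c).Normal := by
  constructor
  rintro _ ⟨k, rfl⟩ g
  have h1 : Commute ((c, Multiplicative.ofAdd (-1)) : G × M) g := by
    refine Prod.ext (hc g.1) (mul_comm _ _)
  have h2 := (h1.zpow_left k).eq
  refine ⟨k, ?_⟩
  show _ = g * (c, Multiplicative.ofAdd (-1)) ^ k * g⁻¹
  rw [← h2, mul_inv_cancel_right]

theorem mem_N (x : G × M) :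
    x ∈ N c ↔ ∃ k : ℤ, c ^ k = x.1 ∧ x.2.toAdd = -(k : ℤ_[3]) := by
  constructor
  · rintro ⟨k, rfl⟩
    refine ⟨k, rfl, ?_⟩
    show (Multiplicative.ofAdd (-1 : ℤ_[3]) ^ k).toAdd = _
    simp
  · rintro ⟨k, h1, h2⟩
    refine ⟨k, Prod.ext h1 ?_⟩
    show Multiplicative.ofAdd (-1 : ℤ_[3]) ^ k = x.2
    apply Multiplicative.toAdd.injective
    rw [h2]
    simp

end

end TappZ

open TappZ in
theorem thm_appZ (h1 : S_appHM) : S_appZ := by
  rintro ⟨G, _, c, ρ, hsurj, hker, hc, hc1, htf⟩
  let tG : TopologicalSpace G := ⊥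
  have : DiscreteTopology G := ⟨rfl⟩
  have hN : (N c).Normal := N_normal c hc
  have hcz : ∀ k : ℤ, c ^ k = 1 → k = 0 := by
    intro k hk
    by_contra hk0
    apply hc1
    apply htf c k.natAbs (Int.natAbs_pos.mpr hk0)
    rcases Int.natAbs_eq k with h | h
    · rw [← zpow_natCast, ← h, hk]
    · rw [← zpow_natCast, ← inv_eq_one, ← zpow_neg, ← h, hk]
  let G1 : Type := (G × M) ⧸ N c
  let ι : M →* G1 := (QuotientGroup.mk' (N c)).comp (MonoidHom.inr G M)
  have ιapp : ∀ z, ι z = QuotientGroup.mk ((1 : G), z) := fun z => rfl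
  have ιinj : Function.Injective ι := by
    rw [injective_iff_map_eq_one]
    intro z hz
    rw [ιapp, QuotientGroup.eq_one_iff, mem_N] at hz
    obtain ⟨k, hk1, hk2⟩ := hz
    have := hcz k hk1
    subst this
    apply Multiplicative.toAdd.injective
    simpa using hk2
  have ιcont : Continuous ι :=
    QuotientGroup.continuous_mk.comp (continuous_const.prodMk continuous_id)
  have ιopen : IsOpenMap ι := by
    have h2 : IsOpenMap (fun z : M => ((1 : G), z)) := by
      intro U hU
      have : (fun z : M => ((1 : G), z)) '' U = ({1} : Set G) ×ˢ U := by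
        ext ⟨a, b⟩
        constructor
        · rintro ⟨z, hz, h⟩
          obtain ⟨rfl, rfl⟩ := Prod.mk.inj h
          exact ⟨rfl, hz⟩
        · rintro ⟨h1, h2⟩
          exact ⟨b, h2, Prod.ext (Eq.symm h1) rfl⟩
      rw [this]
      exact (isOpen_discrete _).prod hU
    exact QuotientGroup.isOpenMap_coe.comp h2
  have ιemb : Topology.IsOpenEmbedding ι :=
    Topology.IsOpenEmbedding.of_continuous_injective_isOpenMap ιcont ιinj ιopen
  have ιcomm : ∀ z g, Commute (ι z) g := by
    intro z g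
    obtain ⟨x, rfl⟩ := QuotientGroup.mk_surjective g
    rw [ιapp]
    show _ * _ = _ * _
    rw [← QuotientGroup.mk_mul, ← QuotientGroup.mk_mul]
    congr 1
    exact Prod.ext (by simp) (mul_comm _ _)
  let ψ : G1 →* Bu (3 ^ 70) := QuotientGroup.lift (N c) (ρ.comp (MonoidHom.fst G M)) (by
    intro x hx
    rw [mem_N] at hx
    obtain ⟨k, hk, -⟩ := hx
    show ρ x.1 = 1
    rw [hker]
    exact ⟨k, hk⟩)
  have ψapp : ∀ x : G × M, ψ (QuotientGroup.mk x) = ρ x.1 := fun x => rfl
  have ψsurj : Function.Surjective ψ := by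
    intro b
    obtain ⟨a, rfl⟩ := hsurj b
    exact ⟨QuotientGroup.mk (a, 1), rfl⟩
  have ψker : ∀ g : G1, ψ g = 1 ↔ g ∈ ι.range := by
    intro g
    constructor
    · intro hg
      obtain ⟨x, rfl⟩ := QuotientGroup.mk_surjective g
      rw [ψapp, hker] at hg
      obtain ⟨k, hk⟩ := hg
      refine ⟨x.2 * Multiplicative.ofAdd (k : ℤ_[3]), ?_⟩
      rw [ιapp, QuotientGroup.eq, mem_N]
      refine ⟨k, ?_, ?_⟩
      · simpa using hk
      · simp
    · rintro ⟨z, rfl⟩
      rw [ιapp, ψapp]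
      exact map_one ρ
  have hpow : ∀ g : G1, g ^ (3 ^ 70) ∈ ι.range := by
    intro g
    rw [← ψker, map_pow, bu_pow]
  have hcube : ∀ g : G1, g ^ 3 = 1 → g = 1 := by
    intro g hg
    obtain ⟨x, rfl⟩ := QuotientGroup.mk_surjective g
    rw [← QuotientGroup.mk_pow, QuotientGroup.eq_one_iff, mem_N] at hg
    obtain ⟨k, hk1, hk2⟩ := hg
    have hk3 : (3 : ℤ_[3]) * x.2.toAdd = -(k : ℤ_[3]) := by
      rw [← hk2]; simp
    have hdvd : ((3 : ℕ) : ℤ) ∣ k := by
      rw [← PadicInt.norm_int_lt_one_iff_dvd (p := 3), PadicInt.norm_lt_one_iff_dvd]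
      refine ⟨-x.2.toAdd, ?_⟩
      push_cast
      linear_combination hk3
    obtain ⟨j, rfl⟩ := hdvd
    rw [QuotientGroup.eq_one_iff, mem_N]
    refine ⟨j, ?_, ?_⟩
    · have h3 : (c ^ j * x.1⁻¹) ^ 3 = 1 := by
        have hcm : Commute (c ^ j) x.1⁻¹ := (hc _).zpow_left j
        rw [hcm.mul_pow, inv_pow, ← zpow_natCast (c ^ j), ← zpow_mul, mul_comm j, hk1]
        simp
      have := htf _ 3 (by norm_num) h3
      exact mul_inv_eq_one.mp this
    · have h30 : (3 : ℤ_[3]) ≠ 0 := by norm_num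
      apply mul_left_cancel₀ h30
      rw [hk3]
      push_cast
      ring
  have hcubes : ∀ (e : ℕ) (g : G1), g ^ (3 ^ e) = 1 → g = 1 := by
    intro e
    induction e with
    | zero => intro g hg; simpa using hg
    | succ e ih =>
      intro g hg
      rw [pow_succ, pow_mul] at hg
      exact ih g (hcube _ hg)
  have htf1 : ∀ (g : G1) (m : ℕ), 0 < m → g ^ m = 1 → g = 1 := by
    intro g m hm hg
    apply hcubes 70
    obtain ⟨z, hz⟩ := hpow g
    have h2 : ι (z ^ m) = 1 := by
      rw [map_pow, hz, ← pow_mul, mul_comm, pow_mul, hg, one_pow]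
    have h3 : z ^ m = 1 := (injective_iff_map_eq_one ι).mp ιinj _ h2
    have h4 : z = 1 := by
      apply Multiplicative.toAdd.injective
      have h5 := congrArg Multiplicative.toAdd h3
      simp only [toAdd_pow, toAdd_one, nsmul_eq_mul, mul_eq_zero, Nat.cast_eq_zero] at h5
      rcases h5 with h5 | h5
      · omega
      · simpa using h5
    rw [← hz, h4, map_one]
  have hnhds : (ι.range : Set G1) ∈ nhds (1 : G1) := by
    apply IsOpen.mem_nhds
    · exact ιemb.isOpen_range
    · exact ι.range.one_mem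
  have hcomp : IsCompact (ι.range : Set G1) := isCompact_range ιcont
  refine ⟨G1, inferInstance, inferInstance, inferInstance, ?_, ?_, ?_, ?_, ?_, ?_, ?_⟩
  · apply IsTopologicalGroup.t2Space_of_one_sep
    intro x hx
    by_cases hxr : x ∈ ι.range
    · obtain ⟨z, rfl⟩ := hxr
      refine ⟨ι '' {z}ᶜ, ?_, ?_⟩
      · apply IsOpen.mem_nhds (ιopen _ isOpen_compl_singleton)
        refine ⟨1, ?_, map_one ι⟩
        intro h
        apply hx
        rw [Set.mem_singleton_iff] at h
        rw [← h, map_one]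
      · rintro ⟨w, hw, hw2⟩
        exact hw (ιinj hw2)
    · exact ⟨_, hnhds, hxr⟩
  · exact hcomp.locallyCompactSpace_of_mem_nhds_of_group hnhds
  · intro hd
    have : DiscreteTopology M := ιemb.isEmbedding.discreteTopology
    have : Finite M := finite_of_compact_of_discrete
    exact not_finite M
  · intro hcs
    have : Finite (G1 ⧸ ι.range) :=
      Subgroup.quotient_finite_of_isOpen ι.range ιemb.isOpen_range
    have hk : ψ.ker = ι.range := by
      ext g; rw [MonoidHom.mem_ker, ψker]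
    have : Finite (G1 ⧸ ψ.ker) := by rw [hk]; infer_instance
    have : Finite (Bu (3 ^ 70)) :=
      Finite.of_equiv _ (QuotientGroup.quotientKerEquivOfSurjective ψ ψsurj).toEquiv
    have := bu_infinite
    exact not_finite (Bu (3 ^ 70))
  · intro hb
    have h2 : ι (Multiplicative.ofAdd 1) ∈ Subgroup.center G1 := by
      rw [Subgroup.mem_center_iff]
      intro g
      exact (ιcomm _ g).eq.symm
    rw [hb, Subgroup.mem_bot] at h2
    have h3 := (injective_iff_map_eq_one ι).mp ιinj _ h2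
    have h4 := congrArg Multiplicative.toAdd h3
    simp at h4
  · intro ht
    apply bu_noncomm
    intro x y
    obtain ⟨a, rfl⟩ := ψsurj x
    obtain ⟨b, rfl⟩ := ψsurj y
    rw [← map_mul, ← map_mul]
    congr 1
    have h2 : b ∈ Subgroup.center G1 := by rw [ht]; trivial
    exact Subgroup.mem_center_iff.mp h2 a
  · exact h1 3 G1 ι (3 ^ 70) (by positivity) ιemb ιcomm hpow htf1

end Pool.Agent.H59Z.NA
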