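import Pool.Agent.H59Z.NA.St

set_option autoImplicit false

/-!
# Elements of finite order of the quotient which fix no line
-/

namespace Pool.Agent.H59Z.NA

namespace Tell

theorem cyc_mem {R : Type} [Group R] (g u v : R) (hu : u ∈ Subgroup.zpowers g)
    (hv : v ∈ Subgroup.zpowers g) (hfin : IsOfFinOrder g) (h : v ^ orderOf u = 1) :
    v ∈ Subgroup.zpowers u := by
  classical
  have hf : Finite (Subgroup.zpowers g) := (finite_zpowers.2 hfin).to_subtype
  let _ := Fintype.ofFinite (Subgroup.zpowers g)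
  let u' : Subgroup.zpowers g := ⟨u, hu⟩
  let v' : Subgroup.zpowers g := ⟨v, hv⟩
  have ho : orderOf u' = orderOf u := (Subgroup.orderOf_coe u').symm
  have hpos : 0 < orderOf u' := orderOf_pos u'
  have h1 := IsCyclic.card_pow_eq_one_le (α := Subgroup.zpowers g) hpos
  let S : Finset (Subgroup.zpowers g) := Finset.univ.filter (fun a => a ∈ Subgroup.zpowers u')
  have h2 : S.card = orderOf u' := by
    rw [← Nat.card_zpowers, Nat.card_eq_fintype_card, Fintype.card_subtype]
  have h3 : S ⊆ Finset.univ.filter (fun a : Subgroup.zpowers g => a ^ orderOf u' = 1) := by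
    intro a ha
    obtain ⟨k, rfl⟩ := (Finset.mem_filter.1 ha).2
    refine Finset.mem_filter.2 ⟨Finset.mem_univ _, ?_⟩
    show (u' ^ k) ^ orderOf u' = 1
    rw [← zpow_natCast, ← zpow_mul, mul_comm, zpow_mul, zpow_natCast, pow_orderOf_eq_one,
      one_zpow]
  have h4 := Finset.eq_of_subset_of_card_le h3 (by rw [h2]; exact h1)
  have h5 : v' ∈ S := by
    rw [h4]
    refine Finset.mem_filter.2 ⟨Finset.mem_univ _, Subtype.ext ?_⟩
    rw [ho]
    exact h
  obtain ⟨k, hk⟩ := (Finset.mem_filter.1 h5).2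
  exact ⟨k, congrArg Subtype.val hk⟩

theorem conj_pow_order {R : Type} [Group R] (a u : R) : (a * u * a⁻¹) ^ orderOf u = 1 := by
  rw [conj_pow, pow_orderOf_eq_one, mul_one, mul_inv_cancel]

section

variable {Q V I : Type} [Group Q] [MulAction Q V] [MulAction Q I] {X : GM V} {L : ℕ}
  (F : Fam Q V I X L) (p : V)

/-- small angles at the base point -/
def N (g : Q) (β : ℝ) : Prop := ∀ i, |F.c i p - F.c i (g • p)| ≤ β

variable {F p}

theorem N.mul {g h : Q} {β β' : ℝ} (hg : N F p g β) (hh : N F p h β') :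
    N F p (g * h) (β + β') := by
  intro i
  have h1 := F.c_smul g (g⁻¹ • i) p (h • p)
  rw [smul_inv_smul, ← mul_smul] at h1
  have h2 := hg i
  have h3 := hh (g⁻¹ • i)
  rw [← h1] at h3
  calc _ ≤ |F.c i p - F.c i (g • p)| + |F.c i (g • p) - F.c i ((g * h) • p)| := abs_sub_le _ _ _
    _ ≤ _ := add_le_add h2 h3

theorem N.inv {g : Q} {β : ℝ} (hg : N F p g β) : N F p g⁻¹ β := by
  intro i
  have h1 := F.c_smul g i p (g⁻¹ • p)
  rw [smul_inv_smul] at h1
  rw [← h1, abs_sub_comm]
  exact hg (g • i)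

end

end Tell

theorem thm_ell (h1 : S_pos) (h2 : S_fp) (h3 : S_lfp) : S_ell := by
  intro Q V I _ _ _ X L F R W J _ _ _ π A φ hinv hcyc hmal hq u n hn hu1 hun hfix
  have hufin : IsOfFinOrder u := isOfFinOrder_iff_pow_eq_one.2 ⟨n, hn, hun⟩
  set H : Subgroup R := Subgroup.zpowers u with hH
  have huH : u ∈ H := Subgroup.mem_zpowers u
  have hHfin : (H : Set R).Finite := finite_zpowers.2 hufin
  obtain ⟨x0⟩ := A.ne
  obtain ⟨r, hr⟩ := (hHfin.image (fun h => A.Z.d x0 (h • x0))).bddAbove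
  have hL : (1 : ℝ) ≤ L := by exact_mod_cast A.hL
  rcases h2 R W J L A H x0 r (fun h hh => hr ⟨h, hh, rfl⟩) with ⟨l, hl⟩ | ⟨pb, hpb⟩
  · exact absurd (hl u huH) (hfix l)
  obtain ⟨p, rfl⟩ := hq.φ_surj pb
  obtain ⟨lf, hlf1, hlf2⟩ := h3 Q V I X L F R W J π A φ hinv hq H p hpb
  have hlf_one : lf 1 = 1 := by
    have := hlf2 1 H.one_mem 1 H.one_mem
    rw [mul_one] at this
    exact left_eq_mul.1 this
  have hlf_pow : ∀ j : ℕ, lf (u ^ j) = lf u ^ j := by
    intro j
    induction j with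
    | zero => rw [pow_zero, pow_zero, hlf_one]
    | succ j ih => rw [pow_succ, hlf2 _ (H.pow_mem huH j) _ huH, ih, pow_succ]
  have hut : lf u ≠ 1 := by
    intro h
    apply hu1
    rw [← (hlf1 u huH).1, h, map_one]
  have key : ∀ a : R, a * u * a⁻¹ ∈ H → ∃ a' : Q, π a' = a ∧ Commute a' (lf u) := by
    intro a ha
    have hback : ∀ s ∈ H, a⁻¹ * s * a ∈ H := by
      intro s hs
      have h4 : u ∈ Subgroup.zpowers (a * u * a⁻¹) := by
        apply Tell.cyc_mem u _ u ha huH hufin
        have h5 := Tell.conj_pow_order a⁻¹ (a * u * a⁻¹)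
        have h6 : a⁻¹ * (a * u * a⁻¹) * a⁻¹⁻¹ = u := by group
        rwa [h6] at h5
      have h7 : s ∈ Subgroup.zpowers (a * u * a⁻¹) := (Subgroup.zpowers_le.2 h4) hs
      obtain ⟨k, hk⟩ := h7
      refine ⟨k, ?_⟩
      show u ^ k = a⁻¹ * s * a
      rw [← hk]
      show u ^ k = a⁻¹ * (a * u * a⁻¹) ^ k * a
      rw [conj_zpow]
      group
    have hang : ∀ l, A.ang l (φ p) (a • φ p) ≤ 9000 * L := by
      intro l
      by_contra hcon
      push Not at hcon
      obtain ⟨e1, e2⟩ := (h1 R W J L A).2.2.2.2 l (φ p) (a • φ p) (3600 * L) (H : Set R)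
        (by positivity) (by
          intro s hs
          refine ⟨(hpb s hs).2 l, ?_⟩
          have h4 := A.ang_smul a (a⁻¹ • l) (φ p) ((a⁻¹ * s * a) • φ p)
          rw [smul_inv_smul, ← mul_smul] at h4
          have h5 : a * (a⁻¹ * s * a) = s * a := by group
          rw [h5, mul_smul] at h4
          rw [h4]
          exact (hpb _ (hback s hs)).2 _) (by linarith)
      set al : ℤ := (A.Z.d (u • φ p) (a • φ p) : ℤ) - A.Z.d (φ p) (a • φ p) with hal
      have h6 : ∀ j : ℕ, (A.Z.eta (A.Y l) ((u ^ j) • φ p) : ℤ) =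
          A.Z.eta (A.Y l) (φ p) + j * al := by
        intro j
        induction j with
        | zero => simp
        | succ j ih =>
          rw [pow_succ, e1 (u ^ j) u (H.pow_mem huH j) (by rw [← pow_succ]; exact H.pow_mem huH _),
            ih]
          push_cast
          ring
      have h7 := h6 n
      rw [hun, one_smul] at h7
      have h8 : al = 0 := by
        have h9 : (n : ℤ) * al = 0 := by linarith
        rcases mul_eq_zero.1 h9 with h | h
        · exfalso
          have : n = 0 := by exact_mod_cast h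
          omega
        · exact h
      have h9 := h6 1
      rw [pow_one, h8, mul_zero, add_zero] at h9
      have h10 := e2 u 1 huH H.one_mem (by rw [one_smul]; exact_mod_cast h9)
      rw [inv_one, one_smul] at h10
      apply hfix l
      conv_lhs => rw [← h10]
      rw [smul_inv_smul]
    obtain ⟨q, hq1, _, hq2⟩ := hq.lift (9000 * L) p (a • φ p) hang (by positivity)
    obtain ⟨a0, ha0⟩ := hq.surj a
    obtain ⟨k, hk1, hk2⟩ := hq.φ_eq (a0 • p) q (by rw [hq.φ_smul, ha0, hq1])
    have hπ : π (k * a0) = a := by rw [map_mul, hk1, one_mul, ha0]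
    have hNa : Tell.N F p (k * a0) (9000 * L + 1000 * L) := by
      intro i
      rw [mul_smul, ← hk2]
      exact hq2 i
    have hNu : Tell.N F p (lf u) (4600 * L) := (hlf1 u huH).2.2
    have hNv : Tell.N F p (lf (a * u * a⁻¹)) (4600 * L) := (hlf1 _ ha).2.2
    have hN := ((hNv.inv.mul hNa).mul hNu).mul hNa.inv
    have h11 : (lf (a * u * a⁻¹))⁻¹ * (k * a0) * lf u * (k * a0)⁻¹ = 1 := by
      apply hq.inj _ p
      · rw [map_mul, map_mul, map_mul, map_inv, map_inv, hπ, (hlf1 _ ha).1, (hlf1 u huH).1]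
        group
      · intro i
        refine lt_of_le_of_lt (hN i) ?_
        nlinarith
    have h12 : (k * a0) * lf u * (k * a0)⁻¹ = lf (a * u * a⁻¹) := by
      calc _ = lf (a * u * a⁻¹) *
            ((lf (a * u * a⁻¹))⁻¹ * (k * a0) * lf u * (k * a0)⁻¹) := by group
        _ = _ := by rw [h11, mul_one]
    obtain ⟨j, hj⟩ : ∃ j : ℕ, u ^ j = a * u * a⁻¹ := by
      have := (hufin.mem_powers_iff_mem_zpowers (y := a * u * a⁻¹)).2 ha
      exact this
    refine ⟨k * a0, hπ, hmal _ _ hut ?_⟩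
    rw [h12, ← hj, hlf_pow]
    exact Commute.self_pow _ _
  obtain ⟨g0, hg0⟩ := hcyc (lf u) hut
  have part1 : ∀ a : R, Commute a u → a ∈ Subgroup.zpowers (π g0) := by
    intro a ha
    obtain ⟨a', ha1, ha2⟩ := key a (by rw [ha.eq, mul_inv_cancel_right]; exact huH)
    obtain ⟨k, hk⟩ := hg0 a' ha2
    refine ⟨k, ?_⟩
    show π g0 ^ k = a
    rw [← map_zpow, ← ha1]
    exact congrArg π hk
  refine ⟨⟨π g0, part1⟩, fun t ht => ?_⟩
  have hu0 := part1 u (Commute.refl u)
  have hv0 := part1 _ ht.symm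
  have hgfin : IsOfFinOrder (π g0) := by
    obtain ⟨i, hi⟩ := hu0
    have hi' : π g0 ^ i = u := hi
    have hi0 : i ≠ 0 := by
      rintro rfl
      exact hu1 (by rw [← hi', zpow_zero])
    rw [isOfFinOrder_iff_zpow_eq_one]
    refine ⟨i * n, mul_ne_zero hi0 (by exact_mod_cast hn.ne'), ?_⟩
    rw [zpow_mul, hi', zpow_natCast, hun]
  obtain ⟨t', ht1, ht2⟩ := key t
    (Tell.cyc_mem _ u _ hu0 hv0 hgfin (Tell.conj_pow_order t u))
  have := ht2.map π
  rwa [ht1, (hlf1 u huH).1] at this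

end Pool.Agent.H59Z.NA
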