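import Pool.Agent.H59Z.NA.St

set_option autoImplicit false

namespace Pool.Agent.H59Z.NA

namespace Ttau

variable {Q V : Type} [Group Q] [MulAction Q V] (X : GM V)

theorem bdd (g : Q) :
    BddBelow {t : ℝ | ∃ (x : V) (m : ℕ), 0 < m ∧ t = (X.d x (g ^ m • x) : ℝ) / m} := by
  refine ⟨0, ?_⟩
  rintro t ⟨x, m, -, rfl⟩
  positivity

theorem t1 (g : Q) (x : V) (m : ℕ) : X.tau g * m ≤ X.d x (g ^ m • x) := by
  rcases Nat.eq_zero_or_pos m with rfl | hm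
  · simp
  · have h : X.tau g ≤ (X.d x (g ^ m • x) : ℝ) / m := csInf_le (bdd X g) ⟨x, m, hm, rfl⟩
    have hm' : (0 : ℝ) < m := by exact_mod_cast hm
    rwa [le_div_iff₀ hm'] at h

theorem t2 (g : Q) : 0 ≤ X.tau g := by
  apply Real.sInf_nonneg
  rintro t ⟨x, m, -, rfl⟩
  positivity

theorem t0 (hV : IsEmpty V) (g : Q) : X.tau g = 0 := by
  have : {t : ℝ | ∃ (x : V) (m : ℕ), 0 < m ∧ t = (X.d x (g ^ m • x) : ℝ) / m} = ∅ := by
    ext t
    simp
  unfold GM.tau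
  rw [this, Real.sInf_empty]

theorem add_le (hX : X.Inv Q) (g : Q) (x : V) (a b : ℕ) :
    X.d x (g ^ (a + b) • x) ≤ X.d x (g ^ a • x) + X.d x (g ^ b • x) := by
  have h1 := X.tri x (g ^ a • x) (g ^ (a + b) • x)
  have h2 := hX (g ^ a) x (g ^ b • x)
  rw [smul_smul, ← pow_add] at h2
  omega

theorem mul_le (hX : X.Inv Q) (g : Q) (x : V) (a k : ℕ) :
    X.d x (g ^ (k * a) • x) ≤ k * X.d x (g ^ a • x) := by
  induction k with
  | zero => simp [X.self]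
  | succ k ih =>
    have := add_le X hX g x (k * a) a
    rw [Nat.succ_mul, Nat.succ_mul]
    omega

theorem t3 (hX : X.Inv Q) (g : Q) (x : V) (ε : ℝ) (hε : 0 < ε) :
    ∃ m₀ : ℕ, ∀ m : ℕ, m₀ ≤ m → (X.d x (g ^ m • x) : ℝ) ≤ (X.tau g + ε) * m := by
  have hne : {t : ℝ | ∃ (x : V) (m : ℕ), 0 < m ∧ t = (X.d x (g ^ m • x) : ℝ) / m}.Nonempty :=
    ⟨_, x, 1, one_pos, rfl⟩
  obtain ⟨t, ⟨x0, m0, hm0, rfl⟩, ht⟩ := exists_lt_of_csInf_lt hne
    (show X.tau g < X.tau g + ε / 2 by linarith)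
  have hm0' : (0 : ℝ) < m0 := by exact_mod_cast hm0
  rw [div_lt_iff₀ hm0'] at ht
  set C : ℕ := 2 * X.d x x0 + m0 * X.d x0 (g ^ 1 • x0) with hC
  obtain ⟨N, hN⟩ := exists_nat_ge ((C : ℝ) / (ε / 2))
  refine ⟨N, fun m hm => ?_⟩
  have hτ := t2 X g
  have e : m = m / m0 * m0 + m % m0 * 1 := by
    rw [mul_one, mul_comm]; exact (Nat.div_add_mod m m0).symm
  have h1 := add_le X hX g x0 (m / m0 * m0) (m % m0 * 1)
  rw [← e] at h1
  have h2 := mul_le X hX g x0 m0 (m / m0)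
  have h3 := mul_le X hX g x0 1 (m % m0)
  have h4 : m % m0 * X.d x0 (g ^ 1 • x0) ≤ m0 * X.d x0 (g ^ 1 • x0) :=
    Nat.mul_le_mul_right _ (Nat.mod_lt m hm0).le
  have h5 := X.tri x x0 (g ^ m • x)
  have h6 := X.tri x0 (g ^ m • x0) (g ^ m • x)
  have h7 := hX (g ^ m) x0 x
  have h8 := X.comm x0 x
  have h9 : X.d x (g ^ m • x) ≤ m / m0 * X.d x0 (g ^ m0 • x0) + C := by omega
  have h10 : (X.d x (g ^ m • x) : ℝ) ≤ ((m / m0 : ℕ) : ℝ) * X.d x0 (g ^ m0 • x0) + C := by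
    exact_mod_cast h9
  have h11 : ((m / m0 : ℕ) : ℝ) * m0 ≤ m := by exact_mod_cast Nat.div_mul_le_self m m0
  have h12 : (0 : ℝ) ≤ ((m / m0 : ℕ) : ℝ) := Nat.cast_nonneg _
  have h13 : ((m / m0 : ℕ) : ℝ) * X.d x0 (g ^ m0 • x0) ≤ (X.tau g + ε / 2) * m := by
    calc ((m / m0 : ℕ) : ℝ) * X.d x0 (g ^ m0 • x0)
        ≤ ((m / m0 : ℕ) : ℝ) * ((X.tau g + ε / 2) * m0) := mul_le_mul_of_nonneg_left ht.le h12
      _ = (X.tau g + ε / 2) * (((m / m0 : ℕ) : ℝ) * m0) := by ring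
      _ ≤ (X.tau g + ε / 2) * m := mul_le_mul_of_nonneg_left h11 (by linarith)
  have h14 : (C : ℝ) ≤ ε / 2 * m := by
    have hm' : (N : ℝ) ≤ m := by exact_mod_cast hm
    rw [div_le_iff₀ (by linarith)] at hN
    nlinarith
  linarith

theorem t6 (hX : X.Inv Q) (g : Q) (x : V) (a C : ℝ)
    (h : ∀ m : ℕ, a * m ≤ X.d x (g ^ m • x) + C) : a ≤ X.tau g := by
  by_contra hlt
  push Not at hlt
  obtain ⟨m0, hm0⟩ := t3 X hX g x ((a - X.tau g) / 2) (by linarith)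
  obtain ⟨N, hN⟩ := exists_nat_gt (C / ((a - X.tau g) / 2))
  have h1 := hm0 (max m0 N) (le_max_left _ _)
  have h2 := h (max m0 N)
  have h3 : (N : ℝ) ≤ ((max m0 N : ℕ) : ℝ) := by exact_mod_cast le_max_right m0 N
  rw [div_lt_iff₀ (by linarith)] at hN
  nlinarith

theorem tinv (hX : X.Inv Q) (g : Q) : X.tau g⁻¹ = X.tau g := by
  have key : ∀ (x : V) (m : ℕ), X.d x (g⁻¹ ^ m • x) = X.d x (g ^ m • x) := by
    intro x m
    have := hX (g ^ m) x (g⁻¹ ^ m • x)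
    rw [smul_smul, inv_pow, mul_inv_cancel, one_smul] at this
    rw [inv_pow, ← this, X.comm]
  unfold GM.tau
  simp only [key]

theorem tnat (hX : X.Inv Q) (g : Q) (k : ℕ) : X.tau (g ^ k) = k * X.tau g := by
  rcases isEmpty_or_nonempty V with hV | ⟨⟨x⟩⟩
  · rw [t0 X hV, t0 X hV, mul_zero]
  apply le_antisymm
  · rcases Nat.eq_zero_or_pos k with rfl | hk
    · have := t1 X (g ^ 0) x 1
      simpa [X.self] using this
    · have hk' : (0 : ℝ) < k := by exact_mod_cast hk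
      rw [mul_comm, ← div_le_iff₀ hk']
      refine t6 X hX g x _ (k * (X.d x (g ^ 1 • x) : ℝ) + X.tau (g ^ k)) fun m => ?_
      have h1 := t1 X (g ^ k) x (m / k)
      rw [← pow_mul] at h1
      have e : k * (m / k) + m % k = m := Nat.div_add_mod m k
      have h2 := X.tri x (g ^ m • x) (g ^ (k * (m / k)) • x)
      have h3 := hX (g ^ (k * (m / k))) (g ^ (m % k) • x) x
      rw [smul_smul, ← pow_add, e] at h3
      have h4 := mul_le X hX g x 1 (m % k)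
      rw [mul_one] at h4
      have h5 : m % k * X.d x (g ^ 1 • x) ≤ k * X.d x (g ^ 1 • x) :=
        Nat.mul_le_mul_right _ (Nat.mod_lt m hk).le
      have h6 := X.comm (g ^ (m % k) • x) x
      have h7 : X.d x (g ^ (k * (m / k)) • x) ≤ X.d x (g ^ m • x) + k * X.d x (g ^ 1 • x) := by
        omega
      have h8 : (X.d x (g ^ (k * (m / k)) • x) : ℝ) ≤
          X.d x (g ^ m • x) + k * (X.d x (g ^ 1 • x) : ℝ) := by exact_mod_cast h7
      have h9 : (m : ℝ) ≤ k * (((m / k : ℕ) : ℝ) + 1) := by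
        have : m ≤ k * (m / k + 1) := by
          have := Nat.mod_lt m hk
          rw [mul_add, mul_one]; omega
        exact_mod_cast this
      have h10 : X.tau (g ^ k) / k * m ≤ X.tau (g ^ k) * (((m / k : ℕ) : ℝ) + 1) := by
        calc X.tau (g ^ k) / k * m ≤ X.tau (g ^ k) / k * (k * (((m / k : ℕ) : ℝ) + 1)) :=
              mul_le_mul_of_nonneg_left h9 (div_nonneg (t2 X _) hk'.le)
          _ = _ := by field_simp
      linarith
  · refine t6 X hX (g ^ k) x _ 0 fun m => ?_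
    have h1 := t1 X g x (k * m)
    rw [← pow_mul]
    push_cast at h1
    linarith

theorem t4 (hX : X.Inv Q) (g : Q) (k : ℤ) : X.tau (g ^ k) = |(k : ℝ)| * X.tau g := by
  obtain ⟨n, rfl | rfl⟩ := Int.eq_nat_or_neg k
  · rw [zpow_natCast, tnat X hX]
    simp
  · rw [zpow_neg, tinv X hX, zpow_natCast, tnat X hX]
    simp

theorem t5 (hX : X.Inv Q) (g s : Q) : X.tau (s * g * s⁻¹) = X.tau g := by
  have key : ∀ (x : V) (m : ℕ),
      X.d (s • x) ((s * g * s⁻¹) ^ m • s • x) = X.d x (g ^ m • x) := by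
    intro x m
    rw [conj_pow, smul_smul, inv_mul_cancel_right, mul_smul, hX]
  unfold GM.tau
  congr 1
  ext t
  constructor
  · rintro ⟨x, m, hm, rfl⟩
    refine ⟨s⁻¹ • x, m, hm, ?_⟩
    rw [← key, smul_inv_smul]
  · rintro ⟨x, m, hm, rfl⟩
    exact ⟨s • x, m, hm, by rw [key]⟩

theorem t7 (hX : X.Inv Q) (g h : Q) (hc : Commute g h) : X.tau (g * h) ≤ X.tau g + X.tau h := by
  rcases isEmpty_or_nonempty V with hV | ⟨⟨x⟩⟩
  · rw [t0 X hV, t0 X hV, t0 X hV, add_zero]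
  by_contra hlt
  push Not at hlt
  set ε := (X.tau (g * h) - X.tau g - X.tau h) / 3 with hε
  have hε0 : 0 < ε := by rw [hε]; linarith
  obtain ⟨m1, h1⟩ := t3 X hX g x ε hε0
  obtain ⟨m2, h2⟩ := t3 X hX h x ε hε0
  set m := max m1 m2 + 1 with hm
  have a1 := h1 m (by omega)
  have a2 := h2 m (by omega)
  have a3 := t1 X (g * h) x m
  have a4 := X.tri x (g ^ m • x) ((g * h) ^ m • x)
  have a5 := hX (g ^ m) x (h ^ m • x)
  rw [smul_smul, ← hc.mul_pow] at a5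
  have a6 : (X.d x ((g * h) ^ m • x) : ℝ) ≤ X.d x (g ^ m • x) + X.d x (h ^ m • x) := by
    have : X.d x ((g * h) ^ m • x) ≤ X.d x (g ^ m • x) + X.d x (h ^ m • x) := by omega
    exact_mod_cast this
  have a7 : (0 : ℝ) < m := by exact_mod_cast (by omega : 0 < m)
  have a8 : X.tau (g * h) = X.tau g + X.tau h + 3 * ε := by rw [hε]; ring
  rw [a8] at a3
  nlinarith

end Ttau

theorem thm_tau : S_tau := by
  intro Q V _ _ X hX
  exact ⟨Ttau.t1 X, Ttau.t2 X, Ttau.t3 X hX, Ttau.t4 X hX, Ttau.t5 X hX, Ttau.t6 X hX,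
    Ttau.t7 X hX⟩

end Pool.Agent.H59Z.NA
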