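import Mathlib

set_option autoImplicit false

/-!
# Iterated geometric small cancellation (groups of Burnside type): definitions
-/

namespace Pool.Agent.H59Z.NA

/-- A geodesic pseudo-metric with natural values. -/
structure GM (V : Type) where
  d : V → V → ℕ
  self : ∀ x, d x x = 0
  comm : ∀ x y, d x y = d y x
  tri : ∀ x y z, d x z ≤ d x y + d y z
  geo : ∀ x y t, t ≤ d x y → ∃ z, d x z = t ∧ t + d z y = d x y

namespace GM

variable {V : Type} (X : GM V)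

/-- The four point condition. -/
def Four (δ : ℕ) : Prop :=
  ∀ x y z w, X.d x y + X.d z w ≤ max (X.d x z + X.d y w) (X.d x w + X.d y z) + δ

/-- Slim triangles, in terms of Gromov products. -/
def Slim (ε : ℕ) : Prop :=
  ∀ x y w z, X.d x z + X.d z y = X.d x y →
    X.d x z + X.d z w ≤ X.d x w + ε ∨ X.d y z + X.d z w ≤ X.d y w + ε

/-- The action is isometric. -/
def Inv (Q : Type) [Group Q] [MulAction Q V] : Prop :=
  ∀ (g : Q) x y, X.d (g • x) (g • y) = X.d x y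

/-- The stable translation length. -/
noncomputable def tau {Q : Type} [Group Q] [MulAction Q V] (g : Q) : ℝ :=
  sInf {t : ℝ | ∃ (x : V) (m : ℕ), 0 < m ∧ t = (X.d x (g ^ m • x) : ℝ) / m}

/-- Distance from a point to a set. -/
noncomputable def eta (S : Set V) (p : V) : ℕ := sInf {m : ℕ | ∃ a ∈ S, X.d p a = m}

/-- Two elements which move two far apart points by little commute. -/
def Acyl (Q : Type) [Group Q] [MulAction Q V] (θ A : ℕ) : Prop :=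
  ∀ (g h : Q) (x y : V), X.d x (g • x) ≤ θ → X.d y (g • y) ≤ θ → X.d x (h • x) ≤ θ →
    X.d y (h • y) ≤ θ → A ≤ X.d x y → Commute g h

end GM

/-- Centralisers of nontrivial elements are cyclic. -/
def Cyc (Q : Type) [Group Q] : Prop :=
  ∀ u : Q, u ≠ 1 → ∃ g : Q, ∀ a : Q, Commute a u → a ∈ Subgroup.zpowers g

/-- Centralisers of nontrivial elements are malnormal. -/
def Mal (Q : Type) [Group Q] : Prop :=
  ∀ u t : Q, u ≠ 1 → Commute u (t * u * t⁻¹) → Commute t u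

/-- The inductive hypothesis. -/
structure Good (Q V : Type) [Group Q] [MulAction Q V] (X : GM V) (δ A : ℕ) (τ₀ : ℝ) (n : ℕ) :
    Prop where
  ne : Nonempty V
  inv : X.Inv Q
  four : X.Four δ
  dich : ∀ g : Q, g ^ n = 1 ∨ τ₀ ≤ X.tau g
  cyc : Cyc Q
  mal : Mal Q
  acyl : X.Acyl Q (12 * δ) A

/-- A small cancellation family of lines at scale `L`; the relators are `gen i ^ mu i`. -/
structure Fam (Q V I : Type) [Group Q] [MulAction Q V] [MulAction Q I] (X : GM V) (L : ℕ) where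
  Y : I → Set V
  c : I → V → ℝ
  gen : I → Q
  tr : I → ℝ
  mu : I → ℕ
  Y_ne : ∀ i, (Y i).Nonempty
  Y_smul : ∀ (g : Q) i p, g • p ∈ Y (g • i) ↔ p ∈ Y i
  c_smul : ∀ (g : Q) i p q, c (g • i) (g • p) - c (g • i) (g • q) = c i p - c i q
  gen_smul : ∀ (g : Q) i, gen (g • i) = g * gen i * g⁻¹
  tr_smul : ∀ (g : Q) i, tr (g • i) = tr i
  mu_smul : ∀ (g : Q) i, mu (g • i) = mu i
  stab : ∀ (g : Q) i, g • i = i ↔ g ∈ Subgroup.zpowers (gen i)
  c_gen : ∀ i p, c i (gen i • p) = c i p + tr i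
  tr_pos : ∀ i, 0 < tr i
  big : ∀ i, (10 ^ 9 : ℝ) * L ≤ mu i * tr i
  conv : ∀ i, ∀ p ∈ Y i, ∀ q ∈ Y i, ∀ z, X.d p z + X.d z q = X.d p q → ∃ y ∈ Y i, X.d z y ≤ L
  lip : ∀ i p q, |c i p - c i q| ≤ X.d p q + L
  sep : ∀ i j, i ≠ j → ∀ p ∈ Y j, ∀ q ∈ Y j, |c i p - c i q| ≤ L
  near : ∀ i, ∀ p ∈ Y i, ∀ q ∈ Y i, (X.d p q : ℝ) ≤ |c i p - c i q| + L
  proj : ∀ i x y, (L : ℝ) < |c i x - c i y| → ∃ a ∈ Y i, ∃ b ∈ Y i,
    X.d x a + X.d a b + X.d b y ≤ X.d x y + L ∧ |c i a - c i x| ≤ L ∧ |c i b - c i y| ≤ L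

namespace Fam

variable {Q V I : Type} [Group Q] [MulAction Q V] [MulAction Q I] {X : GM V} {L : ℕ}
  (F : Fam Q V I X L)

/-- The subgroup generated by the relators. -/
def K : Subgroup Q := Subgroup.closure (Set.range fun i => F.gen i ^ F.mu i)

instance : F.K.Normal := by
  constructor
  intro k hk g
  induction hk using Subgroup.closure_induction with
  | mem x hx =>
    obtain ⟨i, rfl⟩ := hx
    refine Subgroup.subset_closure ⟨g • i, ?_⟩
    simp only [F.gen_smul, F.mu_smul, conj_pow]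
  | one => simp
  | mul x y _ _ hx hy =>
    have : g * (x * y) * g⁻¹ = (g * x * g⁻¹) * (g * y * g⁻¹) := by group
    rw [this]; exact F.K.mul_mem hx hy
  | inv x _ hx =>
    have : g * x⁻¹ * g⁻¹ = (g * x * g⁻¹)⁻¹ := by group
    rw [this]; exact F.K.inv_mem hx

/-- `E` is the electrification of the Rips graph of `X` at scale `L` along the lines. -/
structure IsEl (E : GM V) : Prop where
  inv : E.Inv Q
  slim : E.Slim 60
  zero : ∀ p q, E.d p q = 0 → p = q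
  le_one : ∀ p q, X.d p q ≤ L → E.d p q ≤ 1
  clique : ∀ i, ∀ p ∈ F.Y i, ∀ q ∈ F.Y i, E.d p q ≤ 1
  adj : ∀ p q, E.d p q ≤ 1 → X.d p q ≤ L ∨ ∃ i, p ∈ F.Y i ∧ q ∈ F.Y i
  bgi : ∀ i x y, (100 : ℝ) * L < |F.c i x - F.c i y| →
    ∃ a ∈ F.Y i, ∃ b ∈ F.Y i, E.d x a + 1 + E.d b y ≤ E.d x y

/-- The induction principle given by windmills (a form of Greendlinger's lemma), for a group `Γ`
over `Q` and lifts `H i` of the groups generated by the relators. -/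
def Ind (Γ : Type) [Group Γ] (π : Γ →* Q) (H : I → Subgroup Γ) : Prop :=
  ∀ (x : V) (Φ : Γ → Prop), Φ 1 →
    (∀ k ∈ ⨆ i, H i, ∀ i, ∀ r ∈ H i, (10 ^ 8 : ℝ) * L ≤ |F.c i x - F.c i (π k • x)| →
      Φ (r * k) → Φ k) →
    ∀ k ∈ ⨆ i, H i, Φ k

end Fam

/-- Geometry with angles: a hyperbolic graph with a family of cliques and angle functions. -/
structure AG (R W J : Type) [Group R] [MulAction R W] [MulAction R J] (L : ℕ) where
  Z : GM W
  Y : J → Set W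
  ang : J → W → W → ℝ
  hL : 1 ≤ L
  ne : Nonempty W
  inv : Z.Inv R
  four : Z.Four 122
  Y_ne : ∀ l, (Y l).Nonempty
  Y_smul : ∀ (g : R) l p, g • p ∈ Y (g • l) ↔ p ∈ Y l
  clique : ∀ l, ∀ p ∈ Y l, ∀ q ∈ Y l, Z.d p q ≤ 1
  ang_comm : ∀ l p q, ang l p q = ang l q p
  ang_tri : ∀ l p q r, ang l p r ≤ ang l p q + ang l q r
  ang_smul : ∀ (g : R) l p q, ang (g • l) (g • p) (g • q) = ang l p q
  bgi : ∀ l p q, (600 : ℝ) * L < ang l p q →
    ∃ a ∈ Y l, ∃ b ∈ Y l, Z.d p a + 1 + Z.d b q ≤ Z.d p q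
  sep : ∀ l m, l ≠ m → ∀ p ∈ Y m, ∀ q ∈ Y m, ang l p q ≤ 600 * L
  rot : ∀ (g : R) l, g • l = l → g ≠ 1 → ∃ j : ℕ, ∀ p, (10 ^ 8 : ℝ) * L ≤ ang l p (g ^ j • p)

/-- `A` is the geometry of the quotient of `F` along `π`. -/
structure IsQuo {Q V I : Type} [Group Q] [MulAction Q V] [MulAction Q I] {X : GM V} {L : ℕ}
    (F : Fam Q V I X L) {R W J : Type} [Group R] [MulAction R W] [MulAction R J]
    (π : Q →* R) (A : AG R W J L) (φ : V → W) : Prop where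
  surj : Function.Surjective π
  φ_surj : Function.Surjective φ
  φ_smul : ∀ (g : Q) p, φ (g • p) = π g • φ p
  φ_eq : ∀ p q, φ p = φ q → ∃ k : Q, π k = 1 ∧ q = k • p
  scale : ∀ (m : ℕ) p q, X.d p q ≤ (m + 1) * L → A.Z.d (φ p) (φ q) ≤ m + 1
  rel : ∀ i, π (F.gen i ^ F.mu i) = 1
  stab : ∀ l : J, ∃ i, ∀ g : R, g • l = l ↔ g ∈ Subgroup.zpowers (π (F.gen i))
  fixgen : ∀ i, ∃ l : J, π (F.gen i) • l = l
  kerstab : ∀ i, ∀ g ∈ Subgroup.zpowers (F.gen i), π g = 1 →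
    g ∈ Subgroup.zpowers (F.gen i ^ F.mu i)
  lift : ∀ (Θ : ℝ) (p : V) (w : W), (∀ l, A.ang l (φ p) w ≤ Θ) → 0 ≤ Θ → ∃ q, φ q = w ∧
    (X.d p q : ℝ) ≤ (Θ + 1000 * L) * (A.Z.d (φ p) w + 1) ∧
    ∀ i, |F.c i p - F.c i q| ≤ Θ + 1000 * L
  inj : ∀ (k : Q) (p : V), π k = 1 → (∀ i, |F.c i p - F.c i (k • p)| < (10 ^ 8 : ℝ) * L) → k = 1

/-- The free Burnside group of countable rank and exponent `n`. -/
abbrev Bu (n : ℕ) : Type :=
  FreeGroup ℕ ⧸ Subgroup.normalClosure (Set.range fun w : FreeGroup ℕ => w ^ n)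

/-- A group of Adian type: a torsion-free central extension of the free Burnside group by an
infinite cyclic group. -/
def Adian (n : ℕ) : Prop :=
  ∃ (G : Type) (_ : Group G) (c : G) (ρ : G →* Bu n), Function.Surjective ρ ∧
    (∀ g, ρ g = 1 ↔ g ∈ Subgroup.zpowers c) ∧ (∀ g, Commute c g) ∧ c ≠ 1 ∧
    ∀ (g : G) (m : ℕ), 0 < m → g ^ m = 1 → g = 1

end Pool.Agent.H59Z.NA
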