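import Pool.Agent.H59Z.NA.Final
import Pool.Agent.H59Z.NA.TappZ

set_option autoImplicit false

/-!
# An infinite finitely generated group of finite exponent
-/

namespace Pool.Agent.H59Z.NA

/-- A torsion-free group whose centre has finite index is commutative. -/
theorem comm_of_tf {G : Type} [Group G] [(Subgroup.center G).FiniteIndex]
    (htf : ∀ (g : G) (m : ℕ), 0 < m → g ^ m = 1 → g = 1) (a b : G) : a * b = b * a := by
  have hinj : Function.Injective (MonoidHom.transferCenterPow G) := by
    rw [injective_iff_map_eq_one]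
    intro g hg
    have := congrArg Subtype.val hg
    rw [MonoidHom.transferCenterPow_apply] at this
    exact htf g _ (Nat.pos_of_ne_zero Subgroup.FiniteIndex.index_ne_zero) this
  apply hinj
  rw [map_mul, map_mul]
  apply Subtype.ext
  exact (Subgroup.mem_center_iff.1 (MonoidHom.transferCenterPow G b).2 _)

/-- Finite subgroups of a group with a torsion-free central extension are commutative. -/
theorem comm_of_finite {n : ℕ} (h : Adian n) (H : Subgroup (Bu n)) [Finite H] (a b : Bu n)
    (ha : a ∈ H) (hb : b ∈ H) : a * b = b * a := by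
  obtain ⟨G, _, c, ρ, hρ, hker, hc, -, htf⟩ := h
  let P : Subgroup G := H.comap ρ
  let ρ' : P →* H := (ρ.comp P.subtype).codRestrict H (fun g => g.2)
  have hfi : ρ'.ker.FiniteIndex := Subgroup.finiteIndex_ker ρ'
  have hle : ρ'.ker ≤ Subgroup.center P := by
    intro g hg
    have h1 : ρ g = 1 := congrArg Subtype.val hg
    obtain ⟨k, hk⟩ := (hker g).1 h1
    rw [Subgroup.mem_center_iff]
    intro y
    apply Subtype.ext
    have := ((hc (y : G)).zpow_left k).eq
    simp only at hk
    rw [hk] at this
    exact this.symm
  haveI : (Subgroup.center P).FiniteIndex := Subgroup.finiteIndex_of_le hle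
  obtain ⟨a', rfl⟩ := hρ a
  obtain ⟨b', rfl⟩ := hρ b
  have := comm_of_tf (G := P) (fun g m hm hg => Subtype.ext
    (htf g m hm (by simpa using congrArg Subtype.val hg))) ⟨a', ha⟩ ⟨b', hb⟩
  have h2 : a' * b' = b' * a' := congrArg Subtype.val this
  rw [← map_mul, h2, map_mul]

/-- There is an infinite finitely generated group of exponent dividing `3 ^ 70`. -/
theorem exists_infinite_fg : ∃ (B : Type) (_ : Group B), Group.FG B ∧ Infinite B ∧
    ∀ x : B, x ^ (3 ^ 70) = 1 := by
  classical
  have h := TappZ.bu_noncomm
  push Not at h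
  obtain ⟨a, b, hab⟩ := h
  let H : Subgroup (Bu (3 ^ 70)) := Subgroup.closure {a, b}
  refine ⟨H, inferInstance, ?_, ?_, fun x => Subtype.ext (by simpa using TappZ.bu_pow _ x.1)⟩
  · rw [Group.fg_iff_subgroup_fg]
    exact ⟨{a, b}, by simp [H]⟩
  · rw [← not_finite_iff_infinite]
    intro hf
    exact hab (comm_of_finite adian_three H a b (Subgroup.subset_closure (by simp))
      (Subgroup.subset_closure (by simp)))

end Pool.Agent.H59Z.NA
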