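import Pool.Agent.H59Z.NA.Defs

set_option autoImplicit false

/-!
# Iterated geometric small cancellation: statements of the independent steps
-/

namespace Pool.Agent.H59Z.NA

/-- Basic properties of the stable translation length. -/
def S_tau : Prop := ∀ (Q V : Type) [Group Q] [MulAction Q V] (X : GM V), X.Inv Q →
  (∀ (g : Q) (x : V) (m : ℕ), X.tau g * m ≤ X.d x (g ^ m • x)) ∧
  (∀ g : Q, 0 ≤ X.tau g) ∧
  (∀ (g : Q) (x : V) (ε : ℝ), 0 < ε → ∃ m₀ : ℕ, ∀ m : ℕ, m₀ ≤ m →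
    (X.d x (g ^ m • x) : ℝ) ≤ (X.tau g + ε) * m) ∧
  (∀ (g : Q) (k : ℤ), X.tau (g ^ k) = |(k : ℝ)| * X.tau g) ∧
  (∀ g s : Q, X.tau (s * g * s⁻¹) = X.tau g) ∧
  (∀ (g : Q) (x : V) (a C : ℝ), (∀ m : ℕ, a * m ≤ X.d x (g ^ m • x) + C) → a ≤ X.tau g) ∧
  (∀ g h : Q, Commute g h → X.tau (g * h) ≤ X.tau g + X.tau h)

/-- A commutative subgroup of uniformly loxodromic elements is cyclic. -/
def S_cyc : Prop := ∀ (Q V : Type) [Group Q] [MulAction Q V] (X : GM V) (δ : ℕ) (τ₀ : ℝ),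
  X.Inv Q → X.Four δ → 0 < τ₀ → ∀ C : Subgroup Q, (∀ a ∈ C, ∀ b ∈ C, Commute a b) →
  (∀ a ∈ C, a ≠ 1 → τ₀ ≤ X.tau a) → ∃ g ∈ C, ∀ a ∈ C, a ∈ Subgroup.zpowers g

/-- Centraliser of a loxodromic element. -/
def S_lox : Prop := ∀ (Q V : Type) [Group Q] [MulAction Q V] (X : GM V) (δ : ℕ) (τ₀ : ℝ),
  X.Inv Q → X.Four δ → 0 < τ₀ → (∀ t : Q, t ^ 2 = 1 → t = 1) → ∀ u : Q, u ≠ 1 →
  (∀ a b : Q, Commute a u → Commute b u → Commute a b) →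
  (∀ a : Q, Commute a u → a ≠ 1 → τ₀ ≤ X.tau a) →
  (∃ g : Q, ∀ a : Q, Commute a u → a ∈ Subgroup.zpowers g) ∧
  ∀ t : Q, Commute u (t * u * t⁻¹) → Commute t u

/-- Elementary hyperbolic geometry. -/
def S_hyp : Prop := ∀ (V : Type) (X : GM V),
  (∀ ε : ℕ, X.Slim ε → X.Four (2 * ε + 2)) ∧
  (∀ δ : ℕ, X.Four δ → ∀ (x y z : V) (e : ℕ), X.d x z + X.d z y ≤ X.d x y + e →
    ∃ z', X.d x z' + X.d z' y = X.d x y ∧ X.d z z' ≤ e + δ) ∧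
  (∀ (Q : Type) [Group Q] [MulAction Q V] (δ : ℕ), X.Inv Q → X.Four δ →
    ∀ (g : Q) (x y z : V) (D : ℕ), X.d x z + X.d z y = X.d x y →
      X.d x (g • x) ≤ D → X.d y (g • y) ≤ D → X.d z (g • z) ≤ D + δ)

/-- Commutators of elements which translate along a long geodesic move its middle by little. -/
def S_comm : Prop := ∀ (Q V : Type) [Group Q] [MulAction Q V] (X : GM V) (δ : ℕ),
  X.Inv Q → X.Four δ → ∀ (g h : Q) (x y z : V) (D : ℕ),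
  X.d x (g • x) ≤ D → X.d y (g • y) ≤ D → X.d x (h • x) ≤ D → X.d y (h • y) ≤ D →
  X.d x z + X.d z y = X.d x y → 10 * D + 20 * δ ≤ X.d x z → 10 * D + 20 * δ ≤ X.d z y →
  X.d z ((g * h * g⁻¹ * h⁻¹) • z) ≤ 12 * δ ∧
  X.d z ((g * (g * h * g⁻¹ * h⁻¹) * g⁻¹) • z) ≤ 12 * δ ∧
  X.d z ((h * (g * h * g⁻¹ * h⁻¹) * h⁻¹) • z) ≤ 12 * δ

/-- Acylindricity at all scales. -/
def S_acyl : Prop := ∀ (Q V : Type) [Group Q] [MulAction Q V] (X : GM V) (δ A : ℕ),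
  X.Inv Q → X.Four δ → Cyc Q → Mal Q → X.Acyl Q (12 * δ) A →
  ∀ D : ℕ, X.Acyl Q D (A + 20 * D + 40 * δ)

/-- Quasi-axis of a loxodromic element. -/
def S_axis : Prop := ∀ (Q V : Type) [Group Q] [MulAction Q V] (X : GM V) (δ : ℕ),
  X.Inv Q → X.Four δ → ∀ u : Q, 0 < X.tau u →
  ∃ x : V, ∀ s : Q, Commute s u → (X.d x (s • x) : ℝ) ≤ X.tau s + 12 * δ

/-- The family of axes of a conjugation invariant set of short primitive loxodromic elements. -/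
def S_lines : Prop := ∀ (Q V : Type) [Group Q] [MulAction Q V] (X : GM V) (δ A L B : ℕ)
  (P : Q → Prop) (m : Q → ℕ), X.Inv Q → X.Four δ → Cyc Q → Mal Q → X.Acyl Q (12 * δ) A →
  1 ≤ δ → A + 13000 * δ + 1000 * B ≤ L →
  (∀ g s, P g → P (s * g * s⁻¹) ∧ m (s * g * s⁻¹) = m g) →
  (∀ g, P g → 0 < X.tau g ∧ X.tau g ≤ B ∧ (∀ a, Commute a g → a ∈ Subgroup.zpowers g) ∧
    (10 ^ 9 : ℝ) * L ≤ m g * X.tau g) →
  ∃ (I : Type) (_ : MulAction Q I) (F : Fam Q V I X L),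
    (∀ i, P (F.gen i) ∧ F.mu i = m (F.gen i)) ∧ ∀ g, P g → ∃ i, g = F.gen i ∨ g = (F.gen i)⁻¹

/-- Bowditch's criterion (guessing geodesics), with explicit constants. -/
def S_bow : Prop := ∀ (V : Type) (E : GM V) (Λ : V → V → Set V),
  (∀ x y w, ∀ z ∈ Λ x y, ∃ z', (z' ∈ Λ x w ∨ z' ∈ Λ w y) ∧ E.d z z' ≤ 1) →
  (∀ x y, E.d x y ≤ 1 → ∀ z ∈ Λ x y, E.d z x ≤ 2) →
  (∀ x y, ∃ (N : ℕ) (ζ : ℕ → V), ζ 0 = x ∧ ζ N = y ∧ (∀ s, s ≤ N → ζ s ∈ Λ x y) ∧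
    ∀ s, s < N → E.d (ζ s) (ζ (s + 1)) ≤ 1) →
  (∀ (N : ℕ) (γ : ℕ → V), (∀ s t, s ≤ t → t ≤ N → E.d (γ s) (γ t) + s = t) →
    ∀ z ∈ Λ (γ 0) (γ N), ∃ s, s ≤ N ∧ E.d z (γ s) ≤ 9) ∧ E.Slim 60

/-- Electrification. -/
def S_elec : Prop := ∀ (Q V I : Type) [Group Q] [MulAction Q V] [MulAction Q I] (X : GM V)
  (δ L : ℕ) (F : Fam Q V I X L), X.Inv Q → X.Four δ → 2 * δ ≤ L → 1 ≤ L → ∃ E : GM V, F.IsEl E

/-- Windmills. -/
def S_wind : Prop := ∀ (Q V I : Type) [Group Q] [MulAction Q V] [MulAction Q I] (X : GM V)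
  (L : ℕ) (F : Fam Q V I X L) (E : GM V), X.Inv Q → 1 ≤ L → F.IsEl E →
  ∀ (Γ : Type) [Group Γ] (π : Γ →* Q) (H : I → Subgroup Γ),
  (∀ (g : Γ) (i : I), ∀ h ∈ H i, g * h * g⁻¹ ∈ H (π g • i)) →
  (∀ i, ∀ h ∈ H i, π h ∈ Subgroup.zpowers (F.gen i ^ F.mu i)) →
  (∀ i, ∀ h ∈ H i, π h = 1 → h = 1) → F.Ind Γ π H

/-- The geometry of the quotient. -/
def S_quo : Prop := ∀ (Q V I : Type) [Group Q] [MulAction Q V] [MulAction Q I] (X : GM V)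
  (L : ℕ) (F : Fam Q V I X L) (E : GM V), Nonempty V → X.Inv Q → 1 ≤ L → F.IsEl E →
  F.Ind Q (MonoidHom.id Q) (fun i => Subgroup.zpowers (F.gen i ^ F.mu i)) →
  ∃ (W J : Type) (_ : MulAction (Q ⧸ F.K) W) (_ : MulAction (Q ⧸ F.K) J)
    (A : AG (Q ⧸ F.K) W J L) (φ : V → W), IsQuo F (QuotientGroup.mk' F.K) A φ

/-- Positions of the long lines along a geodesic. -/
def S_pos : Prop := ∀ (R W J : Type) [Group R] [MulAction R W] [MulAction R J] (L : ℕ)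
  (A : AG R W J L),
  (∀ l p q, (600 : ℝ) * L < A.ang l p q →
    A.Z.eta (A.Y l) p + 1 + A.Z.eta (A.Y l) q = A.Z.d p q) ∧
  (∀ l p q, A.Z.d p q ≤ A.Z.eta (A.Y l) p → A.ang l p q ≤ 600 * L) ∧
  (∀ (g : R) l p, A.Z.eta (A.Y (g • l)) (g • p) = A.Z.eta (A.Y l) p) ∧
  (∀ (f : R) (l m : J), f ≠ 1 → f • l = l → f • m = m → l = m) ∧
  (∀ (l : J) (x y : W) (B : ℝ) (S : Set R), 0 ≤ B →
    (∀ s ∈ S, A.ang l x (s • x) ≤ B ∧ A.ang l y (s • y) ≤ B) →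
    2 * B + 1800 * L < A.ang l x y →
    (∀ g h : R, g ∈ S → g * h ∈ S → (A.Z.eta (A.Y l) ((g * h) • x) : ℤ) =
      A.Z.eta (A.Y l) (g • x) + ((A.Z.d (h • x) y : ℤ) - A.Z.d x y)) ∧
    (∀ g g' : R, g ∈ S → g' ∈ S → A.Z.eta (A.Y l) (g • x) = A.Z.eta (A.Y l) (g' • x) →
      g⁻¹ • l = g'⁻¹ • l))

/-- Fixed point lemma for groups with bounded orbits. -/
def S_fp : Prop := ∀ (R W J : Type) [Group R] [MulAction R W] [MulAction R J] (L : ℕ)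
  (A : AG R W J L) (H : Subgroup R) (x : W) (r : ℕ), (∀ h ∈ H, A.Z.d x (h • x) ≤ r) →
  (∃ l : J, ∀ h ∈ H, h • l = l) ∨
  ∃ p : W, ∀ h ∈ H, A.Z.d p (h • p) ≤ 245 ∧ ∀ l, A.ang l p (h • p) ≤ 3600 * L

/-- The master dichotomy: a long line in the middle of a geodesic, or everything lifts. -/
def S_md : Prop := ∀ (Q V I : Type) [Group Q] [MulAction Q V] [MulAction Q I] (X : GM V)
  (L : ℕ) (F : Fam Q V I X L) (R W J : Type) [Group R] [MulAction R W] [MulAction R J]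
  (π : Q →* R) (A : AG R W J L) (φ : V → W), X.Inv Q → IsQuo F π A φ →
  ∀ (x y : W) (D r : ℕ), r + 10 * D + 2000 ≤ A.Z.d x y →
  (∃ l, D ≤ A.Z.eta (A.Y l) x ∧ D ≤ A.Z.eta (A.Y l) y ∧ (3000 : ℝ) * L < A.ang l x y) ∨
  ∃ (p q : V) (lf : R → Q), r ≤ A.Z.d (φ p) (φ q) ∧
    (∀ (g : R) (D' : ℕ), D' ≤ D → A.Z.d x (g • x) ≤ D' → A.Z.d y (g • y) ≤ D' →
      π (lf g) = g ∧ X.d p (lf g • p) ≤ 15000 * L * (D' + 123) ∧
      X.d q (lf g • q) ≤ 15000 * L * (D' + 123)) ∧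
    (∀ g h : R, A.Z.d x (g • x) ≤ D → A.Z.d y (g • y) ≤ D → A.Z.d x (h • x) ≤ D →
      A.Z.d y (h • y) ≤ D → A.Z.d x ((g * h) • x) ≤ D → A.Z.d y ((g * h) • y) ≤ D →
      lf (g * h) = lf g * lf h)

/-- Lifting a group with a good almost fixed point. -/
def S_lfp : Prop := ∀ (Q V I : Type) [Group Q] [MulAction Q V] [MulAction Q I] (X : GM V)
  (L : ℕ) (F : Fam Q V I X L) (R W J : Type) [Group R] [MulAction R W] [MulAction R J]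
  (π : Q →* R) (A : AG R W J L) (φ : V → W), X.Inv Q → IsQuo F π A φ →
  ∀ (H : Subgroup R) (p : V),
  (∀ h ∈ H, A.Z.d (φ p) (h • φ p) ≤ 245 ∧ ∀ l, A.ang l (φ p) (h • φ p) ≤ 3600 * L) →
  ∃ lf : R → Q, (∀ h ∈ H, π (lf h) = h ∧ X.d p (lf h • p) ≤ 2000000 * L ∧
      ∀ i, |F.c i p - F.c i (lf h • p)| ≤ 4600 * L) ∧
    ∀ g ∈ H, ∀ h ∈ H, lf (g * h) = lf g * lf h

/-- Elements of finite order of the quotient which fix no line. -/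
def S_ell : Prop := ∀ (Q V I : Type) [Group Q] [MulAction Q V] [MulAction Q I] (X : GM V)
  (L : ℕ) (F : Fam Q V I X L) (R W J : Type) [Group R] [MulAction R W] [MulAction R J]
  (π : Q →* R) (A : AG R W J L) (φ : V → W), X.Inv Q → Cyc Q → Mal Q → IsQuo F π A φ →
  ∀ (u : R) (n : ℕ), 0 < n → u ≠ 1 → u ^ n = 1 → (∀ l : J, u • l ≠ l) →
  (∃ g : R, ∀ a : R, Commute a u → a ∈ Subgroup.zpowers g) ∧
  ∀ t : R, Commute u (t * u * t⁻¹) → Commute t u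

/-- Classification of the elements of the quotient. -/
def S_tri : Prop := ∀ (Q V I : Type) [Group Q] [MulAction Q V] [MulAction Q I] (X : GM V)
  (L : ℕ) (F : Fam Q V I X L) (R W J : Type) [Group R] [MulAction R W] [MulAction R J]
  (π : Q →* R) (A : AG R W J L) (φ : V → W), X.Inv Q → IsQuo F π A φ →
  ∀ (n : ℕ) (τ₁ : ℝ), 0 < τ₁ → τ₁ ≤ 1 →
  (∀ g : Q, g ^ n = 1 ∨ (∃ i, g ∈ Subgroup.zpowers (F.gen i)) ∨ τ₁ ≤ X.tau g) →
  ∀ g : R, (∃ l : J, g • l = l) ∨ (∃ g' : Q, π g' = g ∧ g' ^ n = 1) ∨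
    τ₁ / (15000 * L) ≤ A.Z.tau g

/-- Acylindricity of the quotient. -/
def S_acylq : Prop := ∀ (Q V I : Type) [Group Q] [MulAction Q V] [MulAction Q I] (X : GM V)
  (L : ℕ) (F : Fam Q V I X L) (R W J : Type) [Group R] [MulAction R W] [MulAction R J]
  (π : Q →* R) (A : AG R W J L) (φ : V → W), X.Inv Q → IsQuo F π A φ →
  (∀ D : ℕ, X.Acyl Q D (L + 20 * D)) → A.Z.Acyl R (12 * 122) (10 ^ 9)

/-- Centralisers of loxodromic elements of the quotient. -/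
def S_loxq : Prop := ∀ (Q V I : Type) [Group Q] [MulAction Q V] [MulAction Q I] (X : GM V)
  (L : ℕ) (F : Fam Q V I X L) (R W J : Type) [Group R] [MulAction R W] [MulAction R J]
  (π : Q →* R) (A : AG R W J L) (φ : V → W), X.Inv Q → Cyc Q → IsQuo F π A φ →
  (∀ D : ℕ, X.Acyl Q D (L + 20 * D)) → ∀ n : ℕ, 0 < n → (∀ i, F.mu i ∣ n) →
  ∀ u : R, 0 < A.Z.tau u →
  (∀ a b : R, Commute a u → Commute b u → Commute a b) ∧
  ∀ f : R, Commute f u → f ^ n = 1 → f = 1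

/-- One step of small cancellation. -/
def S_step : Prop := ∀ (Q V I : Type) [Group Q] [MulAction Q V] [MulAction Q I] (X : GM V)
  (δ A₀ L n : ℕ) (τ₀ τ₁ : ℝ) (F : Fam Q V I X L) (R W J : Type) [Group R] [MulAction R W]
  [MulAction R J] (π : Q →* R) (A : AG R W J L) (φ : V → W),
  Good Q V X δ A₀ τ₀ n → Odd n → (∀ i, F.mu i ∣ n) → A₀ + 40 * δ ≤ L → 0 < τ₁ → τ₁ ≤ 1 →
  (∀ g : Q, g ^ n = 1 ∨ (∃ i, g ∈ Subgroup.zpowers (F.gen i)) ∨ τ₁ ≤ X.tau g) →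
  IsQuo F π A φ →
  Good R W A.Z 122 (10 ^ 9) (τ₁ / (15000 * L)) n ∧
  ∀ (g : R) (m : ℕ), 0 < m → g ^ m = 1 →
    ∃ g' : Q, π g' = g ∧ (g' ^ n = 1 ∨ ∃ i, g' ∈ Subgroup.zpowers (F.gen i))

/-- The free group. -/
def S_base : Prop := ∃ X : GM (FreeGroup ℕ), ∀ (n : ℕ) (τ₀ : ℝ), τ₀ ≤ 1 →
  Good (FreeGroup ℕ) (FreeGroup ℕ) X 122 (10 ^ 9) τ₀ n

/-- One step of the tower of central extensions. -/
def S_ext : Prop := ∀ (n : ℕ), Odd n → 10 ^ 32 ≤ n →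
  ∀ (G Q V : Type) [Group G] [Group Q] [MulAction Q V] (X : GM V) (ρ : G →* Q) (c : G),
  Good Q V X 122 (10 ^ 9) (1 / (3 * 10 ^ 13)) n → Function.Surjective ρ →
  (∀ g, ρ g = 1 ↔ g ∈ Subgroup.zpowers c) → (∀ g, Commute c g) → c ≠ 1 →
  (∀ (g : G) (m : ℕ), 0 < m → g ^ m = 1 → g = 1) →
  ∃ (G' Q' V' : Type) (_ : Group G') (_ : Group Q') (_ : MulAction Q' V') (X' : GM V')
    (ρ' : G' →* Q') (α : G →* G') (β : Q →* Q') (φ : V → V'),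
    Good Q' V' X' 122 (10 ^ 9) (1 / (3 * 10 ^ 13)) n ∧ Function.Surjective ρ' ∧
    (∀ g, ρ' g = 1 ↔ g ∈ Subgroup.zpowers (α c)) ∧ α c ≠ 1 ∧
    (∀ (g : G') (m : ℕ), 0 < m → g ^ m = 1 → g = 1) ∧
    Function.Surjective α ∧ (∀ g, ρ' (α g) = β (ρ g)) ∧
    (∀ q, β q = 1 → q ∈ Subgroup.normalClosure (Set.range fun w : Q => w ^ n)) ∧
    (∀ (q : Q) (p : V), φ (q • p) = β q • φ p) ∧
    (∀ p q : V, X'.d (φ p) (φ q) ≤ 1 ∨ X'.d (φ p) (φ q) < X.d p q) ∧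
    ∀ q : Q, X.tau q ≤ 1 → β q ^ n = 1

/-- The limit. -/
def S_adian : Prop := ∀ n : ℕ, Odd n → 10 ^ 32 ≤ n → Adian n

/-- Application: a discrete hereditarily minimal group which is not hereditarily
non-topologizable. -/
def S_appO : Prop := ∀ n : ℕ, 1 < n → Adian n →
  ¬ (∀ (G : Type) [Group G],
      (∀ (H : Subgroup G) (t : TopologicalSpace ↥H),
          @IsTopologicalGroup ↥H t _ → @T2Space ↥H t → t = ⊥) →
      ∀ (H : Subgroup G) (N : Subgroup ↥H) [N.Normal] (t : TopologicalSpace (↥H ⧸ N)),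
        @IsTopologicalGroup (↥H ⧸ N) t _ → @T2Space (↥H ⧸ N) t → t = ⊥)

/-- A torsion-free group with an open central copy of the `p`-adic integers and quotient of finite
exponent is hereditarily minimal. -/
def S_appHM : Prop := ∀ (p : ℕ) [Fact p.Prime] (G : Type) [Group G] [tG : TopologicalSpace G]
  [IsTopologicalGroup G] (ι : Multiplicative ℤ_[p] →* G) (n : ℕ), 0 < n →
  Topology.IsOpenEmbedding ι → (∀ z g, Commute (ι z) g) → (∀ g : G, g ^ n ∈ ι.range) →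
  (∀ (g : G) (m : ℕ), 0 < m → g ^ m = 1 → g = 1) →
  ∀ H : Subgroup G, ∀ τ : TopologicalSpace H,
    @IsTopologicalGroup H τ _ → @T2Space H τ →
    TopologicalSpace.induced (Subtype.val : H → G) tG ≤ τ →
    τ = TopologicalSpace.induced (Subtype.val : H → G) tG

/-- Application: a locally compact hereditarily minimal group which is neither discrete nor
compact and has a proper nontrivial centre. -/
def S_appZ : Prop := Adian (3 ^ 70) →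
  ∃ (G : Type) (_ : Group G) (tG : TopologicalSpace G),
    IsTopologicalGroup G ∧ T2Space G ∧ LocallyCompactSpace G ∧
    ¬ DiscreteTopology G ∧ ¬ CompactSpace G ∧
    Subgroup.center G ≠ ⊥ ∧ Subgroup.center G ≠ ⊤ ∧
    ∀ H : Subgroup G, ∀ τ : TopologicalSpace H,
      @IsTopologicalGroup H τ _ → @T2Space H τ →
      TopologicalSpace.induced (Subtype.val : H → G) tG ≤ τ →
      τ = TopologicalSpace.induced (Subtype.val : H → G) tG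

end Pool.Agent.H59Z.NA
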