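import Pool.Agent.H59Z.NA.St

set_option autoImplicit false

namespace Pool.Agent.H59Z.NA

open Filter Topology

namespace TappHM

lemma step1 {p : ℕ} [Fact p.Prime] {H : Type} [Group H] [TopologicalSpace H]
    [IsTopologicalGroup H] [T2Space H] (C : Subgroup (Multiplicative ℤ_[p])) (j : C →* H)
    (hj : Function.Injective j) (hc : Continuous j) (W : Set ℤ_[p]) (hW : IsOpen W)
    (h0 : (0 : ℤ_[p]) ∈ W) :
    ∃ U ∈ 𝓝 (1 : H), ∀ c : C, j c ∈ U → Multiplicative.toAdd c.1 ∈ W := by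
  by_contra hcon
  push Not at hcon
  have hne : (comap j (𝓝 (1 : H)) ⊓ 𝓟 {c : C | Multiplicative.toAdd c.1 ∉ W}).NeBot := by
    rw [inf_principal_neBot_iff]
    rintro U ⟨V, hV, hVU⟩
    obtain ⟨c, h1, h2⟩ := hcon V hV
    exact ⟨c, hVU h1, h2⟩
  let 𝒰 : Ultrafilter C :=
    Ultrafilter.of (comap j (𝓝 (1 : H)) ⊓ 𝓟 {c : C | Multiplicative.toAdd c.1 ∉ W})
  have h𝒰 : (𝒰 : Filter C) ≤ comap j (𝓝 (1 : H)) ⊓ 𝓟 {c : C | Multiplicative.toAdd c.1 ∉ W} :=
    Ultrafilter.of_le _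
  have ht1 : Tendsto j 𝒰 (𝓝 1) := tendsto_iff_comap.2 (h𝒰.trans inf_le_left)
  have hmem : {c : C | Multiplicative.toAdd c.1 ∉ W} ∈ 𝒰 :=
    le_principal_iff.1 (h𝒰.trans inf_le_right)
  obtain ⟨x, hxW, hx⟩ := hW.isClosed_compl.isCompact.ultrafilter_le_nhds
    (𝒰.map fun c : C => Multiplicative.toAdd c.1) (le_principal_iff.2 hmem)
  have ht2 : Tendsto (fun c : C => Multiplicative.toAdd c.1) 𝒰 (𝓝 x) := hx
  have hx0 : x ≠ 0 := fun h => hxW (h ▸ h0)
  obtain ⟨a, ha⟩ := Ultrafilter.nonempty_of_mem hmem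
  have ha0 : Multiplicative.toAdd a.1 ≠ 0 := fun h => ha (h ▸ h0)
  set u : ℤ_[p] := Multiplicative.toAdd a.1 * ((PadicInt.unitCoeff hx0)⁻¹ : ℤ_[p]ˣ) with hu
  set b : C := a ^ (p ^ x.valuation) with hb
  have hbx : Multiplicative.toAdd b.1 = u * x := by
    have h1 : Multiplicative.toAdd b.1 = (p : ℤ_[p]) ^ x.valuation * Multiplicative.toAdd a.1 := by
      rw [hb, SubmonoidClass.coe_pow, toAdd_pow, nsmul_eq_mul]
      push_cast
      ring
    have h2 := PadicInt.unitCoeff_spec hx0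
    rw [h1, hu]
    calc _ = Multiplicative.toAdd a.1 * (((PadicInt.unitCoeff hx0)⁻¹ : ℤ_[p]ˣ) *
          (PadicInt.unitCoeff hx0 : ℤ_[p])) * (p : ℤ_[p]) ^ x.valuation := by
          rw [Units.inv_mul]; ring
      _ = Multiplicative.toAdd a.1 * ((PadicInt.unitCoeff hx0)⁻¹ : ℤ_[p]ˣ) *
          ((PadicInt.unitCoeff hx0 : ℤ_[p]) * (p : ℤ_[p]) ^ x.valuation) := by ring
      _ = _ := by rw [← h2]
  have hb1 : j b = 1 := by
    by_contra hb1
    obtain ⟨V, hV, hVU⟩ := exists_nhds_one_split (isOpen_compl_singleton.mem_nhds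
      (show (1 : H) ∈ ({j b}ᶜ : Set H) from fun h => hb1 (Set.mem_singleton_iff.1 h).symm))
    have hV' : j ⁻¹' V ∈ 𝓝 (1 : C) := hc.continuousAt.preimage_mem_nhds (by rwa [map_one])
    rw [nhds_subtype_eq_comap] at hV'
    obtain ⟨T, hT, hTV⟩ := hV'
    have hT' : (fun z : ℤ_[p] => Multiplicative.ofAdd z) ⁻¹' T ∈ 𝓝 (0 : ℤ_[p]) := hT
    have hcont : Continuous fun y : ℤ_[p] => (u - y) * x := by fun_prop
    have hO : IsOpen ((fun y : ℤ_[p] => (u - y) * x) ⁻¹'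
        interior ((fun z : ℤ_[p] => Multiplicative.ofAdd z) ⁻¹' T)) :=
      isOpen_interior.preimage hcont
    obtain ⟨k, hk⟩ := PadicInt.denseRange_natCast.exists_mem_open hO
      ⟨u, by simpa using mem_interior_iff_mem_nhds.2 hT'⟩
    have e1 : ∀ᶠ c : C in 𝒰, j c ^ k ∈ V := by
      have := ht1.pow k
      rw [one_pow] at this
      exact this hV
    have e2 : ∀ᶠ c : C in 𝒰, u * x - k * Multiplicative.toAdd c.1 ∈
        interior ((fun z : ℤ_[p] => Multiplicative.ofAdd z) ⁻¹' T) := by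
      have h3 : Tendsto (fun c : C => u * x - k * Multiplicative.toAdd c.1) 𝒰
          (𝓝 (u * x - k * x)) := tendsto_const_nhds.sub (ht2.const_mul _)
      refine h3 (isOpen_interior.mem_nhds ?_)
      have : u * x - k * x = (u - k) * x := by ring
      rw [this]
      exact hk
    obtain ⟨c, c1, c2⟩ := (e1.and e2).exists
    have c3 : j (b * (c ^ k)⁻¹) ∈ V := by
      apply hTV
      have h4 : ((b * (c ^ k)⁻¹ : C) : Multiplicative ℤ_[p]) =
          Multiplicative.ofAdd (u * x - k * Multiplicative.toAdd c.1) := by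
        apply Multiplicative.toAdd.injective
        rw [Subgroup.coe_mul, toAdd_mul, hbx, Subgroup.coe_inv, SubmonoidClass.coe_pow, toAdd_inv,
          toAdd_pow, nsmul_eq_mul, toAdd_ofAdd]
        ring
      show ((b * (c ^ k)⁻¹ : C) : Multiplicative ℤ_[p]) ∈ T
      rw [h4]
      exact interior_subset c2
    have c4 := hVU _ c3 _ c1
    apply c4
    rw [← map_pow, ← map_mul, inv_mul_cancel_right]
    rfl
  have hb2 : b = 1 := hj (by rw [hb1, map_one])
  rw [hb2] at hbx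
  have h5 : u * x = 0 := by rw [← hbx]; rfl
  rcases mul_eq_zero.1 h5 with h | h
  · rcases mul_eq_zero.1 h with h' | h'
    · exact ha0 h'
    · exact Units.ne_zero _ h'
  · exact hx0 h

lemma exists_open_dvd {p : ℕ} [Fact p.Prime] (n : ℕ) (hn : 0 < n) :
    ∃ W : Set ℤ_[p], IsOpen W ∧ 0 ∈ W ∧ ∀ z ∈ W, ∃ y : ℤ_[p], z = n * y := by
  have hn0 : (n : ℤ_[p]) ≠ 0 := by exact_mod_cast hn.ne'
  have hp : (0 : ℝ) < p := by exact_mod_cast (Fact.out : p.Prime).pos
  refine ⟨Metric.ball 0 ((p : ℝ) ^ (-((n : ℤ_[p]).valuation : ℤ))), Metric.isOpen_ball,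
    Metric.mem_ball_self (by positivity), fun z hz => ?_⟩
  rw [mem_ball_zero_iff] at hz
  obtain ⟨c, hc⟩ := Ideal.mem_span_singleton'.1
    ((PadicInt.norm_le_pow_iff_mem_span_pow z _).1 hz.le)
  have h2 := PadicInt.unitCoeff_spec hn0
  refine ⟨c * ((PadicInt.unitCoeff hn0)⁻¹ : ℤ_[p]ˣ), ?_⟩
  calc z = c * (((PadicInt.unitCoeff hn0)⁻¹ : ℤ_[p]ˣ) * (PadicInt.unitCoeff hn0 : ℤ_[p])) *
        (p : ℤ_[p]) ^ (n : ℤ_[p]).valuation := by rw [Units.inv_mul, mul_one, hc]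
    _ = ((PadicInt.unitCoeff hn0 : ℤ_[p]) * (p : ℤ_[p]) ^ (n : ℤ_[p]).valuation) *
        (c * ((PadicInt.unitCoeff hn0)⁻¹ : ℤ_[p]ˣ)) := by ring
    _ = _ := by rw [← h2]

end TappHM

theorem thm_appHM : S_appHM := by
  intro p _ G _ tG _ ι n hn hι hcomm hpow htf H τ hτ hT2 hle
  let σ : TopologicalSpace H := TopologicalSpace.induced (Subtype.val : H → G) tG
  have hσ : @IsTopologicalGroup H σ _ := inferInstanceAs (IsTopologicalGroup H)
  refine IsTopologicalGroup.ext hτ hσ (le_antisymm ?_ (nhds_mono hle))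
  let j : H.comap ι →* H := ι.subgroupComap H
  have hjv : ∀ c : H.comap ι, (j c : G) = ι c.1 := fun _ => rfl
  have hj : Function.Injective j := by
    intro a b h
    apply Subtype.ext
    apply hι.injective
    rw [← hjv, ← hjv, h]
  have hcσ : @Continuous _ H _ σ j :=
    continuous_induced_rng.2 (hι.continuous.comp continuous_subtype_val)
  have hc : @Continuous _ H _ τ j := continuous_le_rng hle hcσ
  have s1 := @TappHM.step1 p _ H _ τ hτ hT2 (H.comap ι) j hj hc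
  obtain ⟨W, hW, hW0, hWn⟩ := TappHM.exists_open_dvd (p := p) n hn
  obtain ⟨U, hU, hUW⟩ := s1 W hW hW0
  have hU' : (fun h : H => h ^ n) ⁻¹' U ∈ @nhds H τ 1 := by
    let _ := τ
    exact (continuous_pow n).continuousAt.preimage_mem_nhds (by rwa [one_pow])
  intro T hT
  rw [nhds_induced] at hT
  obtain ⟨T', hT', hTT⟩ := hT
  have hT2' : (fun z : ℤ_[p] => ι (Multiplicative.ofAdd z)) ⁻¹' T' ∈ 𝓝 (0 : ℤ_[p]) := by
    have h1 : Continuous fun z : ℤ_[p] => ι (Multiplicative.ofAdd z) :=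
      hι.continuous.comp continuous_ofAdd
    exact h1.continuousAt.preimage_mem_nhds (by simpa using hT')
  obtain ⟨U', hU'1, hU'2⟩ := s1 _ isOpen_interior (mem_interior_iff_mem_nhds.2 hT2')
  refine mem_of_superset (inter_mem hU' hU'1) ?_
  rintro h ⟨h1, h2⟩
  obtain ⟨z, hz⟩ := hpow h.1
  have hzH : z ∈ H.comap ι := by
    rw [Subgroup.mem_comap, hz]
    exact H.pow_mem h.2 n
  have hjz : j ⟨z, hzH⟩ = h ^ n := Subtype.ext (by rw [hjv]; exact hz)
  obtain ⟨y, hy⟩ := hWn _ (hUW ⟨z, hzH⟩ (by rw [hjz]; exact h1))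
  have hzy : z = Multiplicative.ofAdd y ^ n := by
    apply Multiplicative.toAdd.injective
    rw [toAdd_pow, toAdd_ofAdd, nsmul_eq_mul]
    exact hy
  have hcm : Commute (h.1) (ι (Multiplicative.ofAdd y))⁻¹ := (hcomm _ _).symm.inv_right
  have h3 : h.1 * (ι (Multiplicative.ofAdd y))⁻¹ = 1 := by
    apply htf _ n hn
    rw [hcm.mul_pow, ← hz, hzy, map_pow, inv_pow, mul_inv_cancel]
  have h4 : ι (Multiplicative.ofAdd y) = h.1 := (mul_inv_eq_one.1 h3).symm
  have hyH : Multiplicative.ofAdd y ∈ H.comap ι := by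
    rw [Subgroup.mem_comap, h4]
    exact h.2
  have hjy : j ⟨_, hyH⟩ = h := Subtype.ext (by rw [hjv]; exact h4)
  have h5 := interior_subset (hU'2 ⟨_, hyH⟩ (by rw [hjy]; exact h2))
  apply hTT
  show h.1 ∈ T'
  rw [← h4]
  exact h5

end Pool.Agent.H59Z.NA
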