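import Pool.Agent.H59Z.NA.St

set_option autoImplicit false

namespace Pool.Agent.H59Z.NA

open Filter Topology

namespace TappO

/-- A homomorphism to a group of exponent `n` descends to the free Burnside group. -/
def desc {n : ℕ} {A : Type} [Group A] (φ : FreeGroup ℕ →* A) (h : ∀ w, φ w ^ n = 1) :
    Bu n →* A :=
  QuotientGroup.lift _ φ (by
    intro x hx
    refine Subgroup.normalClosure_le_normal (N := φ.ker) ?_ hx
    rintro _ ⟨w, rfl⟩
    simp [MonoidHom.mem_ker, h w])

theorem desc_mk {n : ℕ} {A : Type} [Group A] (φ : FreeGroup ℕ →* A) (h : ∀ w, φ w ^ n = 1)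
    (w : FreeGroup ℕ) : desc φ h (QuotientGroup.mk w) = φ w := rfl

theorem bu_pow {n : ℕ} (b : Bu n) : b ^ n = 1 := by
  obtain ⟨w, rfl⟩ := QuotientGroup.mk_surjective b
  rw [← QuotientGroup.mk_pow, QuotientGroup.eq_one_iff]
  exact Subgroup.subset_normalClosure ⟨w, rfl⟩

/-- The generators. -/
def x (n k : ℕ) : Bu n := QuotientGroup.mk (FreeGroup.of k)

theorem x_ne {n : ℕ} (hn : 1 < n) (k : ℕ) : x n k ≠ 1 := by
  haveI : Fact (1 < n) := ⟨hn⟩
  intro h
  have hp : ∀ w, (FreeGroup.lift fun _ : ℕ => Multiplicative.ofAdd (1 : ZMod n)) w ^ n = 1 := by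
    intro w
    rw [← ofAdd_toAdd ((FreeGroup.lift fun _ : ℕ => Multiplicative.ofAdd (1 : ZMod n)) w),
      ← ofAdd_nsmul]
    simp
  have := congrArg (desc _ hp) h
  rw [(desc _ hp).map_one, x, desc_mk] at this
  simp at this

/-- The retraction killing the generators of index at least `k`. -/
def r (n k : ℕ) : Bu n →* Bu n :=
  desc (FreeGroup.lift fun i => if i < k then x n i else 1) fun _ => bu_pow _

theorem r_x (n k i : ℕ) : r n k (x n i) = if i < k then x n i else 1 := by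
  rw [r, x, desc_mk]
  simp [x]

theorem r_ev (n : ℕ) (b : Bu n) : ∃ K, ∀ k, K ≤ k → r n k b = b := by
  obtain ⟨w, rfl⟩ := QuotientGroup.mk_surjective b
  induction w using FreeGroup.induction_on with
  | C1 => exact ⟨0, fun k _ => by simp⟩
  | of i =>
    refine ⟨i + 1, fun k hk => ?_⟩
    have := r_x n k i
    rw [if_pos (by omega)] at this
    exact this
  | inv_of i hi =>
    obtain ⟨K, hK⟩ := hi
    exact ⟨K, fun k hk => by rw [QuotientGroup.mk_inv, map_inv, hK k hk]⟩
  | mul a b ha hb =>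
    obtain ⟨K, hK⟩ := ha
    obtain ⟨L, hL⟩ := hb
    exact ⟨max K L, fun k hk => by
      rw [QuotientGroup.mk_mul, map_mul, hK k (le_of_max_le_left hk), hL k (le_of_max_le_right hk)]⟩

theorem topologizable {n : ℕ} (hn : 1 < n) {Q : Type} [Group Q] (e : Q →* Bu n)
    (hi : Function.Injective e) (hs : Function.Surjective e) :
    ∃ t : TopologicalSpace Q, @IsTopologicalGroup Q t _ ∧ @T2Space Q t ∧ t ≠ ⊥ := by
  letI : TopologicalSpace (Bu n) := ⊥
  haveI : DiscreteTopology (Bu n) := ⟨rfl⟩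
  haveI : IsTopologicalGroup (Bu n) := {}
  let Φ : Q →* (ℕ → Bu n) := (MonoidHom.pi fun k => r n k).comp e
  have hΦ : Function.Injective Φ := by
    rw [injective_iff_map_eq_one]
    intro q hq
    obtain ⟨K, hK⟩ := r_ev n (e q)
    have h1 : r n K (e q) = 1 := congrFun hq K
    rw [hK K le_rfl] at h1
    exact hi (h1.trans (map_one e).symm)
  letI t : TopologicalSpace Q := TopologicalSpace.induced Φ inferInstance
  refine ⟨t, topologicalGroup_induced Φ,
    T2Space.of_injective_continuous hΦ continuous_induced_dom, fun ht => ?_⟩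
  haveI : DiscreteTopology Q := ⟨ht⟩
  choose y hy using fun k => hs (x n k)
  have hlim : Tendsto y atTop (𝓝 1) := by
    rw [nhds_induced, tendsto_comap_iff, tendsto_pi_nhds]
    intro j
    refine tendsto_const_nhds.congr' ?_
    filter_upwards [eventually_ge_atTop j] with k hk
    have : r n j (e (y k)) = 1 := by rw [hy, r_x, if_neg (by omega)]
    rw [map_one]
    exact this.symm
  rw [nhds_discrete, tendsto_pure] at hlim
  obtain ⟨k, hk⟩ := hlim.exists
  exact x_ne hn k (by rw [← hy, hk, map_one])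

theorem discrete {A : Type} [Group A] (n : ℕ) (F : Set A) (hF : F.Finite)
    (h1 : ∀ a, a ^ n ∈ F) (h2 : ∀ a, a ^ n = 1 → a ∈ F) (t : TopologicalSpace A)
    (hg : @IsTopologicalGroup A t _) (ht : @T2Space A t) : t = ⊥ := by
  have hc : IsClosed (F \ {1}) := (hF.subset Set.sdiff_subset).isClosed
  have hU : IsOpen ((fun a : A => a ^ n) ⁻¹' (F \ {1})ᶜ) :=
    hc.isOpen_compl.preimage (continuous_pow n)
  have e : ({1} : Set A) = ((fun a : A => a ^ n) ⁻¹' (F \ {1})ᶜ) ∩ (F \ {1})ᶜ := by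
    ext a
    simp only [Set.mem_singleton_iff, Set.mem_inter_iff, Set.mem_preimage, Set.mem_compl_iff,
      Set.mem_sdiff, not_and, not_not]
    constructor
    · rintro rfl
      simp
    · rintro ⟨ha, hb⟩
      exact hb (h2 a (ha (h1 a)))
  have : DiscreteTopology A :=
    discreteTopology_of_isOpen_singleton_one (e ▸ hU.inter hc.isOpen_compl)
  exact this.eq_bot

end TappO

theorem thm_appO : S_appO := by
  rintro n hn ⟨G, _, c, ρ, hρ, hker, hc, -, htf⟩ hall
  haveI : (Subgroup.zpowers (c ^ n)).Normal := by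
    constructor
    rintro _ ⟨k, rfl⟩ g
    have : Commute ((c ^ n) ^ k) g := ((hc g).pow_left n).zpow_left k
    refine ⟨k, ?_⟩
    simp only
    rw [← this.eq, mul_inv_cancel_right]
  let π : G →* G ⧸ Subgroup.zpowers (c ^ n) := QuotientGroup.mk' _
  have hfin : (Subgroup.zpowers (π c) : Set (G ⧸ Subgroup.zpowers (c ^ n))).Finite := by
    rw [finite_zpowers, isOfFinOrder_iff_pow_eq_one]
    refine ⟨n, by omega, ?_⟩
    rw [← map_pow]
    exact (QuotientGroup.eq_one_iff _).2 (Subgroup.mem_zpowers _)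
  have h1 : ∀ a : G ⧸ Subgroup.zpowers (c ^ n), a ^ n ∈ Subgroup.zpowers (π c) := by
    intro a
    obtain ⟨g, rfl⟩ := QuotientGroup.mk'_surjective _ a
    obtain ⟨k, hk⟩ := (hker (g ^ n)).1 (by rw [map_pow, TappO.bu_pow])
    refine ⟨k, ?_⟩
    simp only at hk ⊢
    rw [← map_zpow, hk, map_pow]
  have h2 : ∀ a : G ⧸ Subgroup.zpowers (c ^ n), a ^ n = 1 → a ∈ Subgroup.zpowers (π c) := by
    intro a ha
    obtain ⟨g, rfl⟩ := QuotientGroup.mk'_surjective _ a
    rw [← map_pow] at ha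
    obtain ⟨k, hk⟩ := (QuotientGroup.eq_one_iff _).1 ha
    simp only at hk
    have hcm : Commute g (c ^ k)⁻¹ := ((hc g).zpow_left k).symm.inv_right
    have : (g * (c ^ k)⁻¹) ^ n = 1 := by
      rw [hcm.mul_pow, ← hk, inv_pow, ← zpow_natCast c n, ← zpow_natCast (c ^ k) n, ← zpow_mul,
        ← zpow_mul, mul_comm, mul_inv_cancel]
    have := htf _ n (by omega) this
    refine ⟨k, ?_⟩
    simp only
    rw [← map_zpow, mul_inv_eq_one.1 this]
  have hdis := hall (G ⧸ Subgroup.zpowers (c ^ n)) (fun H t hg ht =>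
    TappO.discrete n {h : H | (h : G ⧸ Subgroup.zpowers (c ^ n)) ∈ Subgroup.zpowers (π c)}
      (hfin.preimage Subtype.val_injective.injOn) (fun a => h1 a)
      (fun a ha => h2 a (by simpa using congrArg Subtype.val ha)) t hg ht)
  let ρ0 : G ⧸ Subgroup.zpowers (c ^ n) →* Bu n := QuotientGroup.lift _ ρ (by
    rintro _ ⟨k, rfl⟩
    exact (hker _).2 (Subgroup.zpow_mem _ (Subgroup.pow_mem _ (Subgroup.mem_zpowers c) n) k))
  let ψ : (⊤ : Subgroup (G ⧸ Subgroup.zpowers (c ^ n))) →* Bu n := ρ0.comp (Subgroup.subtype ⊤)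
  have hψ : Function.Surjective ψ := by
    intro b
    obtain ⟨g, rfl⟩ := hρ b
    exact ⟨⟨π g, Subgroup.mem_top _⟩, rfl⟩
  obtain ⟨t, ht1, ht2, ht3⟩ := TappO.topologizable hn (QuotientGroup.kerLift ψ)
    (QuotientGroup.kerLift_injective ψ) (by
      intro b
      obtain ⟨a, rfl⟩ := hψ b
      exact ⟨QuotientGroup.mk a, rfl⟩)
  exact ht3 (hdis ⊤ ψ.ker t ht1 ht2)

end Pool.Agent.H59Z.NA
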