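import Pool.Agent.H59Z.NA.St

set_option autoImplicit false

namespace Pool.Agent.H59Z.NA
namespace Tquo

/-! ### distance to a lattice in the line -/

/-- distance from `t` to the multiples of `a` -/
noncomputable def cd (a t : ℝ) : ℝ := ‖(t : AddCircle a)‖

lemma cd_per (a t : ℝ) (m : ℤ) : cd a (t + m * a) = cd a t := by
  unfold cd
  have : ((m * a : ℝ) : AddCircle a) = 0 := by
    rw [← zsmul_eq_mul, AddCircle.coe_zsmul, AddCircle.coe_period, smul_zero]
  rw [AddCircle.coe_add, this, add_zero]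

lemma cd_le_abs (a t : ℝ) : cd a t ≤ |t| := by
  unfold cd
  exact QuotientAddGroup.norm_mk_le_norm

lemma cd_ex (a t : ℝ) : ∃ m : ℤ, cd a t = |t - m * a| :=
  ⟨round (a⁻¹ * t), by unfold cd; rw [AddCircle.norm_eq]⟩

lemma cd_add (a s t : ℝ) : cd a (s + t) ≤ cd a s + cd a t := by
  unfold cd
  rw [AddCircle.coe_add]
  exact norm_add_le _ _

lemma cd_neg (a t : ℝ) : cd a (-t) = cd a t := by
  unfold cd
  rw [AddCircle.coe_neg, norm_neg]

lemma cd_bdd (a t : ℝ) (ha : 0 < a) : cd a t ≤ a / 2 := by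
  unfold cd
  have := AddCircle.norm_le_half_period a (x := (t : AddCircle a)) ha.ne'
  rwa [abs_of_pos ha] at this

lemma cd_sub_le (a s t : ℝ) : cd a s ≤ cd a t + |s - t| := by
  have h1 := cd_add a t (s - t)
  have h2 := cd_le_abs a (s - t)
  have e : t + (s - t) = s := by ring
  rw [e] at h1
  linarith

lemma cd_lower (a u : ℝ) (ha : 0 < a) (h1 : a / 4 ≤ |u|) (h2 : |u| ≤ 3 * a / 4) :
    a / 4 ≤ cd a u := by
  obtain ⟨m, hm⟩ := cd_ex a u
  rw [hm]
  by_cases h0 : m = 0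
  · subst h0; simpa using h1
  · have h3 : (1 : ℝ) ≤ |(m : ℝ)| := by
      have : (1 : ℤ) ≤ |m| := Int.one_le_abs h0
      exact_mod_cast this
    have h4 : |(m : ℝ) * a| = |(m : ℝ)| * a := by rw [abs_mul, abs_of_pos ha]
    have h5 : |(m : ℝ) * a| - |u| ≤ |u - m * a| := by
      have := abs_sub_abs_le_abs_sub ((m : ℝ) * a) u
      rwa [abs_sub_comm] at this
    nlinarith

lemma cd_double (a t : ℝ) (ha : 0 < a) (h : cd a t ≠ 0) : ∃ j : ℕ, a / 4 ≤ cd a (j * t) := by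
  obtain ⟨m, hm⟩ := cd_ex a t
  set s := t - m * a with hs
  have hs0 : 0 < |s| := by
    rw [← hm]
    exact lt_of_le_of_ne (norm_nonneg _) (Ne.symm h)
  have hs1 : |s| ≤ a / 2 := hm ▸ cd_bdd a t ha
  refine ⟨⌈a / (4 * |s|)⌉₊, ?_⟩
  set j := ⌈a / (4 * |s|)⌉₊ with hj
  have e : (j : ℝ) * t = j * s + ((j * m : ℤ) : ℝ) * a := by
    push_cast; rw [hs]; ring
  rw [e, cd_per]
  have j1 : a / (4 * |s|) ≤ j := Nat.le_ceil _
  have j2 : (j : ℝ) < a / (4 * |s|) + 1 := Nat.ceil_lt_add_one (by positivity)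
  have habs : |(j : ℝ) * s| = j * |s| := by rw [abs_mul, Nat.abs_cast]
  have k1 : a / (4 * |s|) * |s| = a / 4 := by field_simp
  apply cd_lower a _ ha
  · rw [habs]; nlinarith
  · rw [habs]; nlinarith

/-! ### orbit quotients -/

section OQ

variable {Q : Type} [Group Q] (K : Subgroup Q) (S : Type) [MulAction Q S]

/-- the orbit relation -/
def st : Setoid S where
  r x y := ∃ k ∈ K, y = k • x
  iseqv := ⟨fun x => ⟨1, K.one_mem, (one_smul _ _).symm⟩,
    fun ⟨k, hk, e⟩ => ⟨k⁻¹, K.inv_mem hk, by rw [e, inv_smul_smul]⟩,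
    fun ⟨k, hk, e⟩ ⟨k', hk', e'⟩ => ⟨k' * k, K.mul_mem hk' hk, by rw [e', e, mul_smul]⟩⟩

/-- the orbit space -/
def OQ : Type := Quotient (st K S)

variable {S}

/-- the projection -/
def omk (x : S) : OQ K S := Quotient.mk (st K S) x

lemma omk_surj : Function.Surjective (omk K : S → OQ K S) := Quotient.mk_surjective

lemma omk_eq {x y : S} : omk K x = omk K y ↔ ∃ k ∈ K, y = k • x := Quotient.eq (r := st K S)

lemma omk_smul {k : Q} (hk : k ∈ K) (x : S) : omk K (k • x) = omk K x :=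
  ((omk_eq K).2 ⟨k, hk, rfl⟩).symm

variable [hK : K.Normal]

instance actQ : MulAction Q (OQ K S) where
  smul g := Quotient.map' (s₁ := st K S) (s₂ := st K S) (fun x => g • x) (by
    rintro x y ⟨k, hk, rfl⟩
    exact ⟨g * k * g⁻¹, hK.conj_mem k hk g, by simp [mul_smul]⟩)
  one_smul u := by
    obtain ⟨x, rfl⟩ := omk_surj K u
    exact congrArg (omk K) (one_smul Q x)
  mul_smul g h u := by
    obtain ⟨x, rfl⟩ := omk_surj K u
    exact congrArg (omk K) (mul_smul g h x)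

lemma actQ_mk (g : Q) (x : S) : g • omk K x = omk K (g • x) := rfl

/-- the action of the quotient group, as a homomorphism -/
def permHom : (Q ⧸ K) →* Equiv.Perm (OQ K S) :=
  QuotientGroup.lift K (MulAction.toPermHom Q (OQ K S)) (by
    intro k hk
    rw [MonoidHom.mem_ker]
    ext u
    obtain ⟨x, rfl⟩ := omk_surj K u
    exact omk_smul K hk x)

/-- the action of the quotient group -/
@[reducible] def actR : MulAction (Q ⧸ K) (OQ K S) := MulAction.compHom (OQ K S) (permHom K (S := S))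

lemma actR_mk (g : Q) (x : S) :
    letI := actR K (S := S)
    (QuotientGroup.mk' K g) • omk K x = omk K (g • x) := rfl

end OQ

/-! ### basic facts on families -/

variable {Q V I : Type} [Group Q] [MulAction Q V] [MulAction Q I] {X : GM V} {L : ℕ}
  (F : Fam Q V I X L)

/-- the relator -/
def rel (i : I) : Q := F.gen i ^ F.mu i

/-- the period -/
noncomputable def per (i : I) : ℝ := F.mu i * F.tr i

lemma per_smul (g : Q) (i : I) : per F (g • i) = per F i := by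
  unfold per; rw [F.mu_smul, F.tr_smul]

lemma c_zpow (i : I) (e : ℤ) (p : V) : F.c i (F.gen i ^ e • p) = F.c i p + e * F.tr i := by
  induction e using Int.induction_on generalizing p with
  | zero => simp
  | succ n ih =>
    rw [zpow_add_one, mul_smul, ih, F.c_gen]; push_cast; ring
  | pred n ih =>
    have h := F.c_gen i ((F.gen i)⁻¹ • p)
    rw [smul_inv_smul] at h
    rw [zpow_sub_one, mul_smul, ih]; push_cast; linarith

lemma rel_mem_K (i : I) : rel F i ∈ F.K := Subgroup.subset_closure ⟨i, rfl⟩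

lemma zp_le_K (i : I) : Subgroup.zpowers (rel F i) ≤ F.K :=
  Subgroup.zpowers_le.2 (rel_mem_K F i)

lemma zp_le_gen (i : I) : Subgroup.zpowers (rel F i) ≤ Subgroup.zpowers (F.gen i) :=
  Subgroup.zpowers_le.2 (Subgroup.pow_mem _ (Subgroup.mem_zpowers _) _)

lemma zp_fix {i : I} {r : Q} (hr : r ∈ Subgroup.zpowers (rel F i)) : r • i = i :=
  (F.stab r i).2 (zp_le_gen F i hr)

lemma Y_fix {i : I} {r : Q} (hr : r • i = i) {p : V} (hp : p ∈ F.Y i) : r • p ∈ F.Y i := by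
  have := (F.Y_smul r i p).2 hp
  rwa [hr] at this

lemma c_rel (i : I) (e : ℤ) (p : V) : F.c i (rel F i ^ e • p) = F.c i p + e * per F i := by
  unfold rel per
  rw [← zpow_natCast, ← zpow_mul, c_zpow]; push_cast; ring

lemma sup_eq_K : (⨆ i, Subgroup.zpowers (F.gen i ^ F.mu i)) = F.K := by
  apply le_antisymm
  · exact iSup_le fun i => zp_le_K F i
  · unfold Fam.K
    rw [Subgroup.closure_le]
    rintro _ ⟨i, rfl⟩
    exact Subgroup.mem_iSup_of_mem i (Subgroup.mem_zpowers _)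

/-- the induction principle in the group itself -/
def Ind' : Prop := ∀ (x : V) (Φ : Q → Prop), Φ 1 →
    (∀ k ∈ F.K, ∀ i, ∀ r ∈ Subgroup.zpowers (rel F i),
      (10 ^ 8 : ℝ) * L ≤ |F.c i x - F.c i (k • x)| → Φ (r * k) → Φ k) → ∀ k ∈ F.K, Φ k

lemma ind_of (h : F.Ind Q (MonoidHom.id Q) (fun i => Subgroup.zpowers (F.gen i ^ F.mu i))) :
    Ind' F := by
  intro x Φ h1 h2
  have := h x Φ h1
  rw [sup_eq_K] at this
  exact this h2

/-- predicates which survive translation by `K` and bending -/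
def Stb (P : V → V → Prop) : Prop :=
  (∀ k ∈ F.K, ∀ x y, P x y → P (k • x) (k • y)) ∧
  ∀ i, ∀ r ∈ Subgroup.zpowers (rel F i), ∀ x y,
    (25 * 10 ^ 6 : ℝ) * L ≤ |F.c i x - F.c i y| → P x y → P x (r • y)

lemma lift4 (hI : Ind' F) {P1 P2 P3 P4 : V → V → Prop} (s1 : Stb F P1) (s2 : Stb F P2)
    (s3 : Stb F P3) (s4 : Stb F P4) (p0 : V) : ∀ k ∈ F.K, ∀ p1 p2 p3 : V,
    P1 p0 p1 → P2 p1 p2 → P3 p2 p3 → P4 p3 (k • p0) →
    ∃ k1 ∈ F.K, ∃ k2 ∈ F.K, ∃ k3 ∈ F.K, P1 p0 (k1 • p1) ∧ P2 (k1 • p1) (k2 • p2) ∧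
      P3 (k2 • p2) (k3 • p3) ∧ P4 (k3 • p3) p0 := by
  refine hI p0 _ ?_ ?_
  · intro p1 p2 p3 h1 h2 h3 h4
    refine ⟨1, F.K.one_mem, 1, F.K.one_mem, 1, F.K.one_mem, ?_⟩
    simp only [one_smul] at h4 ⊢
    exact ⟨h1, h2, h3, h4⟩
  · intro k _ i r hr hbig ih p1 p2 p3 h1 h2 h3 h4
    have hrK : r ∈ F.K := zp_le_K F i hr
    have t1 := abs_sub_le (F.c i p0) (F.c i p1) (F.c i (k • p0))
    have t2 := abs_sub_le (F.c i p1) (F.c i p2) (F.c i (k • p0))
    have t3 := abs_sub_le (F.c i p2) (F.c i p3) (F.c i (k • p0))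
    by_cases c1 : (25 * 10 ^ 6 : ℝ) * L ≤ |F.c i p0 - F.c i p1|
    · obtain ⟨k1, a1, k2, a2, k3, a3, h⟩ := ih (r • p1) (r • p2) (r • p3)
        (s1.2 i r hr _ _ c1 h1) (s2.1 r hrK _ _ h2) (s3.1 r hrK _ _ h3)
        (by rw [mul_smul]; exact s4.1 r hrK _ _ h4)
      exact ⟨k1 * r, F.K.mul_mem a1 hrK, k2 * r, F.K.mul_mem a2 hrK, k3 * r, F.K.mul_mem a3 hrK,
        by simpa only [mul_smul] using h⟩
    by_cases c2 : (25 * 10 ^ 6 : ℝ) * L ≤ |F.c i p1 - F.c i p2|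
    · obtain ⟨k1, a1, k2, a2, k3, a3, h⟩ := ih p1 (r • p2) (r • p3)
        h1 (s2.2 i r hr _ _ c2 h2) (s3.1 r hrK _ _ h3)
        (by rw [mul_smul]; exact s4.1 r hrK _ _ h4)
      exact ⟨k1, a1, k2 * r, F.K.mul_mem a2 hrK, k3 * r, F.K.mul_mem a3 hrK,
        by simpa only [mul_smul] using h⟩
    by_cases c3 : (25 * 10 ^ 6 : ℝ) * L ≤ |F.c i p2 - F.c i p3|
    · obtain ⟨k1, a1, k2, a2, k3, a3, h⟩ := ih p1 p2 (r • p3)
        h1 h2 (s3.2 i r hr _ _ c3 h3)
        (by rw [mul_smul]; exact s4.1 r hrK _ _ h4)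
      exact ⟨k1, a1, k2, a2, k3 * r, F.K.mul_mem a3 hrK, by simpa only [mul_smul] using h⟩
    · have c4 : (25 * 10 ^ 6 : ℝ) * L ≤ |F.c i p3 - F.c i (k • p0)| := by
        push Not at c1 c2 c3
        linarith
      exact ih p1 p2 p3 h1 h2 h3 (by rw [mul_smul]; exact s4.2 i r hr _ _ c4 h4)

lemma inj' (hI : Ind' F) (k : Q) (p : V) (hk : k ∈ F.K)
    (h : ∀ i, |F.c i p - F.c i (k • p)| < (10 ^ 8 : ℝ) * L) : k = 1 := by
  revert h
  refine hI p (fun k => (∀ i, |F.c i p - F.c i (k • p)| < (10 ^ 8 : ℝ) * L) → k = 1) ?_ ?_ k hk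
  · intro _; rfl
  · intro k _ i r _ hbig _ h
    exact absurd (h i) (not_lt.2 hbig)

lemma kerstab' (hI : Ind' F) (hL : 1 ≤ L) (i : I) (y : V) (hy : y ∈ F.Y i) :
    ∀ k ∈ F.K, k • y ∈ F.Y i → k ∈ Subgroup.zpowers (rel F i) := by
  refine hI y _ ?_ ?_
  · intro _; exact Subgroup.one_mem _
  · intro k _ j r hr hbig ih hk
    have hL' : (1 : ℝ) ≤ L := by exact_mod_cast hL
    have hji : j = i := by
      by_contra hne
      have := F.sep j i hne y hy _ hk
      linarith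
    subst hji
    have h1 := ih (by rw [mul_smul]; exact Y_fix F (zp_fix F hr) hk)
    have := Subgroup.mul_mem _ (Subgroup.inv_mem _ hr) h1
    simpa using this

end Tquo
end Pool.Agent.H59Z.NA
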