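import Pool.Agent.H59Z.NA.Tquo1

set_option autoImplicit false

namespace Pool.Agent.H59Z.NA
namespace Tquo

variable {Q V I : Type} [Group Q] [MulAction Q V] [MulAction Q I] {X : GM V} {L : ℕ}
  (F : Fam Q V I X L) (E : GM V)

/-! ### the quotient metric -/

/-- the quotient distance, on representatives -/
noncomputable def db (p q : V) : ℕ := sInf {m : ℕ | ∃ k ∈ F.K, E.d p (k • q) = m}

lemma db_le (p q : V) {k : Q} (hk : k ∈ F.K) : db F E p q ≤ E.d p (k • q) :=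
  Nat.sInf_le ⟨k, hk, rfl⟩

lemma db_le' (p q : V) : db F E p q ≤ E.d p q := by
  simpa using db_le F E p q F.K.one_mem

lemma db_ex (p q : V) : ∃ k ∈ F.K, E.d p (k • q) = db F E p q :=
  Nat.sInf_mem (s := {m : ℕ | ∃ k ∈ F.K, E.d p (k • q) = m}) ⟨_, 1, F.K.one_mem, rfl⟩

variable {F E}

lemma db_smul (hE : F.IsEl E) (g : Q) (p q : V) : db F E (g • p) (g • q) = db F E p q := by
  have key : ∀ (g : Q) (p q : V), db F E (g • p) (g • q) ≤ db F E p q := by
    intro g p q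
    obtain ⟨k, hk, e⟩ := db_ex F E p q
    have h1 := db_le F E (g • p) (g • q) ((inferInstance : F.K.Normal).conj_mem k hk g)
    have e2 : (g * k * g⁻¹) • g • q = g • k • q := by simp [mul_smul]
    rw [e2, hE.inv] at h1
    omega
  apply le_antisymm (key g p q)
  have := key g⁻¹ (g • p) (g • q)
  simpa using this

lemma db_right (p q : V) {k : Q} (hk : k ∈ F.K) : db F E p (k • q) = db F E p q := by
  have key : ∀ (k : Q), k ∈ F.K → ∀ q : V, db F E p q ≤ db F E p (k • q) := by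
    intro k hk q
    obtain ⟨k', hk', e⟩ := db_ex F E p (k • q)
    have h1 := db_le F E p q (F.K.mul_mem hk' hk)
    rw [mul_smul] at h1
    omega
  apply le_antisymm _ (key k hk q)
  have := key k⁻¹ (F.K.inv_mem hk) (k • q)
  simpa using this

lemma db_left (hE : F.IsEl E) (p q : V) {k : Q} (hk : k ∈ F.K) :
    db F E (k • p) q = db F E p q := by
  have h1 := db_smul hE k p (k⁻¹ • q)
  rw [smul_inv_smul, db_right p q (F.K.inv_mem hk)] at h1
  exact h1

lemma db_le2 (hE : F.IsEl E) (p q : V) {k k' : Q} (hk : k ∈ F.K) (hk' : k' ∈ F.K) :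
    db F E p q ≤ E.d (k • p) (k' • q) := by
  rw [← db_left hE p q hk]; exact db_le F E _ _ hk'

lemma db_comm (hE : F.IsEl E) (p q : V) : db F E p q = db F E q p := by
  have key : ∀ p q : V, db F E q p ≤ db F E p q := by
    intro p q
    obtain ⟨k, hk, e⟩ := db_ex F E p q
    have h1 := db_le2 hE q p hk F.K.one_mem
    rw [one_smul, E.comm] at h1
    omega
  exact le_antisymm (key q p) (key p q)

lemma db_tri (hE : F.IsEl E) (p q r : V) : db F E p r ≤ db F E p q + db F E q r := by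
  obtain ⟨k, hk, e⟩ := db_ex F E p q
  obtain ⟨k', hk', e'⟩ := db_ex F E (k • q) r
  have h1 := db_le F E p r hk'
  have h2 := E.tri p (k • q) (k' • r)
  rw [db_left hE q r hk] at e'
  omega

/-- the quotient distance -/
noncomputable def dq (hE : F.IsEl E) (u w : OQ F.K V) : ℕ :=
  Quotient.liftOn₂' (s₁ := st F.K V) (s₂ := st F.K V) u w (db F E) (by
    rintro a b a' b' ⟨k, hk, rfl⟩ ⟨k', hk', rfl⟩
    rw [db_left hE _ _ hk, db_right _ _ hk'])

lemma dq_mk (hE : F.IsEl E) (p q : V) : dq hE (omk F.K p) (omk F.K q) = db F E p q := rfl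

/-- the quotient metric -/
noncomputable def ZQ (hE : F.IsEl E) : GM (OQ F.K V) where
  d := dq hE
  self u := by
    obtain ⟨p, rfl⟩ := omk_surj F.K u
    have := db_le' F E p p
    rw [E.self] at this
    rw [dq_mk]; omega
  comm u w := by
    obtain ⟨p, rfl⟩ := omk_surj F.K u
    obtain ⟨q, rfl⟩ := omk_surj F.K w
    exact db_comm hE p q
  tri u w z := by
    obtain ⟨p, rfl⟩ := omk_surj F.K u
    obtain ⟨q, rfl⟩ := omk_surj F.K w
    obtain ⟨r, rfl⟩ := omk_surj F.K z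
    exact db_tri hE p q r
  geo u w t ht := by
    obtain ⟨p, rfl⟩ := omk_surj F.K u
    obtain ⟨q, rfl⟩ := omk_surj F.K w
    rw [dq_mk] at ht
    obtain ⟨k, hk, e⟩ := db_ex F E p q
    obtain ⟨z, hz1, hz2⟩ := E.geo p (k • q) t (by omega)
    refine ⟨omk F.K z, ?_⟩
    rw [dq_mk, dq_mk, dq_mk]
    have h1 := db_le' F E p z
    have h2 := db_le F E z q hk
    have h3 := db_tri hE p z q
    omega

lemma ZQ_mk (hE : F.IsEl E) (p q : V) : (ZQ hE).d (omk F.K p) (omk F.K q) = db F E p q := rfl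

/-! ### stable predicates -/

lemma bend_le (hE : F.IsEl E) {i : I} {r : Q} (hr : r • i = i) {x y : V}
    (h : (100 : ℝ) * L < |F.c i x - F.c i y|) : E.d x (r • y) ≤ E.d x y := by
  obtain ⟨a, ha, b, hb, hab⟩ := hE.bgi i x y h
  have h1 := hE.clique i a ha _ (Y_fix F hr hb)
  have h2 := E.tri x a (r • y)
  have h3 := E.tri a (r • b) (r • y)
  have h4 := hE.inv r b y
  omega

lemma stb_le (hE : F.IsEl E) (hL : 1 ≤ L) (D : ℕ) : Stb F (fun x y => E.d x y ≤ D) := by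
  refine ⟨fun k _ x y h => (hE.inv k x y).trans_le h, fun i r hr x y hb h => ?_⟩
  have hL' : (1 : ℝ) ≤ L := by exact_mod_cast hL
  exact le_trans (bend_le hE (zp_fix F hr) (by linarith)) h

lemma stb_Y (hL : 1 ≤ L) (j : I) :
    Stb F (fun x y => ∃ k ∈ F.K, x ∈ F.Y (k • j) ∧ y ∈ F.Y (k • j)) := by
  have hL' : (1 : ℝ) ≤ L := by exact_mod_cast hL
  constructor
  · rintro k hk x y ⟨k', hk', hx, hy⟩
    refine ⟨k * k', F.K.mul_mem hk hk', ?_, ?_⟩ <;> rw [mul_smul, F.Y_smul] <;> assumption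
  · rintro i r hr x y hb ⟨k', hk', hx, hy⟩
    have hi : i = k' • j := by
      by_contra hne
      have := F.sep i _ hne x hx y hy
      linarith
    subst hi
    exact ⟨k', hk', hx, Y_fix F (zp_fix F hr) hy⟩

lemma stb_M (hL : 1 ≤ L) (j : I) (t : ℝ) :
    Stb F (fun x y => ∃ k ∈ F.K, x ∈ F.Y (k • j) ∧ y ∈ F.Y (k • j) ∧
      cd (per F j) (F.c (k • j) x - F.c (k • j) y) = t) := by
  have hL' : (1 : ℝ) ≤ L := by exact_mod_cast hL
  constructor
  · rintro k hk x y ⟨k', hk', hx, hy, ht⟩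
    refine ⟨k * k', F.K.mul_mem hk hk', ?_, ?_, ?_⟩
    · rw [mul_smul, F.Y_smul]; exact hx
    · rw [mul_smul, F.Y_smul]; exact hy
    · rw [mul_smul, F.c_smul]; exact ht
  · rintro i r hr x y hb ⟨k', hk', hx, hy, ht⟩
    have hi : i = k' • j := by
      by_contra hne
      have := F.sep i _ hne x hx y hy
      linarith
    subst hi
    refine ⟨k', hk', hx, Y_fix F (zp_fix F hr) hy, ?_⟩
    obtain ⟨e, rfl⟩ := Subgroup.mem_zpowers_iff.1 hr
    rw [c_rel, per_smul, ← ht]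
    have e1 : F.c (k' • j) x - (F.c (k' • j) y + e * per F j) =
        (F.c (k' • j) x - F.c (k' • j) y) + ((-e : ℤ) : ℝ) * per F j := by push_cast; ring
    rw [e1, cd_per]

lemma ZQ_slim (hE : F.IsEl E) (hL : 1 ≤ L) (hI : Ind' F) : (ZQ hE).Slim 60 := by
  intro u1 u2 u3 u4 h
  obtain ⟨x, rfl⟩ := omk_surj F.K u1
  obtain ⟨y, rfl⟩ := omk_surj F.K u2
  obtain ⟨w, rfl⟩ := omk_surj F.K u3
  obtain ⟨z, rfl⟩ := omk_surj F.K u4
  simp only [ZQ_mk] at h ⊢
  obtain ⟨a, ha, ea⟩ := db_ex F E x z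
  obtain ⟨b, hb, eb⟩ := db_ex F E (a • z) y
  obtain ⟨c, hc, ec⟩ := db_ex F E (b • y) w
  obtain ⟨k, hk, ek⟩ := db_ex F E (c • w) x
  rw [db_left hE _ _ ha] at eb
  rw [db_left hE _ _ hb] at ec
  rw [db_left hE _ _ hc] at ek
  obtain ⟨k1, a1, k2, a2, k3, a3, h1, h2, h3, h4⟩ := lift4 F hI (stb_le hE hL (db F E x z))
    (stb_le hE hL (db F E z y)) (stb_le hE hL (db F E y w)) (stb_le hE hL (db F E w x)) x k hk
    (a • z) (b • y) (c • w) ea.le eb.le ec.le ek.le
  rw [← mul_smul] at h1 h2 h3 h4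
  rw [← mul_smul] at h2 h3
  have m1 := F.K.mul_mem a1 ha
  have m2 := F.K.mul_mem a2 hb
  have m3 := F.K.mul_mem a3 hc
  have g1 := db_le F E x y m2
  have g2 := E.tri x ((k1 * a) • z) ((k2 * b) • y)
  have g3 := db_le F E x z m1
  have g4 := db_le2 hE z y m1 m2
  have g5 := db_le2 hE z w m1 m3
  have g6 := db_comm hE w x
  have g7 := db_comm hE y z
  have g8 := E.comm ((k3 * c) • w) x
  have g9 := E.comm ((k2 * b) • y) ((k1 * a) • z)
  rcases hE.slim x ((k2 * b) • y) ((k3 * c) • w) ((k1 * a) • z) (by omega) with h5 | h5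
  · left; omega
  · right; omega

/-! ### distance to the lines -/

lemma eta_le (S : Set V) (p : V) {a : V} (ha : a ∈ S) : E.eta S p ≤ E.d p a :=
  Nat.sInf_le ⟨a, ha, rfl⟩

lemma eta_ex {S : Set V} (hS : S.Nonempty) (p : V) : ∃ a ∈ S, E.d p a = E.eta S p := by
  obtain ⟨a, ha⟩ := hS
  exact Nat.sInf_mem (s := {m : ℕ | ∃ a ∈ S, E.d p a = m}) ⟨_, a, ha, rfl⟩

lemma eta_smul (hE : F.IsEl E) (g : Q) (i : I) (p : V) :
    E.eta (F.Y (g • i)) (g • p) = E.eta (F.Y i) p := by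
  have key : ∀ (g : Q) (i : I) (p : V), E.eta (F.Y (g • i)) (g • p) ≤ E.eta (F.Y i) p := by
    intro g i p
    obtain ⟨a, ha, e⟩ := eta_ex (E := E) (F.Y_ne i) p
    have := eta_le (E := E) (F.Y (g • i)) (g • p) ((F.Y_smul g i a).2 ha)
    rw [hE.inv] at this
    omega
  apply le_antisymm (key g i p)
  have := key g⁻¹ (g • i) (g • p)
  simpa using this

lemma near_ang (hE : F.IsEl E) {i : I} {p a : V} (h : E.d p a ≤ E.eta (F.Y i) p) :
    |F.c i p - F.c i a| ≤ 100 * L := by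
  by_contra hc
  obtain ⟨a', ha', b', _, hab⟩ := hE.bgi i p a (not_le.1 hc)
  have := eta_le (E := E) (F.Y i) p ha'
  omega

/-- lifts which are closest to a line -/
def MinL (F : Fam Q V I X L) (E : GM V) (i : I) (p : V) : Prop :=
  ∀ k ∈ F.K, E.eta (F.Y i) p ≤ E.eta (F.Y i) (k • p)

lemma minL_ex (i : I) (p : V) : ∃ k ∈ F.K, MinL F E i (k • p) := by
  have hne : {m : ℕ | ∃ k ∈ F.K, E.eta (F.Y i) (k • p) = m}.Nonempty :=
    ⟨_, 1, F.K.one_mem, rfl⟩
  obtain ⟨k, hk, e⟩ := Nat.sInf_mem hne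
  refine ⟨k, hk, fun k' hk' => ?_⟩
  rw [e, ← mul_smul]
  exact Nat.sInf_le ⟨k' * k, F.K.mul_mem hk' hk, rfl⟩

lemma minL_smul (hE : F.IsEl E) (g : Q) {i : I} {p : V} (h : MinL F E i p) :
    MinL F E (g • i) (g • p) := by
  intro k hk
  have e : k • g • p = g • (g⁻¹ * k * g⁻¹⁻¹) • p := by simp [mul_smul]
  rw [e, eta_smul hE, eta_smul hE]
  exact h _ ((inferInstance : F.K.Normal).conj_mem k hk g⁻¹)

/-- closing a polygon through a line -/
lemma close_line (hE : F.IsEl E) (hL : 1 ≤ L) (hI : Ind' F) {P : V → V → Prop} (sP : Stb F P)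
    {i : I} {p q : V} (hp : MinL F E i p) (hq : MinL F E i q) {k : Q} (hk : k ∈ F.K)
    (h : P p (k • q)) : ∃ k3 ∈ F.K, ∃ k' ∈ F.K, P (k3 • p) q ∧
      cd (per F i) (F.c i p - F.c i q) ≤ |F.c (k' • i) (k3 • p) - F.c (k' • i) q| + 400 * L := by
  obtain ⟨a, ha, ea⟩ := eta_ex (E := E) (F.Y_ne i) p
  obtain ⟨b, hb, eb⟩ := eta_ex (E := E) (F.Y_ne i) q
  obtain ⟨k1, a1, k2, a2, k3, a3, h1, ⟨k', hk', hb', ha', ht⟩, h3, h4⟩ := lift4 F hI
    (stb_le hE hL (E.eta (F.Y i) q)) (stb_M hL i (cd (per F i) (F.c i b - F.c i a)))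
    (stb_le hE hL (E.eta (F.Y i) p)) sP q k hk b a p eb.le
    ⟨1, F.K.one_mem, by simpa using hb, by simpa using ha, by simp⟩
    (by rw [E.comm]; exact ea.le) h
  refine ⟨k3, a3, k', hk', h4, ?_⟩
  have n1 : |F.c i p - F.c i a| ≤ 100 * L := near_ang hE ea.le
  have n2 : |F.c i q - F.c i b| ≤ 100 * L := near_ang hE eb.le
  have n3 : |F.c (k' • i) q - F.c (k' • i) (k1 • b)| ≤ 100 * L := by
    apply near_ang hE
    have e1 := eta_smul hE k' i (k'⁻¹ • q)
    rw [smul_inv_smul] at e1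
    have := hq k'⁻¹ (F.K.inv_mem hk')
    omega
  have n4 : |F.c (k' • i) (k3 • p) - F.c (k' • i) (k2 • a)| ≤ 100 * L := by
    apply near_ang hE
    have e1 := eta_smul hE k' i ((k'⁻¹ * k3) • p)
    rw [← mul_smul, mul_inv_cancel_left] at e1
    have := hp (k'⁻¹ * k3) (F.K.mul_mem (F.K.inv_mem hk') a3)
    have := E.comm (k2 • a) (k3 • p)
    omega
  have s1 := cd_sub_le (per F i) (F.c i p - F.c i q) (F.c i a - F.c i b)
  have s2 : cd (per F i) (F.c i a - F.c i b) = cd (per F i) (F.c i b - F.c i a) := by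
    rw [← cd_neg]; congr 1; ring
  have s3 := cd_le_abs (per F i) (F.c (k' • i) (k1 • b) - F.c (k' • i) (k2 • a))
  rw [abs_le] at n1 n2 n3 n4
  have s4 : |F.c i p - F.c i q - (F.c i a - F.c i b)| ≤ 200 * L := by
    rw [abs_le]; constructor <;> linarith [n1.1, n1.2, n2.1, n2.2]
  have s5 : |F.c (k' • i) (k1 • b) - F.c (k' • i) (k2 • a)| ≤
      |F.c (k' • i) (k3 • p) - F.c (k' • i) q| + 200 * L := by
    have u1 := le_abs_self (F.c (k' • i) (k3 • p) - F.c (k' • i) q)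
    have u2 := neg_abs_le (F.c (k' • i) (k3 • p) - F.c (k' • i) q)
    rw [abs_le]; constructor <;> linarith [n3.1, n3.2, n4.1, n4.2]
  linarith

end Tquo
end Pool.Agent.H59Z.NA
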