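import Pool.Agent.H59Z.NA.Tquo2

set_option autoImplicit false

namespace Pool.Agent.H59Z.NA
namespace Tquo

variable {Q V I : Type} [Group Q] [MulAction Q V] [MulAction Q I] {X : GM V} {L : ℕ}
  {F : Fam Q V I X L} {E : GM V}

lemma per_big (F : Fam Q V I X L) (i : I) : (10 ^ 9 : ℝ) * L ≤ per F i := F.big i

lemma per_pos (hL : 1 ≤ L) (i : I) : 0 < per F i := by
  have hL' : (1 : ℝ) ≤ L := by exact_mod_cast hL
  have := per_big F i
  linarith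

/-- the values whose supremum is the angle -/
def angSet (F : Fam Q V I X L) (E : GM V) (l : OQ F.K I) (u w : OQ F.K V) : Set ℝ :=
  {t | ∃ (i : I) (p q : V), omk F.K i = l ∧ omk F.K p = u ∧ omk F.K q = w ∧ MinL F E i p ∧
    MinL F E i q ∧ t = cd (per F i) (F.c i p - F.c i q)}

/-- the angle in the quotient -/
noncomputable def angq (F : Fam Q V I X L) (E : GM V) (l : OQ F.K I) (u w : OQ F.K V) : ℝ :=
  sSup (angSet F E l u w)

lemma minL_ex' (i : I) (u : OQ F.K V) : ∃ p, omk F.K p = u ∧ MinL F E i p := by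
  obtain ⟨p, rfl⟩ := omk_surj F.K u
  obtain ⟨k, hk, h⟩ := minL_ex (F := F) (E := E) i p
  exact ⟨k • p, omk_smul F.K hk p, h⟩

lemma angSet_ne (l : OQ F.K I) (u w : OQ F.K V) : (angSet F E l u w).Nonempty := by
  obtain ⟨i, rfl⟩ := omk_surj F.K l
  obtain ⟨p, hp, mp⟩ := minL_ex' (E := E) i u
  obtain ⟨q, hq, mq⟩ := minL_ex' (E := E) i w
  exact ⟨_, i, p, q, rfl, hp, hq, mp, mq, rfl⟩

lemma angSet_bdd (hL : 1 ≤ L) (l : OQ F.K I) (u w : OQ F.K V) : BddAbove (angSet F E l u w) := by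
  obtain ⟨i, rfl⟩ := omk_surj F.K l
  refine ⟨per F i / 2, ?_⟩
  rintro t ⟨j, p, q, hj, -, -, -, -, rfl⟩
  obtain ⟨k, -, rfl⟩ := (omk_eq F.K).1 hj
  rw [per_smul]
  exact cd_bdd _ _ (per_pos hL j)

lemma le_angq (hL : 1 ≤ L) {i : I} {p q : V} (hp : MinL F E i p) (hq : MinL F E i q) :
    cd (per F i) (F.c i p - F.c i q) ≤ angq F E (omk F.K i) (omk F.K p) (omk F.K q) :=
  le_csSup (angSet_bdd hL _ _ _) ⟨i, p, q, rfl, rfl, rfl, hp, hq, rfl⟩

lemma angq_le {l : OQ F.K I} {u w : OQ F.K V} {b : ℝ}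
    (h : ∀ (i : I) (p q : V), omk F.K i = l → omk F.K p = u → omk F.K q = w → MinL F E i p →
      MinL F E i q → cd (per F i) (F.c i p - F.c i q) ≤ b) : angq F E l u w ≤ b := by
  apply csSup_le (angSet_ne l u w)
  rintro t ⟨i, p, q, h1, h2, h3, h4, h5, rfl⟩
  exact h i p q h1 h2 h3 h4 h5

lemma angq_comm (hL : 1 ≤ L) (l : OQ F.K I) (u w : OQ F.K V) :
    angq F E l u w = angq F E l w u := by
  have key : ∀ u w : OQ F.K V, angq F E l u w ≤ angq F E l w u := by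
    intro u w
    apply angq_le
    rintro i p q rfl rfl rfl hp hq
    have := le_angq hL hq hp
    rw [← cd_neg] at this
    have e : -(F.c i q - F.c i p) = F.c i p - F.c i q := by ring
    rwa [e] at this
  exact le_antisymm (key u w) (key w u)

lemma angq_tri (hL : 1 ≤ L) (l : OQ F.K I) (u w z : OQ F.K V) :
    angq F E l u z ≤ angq F E l u w + angq F E l w z := by
  apply angq_le
  rintro i p q rfl rfl rfl hp hq
  obtain ⟨r, rfl, hr⟩ := minL_ex' (E := E) i w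
  have h1 := le_angq hL hp hr
  have h2 := le_angq hL hr hq
  have h3 := cd_add (per F i) (F.c i p - F.c i r) (F.c i r - F.c i q)
  have e : F.c i p - F.c i r + (F.c i r - F.c i q) = F.c i p - F.c i q := by ring
  rw [e] at h3
  linarith

lemma angq_smul (hE : F.IsEl E) (hL : 1 ≤ L) (g : Q) (l : OQ F.K I) (u w : OQ F.K V) :
    angq F E (g • l) (g • u) (g • w) = angq F E l u w := by
  have key : ∀ (g : Q) (l : OQ F.K I) (u w : OQ F.K V),
      angq F E l u w ≤ angq F E (g • l) (g • u) (g • w) := by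
    intro g l u w
    apply angq_le
    rintro i p q rfl rfl rfl hp hq
    have := le_angq hL (minL_smul hE g hp) (minL_smul hE g hq)
    rw [F.c_smul, per_smul] at this
    exact this
  apply le_antisymm _ (key g l u w)
  have := key g⁻¹ (g • l) (g • u) (g • w)
  simpa using this

/-- the lines of the quotient -/
def Yq (F : Fam Q V I X L) (l : OQ F.K I) : Set (OQ F.K V) :=
  {u | ∃ (i : I) (p : V), omk F.K i = l ∧ omk F.K p = u ∧ p ∈ F.Y i}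

lemma Yq_ne (l : OQ F.K I) : (Yq F l).Nonempty := by
  obtain ⟨i, rfl⟩ := omk_surj F.K l
  obtain ⟨p, hp⟩ := F.Y_ne i
  exact ⟨_, i, p, rfl, rfl, hp⟩

lemma Yq_smul' (g : Q) (l : OQ F.K I) (u : OQ F.K V) (h : u ∈ Yq F l) : g • u ∈ Yq F (g • l) := by
  obtain ⟨i, p, rfl, rfl, hp⟩ := h
  exact ⟨g • i, g • p, rfl, rfl, (F.Y_smul g i p).2 hp⟩

lemma Yq_smul (g : Q) (l : OQ F.K I) (u : OQ F.K V) : g • u ∈ Yq F (g • l) ↔ u ∈ Yq F l := by
  refine ⟨fun h => ?_, Yq_smul' g l u⟩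
  have := Yq_smul' g⁻¹ _ _ h
  simpa using this

lemma Yq_lift {i : I} {u : OQ F.K V} (h : u ∈ Yq F (omk F.K i)) :
    ∃ p, omk F.K p = u ∧ p ∈ F.Y i := by
  obtain ⟨j, p, hj, rfl, hp⟩ := h
  obtain ⟨k, hk, rfl⟩ := (omk_eq F.K).1 hj
  exact ⟨k • p, omk_smul F.K hk p, (F.Y_smul k j p).2 hp⟩

lemma Yq_clique (hE : F.IsEl E) (l : OQ F.K I) (u : OQ F.K V) (hu : u ∈ Yq F l) (w : OQ F.K V)
    (hw : w ∈ Yq F l) : (ZQ hE).d u w ≤ 1 := by
  obtain ⟨i, rfl⟩ := omk_surj F.K l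
  obtain ⟨p, rfl, hp⟩ := Yq_lift hu
  obtain ⟨q, rfl, hq⟩ := Yq_lift hw
  rw [ZQ_mk]
  exact (db_le' F E p q).trans (hE.clique i p hp q hq)

lemma angq_bgi (hE : F.IsEl E) (hL : 1 ≤ L) (hI : Ind' F) (l : OQ F.K I) (u w : OQ F.K V)
    (h : (600 : ℝ) * L < angq F E l u w) : ∃ a ∈ Yq F l, ∃ b ∈ Yq F l,
      (ZQ hE).d u a + 1 + (ZQ hE).d b w ≤ (ZQ hE).d u w := by
  have hL' : (1 : ℝ) ≤ L := by exact_mod_cast hL
  obtain ⟨t, ⟨i, p, q, rfl, rfl, rfl, hp, hq, rfl⟩, ht⟩ :=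
    exists_lt_of_lt_csSup (angSet_ne l u w) h
  obtain ⟨k, hk, ek⟩ := db_ex F E p q
  obtain ⟨k3, a3, k', a', h1, h2⟩ :=
    close_line hE hL hI (stb_le hE hL (db F E p q)) hp hq hk ek.le
  obtain ⟨a, ha, b, hb, hab⟩ := hE.bgi (k' • i) (k3 • p) q (by linarith)
  refine ⟨omk F.K a, ⟨k' • i, a, omk_smul F.K a' i, rfl, ha⟩,
    omk F.K b, ⟨k' • i, b, omk_smul F.K a' i, rfl, hb⟩, ?_⟩
  simp only [ZQ_mk]
  have g1 := db_le2 hE p a a3 F.K.one_mem
  rw [one_smul] at g1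
  have g2 := db_le' F E b q
  have h1' : E.d (k3 • p) q ≤ db F E p q := h1
  omega

lemma angq_sep (hE : F.IsEl E) (hL : 1 ≤ L) (hI : Ind' F) (l m : OQ F.K I) (hne : l ≠ m)
    (u : OQ F.K V) (hu : u ∈ Yq F m) (w : OQ F.K V) (hw : w ∈ Yq F m) :
    angq F E l u w ≤ 600 * L := by
  have hL' : (1 : ℝ) ≤ L := by exact_mod_cast hL
  apply angq_le
  rintro i p q rfl rfl rfl hp hq
  obtain ⟨j, rfl⟩ := omk_surj F.K m
  obtain ⟨p', e1, hp'⟩ := Yq_lift hu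
  obtain ⟨q', e2, hq'⟩ := Yq_lift hw
  obtain ⟨k1, hk1, rfl⟩ := (omk_eq F.K).1 e1
  obtain ⟨k2, hk2, rfl⟩ := (omk_eq F.K).1 e2
  obtain ⟨k3, a3, k', a', ⟨k4, a4, y1, y2⟩, h2⟩ :=
    close_line hE hL hI (stb_Y hL j) hp hq (F.K.mul_mem hk1 (F.K.inv_mem hk2))
      ⟨k1, hk1, (F.Y_smul k1 j p').2 hp', by
        rw [mul_smul, inv_smul_smul]; exact (F.Y_smul k1 j q').2 hq'⟩
  have hne' : k' • i ≠ k4 • j := by
    intro e
    apply hne
    rw [← omk_smul F.K a' i, e, omk_smul F.K a4 j]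
  have := F.sep _ _ hne' _ y1 _ y2
  linarith

lemma stab_iff (i : I) (g : Q) : g • omk F.K i = omk F.K i ↔
    QuotientGroup.mk' F.K g ∈ Subgroup.zpowers (QuotientGroup.mk' F.K (F.gen i)) := by
  constructor
  · intro h
    obtain ⟨k, hk, e⟩ := (omk_eq F.K).1 h
    rw [← mul_smul] at e
    obtain ⟨z, hz⟩ := Subgroup.mem_zpowers_iff.1 ((F.stab _ _).1 e.symm)
    refine Subgroup.mem_zpowers_iff.2 ⟨z, ?_⟩
    rw [← map_zpow, hz, map_mul]
    have : QuotientGroup.mk' F.K k = 1 := (QuotientGroup.eq_one_iff k).2 hk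
    rw [this, one_mul]
  · intro h
    obtain ⟨z, hz⟩ := Subgroup.mem_zpowers_iff.1 h
    rw [← map_zpow] at hz
    have h1 : (F.gen i ^ z)⁻¹ * g ∈ F.K := QuotientGroup.eq.1 hz
    have h2 : g * (F.gen i ^ z)⁻¹ ∈ F.K := (inferInstance : F.K.Normal).mem_comm h1
    have h3 : (F.gen i ^ z) • i = i := (F.stab _ _).2 (Subgroup.mem_zpowers_iff.2 ⟨z, rfl⟩)
    have h4 : g • i = (g * (F.gen i ^ z)⁻¹) • i := by
      conv_lhs => rw [show g = (g * (F.gen i ^ z)⁻¹) * F.gen i ^ z by group, mul_smul, h3]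
    rw [actQ_mk, h4, omk_smul F.K h2]

lemma angq_rot (hE : F.IsEl E) (hL : 1 ≤ L) (g : Q) (l : OQ F.K I) (h : g • l = l)
    (hg : QuotientGroup.mk' F.K g ≠ 1) :
    ∃ j : ℕ, ∀ u, (10 ^ 8 : ℝ) * L ≤ angq F E l u (g ^ j • u) := by
  obtain ⟨i, rfl⟩ := omk_surj F.K l
  obtain ⟨e, he⟩ := Subgroup.mem_zpowers_iff.1 ((stab_iff i g).1 h)
  have hne : cd (per F i) (e * F.tr i) ≠ 0 := by
    intro h0
    obtain ⟨m, hm⟩ := cd_ex (per F i) (e * F.tr i)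
    rw [h0] at hm
    have h1 : (e : ℝ) * F.tr i - m * per F i = 0 := abs_eq_zero.1 hm.symm
    unfold per at h1
    have h2 : ((e : ℝ) - F.mu i * m) * F.tr i = 0 := by linarith
    have h3 : (e : ℝ) - F.mu i * m = 0 := (mul_eq_zero.1 h2).resolve_right (F.tr_pos i).ne'
    have h4 : e = (F.mu i : ℤ) * m := by
      have : (e : ℝ) = ((F.mu i : ℤ) * m : ℤ) := by push_cast; linarith
      exact_mod_cast this
    apply hg
    rw [← he, ← map_zpow, h4, zpow_mul, zpow_natCast]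
    exact (QuotientGroup.eq_one_iff _).2 (F.K.zpow_mem (rel_mem_K F i) m)
  obtain ⟨j, hj⟩ := cd_double _ _ (per_pos hL i) hne
  refine ⟨j, fun u => ?_⟩
  obtain ⟨p, rfl, hp⟩ := minL_ex' (E := E) i u
  have hfix : (F.gen i ^ (e * j : ℤ)) • i = i :=
    (F.stab _ _).2 (Subgroup.mem_zpowers_iff.2 ⟨_, rfl⟩)
  have hq := minL_smul hE (F.gen i ^ (e * j : ℤ)) hp
  rw [hfix] at hq
  have h1 := le_angq hL hp hq
  have e1 : omk F.K (F.gen i ^ (e * j : ℤ) • p) = g ^ j • omk F.K p := by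
    rw [actQ_mk]
    have h2 : QuotientGroup.mk' F.K (F.gen i ^ (e * j : ℤ)) = QuotientGroup.mk' F.K (g ^ j) := by
      rw [map_zpow, zpow_mul, he, zpow_natCast, map_pow]
    have h3 : (F.gen i ^ (e * j : ℤ))⁻¹ * g ^ j ∈ F.K := QuotientGroup.eq.1 h2
    have h4 : g ^ j * (F.gen i ^ (e * j : ℤ))⁻¹ ∈ F.K := (inferInstance : F.K.Normal).mem_comm h3
    refine (omk_eq F.K).2 ⟨_, h4, ?_⟩
    rw [mul_smul, inv_smul_smul]
  rw [e1, c_zpow] at h1
  have e2 : F.c i p - (F.c i p + ((e * j : ℤ) : ℝ) * F.tr i) = -(j * (e * F.tr i)) := by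
    push_cast; ring
  rw [e2, cd_neg] at h1
  have := per_big F i
  have hL' : (1 : ℝ) ≤ L := by exact_mod_cast hL
  linarith

end Tquo
end Pool.Agent.H59Z.NA
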